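import Pool.Agent.H56.ASM.Sk5

/-!
# No boxes in dimension two

In dimension two the only coordinate of the base has slope one, so there are no ties.
`lBs_two`: no boxes, from the exactness on the boxes without ties.
-/

set_option autoImplicit false

namespace Pool.ASM

open MeasureTheory Set Filter Topology
open Pool.Agent.H49.Ent Pool.Agent.H32.Dense Pool.STK Pool.KA Pool.KSAT Pool.K2S Pool.PB
open Pool.GEN Pool.S6C Pool.GRW Pool.PKG Pool.STAT Pool.PM Pool.R1 Pool.Z4
open Pool.ONE (LocE Ext0 Ext)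
open Pool.TOP (TopS)
open Pool.LEV (Law Lv)
open Pool.STR (TopW Mac StaAt IsoAt StaU1 ThinAt SteepAt)
open Pool.SW (ExV)

/-- **No boxes in a class of dimension two.** -/
theorem noBS_two {hn : 2 ≤ 2} {S : PCl 2} {P : ℝ → ℝ → ℝ} {r : ℝ → ℝ}
    {P' : ℕ → List (Fin 2) × Fin 2 → ℝ → ℝ → ℝ} {Λ : Finset (Fin 2) → Fin 2 → ℝ → ℝ → ℝ}
    {PB : ℕ → List (Fin 2) × Fin 2 → ℝ → ℝ → ℝ} (H : PkT hn S P r P' Λ PB) (hTop : TopS 2)
    (hF : FZX (2 - 1)) {h : ℝ} (hh : 0 < h) (hh1 : h ≤ 1) (hE : ExV hn hTop hF) :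
    ∃ p : ((H.nk hTop hF).chg (H.rle h) H.up).Par, p.cell.NoJS ∨ p.cell.NoBS := by
  have hW : ∀ o : Od 2, ∀ᵐ g : ℝ, ((H.nk hTop hF).chg (H.rle h) H.up).RwD o g →
      (slN hn P P' o (2 - 1) g ≤ 1 ∨ Sml fun r d => Box7 g r fun a w =>
        P a a ≤ PT hn PB o a w + d) ∨
      ∀ l < 2 - 1, slN hn P P' o l g ≠ slN hn P P' o (2 - 1) g := fun o => by
    filter_upwards [one_zero H hTop hF o] with g h1 R
    by_cases h2 : slN hn P P' o (2 - 1) g ≤ 1
    · exact Or.inl (Or.inl h2)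
    · refine Or.inr fun l hl h3 => h2 ?_
      have h4 : l = 0 := by omega
      subst h4
      rw [← h3, slN_dg H hTop hF o (by omega) g]
      have h5 := h1 R.mem
      have e0 : LvL hn P P' o 0 = LL hn P P' o 1 := Pool.Z4.lvL_eq o (by omega)
      have e1 : (H.nk hTop hF).dg o 0 = fun a => LL hn P P' o (0 + 1) a a := by
        funext a
        exact H.dg_eq hTop hF o (by omega) a
      rw [e1]
      rw [e0] at h5
      exact h5.le
  obtain ⟨p, hp⟩ := noBS_V (H := H) (hTop := hTop) (hF := hF) (hρ := H.rle h) Pool.VAS.micV hh hh1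
    (rt_def H.rate.lip H.rate.mono h) hW (hE S P r P' Λ PB H h hh hh1 _ (H.rle h))
  exact ⟨p, Or.inr hp⟩

/-- **No boxes in dimension two**, from the exactness on the boxes without ties. -/
theorem lBs_two (hE : LExV 2) : LBs 2 := fun hi => by
  refine (Tol.le (1 / 2) (by norm_num)).mono fun η h => ?_
  intro hn hZ hF hTop D hD hD1 hE' S P r P' Λ PB H
  have e1 := h D hD
  have h1 : 0 < (1 - η D) * D := mul_pos (by linarith) hD
  have h2 : (1 - η D) * D ≤ 1 := by nlinarith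
  exact noBS_two H hTop hF h1 h2 (hE hi hn hZ hF hTop)

end Pool.ASM
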