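import Pool.Agent.H56.ASM.Sk6
import Pool.Agent.H56.ASM.Bs2
import Pool.Agent.H78.MIC.BsC

/-!
# The parts of `KP 4`, seventh form

`LBs n` is reduced to the exactness on the boxes without ties (`LExV n`), the coordinates of the base
at the ties (`LBaseT n`, the cells `LCellT`), the exactness and the closed lower bound at the ties
(`LExT n`), and kinds of windows without boxes for the ties which are not covered by P4 and P5
(`LLeft n`). `kp4_of7`: `KP 4` from its parts.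
-/

set_option autoImplicit false

namespace Pool.ASM

open MeasureTheory Set Filter Topology
open Pool.Agent.H49.Ent Pool.Agent.H32.Dense Pool.STK Pool.KA Pool.KSAT Pool.K2S Pool.PB
open Pool.GEN Pool.S6C Pool.GRW Pool.PKG Pool.STAT Pool.PM Pool.R1 Pool.Z4
open Pool.ONE (LocE Ext0 Ext rowN_of_ext)
open Pool.TOP (TopS rw_all)
open Pool.LEV (Law Lv)
open Pool.STR (NumI TopW Mac StaAt IsoAt StaU1 ThinAt SteepAt)
open Pool.P4 (NFc1 P4Stmt1)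
open Pool.P5 (P5Stmt1)
open Pool.MIC6
open Pool.SW (ExV TieO TopC)

/-- A statement about classes and a number `x`. -/
abbrev StX (n : ℕ) : Type _ :=
  ∀ {hn : 2 ≤ n} {S : PCl n} {P : ℝ → ℝ → ℝ} {r : ℝ → ℝ}
    {P' : ℕ → List (Fin n) × Fin n → ℝ → ℝ → ℝ} {Λ : Finset (Fin n) → Fin n → ℝ → ℝ → ℝ}
    {PB : ℕ → List (Fin n) × Fin n → ℝ → ℝ → ℝ},
    PkT hn S P r P' Λ PB → TopS n → FZX (n - 1) → ℝ → ℝ → Prop

/-- **The statement holds for all classes** in dimension `n`, and for the numbers `x` slightly larger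
than the maximal deficit. -/
def AllX (n : ℕ) (η : ℝ → ℝ) (Q : StX n) : Prop :=
  ∀ (hn : 2 ≤ n) (_ : ∀ k, 1 ≤ k → k < n → FZX k) (hF : FZX (n - 1)) (hTop : TopS n)
    (D : ℝ), 0 < D → D ≤ 1 → Ext n ((1 + η D) * D) → ∃ x₀ : ℝ, (1 + η D) * D < x₀ ∧
      ∀ x : ℝ, (1 + η D) * D < x → x ≤ x₀ → ∀ (S : PCl n) (P : ℝ → ℝ → ℝ)
        (r : ℝ → ℝ) (P' : ℕ → List (Fin n) × Fin n → ℝ → ℝ → ℝ)
        (Λ : Finset (Fin n) → Fin n → ℝ → ℝ → ℝ)
        (PB : ℕ → List (Fin n) × Fin n → ℝ → ℝ → ℝ) (H : PkT hn S P r P' Λ PB),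
        Q H hTop hF ((1 - η D) * D) x

/-- **Exactness and the closed lower bound at the windows with a tie**, all classes. -/
def LExT (n : ℕ) : Prop := (∀ k, 2 ≤ k → k < n → Ext0 k) →
  Tol fun η => AllX n η fun {hn} {_} {P} {_} {P'} {_} {PB} H hTop hF h x =>
    ∃ (ι : Type) (_ : Finite ι) (K : NumI.KndP ((H.nk hTop hF).chg (H.rle h) H.up) ι),
      HasK H K (HypP _ x) ∧ CovK K h (TieT hn P P' PB)

/-- **There are no boxes at the windows with a tie which are not covered by P4 and P5**, all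
classes. -/
def LLeft (n : ℕ) : Prop := (∀ k, 2 ≤ k → k < n → Ext0 k) →
  Tol fun η => AllX n η fun {hn} {_} {P} {_} {P'} {_} {PB} H hTop hF h x =>
    ∃ (ι : Type) (_ : Finite ι) (K : NumI.KndP ((H.nk hTop hF).chg (H.rle h) H.up) ι),
      NoKd H K (HypP _ x) ∧ CovK K h fun o g => TieT hn P P' PB o g ∧ ¬ CovW hn P P' PB o g

/-- The local theorems P4 and P5, for all numbers slightly larger than the maximal deficit. -/
theorem tol_micX {n B₀ : ℕ} (hn : 1 ≤ n) (hB₀ : 1 ≤ B₀) :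
    Tol fun η => ∀ D, 0 < D → D ≤ 1 → ∃ x₀ : ℝ, (1 + η D) * D < x₀ ∧ ∀ x : ℝ, x ≤ x₀ →
      (∀ (K : ℕ) (R : ℕ → Prop) (c : ℝ), 0 < c →
        MicX (XP4 K 1 R x) (QT R n c) (fun B => B = B₀) n K ((1 - η D) * D)) ∧
      ∀ (K : ℕ) (R : ℕ → Prop),
        MicX (XP4 K 1 R x) (Q5 R n) (fun B => B = B₀) n K ((1 - η D) * D) := by
  refine (tol_mic Pool.P4.p4_1 Pool.P5.p5_1 hn hB₀).mono fun η h D hD hD1 => ?_
  obtain ⟨x₀, h1, h2, h3⟩ := h D hD hD1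
  refine ⟨x₀, h1, fun x hx => ⟨fun K R c hc => ?_, fun K R => ?_⟩⟩
  · exact (h2 K 1 R c hc).mono (fun _ _ hX => ⟨hX.1, nFc_mono hX.2.1 hx le_rfl, hX.2.2⟩)
      (fun _ _ h => h) fun _ h => h
  · exact (h3 K 1 R).mono (fun _ _ hX => ⟨hX.1, nFc_mono hX.2.1 hx le_rfl, hX.2.2⟩)
      (fun _ _ h => h) fun _ h => h

/-- **No boxes** from their parts. -/
theorem lBs_of {n : ℕ} (hV : LExV n) (hB : LBaseT n) (hE : LExT n) (hL : LLeft n) : LBs n :=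
    fun hi => by
  by_cases hn1 : 2 ≤ n
  swap
  · exact Tol.of_all fun _ _ _ hn => absurd hn hn1
  refine ((hB hi).and ((hE hi).and ((hL hi).and ((tol_micX (n := n - 1 + 1) (B₀ := n + 2)
    (by omega) (by omega)).and (Tol.le (1 / 2) (by norm_num)))))).mono fun η h => ?_
  obtain ⟨h1, h2, h3, h4, h5⟩ := h
  intro hn hZ hF hTop D hD hD1 hEx S P r P' Λ PB H
  have e1 := h5 D hD
  have hh : 0 < (1 - η D) * D := mul_pos (by linarith) hD
  have hh1 : (1 - η D) * D ≤ 1 := by nlinarith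
  obtain ⟨x₁, a1, b1⟩ := h2 hn hZ hF hTop D hD hD1 hEx
  obtain ⟨x₂, a2, b2⟩ := h3 hn hZ hF hTop D hD hD1 hEx
  obtain ⟨x₃, a3, b3⟩ := h4 D hD hD1
  obtain ⟨x, hx⟩ : ∃ x, x = min x₁ (min x₂ x₃) := ⟨_, rfl⟩
  have hx0 : (1 + η D) * D < x := by
    rw [hx]
    exact lt_min a1 (lt_min a2 a3)
  have hx1 : x ≤ x₁ := by
    rw [hx]
    exact min_le_left _ _
  have hx2 : x ≤ x₂ := by
    rw [hx]
    exact (min_le_right _ _).trans (min_le_left _ _)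
  have hx3 : x ≤ x₃ := by
    rw [hx]
    exact (min_le_right _ _).trans (min_le_right _ _)
  obtain ⟨S', PW, H', hPW⟩ := H.subW
  obtain ⟨ιE, fE, KE, hKE, hcE⟩ := b1 x hx0 hx1 S' P r P' Λ PB H'
  obtain ⟨ιL, fL, KL, hKL, hcL⟩ := b2 x hx0 hx2 S' P r P' Λ PB H'
  obtain ⟨hp4, hp5⟩ := b3 x hx3
  obtain ⟨p, hp⟩ := noBS_all (H := H') hh hh1 Pool.VAS.micV hp4 hp5 hPW
    (h1 hn hZ hF hTop D hD hD1 hEx S' P r P' Λ PB H')
    (hV hi hn hZ hF hTop S' P r P' Λ PB H' _ hh hh1 _ (H'.rle _)) hKE hcE hKL hcL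
  exact ⟨p, Or.inr hp⟩

/-- **`KP 4` from its parts**, seventh form. -/
theorem kp4_of7
    (hC : ∀ n, 2 ≤ n → n ≤ 4 → ∀ κ : List Kd, κ.length + 2 ≤ n → LCellV n (Kd.one :: κ))
    (hCT : ∀ n, 3 ≤ n → n ≤ 4 → ∀ κ : List Kd, κ.length + 3 ≤ n → LCellT n (Kd.one :: κ))
    (hEV : ∀ n, 2 ≤ n → n ≤ 4 → LExV n) (hET : ∀ n, 3 ≤ n → n ≤ 4 → LExT n)
    (hL : ∀ n, 3 ≤ n → n ≤ 4 → LLeft n) (hEx : ∀ n, 2 ≤ n → n ≤ 4 → LExc n)
    (hA : LV0A 4) (hB : LV0B 4) (hM : ∀ n, 3 ≤ n → n ≤ 4 → LMevW n) (hT : LTieO 4) : KP 4 :=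
  kp4_of6 hC (fun n h1 h2 => by
    by_cases h3 : n = 2
    · subst h3
      exact lBs_two (hEV 2 le_rfl (by norm_num))
    · exact lBs_of (hEV n h1 h2) (lBaseT_of (hCT n (by omega) h2)) (hET n (by omega) h2)
        (hL n (by omega) h2)) hEx hA hB hM (fun n h1 h2 => hEV n (by omega) h2) hT

end Pool.ASM
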