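import Pool.Agent.H56.ASM.Sk7

/-!
# The parts of `KP 4`, eighth form

`LTieC n C`: there are no rough windows with slopes in `C` and a tie. Then the exactness at the ties
and the kinds without boxes are needed only outside `C` (`LExTC`, `LLeftC`). `TopA`: the target has
the top slope; in dimension three all ties are of this form. `kp4_of8`: `KP 4` from its parts.
-/

set_option autoImplicit false

namespace Pool.ASM

open MeasureTheory Set Filter Topology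
open Pool.Agent.H49.Ent Pool.Agent.H32.Dense Pool.STK Pool.KA Pool.KSAT Pool.K2S Pool.PB
open Pool.GEN Pool.S6C Pool.GRW Pool.PKG Pool.STAT Pool.PM Pool.R1 Pool.Z4
open Pool.ONE (LocE Ext0 Ext rowN_of_ext)
open Pool.TOP (TopS rw_all)
open Pool.LEV (Law Lv)
open Pool.STR (NumI TopW Mac StaAt IsoAt StaU1 ThinAt SteepAt Rle)
open Pool.MIC6
open Pool.SW (ExV TieO TopC Rgh Rgb)

/-- **There are no rough windows with slopes in `C` and a tie**, for all packages. -/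
def LTieC (n : ℕ) (C : (Fin (n - 1) → ℝ) → ℝ → Prop) : Prop :=
  (∀ k, 2 ≤ k → k < n → Ext0 k) → ∀ (hn : 2 ≤ n) (_ : ∀ k, 1 ≤ k → k < n → FZX k)
    (hF : FZX (n - 1)) (hTop : TopS n), TieO hn hTop hF C

theorem LTieC.mono {n : ℕ} {C C' : (Fin (n - 1) → ℝ) → ℝ → Prop} (h : LTieC n C)
    (hC : ∀ s σ, C' s σ → C s σ) : LTieC n C' := fun hi hn hZ hF hTop => by
  intro S P r P' Λ PB H h' h0 h1 ρ hρ hrow o
  filter_upwards [h hi hn hZ hF hTop S P r P' Λ PB H h' h0 h1 ρ hρ hrow o] with g k R a1 a2 a3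
  exact k R a1 (hC _ _ a2) a3

theorem LTieC.tieO {n : ℕ} {C : (Fin (n - 1) → ℝ) → ℝ → Prop} (h : LTieC n C)
    (hC : ∀ s σ, TopC n s σ → C s σ) : LTieO n := h.mono hC

/-- **The target has the top slope**, larger than one. -/
def TopA (n : ℕ) (s : Fin (n - 1) → ℝ) (σ : ℝ) : Prop := 1 < σ ∧ ∀ i, s i ≤ σ

theorem topA_of (n : ℕ) (s : Fin (n - 1) → ℝ) (σ : ℝ) (h : TopC n s σ) : TopA n s σ :=
  ⟨by linarith [h.1], fun i => (h.2 i).1⟩

/-- **Exactness and the closed lower bound at the windows with a tie** outside `C`. -/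
def LExTC (n : ℕ) (C : (Fin (n - 1) → ℝ) → ℝ → Prop) : Prop :=
  (∀ k, 2 ≤ k → k < n → Ext0 k) →
  Tol fun η => AllX n η fun {hn} {_} {P} {_} {P'} {_} {PB} H hTop hF h x =>
    ∃ (ι : Type) (_ : Finite ι) (K : NumI.KndP ((H.nk hTop hF).chg (H.rle h) H.up) ι),
      HasK H K (HypP _ x) ∧ CovK K h fun o g => TieT hn P P' PB o g ∧
        ¬ C (slo H hTop hF o g) (deriv (fun a => P a a) g)

/-- **There are no boxes at the windows with a tie** outside `C` which are not covered by P4, P5. -/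
def LLeftC (n : ℕ) (C : (Fin (n - 1) → ℝ) → ℝ → Prop) : Prop :=
  (∀ k, 2 ≤ k → k < n → Ext0 k) →
  Tol fun η => AllX n η fun {hn} {_} {P} {_} {P'} {_} {PB} H hTop hF h x =>
    ∃ (ι : Type) (_ : Finite ι) (K : NumI.KndP ((H.nk hTop hF).chg (H.rle h) H.up) ι),
      NoKd H K (HypP _ x) ∧ CovK K h fun o g => (TieT hn P P' PB o g ∧ ¬ CovW hn P P' PB o g) ∧
        ¬ C (slo H hTop hF o g) (deriv (fun a => P a a) g)

section

variable {n : ℕ} {hn : 2 ≤ n} {S : PCl n} {P : ℝ → ℝ → ℝ} {r : ℝ → ℝ}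
  {P' : ℕ → List (Fin n) × Fin n → ℝ → ℝ → ℝ} {Λ : Finset (Fin n) → Fin n → ℝ → ℝ → ℝ}
  {PB : ℕ → List (Fin n) × Fin n → ℝ → ℝ → ℝ}

/-- The thin windows are rough. -/
theorem rgh_thin (H : PkT hn S P r P' Λ PB) {o : Od n} {g : ℝ} (g0 : 0 < g) (g1 : g < 1)
    (hT : ThinAt P (PT hn PB o) g) : g ∈ Rgh P := by
  intro k
  obtain ⟨r₀, hr₀, h1⟩ := hT (1 / ((k : ℝ) + 1)) (by positivity)
  obtain ⟨m, hm⟩ := exists_pow_lt_of_lt_one (lt_min hr₀ (lt_min (show 0 < g / 2 by linarith)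
    (show 0 < (1 - g) / 2 by linarith))) (show (1 / 2 : ℝ) < 1 by norm_num)
  refine ⟨m, fun j hj a w h2 h3 h4 => ?_⟩
  have e0 : ((1 : ℝ) / 2) ^ j ≤ (1 / 2) ^ m :=
    pow_le_pow_of_le_one (by norm_num) (by norm_num) hj
  have e1 : (1 : ℝ) / 2 ^ j = (1 / 2) ^ j := by rw [one_div_pow]
  have e2 := e0.trans_lt hm
  rw [← e1] at e2
  have e3 : (0 : ℝ) < 1 / 2 ^ j := by positivity
  have e4 := e2.trans_le (min_le_left _ _)
  have e5 := e2.trans_le ((min_le_right _ _).trans (min_le_left _ _))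
  have e6 := e2.trans_le ((min_le_right _ _).trans (min_le_right _ _))
  have h5 := h1 (1 / 2 ^ j) e3 e4 a w (by linarith) h3 (by linarith)
  have h6 := H.le o w w (by linarith) le_rfl (by linarith)
  linarith

/-- The covers of the windows with a tie, if there are no windows with slopes in `C`. -/
theorem covK_of {H : PkT hn S P r P' Λ PB} {hTop : TopS n} {hF : FZX (n - 1)}
    {C : (Fin (n - 1) → ℝ) → ℝ → Prop} (hT : TieO hn hTop hF C) {h : ℝ} (h0 : 0 < h) (h1 : h ≤ 1)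
    {ι : Type} {K : NumI.KndP ((H.nk hTop hF).chg (H.rle h) H.up) ι} {X : Od n → ℝ → Prop}
    (hX : ∀ o g, X o g → TieT hn P P' PB o g)
    (hc : CovK K h fun o g => X o g ∧ ¬ C (slo H hTop hF o g) (deriv (fun a => P a a) g)) :
    CovK K h X := by
  intro o
  filter_upwards [hc o, hT S P r P' Λ PB H h h0 h1 _ (H.rle h)
    (rt_def H.rate.lip H.rate.mono h) o] with g k1 k2 R hrw hx
  refine k1 R hrw ⟨hx, fun hC => ?_⟩
  have hTi := hX o g hx
  obtain ⟨l, l1, l2, l3⟩ := hTi.tie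
  refine k2 R (rgh_thin H R.g0 R.g1 hTi.thin) hC ⟨⟨l, l2⟩, ?_⟩
  rw [slN_dg H hTop hF o l2.le g, slN_tar] at l3
  exact l3

end

theorem lExT_of {n : ℕ} {C : (Fin (n - 1) → ℝ) → ℝ → Prop} (hT : LTieC n C) (h : LExTC n C) :
    LExT n := fun hi => by
  refine ((h hi).and (Tol.le (1 / 2) (by norm_num))).mono fun η h1 => ?_
  obtain ⟨h1, h5⟩ := h1
  intro hn hZ hF hTop D hD hD1 hEx
  have e1 := h5 D hD
  obtain ⟨x₀, k1, k2⟩ := h1 hn hZ hF hTop D hD hD1 hEx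
  refine ⟨x₀, k1, fun x hx hx' S P r P' Λ PB H => ?_⟩
  obtain ⟨ι, f, K, k3, k4⟩ := k2 x hx hx' S P r P' Λ PB H
  exact ⟨ι, f, K, k3, covK_of (hT hi hn hZ hF hTop) (mul_pos (by linarith) hD) (by nlinarith)
    (fun _ _ h => h) k4⟩

theorem lLeft_of {n : ℕ} {C : (Fin (n - 1) → ℝ) → ℝ → Prop} (hT : LTieC n C) (h : LLeftC n C) :
    LLeft n := fun hi => by
  refine ((h hi).and (Tol.le (1 / 2) (by norm_num))).mono fun η h1 => ?_
  obtain ⟨h1, h5⟩ := h1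
  intro hn hZ hF hTop D hD hD1 hEx
  have e1 := h5 D hD
  obtain ⟨x₀, k1, k2⟩ := h1 hn hZ hF hTop D hD hD1 hEx
  refine ⟨x₀, k1, fun x hx hx' S P r P' Λ PB H => ?_⟩
  obtain ⟨ι, f, K, k3, k4⟩ := k2 x hx hx' S P r P' Λ PB H
  exact ⟨ι, f, K, k3, covK_of (hT hi hn hZ hF hTop) (mul_pos (by linarith) hD) (by nlinarith)
    (fun _ _ h => h.1) k4⟩

/-- In dimension three the target has the top slope at all ties. -/
theorem topA_three {S : PCl 3} {hn : 2 ≤ 3} {P : ℝ → ℝ → ℝ} {r : ℝ → ℝ}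
    {P' : ℕ → List (Fin 3) × Fin 3 → ℝ → ℝ → ℝ} {Λ : Finset (Fin 3) → Fin 3 → ℝ → ℝ → ℝ}
    {PB : ℕ → List (Fin 3) × Fin 3 → ℝ → ℝ → ℝ} (H : PkT hn S P r P' Λ PB) (hTop : TopS 3)
    (hF : FZX (3 - 1)) (o : Od 3) :
    ∀ᵐ g : ℝ, g ∈ Gs P r P' Λ o → TieT hn P P' PB o g →
      TopA 3 (slo H hTop hF o g) (deriv (fun a => P a a) g) := by
  filter_upwards [one_zero H hTop hF o] with g h1 hg hx
  have h2 := hx.one
  rw [slN_tar] at h2
  refine ⟨h2, fun i => ?_⟩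
  obtain ⟨l, l1, l2, l3⟩ := hx.tie
  have e1 : l = 1 := by omega
  subst e1
  rw [slN_tar] at l3
  rcases i with ⟨i, hi⟩
  rcases Nat.eq_zero_or_pos i with h0 | h0
  · subst h0
    have e2 : slo H hTop hF o g ⟨0, hi⟩ = slN hn P P' o 0 g :=
      (slN_dg H hTop hF o (by omega) g).symm
    rw [e2, slN_lvl o (by omega), h1 hg]
    exact h2.le
  · have e3 : i = 1 := by omega
    subst e3
    have e2 : slo H hTop hF o g ⟨1, hi⟩ = slN hn P P' o 1 g :=
      (slN_dg H hTop hF o (by omega) g).symm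
    rw [e2, l3]

/-- No kinds. -/
def kpE {n : ℕ} {hn : 2 ≤ n} {S : PCl n} {P : ℝ → ℝ → ℝ} {r : ℝ → ℝ}
    {P' : ℕ → List (Fin n) × Fin n → ℝ → ℝ → ℝ} {Λ : Finset (Fin n) → Fin n → ℝ → ℝ → ℝ}
    {PB : ℕ → List (Fin n) × Fin n → ℝ → ℝ → ℝ} (H : PkT hn S P r P' Λ PB) (hTop : TopS n)
    (hF : FZX (n - 1)) (h : ℝ) : NumI.KndP ((H.nk hTop hF).chg (H.rle h) H.up) Empty where
  A _ x := x.elim
  Φ x := x.elim
  mono {x} := x.elim

theorem lExTC_three : LExTC 3 (TopA 3) := fun _ => Tol.of_all fun η h0 _ => by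
  intro hn hZ hF hTop D hD hD1 hEx
  refine ⟨(1 + η D) * D + 1, by linarith, fun x _ _ S P r P' Λ PB H => ⟨Empty, inferInstance,
    kpE H hTop hF _, fun _ _ _ _ _ x => x.elim, fun o => ?_⟩⟩
  filter_upwards [topA_three H hTop hF o] with g h1 R _ hx
  exact absurd (h1 R.mem hx.1) hx.2

theorem lLeftC_three : LLeftC 3 (TopA 3) := fun _ => Tol.of_all fun η h0 _ => by
  intro hn hZ hF hTop D hD hD1 hEx
  refine ⟨(1 + η D) * D + 1, by linarith, fun x _ _ S P r P' Λ PB H => ⟨Empty, inferInstance,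
    kpE H hTop hF _, fun _ _ _ _ _ x => x.elim, fun o => ?_⟩⟩
  filter_upwards [topA_three H hTop hF o] with g h1 R _ hx
  exact absurd (h1 R.mem hx.1.1) hx.2

/-- The cell, all classes, at all rough windows. -/
def LCellA (n : ℕ) (κ : List Kd) : Prop := (∀ k, 2 ≤ k → k < n → Ext0 k) →
  Tol fun η => AllC n η fun H hTop hF h => Cell H hTop hF h κ

theorem LCellA.v {n : ℕ} {κ : List Kd} (h : LCellA n κ) : LCellV n κ := fun hi => by
  refine (h hi).mono fun η h1 => ?_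
  intro hn hZ hF hTop D hD hD1 hE S P r P' Λ PB H
  exact CellX.of (h1 hn hZ hF hTop D hD hD1 hE S P r P' Λ PB H) _

theorem LCellA.t {n : ℕ} {κ : List Kd} (h : LCellA n κ) : LCellT n κ := fun hi => by
  refine (h hi).mono fun η h1 => ?_
  intro hn hZ hF hTop D hD hD1 hE S P r P' Λ PB H
  exact CellX.of (h1 hn hZ hF hTop D hD hD1 hE S P r P' Λ PB H) _

/-- **`KP 4` from its parts**, eighth form. -/
theorem kp4_of8 {C : (Fin (4 - 1) → ℝ) → ℝ → Prop} (hC' : ∀ s σ, TopC 4 s σ → C s σ)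
    (hC : ∀ n, 2 ≤ n → n ≤ 4 → ∀ κ : List Kd, κ.length + 2 ≤ n → LCellV n (Kd.one :: κ))
    (hCT : ∀ n, 3 ≤ n → n ≤ 4 → ∀ κ : List Kd, κ.length + 3 ≤ n → LCellT n (Kd.one :: κ))
    (hEV : ∀ n, 2 ≤ n → n ≤ 4 → LExV n) (hT3 : LTieC 3 (TopA 3)) (hT4 : LTieC 4 C)
    (hET : LExTC 4 C) (hL : LLeftC 4 C) (hEx : ∀ n, 2 ≤ n → n ≤ 4 → LExc n)
    (hA : LV0A 4) (hB : LV0B 4) (hM : ∀ n, 3 ≤ n → n ≤ 4 → LMevW n) : KP 4 := by
  refine kp4_of7 hC hCT hEV (fun n h1 h2 => ?_) (fun n h1 h2 => ?_) hEx hA hB hM (hT4.tieO hC')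
  · rcases h2.lt_or_eq with h3 | rfl
    · obtain rfl : n = 3 := by omega
      exact lExT_of hT3 lExTC_three
    · exact lExT_of hT4 hET
  · rcases h2.lt_or_eq with h3 | rfl
    · obtain rfl : n = 3 := by omega
      exact lLeft_of hT3 lLeftC_three
    · exact lLeft_of hT4 hL

end Pool.ASM
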