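import Pool.Agent.H56.NB.All

/-!
# The parts of `KP 4`, ninth form

All statements about the absence of boxes are of the form `NoB`, `ExB` (finitely many kinds of
windows cover the windows of a certain form). `LEx1 n`: exactness at the windows with one contact
coordinate, for all packages. `LEx2 n`: exactness at the other windows without ties. `LTopN n`,
`LFast n`: no boxes at the windows with a tie, if no coordinate is faster than the target, and if
there is a faster one. `LNb`: no boxes at the ties for all packages. `LMevY n`: the data on the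
events. `kp4_of9`: `KP 4` from its parts.
-/

set_option autoImplicit false

namespace Pool.ASM

open MeasureTheory Set Filter Topology
open Pool.Agent.H49.Ent Pool.Agent.H32.Dense Pool.STK Pool.KA Pool.KSAT Pool.K2S Pool.PB
open Pool.GEN Pool.S6C Pool.GRW Pool.PKG Pool.STAT Pool.PM Pool.R1 Pool.Z4
open Pool.ONE (LocE Ext0 Ext rowN_of_ext)
open Pool.TOP (TopS rw_all)
open Pool.LEV (Law Lv)
open Pool.STR (NumI TopW Mac StaAt IsoAt StaU1 ThinAt SteepAt Rle)
open Pool.MIC6
open Pool.SW (TopC NtO OneS NoTie Rgh Xa TieO)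

/-- **Exactness at the windows with one contact coordinate**, for all packages and rates. -/
def LEx1 (n : ℕ) : Prop := (∀ k, 2 ≤ k → k < n → Ext0 k) → ∀ (hn : 2 ≤ n)
  (_ : ∀ k, 1 ≤ k → k < n → FZX k) (hF : FZX (n - 1)) (hTop : TopS n), ExA hn hTop hF (OneC n)

/-- **Exactness at the other windows without ties**, all classes. -/
def LEx2 (n : ℕ) : Prop := (∀ k, 2 ≤ k → k < n → Ext0 k) →
  Tol fun η => AllC n η fun {hn} {_} {P} {_} {P'} {_} {_} H hTop hF h =>
    ExB H hTop hF (H.rle h) h fun o g => (1 < slN hn P P' o (n - 1) g ∧ NtW hn P P' o g) ∧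
      ¬ OneS n (slo H hTop hF o g)

/-- **No boxes at the windows with a tie**, if no coordinate is faster than the target. -/
def LTopN (n : ℕ) : Prop := (∀ k, 2 ≤ k → k < n → Ext0 k) →
  Tol fun η => AllX n η fun {hn} {_} {P} {_} {P'} {_} {PB} H hTop hF h _ =>
    NoB H hTop hF (H.rle h) h fun o g => TieT hn P P' PB o g ∧
      TopA n (slo H hTop hF o g) (deriv (fun a => P a a) g)

/-- **No boxes at the windows with a tie**, if a coordinate is faster than the target. -/
def LFast (n : ℕ) : Prop := (∀ k, 2 ≤ k → k < n → Ext0 k) →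
  Tol fun η => AllX n η fun {hn} {_} {P} {_} {P'} {_} {PB} H hTop hF h _ =>
    NoB H hTop hF (H.rle h) h fun o g => TieT hn P P' PB o g ∧
      ¬ TopA n (slo H hTop hF o g) (deriv (fun a => P a a) g)

/-- **The closed lower bound** at the windows with a tie and a coordinate faster than the target. -/
def LFc (n : ℕ) : Prop := (∀ k, 2 ≤ k → k < n → Ext0 k) →
  Tol fun η => AllX n η fun {hn} {_} {P} {_} {P'} {_} {PB} H hTop hF h x =>
    FcB H hTop hF (H.rle h) h x fun o g => TieT hn P P' PB o g ∧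
      ¬ TopA n (slo H hTop hF o g) (deriv (fun a => P a a) g)

/-- **No boxes at the windows with a tie and a faster coordinate** which are not covered by P4 and
P5. -/
def LFastP (n : ℕ) : Prop := (∀ k, 2 ≤ k → k < n → Ext0 k) →
  Tol fun η => AllX n η fun {hn} {_} {P} {_} {P'} {_} {PB} H hTop hF h _ =>
    NoB H hTop hF (H.rle h) h fun o g => (TieT hn P P' PB o g ∧
      ¬ TopA n (slo H hTop hF o g) (deriv (fun a => P a a) g)) ∧ ¬ CovW hn P P' PB o g

/-- **No boxes at the rough windows with a tie** and slopes in `TopC`, for all packages. -/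
def LNb (n : ℕ) : Prop := (∀ k, 2 ≤ k → k < n → Ext0 k) → ∀ (hn : 2 ≤ n)
  (_ : ∀ k, 1 ≤ k → k < n → FZX k) (hF : FZX (n - 1)) (hTop : TopS n), NbA hn hTop hF (TopC n)

/-- The data on the events, near the windows of the counts, all classes. -/
def LMevY (n : ℕ) : Prop := (∀ k, 2 ≤ k → k < n → Ext0 k) →
  Tol fun η => LocE n η MicRt →
    AllC n η fun {hn} {S} {P} {r} {P'} {Λ} {PB} H hTop hF h =>
      ∃ Y : Od n → ℝ → Prop, (∀ o : Od n, ∀ᵐ g : ℝ, g ∈ Gs P r P' Λ o → Y o g) ∧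
        ∀ (o : Od n) (l : ℕ), 1 ≤ l → l < n - 1 → MevY hn S P r P' Λ o l
          (fun g => RwH H hTop hF h o g ∧ Xa hn P P' PB o l g ∧ Y o g)

/-! ### The boxes -/

/-- The windows with a tie and a faster coordinate have one contact coordinate. -/
theorem fast_one {n : ℕ} (hn4 : n ≤ 4) {hn : 2 ≤ n} {S : PCl n} {P : ℝ → ℝ → ℝ} {r : ℝ → ℝ}
    {P' : ℕ → List (Fin n) × Fin n → ℝ → ℝ → ℝ} {Λ : Finset (Fin n) → Fin n → ℝ → ℝ → ℝ}
    {PB : ℕ → List (Fin n) × Fin n → ℝ → ℝ → ℝ} (H : PkT hn S P r P' Λ PB) (hTop : TopS n)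
    (hF : FZX (n - 1)) (o : Od n) :
    ∀ᵐ g : ℝ, g ∈ Gs P r P' Λ o → TieT hn P P' PB o g →
      ¬ TopA n (slo H hTop hF o g) (deriv (fun a => P a a) g) →
      OneC n (slo H hTop hF o g) (deriv (fun a => P a a) g) := by
  filter_upwards [one_zero H hTop hF o] with g k0 hg hX hX2
  have hone := hX.one
  rw [slN_tar] at hone
  obtain ⟨l, l1, l2, l3⟩ := hX.tie
  rw [slN_tar] at l3
  have h6 : ∃ j : Fin (n - 1), deriv (fun a => P a a) g < slo H hTop hF o g j := by
    by_contra hcon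
    push Not at hcon
    exact hX2 ⟨hone, hcon⟩
  obtain ⟨j, hj⟩ := h6
  have hj0 : 1 ≤ (j : ℕ) := by
    rcases Nat.eq_zero_or_pos (j : ℕ) with h7 | h7
    · exfalso
      rw [slo_slN, h7, slN_lvl o (by omega), k0 hg] at hj
      linarith
    · exact h7
  have hjl : (j : ℕ) ≠ l := fun h7 => by
    rw [slo_slN, h7, l3] at hj
    exact lt_irrefl _ hj
  refine ⟨hone, fun i hi1 => ?_⟩
  have hj2 := j.2
  have hi2 := i.2
  have h8 : (i : ℕ) = j ∨ (i : ℕ) = l := by omega
  rcases h8 with h8 | h8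
  · have h9 : i = j := Fin.ext h8
    rw [h9]
    linarith
  · rw [slo_slN, h8, l3]
    exact hone

/-- In dimension three there is no coordinate faster than the target at a tie. -/
theorem lFc_three : LFc 3 := fun _ => Tol.of_all fun η h0 _ => by
  intro hn hZ hF hTop D hD hD1 hEx
  refine ⟨(1 + η D) * D + 1, by linarith, fun x _ _ S P r P' Λ PB H => ⟨Empty, inferInstance,
    kpE H hTop hF _, fun _ _ _ _ _ x => x.elim, fun o => ?_⟩⟩
  filter_upwards [topA_three H hTop hF o] with g h1 R _ hx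
  exact absurd (h1 R.mem hx.1) hx.2

theorem lFastP_three : LFastP 3 := fun _ => Tol.of_all fun η h0 _ => by
  intro hn hZ hF hTop D hD hD1 hEx
  refine ⟨(1 + η D) * D + 1, by linarith, fun x _ _ S P r P' Λ PB H => noB_false fun o => ?_⟩
  filter_upwards [topA_three H hTop hF o] with g h1 R hx
  exact hx.1.2 (h1 R.mem hx.1.1)

/-- There are no ties in dimension two. -/
theorem lFc_two : LFc 2 := fun _ => Tol.of_all fun η h0 _ => by
  intro hn hZ hF hTop D hD hD1 hEx
  refine ⟨(1 + η D) * D + 1, by linarith, fun x _ _ S P r P' Λ PB H => ⟨Empty, inferInstance,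
    kpE H hTop hF _, fun _ _ _ _ _ x => x.elim, fun o => Eventually.of_forall fun g R _ hx => ?_⟩⟩
  obtain ⟨l, l1, l2, -⟩ := hx.1.tie
  omega

theorem lFastP_two : LFastP 2 := fun _ => Tol.of_all fun η h0 _ => by
  intro hn hZ hF hTop D hD hD1 hEx
  refine ⟨(1 + η D) * D + 1, by linarith, fun x _ _ S P r P' Λ PB H => noB_false fun o =>
    Eventually.of_forall fun g R hx => ?_⟩
  obtain ⟨l, l1, l2, -⟩ := hx.1.1.tie
  omega

/-- In dimension two there is only one coordinate. -/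
theorem lEx2_two : LEx2 2 := fun _ => Tol.of_all fun η h0 _ => by
  intro hn hZ hF hTop D hD hD1 hEx S P r P' Λ PB H
  refine ⟨Empty, inferInstance, kpE H hTop hF _, fun _ _ _ _ _ x => x.elim, fun o => ?_⟩
  exact Eventually.of_forall fun g R _ hx => absurd (fun i hi => absurd i.2 (by omega)) hx.2

/-- **No boxes** from their parts. -/
theorem lBs_of9 {n : ℕ} (hn4 : n ≤ 4) (hE1 : LEx1 n) (hE2 : LEx2 n) (hB : 3 ≤ n → LBaseT n)
    (hTp : 3 ≤ n → LTopN n) (hFc : LFc n) (hFP : LFastP n) : LBs n := fun hi => by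
  by_cases hn1 : 2 ≤ n
  swap
  · exact Tol.of_all fun _ _ _ hn => absurd hn hn1
  have hB' : Tol fun η => 3 ≤ n → AllC n η fun H hTop hF h => BaseT H hTop hF h := by
    by_cases h3 : 3 ≤ n
    · exact (hB h3 hi).mono fun η h _ => h
    · exact Tol.of_all fun _ _ _ h5 => absurd h5 h3
  have hTp' : Tol fun η => 3 ≤ n → AllX n η fun {hn} {_} {P} {_} {P'} {_} {PB} H hTop hF h _ =>
      NoB H hTop hF (H.rle h) h fun o g => TieT hn P P' PB o g ∧
        TopA n (slo H hTop hF o g) (deriv (fun a => P a a) g) := by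
    by_cases h3 : 3 ≤ n
    · exact (hTp h3 hi).mono fun η h _ => h
    · exact Tol.of_all fun _ _ _ h5 => absurd h5 h3
  refine (hB'.and (hTp'.and ((hE2 hi).and ((hFc hi).and ((hFP hi).and
    ((tol_micX (n := n - 1 + 1) (B₀ := n + 2) (by omega) (by omega)).and
      (Tol.le (1 / 2) (by norm_num)))))))).mono fun η h => ?_
  obtain ⟨h1, h0, h2, h3, h4, h6, h5⟩ := h
  intro hn hZ hF hTop D hD hD1 hEx S P r P' Λ PB H
  have e1 := h5 D hD
  obtain ⟨h, hh'⟩ : ∃ h, h = (1 - η D) * D := ⟨_, rfl⟩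
  have hh : 0 < h := by
    rw [hh']
    exact mul_pos (by linarith) hD
  have hh1 : h ≤ 1 := by
    rw [hh']
    nlinarith
  obtain ⟨S', PW, H', hPW⟩ := H.subW
  have hEA := hE1 hi hn hZ hF hTop S' P r P' Λ PB H' h hh hh1 _ (H'.rle h)
    (rt_def H'.rate.lip H'.rate.mono _)
  have hE2' := h2 hn hZ hF hTop D hD hD1 hEx S' P r P' Λ PB H'
  rw [← hh'] at hE2'
  -- exactness at the windows without ties
  have hEV : ExB H' hTop hF (H'.rle h) h fun o g => 1 < slN hn P P' o (n - 1) g ∧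
      NtW hn P P' o g := (hEA.or hE2').mono fun o => Eventually.of_forall fun g _ hx => by
    by_cases h7 : OneS n (slo H' hTop hF o g)
    · exact Or.inl ⟨by
        have := hx.1
        rwa [slN_tar] at this, h7⟩
    · exact Or.inr ⟨hx, h7⟩
  by_cases h3' : 3 ≤ n
  swap
  · -- dimension two
    rw [← hh']
    obtain ⟨p, hp⟩ := noB_ties (H := H') hh hh1 Pool.VAS.micV
      (fun o => Eventually.of_forall fun g _ _ hx => absurd hx.choose_spec (by
        intro hc
        have := hc.1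
        have := hc.2.1
        omega)) hEV (noB_false fun o => Eventually.of_forall fun g _ hx => by
        obtain ⟨l, l1, l2, -⟩ := hx.tie
        omega)
    exact ⟨p, Or.inr hp⟩
  obtain ⟨x₀, a0, b0⟩ := h0 h3' hn hZ hF hTop D hD hD1 hEx
  obtain ⟨x₁, a1, b1⟩ := h3 hn hZ hF hTop D hD hD1 hEx
  obtain ⟨x₂, a2, b2⟩ := h4 hn hZ hF hTop D hD hD1 hEx
  obtain ⟨x₃, a3, b3⟩ := h6 D hD hD1
  obtain ⟨x, hx⟩ : ∃ x, x = min x₀ (min x₁ (min x₂ x₃)) := ⟨_, rfl⟩
  have hx0 : (1 + η D) * D < x := by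
    rw [hx]
    exact lt_min a0 (lt_min a1 (lt_min a2 a3))
  have hxa : x ≤ x₀ := by
    rw [hx]
    exact min_le_left _ _
  have hxb : x ≤ min x₁ (min x₂ x₃) := by
    rw [hx]
    exact min_le_right _ _
  have hx1 : x ≤ x₁ := hxb.trans (min_le_left _ _)
  have hx2 : x ≤ x₂ := hxb.trans ((min_le_right _ _).trans (min_le_left _ _))
  have hx3 : x ≤ x₃ := hxb.trans ((min_le_right _ _).trans (min_le_right _ _))
  obtain ⟨hp4, hp5⟩ := b3 x hx3
  have hTo := b0 x hx0 hxa S' P r P' Λ PB H'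
  have hFc' := b1 x hx0 hx1 S' P r P' Λ PB H'
  have hLe := b2 x hx0 hx2 S' P r P' Λ PB H'
  rw [← hh'] at hTo hFc' hLe hp4 hp5
  have hTie : NoB H' hTop hF (H'.rle h) h (TieT hn P P' PB) := by
    refine (((noB_P (H := H') (hρ := H'.rle h) hh hh1 hp4 hp5 hPW hEA hFc').or hLe).or
      hTo).mono fun o => ?_
    filter_upwards [fast_one hn4 H' hTop hF o] with g k1 R hX
    by_cases hA : TopA n (slo H' hTop hF o g) (deriv (fun a => P a a) g)
    · exact Or.inr ⟨hX, hA⟩
    by_cases hc : CovW hn P P' PB o g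
    · exact Or.inl (Or.inl ⟨⟨hX, hc⟩, k1 R.mem hX hA, hX, hA⟩)
    · exact Or.inl (Or.inr ⟨⟨hX, hA⟩, hc⟩)
  have hB1 := h1 h3' hn hZ hF hTop D hD hD1 hEx S' P r P' Λ PB H'
  rw [← hh'] at hB1 ⊢
  obtain ⟨p, hp⟩ := noB_ties (H := H') hh hh1 Pool.VAS.micV hB1 hEV hTie
  exact ⟨p, Or.inr hp⟩

/-! ### The static chains -/

/-- **The static chains** from their parts. -/
theorem lNor_9 {n : ℕ} (hn4 : n ≤ 4)
    (hC : ∀ κ : List Kd, κ.length + 2 ≤ n → LCellV n (Kd.one :: κ))
    (hA : n = 4 → LV0A n) (hB : n = 4 → LV0B n) (hE : LEx1 n) (hNb : n = 4 → LNb n)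
    (hM : LMevY n) : LNor n := fun hi => by
  have hA' : Tol fun η => n = 4 → LocE n η MicRt →
      AllC n η fun {hn} {_} {P} {_} {P'} {_} {_} H hTop hF h =>
        ∀ o : Od n, ∀ᵐ g : ℝ, RwH H hTop hF h o g → 1 < deriv (fun a => P a a) g → StaAt P g →
        deriv (fun a => LL hn P P' o 2 a a) g ≤ 1 → 1 < deriv (fun a => LL hn P P' o 3 a a) g →
        StaAt (LL hn P P' o 3) g := by
    by_cases h4 : n = 4
    · exact (hA h4 hi).mono fun η h _ => h
    · exact Tol.of_all fun _ _ _ h5 => absurd h5 h4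
  have hB' : Tol fun η => n = 4 → LocE n η MicRt →
      AllC n η fun {hn} {_} {P} {_} {P'} {_} {_} H hTop hF h =>
        ∀ o : Od n, ∀ᵐ g : ℝ, RwH H hTop hF h o g → 1 < deriv (fun a => P a a) g → StaAt P g →
        deriv (fun a => LL hn P P' o 3 a a) g ≤ 1 → 1 < deriv (fun a => LL hn P P' o 2 a a) g →
        StaAt (LL hn P P' o 2) g := by
    by_cases h4 : n = 4
    · exact (hB h4 hi).mono fun η h _ => h
    · exact Tol.of_all fun _ _ _ h5 => absurd h5 h4
  refine ((two_of_cellsV hC hi).and (hA'.and (hB'.and ((hM hi).and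
    (Tol.le 1 one_pos))))).mono fun η h hMic => ?_
  obtain ⟨h1, h2, h3, h4, h6⟩ := h
  intro hn hZ hF hTop D hD hD1 hE' S P r P' Λ PB H
  have e1 := h6 D hD
  have hEA := hE hi hn hZ hF hTop
  obtain ⟨Y, hY, hMev⟩ := h4 hMic hn hZ hF hTop D hD hD1 hE' S P r P' Λ PB H
  refine nore_ind7 hMic hi hn hn4 hZ hF hTop hD hD1 e1.1 e1.2 hE' H ?_ (fun o => ?_)
    (vAll_n Pool.VAS.micV hEA) (fun h5 => vAll_t Pool.VAS.micV hEA (topC_one n)
      (hNb h5 hi hn hZ hF hTop)) hY hMev
  · by_cases hn3 : n ≤ 3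
    · exact v0C_three H hTop hF hn3
    · have h7 : n = 4 := by omega
      exact v0C_four H hTop hF h7 (h2 h7 hMic hn hZ hF hTop D hD hD1 hE' S P r P' Λ PB H)
        (h3 h7 hMic hn hZ hF hTop D hD hD1 hE' S P r P' Λ PB H)
  · filter_upwards [TwoX.big (fun i a1 a2 =>
      h1 hn hZ hF hTop D hD hD1 hE' S P r P' Λ PB H i a1 (by omega)) o] with g k1 R hS hst h8
    exact k1 R (Or.inr ⟨hst, hS, h8⟩)

/-- **`KP 4` from its parts**, ninth form. -/
theorem kp4_of9
    (hC : ∀ n, 2 ≤ n → n ≤ 4 → ∀ κ : List Kd, κ.length + 2 ≤ n → LCellV n (Kd.one :: κ))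
    (hCT : ∀ n, 3 ≤ n → n ≤ 4 → ∀ κ : List Kd, κ.length + 3 ≤ n → LCellT n (Kd.one :: κ))
    (hE1 : ∀ n, 2 ≤ n → n ≤ 4 → LEx1 n) (hE2 : ∀ n, 3 ≤ n → n ≤ 4 → LEx2 n)
    (hTp : ∀ n, 3 ≤ n → n ≤ 4 → LTopN n) (hNb : LNb 4) (hFc : LFc 4) (hFP : LFastP 4)
    (hEx : ∀ n, 2 ≤ n → n ≤ 4 → LExc n) (hA : LV0A 4) (hB : LV0B 4)
    (hM : ∀ n, 3 ≤ n → n ≤ 4 → LMevY n) : KP 4 := by
  refine kp_of_tol (by norm_num) (fun n a1 a2 a3 => ?_) (fun n a1 a2 a3 => ?_)
    fun n a1 a2 a3 => Tol.of_all fun η _ _ => topW_upto (fun _ => η) n a1 a2 a3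
  · have hBs : LBs n := by
      refine lBs_of9 a2 (hE1 n a1 a2) ?_ (fun h3 => lBaseT_of (hCT n h3 a2))
        (fun h3 => hTp n h3 a2) ?_ ?_
      · by_cases h3 : n = 2
        · subst h3
          exact lEx2_two
        · exact hE2 n (by omega) a2
      · have h3 : n = 2 ∨ n = 3 ∨ n = 4 := by omega
        rcases h3 with rfl | rfl | rfl
        · exact lFc_two
        · exact lFc_three
        · exact hFc
      · have h3 : n = 2 ∨ n = 3 ∨ n = 4 := by omega
        rcases h3 with rfl | rfl | rfl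
        · exact lFastP_two
        · exact lFastP_three
        · exact hFP
    refine ((hBs a3).and (two_of_cellsV (hC n a1 a2) a3)).mono fun η h => ?_
    intro hn hZ hF hTop D hD hD1 hE S P r P' Λ PB H
    exact classN_V (h.1 hn hZ hF hTop D hD hD1 hE S P r P' Λ PB H)
      (h.2 hn hZ hF hTop D hD hD1 hE S P r P' Λ PB H)
  · have hN : LNor n := by
      by_cases h3 : n = 2
      · subst h3
        refine fun _ => Tol.of_all fun _ _ _ _ => ?_
        intro hn hZ hF hTop D hD hD1 hE S P r P' Λ PB H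
        exact nore_two H hTop hF rfl
      · refine lNor_9 a2 (hC n a1 a2) (fun h4 => ?_) (fun h4 => ?_) (hE1 n a1 a2) (fun h4 => ?_)
          (hM n (by omega) a2)
        · subst h4
          exact hA
        · subst h4
          exact hB
        · subst h4
          exact hNb
    refine ((hEx n a1 a2 a3).and (hN a3)).mono fun η h hM' => ?_
    intro hn hZ hF hTop D hD hD1 hE S P r P' Λ PB H
    exact ⟨h.1 hM' hn hZ hF hTop D hD hD1 hE S P r P' Λ PB H,
      h.2 hM' hn hZ hF hTop D hD hD1 hE S P r P' Λ PB H⟩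

end Pool.ASM
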