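import Pool.Agent.H56.ASM.Sub
import Pool.Agent.H56.ASM.Fas
import Pool.Agent.H60.ASM.GnM

/-!
# Exactness in a subclass, at the thin windows with one contact coordinate which are not fast

`ExW`: the windows. `ExS`, `LExS n`: each package has a subclass with exactness at these windows. The
consequences are about boxes of the package, which are the same for the subclass: `vAll_nS`,
`vAll_tS`, `lBs_S`. `LTqT`, `LTpS`: the windows with a tie.
-/

set_option autoImplicit false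

namespace Pool.ASM

open MeasureTheory Set Filter Topology
open Pool.Agent.H49.Ent Pool.Agent.H32.Dense Pool.STK Pool.KA Pool.KSAT Pool.K2S Pool.PB
open Pool.GEN Pool.S6C Pool.GRW Pool.PKG Pool.STAT Pool.PM Pool.R1 Pool.Z4
open Pool.ONE (LocE Ext0 Ext rowN_of_ext)
open Pool.TOP (TopS rw_all)
open Pool.LEV (Law Lv)
open Pool.STR (NumI TopW Mac StaAt IsoAt StaU1 ThinAt SteepAt Rle)
open Pool.MIC6
open Pool.SW (TopC NtO OneS NoTie Rgh Xa TieO)
open Pool.MV (nore_ind8)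

section

variable {n : ℕ} {hn : 2 ≤ n} {S : PCl n} {P : ℝ → ℝ → ℝ} {r ρ : ℝ → ℝ}
  {P' : ℕ → List (Fin n) × Fin n → ℝ → ℝ → ℝ} {Λ : Finset (Fin n) → Fin n → ℝ → ℝ → ℝ}
  {PB : ℕ → List (Fin n) × Fin n → ℝ → ℝ → ℝ}

/-- **The windows where exactness is needed**: the target is thin, only one coordinate of the base is
a contact coordinate, and a coordinate of the base is neither contact nor fast. -/
def ExW (H : PkT hn S P r P' Λ PB) (hTop : TopS n) (hF : FZX (n - 1)) (o : Od n) (g : ℝ) : Prop :=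
  ThW hn P P' PB o g ∧ OneC n (slo H hTop hF o g) (deriv (fun a => P a a) g) ∧
    ¬ FasC n (slo H hTop hF o g) (deriv (fun a => P a a) g)

end

/-- **Exactness in a subclass**, for all packages and rates. -/
def ExS {n : ℕ} (hn : 2 ≤ n) (hTop : TopS n) (hF : FZX (n - 1)) : Prop :=
  ∀ (S : PCl n) (P : ℝ → ℝ → ℝ) (r : ℝ → ℝ) (P' : ℕ → List (Fin n) × Fin n → ℝ → ℝ → ℝ)
    (Λ : Finset (Fin n) → Fin n → ℝ → ℝ → ℝ) (PB : ℕ → List (Fin n) × Fin n → ℝ → ℝ → ℝ)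
    (H : PkT hn S P r P' Λ PB) (h : ℝ), 0 < h → h ≤ 1 → ∀ (ρ : ℝ → ℝ) (hρ : Rle r ρ),
    (∀ᵐ Q : ℝ, deriv ρ Q < 1 → h ≤ 1 - deriv r Q) →
    ∃ (S₁ : PCl n) (hne : S₁.Ne)
      (hs : ∀ (τ : ℝ) (J : ℕ) (F : Fam n J) (A : F.Ω → Prop), S₁.St τ J F A → S.St τ J F A),
      ExB (subc H hne hs) hTop hF hρ h (ExW H hTop hF)

/-- **Exactness in a subclass**, dimension `n`. -/
def LExS (n : ℕ) : Prop := (∀ k, 2 ≤ k → k < n → Ext0 k) → ∀ (hn : 2 ≤ n)
  (_ : ∀ k, 1 ≤ k → k < n → FZX k) (hF : FZX (n - 1)) (hTop : TopS n), ExS hn hTop hF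

/-- Exactness at all the windows with one contact coordinate. -/
theorem LEx1.s {n : ℕ} (h : LEx1 n) : LExS n := fun hi hn hZ hF hTop => by
  intro S P r P' Λ PB H h₀ h0 h1 ρ hρ hrow
  exact ⟨S, H.ne, fun _ _ _ _ h => h,
    (h hi hn hZ hF hTop S P r P' Λ PB H h₀ h0 h1 ρ hρ hrow).mono fun o =>
      Eventually.of_forall fun g _ hx => hx.2.1⟩

/-- **No boxes without ties** at the windows with one contact coordinate, for all packages. -/
theorem vAll_nS {n : ℕ} (h1 : LVoF n) (h2 : LExS n) (hi : ∀ k, 2 ≤ k → k < n → Ext0 k)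
    (hn : 2 ≤ n) (hZ : ∀ k, 1 ≤ k → k < n → FZX k) (hF : FZX (n - 1)) (hTop : TopS n) :
    VAll hn hTop hF (NtO n) := by
  intro S P r P' Λ PB H h h0 h1' ρ hρ hrow hW
  obtain ⟨S₁, hne, hs, h3⟩ := h2 hi hn hZ hF hTop S P r P' Λ PB H h h0 h1' ρ hρ hrow
  have h4 := noB_F h1 hi hn hZ hF hTop S₁ P r P' Λ PB (subc H hne hs) h h0 h1' ρ hρ hrow
  obtain ⟨p, hp⟩ := NoB.noBS (h := h) ((((noB_D (H := subc H hne hs) (hρ := hρ) (h := h)).or
    (noB_S (hρ := hρ) (h := h))).or ((noB_V (P := P) Pool.VAS.micV h0 h1' h3).or h4)).mono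
    fun o => by
      filter_upwards [hW o, H.mac_all H.pble hTop hF,
        NumI.rwD_chg (nk := H.nk hTop hF) hρ H.up (H.tgs.law ()) o] with g k1 k2 k3 R _
      obtain ⟨-, h5, h6⟩ := k1 R
      rcases le_or_gt (slN hn P P' o (n - 1) g) 1 with h7 | h7
      · exact Or.inl (Or.inl (Or.inl h7))
      rcases k2 o (k3 R).mem with h8 | h8
      swap
      · exact Or.inl (Or.inr h8)
      by_cases hf : FasC n (slo H hTop hF o g) (deriv (fun a => P a a) g)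
      · exact Or.inr (Or.inr ⟨⟨h7, h8⟩, hf⟩)
      · exact Or.inr (Or.inl ⟨noTie_ntW H h5, ⟨h7, h8⟩, ⟨by rwa [slN_tar] at h7, h6⟩, hf⟩))
    hrow h0
  exact ⟨p, Or.inr hp⟩

/-! ### The windows with a tie -/

/-- **No boxes at the windows `ExW` with a tie**, the target has the top slope; the exactness is a
hypothesis. -/
def LTq1 (n : ℕ) : Prop := (∀ k, 2 ≤ k → k < n → Ext0 k) →
  Tol fun η => AllX n η fun {hn} {_} {P} {_} {P'} {_} {_} H hTop hF h _ =>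
    ExB H hTop hF (H.rle h) h (ExW H hTop hF) →
    NoB H hTop hF (H.rle h) h fun o g => ExW H hTop hF o g ∧ TiW hn P P' o g ∧
      TopA n (slo H hTop hF o g) (deriv (fun a => P a a) g)

/-- **The ties with slopes at most two**: the windows `ExW` with a tie, the target has the top slope
and slope at most two; the exactness is a hypothesis. -/
def LTqT (n : ℕ) : Prop := (∀ k, 2 ≤ k → k < n → Ext0 k) →
  Tol fun η => AllX n η fun {hn} {_} {P} {_} {P'} {_} {_} H hTop hF h _ =>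
    ExB H hTop hF (H.rle h) h (ExW H hTop hF) →
    NoB H hTop hF (H.rle h) h fun o g => (ExW H hTop hF o g ∧ TiW hn P P' o g ∧
      TopA n (slo H hTop hF o g) (deriv (fun a => P a a) g)) ∧ deriv (fun a => P a a) g ≤ 2

/-- **The ties with slopes larger than two**, and a slow coordinate of the base, for all packages; the
exactness is a hypothesis. -/
def LTpS (n : ℕ) : Prop :=
  AllP n fun {hn} {_} {P} {_} {P'} {_} {_} {_} H hTop hF h hρ =>
    ExB H hTop hF hρ h (ExW H hTop hF) →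
    NoB H hTop hF hρ h fun o g => (ExW H hTop hF o g ∧ TiW hn P P' o g ∧
      TopA n (slo H hTop hF o g) (deriv (fun a => P a a) g)) ∧ 2 < deriv (fun a => P a a) g

theorem lTq1_of {n : ℕ} (h1 : LTqT n) (h2 : LTpS n) : LTq1 n := fun hi => by
  refine ((h1 hi).and (Tol.le (1 / 2) (by norm_num))).mono fun η hη => ?_
  obtain ⟨hη1, h5⟩ := hη
  intro hn hZ hF hTop D hD hD1 hEx
  have e1 := h5 D hD
  obtain ⟨x₁, a1, b1⟩ := hη1 hn hZ hF hTop D hD hD1 hEx
  refine ⟨x₁, a1, fun x h3 h4 S P r P' Λ PB H hE => ?_⟩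
  refine ((b1 x h3 h4 S P r P' Λ PB H hE).or
    (h2 hi hn hZ hF hTop S P r P' Λ PB H ((1 - η D) * D) (mul_pos (by linarith) hD)
      (by nlinarith) _ (H.rle ((1 - η D) * D)) (rt_def H.rate.lip H.rate.mono _) hE)).mono
      fun o => Eventually.of_forall fun g _ hx => ?_
  rcases le_or_gt (deriv (fun a => P a a) g) 2 with h5 | h5
  · exact Or.inl ⟨hx, h5⟩
  · exact Or.inr ⟨hx, h5⟩

/-- In dimension three the ties with slope larger than two are in `FasC`. -/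
theorem lTpS_three : LTpS 3 := by
  intro hi hn hZ hF hTop S P r P' Λ PB H h hh hh1 ρ hρ hrow _
  refine noB_false fun o => ?_
  filter_upwards [one_zero H hTop hF o,
    NumI.rwD_chg (nk := H.nk hTop hF) hρ H.up (H.tgs.law ()) o] with g k k3 R hx
  obtain ⟨⟨hW, ⟨l, l1, l2⟩, -⟩, h5⟩ := hx
  have h0 : slN hn P P' o 0 g = 1 := by
    rw [slN_lvl o (by omega)]
    exact k (k3 R).mem
  have hs : 1 < slN hn P P' o (3 - 1) g := hW.1.1
  have hl : 1 ≤ l := by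
    by_contra h1
    obtain rfl : l = 0 := by omega
    rw [h0] at l2
    rw [← l2] at hs
    exact absurd hs (lt_irrefl _)
  refine hW.2.2 fun i => ?_
  have hi2 := i.2
  rcases Nat.eq_zero_or_pos (i : ℕ) with h1 | h1
  · left
    rw [slo_slN, h1]
    exact h0
  · right
    rw [slo_slN, show (i : ℕ) = l by omega, l2, slN_tar]
    exact ⟨h5, by nlinarith⟩

/-- **No boxes at the rough windows with slopes in `TopC`**, for all packages. -/
theorem vAll_tS {n : ℕ} (h1 : LVoF n) (h2 : LExS n) (hTp : LTpS n)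
    (hi : ∀ k, 2 ≤ k → k < n → Ext0 k) (hn : 2 ≤ n) (hZ : ∀ k, 1 ≤ k → k < n → FZX k)
    (hF : FZX (n - 1)) (hTop : TopS n) : VAll hn hTop hF (TopC n) := by
  intro S P r P' Λ PB H h h0 h1' ρ hρ hrow hW
  obtain ⟨S₁, hne, hs, h3⟩ := h2 hi hn hZ hF hTop S P r P' Λ PB H h h0 h1' ρ hρ hrow
  have h4 := noB_F h1 hi hn hZ hF hTop S₁ P r P' Λ PB (subc H hne hs) h h0 h1' ρ hρ hrow
  have h5 := hTp hi hn hZ hF hTop S₁ P r P' Λ PB (subc H hne hs) h h0 h1' ρ hρ hrow h3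
  obtain ⟨p, hp⟩ := NoB.noBS (h := h) (((noB_S (H := subc H hne hs) (hρ := hρ) (h := h)).or
    ((noB_V (P := P) Pool.VAS.micV h0 h1' h3).or (h4.or h5))).mono fun o => by
      filter_upwards [hW o, H.mac_all H.pble hTop hF,
        NumI.rwD_chg (nk := H.nk hTop hF) hρ H.up (H.tgs.law ()) o] with g k1 k2 k3 R _
      obtain ⟨-, hT⟩ := k1 R
      have hO := topC_one n _ _ hT
      have h7 : 1 < slN hn P P' o (n - 1) g := by
        rw [slN_tar]
        linarith [hT.1]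
      rcases k2 o (k3 R).mem with h8 | h8
      swap
      · exact Or.inl h8
      by_cases hf : FasC n (slo H hTop hF o g) (deriv (fun a => P a a) g)
      · exact Or.inr (Or.inr (Or.inl ⟨⟨h7, h8⟩, hf⟩))
      have hE : ExW H hTop hF o g := ⟨⟨h7, h8⟩, ⟨by rwa [slN_tar] at h7, hO⟩, hf⟩
      by_cases hti : TiW hn P P' o g
      · exact Or.inr (Or.inr (Or.inr ⟨⟨hE, hti, by linarith [hT.1], fun i => (hT.2 i).1⟩, hT.1⟩))
      · exact Or.inr (Or.inl ⟨fun l hl h9 => hti ⟨l, hl, h9⟩, hE⟩)) hrow h0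
  exact ⟨p, Or.inr hp⟩

/-! ### The boxes -/

section

variable {n : ℕ} {hn : 2 ≤ n} {S : PCl n} {P : ℝ → ℝ → ℝ} {r ρ : ℝ → ℝ}
  {P' : ℕ → List (Fin n) × Fin n → ℝ → ℝ → ℝ} {Λ : Finset (Fin n) → Fin n → ℝ → ℝ → ℝ}
  {PB : ℕ → List (Fin n) × Fin n → ℝ → ℝ → ℝ}

/-- **The windows with a tie and a coordinate faster than the target** which are not fast. -/
def FtW (H : PkT hn S P r P' Λ PB) (hTop : TopS n) (hF : FZX (n - 1)) (o : Od n) (g : ℝ) : Prop :=
  (TieT hn P P' PB o g ∧ ¬ TopA n (slo H hTop hF o g) (deriv (fun a => P a a) g)) ∧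
    ¬ FasC n (slo H hTop hF o g) (deriv (fun a => P a a) g)

end

/-- **The closed lower bound** at the windows with a tie and a coordinate faster than the target. -/
def LFcS (n : ℕ) : Prop := (∀ k, 2 ≤ k → k < n → Ext0 k) →
  Tol fun η => AllX n η fun {_} {_} {_} {_} {_} {_} {_} H hTop hF h x =>
    FcB H hTop hF (H.rle h) h x (FtW H hTop hF)

/-- **No boxes at the windows with a tie and a faster coordinate** which are not covered by P4 and
P5. -/
def LFastS (n : ℕ) : Prop := (∀ k, 2 ≤ k → k < n → Ext0 k) →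
  Tol fun η => AllX n η fun {hn} {_} {P} {_} {P'} {_} {PB} H hTop hF h _ =>
    NoB H hTop hF (H.rle h) h fun o g => FtW H hTop hF o g ∧ ¬ CovW hn P P' PB o g

theorem LFc.s {n : ℕ} (h : LFc n) : LFcS n := fun hi => by
  refine (h hi).mono fun η h1 => ?_
  intro hn hZ hF hTop D hD hD1 hEx
  obtain ⟨x₀, a0, b0⟩ := h1 hn hZ hF hTop D hD hD1 hEx
  refine ⟨x₀, a0, fun x h3 h4 S P r P' Λ PB H => ?_⟩
  obtain ⟨ι, f, K, k1, k2⟩ := b0 x h3 h4 S P r P' Λ PB H
  exact ⟨ι, f, K, k1, k2.mono fun o => Eventually.of_forall fun g _ hx => hx.1⟩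

theorem LFastP.s {n : ℕ} (h : LFastP n) : LFastS n := fun hi => by
  refine (h hi).mono fun η h1 => ?_
  intro hn hZ hF hTop D hD hD1 hEx
  obtain ⟨x₀, a0, b0⟩ := h1 hn hZ hF hTop D hD hD1 hEx
  refine ⟨x₀, a0, fun x h3 h4 S P r P' Λ PB H => ?_⟩
  exact (b0 x h3 h4 S P r P' Λ PB H).mono fun o =>
    Eventually.of_forall fun g _ hx => ⟨hx.1.1, hx.2⟩

/-- **No boxes** from their parts, `n ≥ 3`. -/
theorem lBs_S {n : ℕ} (hn3 : 3 ≤ n) (hn4 : n ≤ 4) (hVF : LVoF n) (hE1 : LExS n) (hTw : LTwA n)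
    (hTq : LTq1 n) (hFc : LFcS n) (hFP : LFastS n) (c1 : n = 4 → LCellF n [Kd.one])
    (c2 : n = 4 → LCellF n [Kd.one, Kd.thin]) (c3 : n = 4 → LCellF n [Kd.one, Kd.sta]) :
    LBs n := fun hi => by
  refine ((lFaW_ths hn4 c1 c2 c3 hi).and ((hTq hi).and ((hFc hi).and ((hFP hi).and
    ((tol_micX (n := n - 1 + 1) (B₀ := n + 2) (by omega) (by omega)).and
      (Tol.le (1 / 2) (by norm_num))))))).mono fun η h => ?_
  obtain ⟨h1, h2, h3, h4, h6, h5⟩ := h
  intro hn hZ hF hTop D hD hD1 hEx S P r P' Λ PB H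
  have e1 := h5 D hD
  obtain ⟨h, hh'⟩ : ∃ h, h = (1 - η D) * D := ⟨_, rfl⟩
  have hh : 0 < h := by
    rw [hh']
    exact mul_pos (by linarith) hD
  have hh1 : h ≤ 1 := by
    rw [hh']
    nlinarith
  obtain ⟨S', PW, H', hPW⟩ := H.subW
  obtain ⟨S₁, hne, hs, hEA⟩ := hE1 hi hn hZ hF hTop S' P r P' Λ PB H' h hh hh1 _ (H'.rle h)
    (rt_def H'.rate.lip H'.rate.mono _)
  obtain ⟨H₁, hH₁⟩ : ∃ H₁ : PkT hn S₁ P r P' Λ PB, H₁ = subc H' hne hs := ⟨_, rfl⟩
  have hEA' : ExB H₁ hTop hF (H₁.rle h) h (ExW H₁ hTop hF) := hEA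
  have hPW' : ∀ j, Pool.LBT.ThrOf (Pool.CHB.chsysB n none (P' j)) S₁ (PW j) := fun j => (hPW j).sub hs
  obtain ⟨x₄, a4, b4⟩ := h2 hn hZ hF hTop D hD hD1 hEx
  obtain ⟨x₁, a1, b1⟩ := h3 hn hZ hF hTop D hD hD1 hEx
  obtain ⟨x₂, a2, b2⟩ := h4 hn hZ hF hTop D hD hD1 hEx
  obtain ⟨x₃, a3, b3⟩ := h6 D hD hD1
  obtain ⟨x, hx⟩ : ∃ x, x = min x₄ (min x₁ (min x₂ x₃)) := ⟨_, rfl⟩
  have hx0 : (1 + η D) * D < x := by
    rw [hx]
    exact lt_min a4 (lt_min a1 (lt_min a2 a3))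
  have hxa : x ≤ x₄ := by
    rw [hx]
    exact min_le_left _ _
  have hxb : x ≤ min x₁ (min x₂ x₃) := by
    rw [hx]
    exact min_le_right _ _
  have hx1 : x ≤ x₁ := hxb.trans (min_le_left _ _)
  have hx2 : x ≤ x₂ := hxb.trans ((min_le_right _ _).trans (min_le_left _ _))
  have hx3 : x ≤ x₃ := hxb.trans ((min_le_right _ _).trans (min_le_right _ _))
  obtain ⟨hp4, hp5⟩ := b3 x hx3
  have hTo := b4 x hx0 hxa S₁ P r P' Λ PB H₁
  have hFc' := b1 x hx0 hx1 S₁ P r P' Λ PB H₁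
  have hLe := b2 x hx0 hx2 S₁ P r P' Λ PB H₁
  have hFa := h1 hn hZ hF hTop D hD hD1 hEx S₁ P r P' Λ PB H₁
  rw [← hh'] at hTo hFc' hLe hp4 hp5 hFa
  rw [← hh']
  have hTo' := hTo hEA'
  have hrow := rt_def H₁.rate.lip H₁.rate.mono h
  have hVF' := noB_F hVF hi hn hZ hF hTop S₁ P r P' Λ PB H₁ h hh hh1 _ (H₁.rle h) hrow
  have hTw' := hTw hi hn hZ hF hTop S₁ P r P' Λ PB H₁ h hh hh1 _ (H₁.rle h) hrow
  -- the windows with a tie and a faster coordinate
  have hfast : NoB H₁ hTop hF (H₁.rle h) h (FtW H₁ hTop hF) := by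
    refine ((noB_P (H := H₁) (hρ := H₁.rle h) hh hh1 hp4 hp5 hPW' hEA' hFc').or hLe).mono
      fun o => ?_
    filter_upwards [fast_one hn4 H₁ hTop hF o] with g k1 R hX
    by_cases hc : CovW hn P P' PB o g
    · exact Or.inl ⟨⟨hX.1.1, hc⟩, ⟨⟨hX.1.1.one, hX.1.1.thin⟩, k1 R.mem hX.1.1 hX.1.2, hX.2⟩, hX⟩
    · exact Or.inr ⟨hX, hc⟩
  have hall : NoB H₁ hTop hF (H₁.rle h) h (ThW hn P P' PB) := by
    refine ((hVF'.or hTw').or ((noB_V (P := P) (P' := P') Pool.VAS.micV hh hh1 hEA').or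
      (hTo'.or hfast))).mono fun o => ?_
    filter_upwards [hFa o, H₁.rwH_chg hTop hF h o] with g k1 k2 R hX
    by_cases hf : FasC n (slo H₁ hTop hF o g) (deriv (fun a => P a a) g)
    · exact Or.inl (Or.inl ⟨hX, hf⟩)
    by_cases hO : OneS n (slo H₁ hTop hF o g)
    swap
    · exact Or.inl (Or.inr ⟨hX, hO⟩)
    have hC : OneC n (slo H₁ hTop hF o g) (deriv (fun a => P a a) g) :=
      ⟨by
        have := hX.1
        rwa [slN_tar] at this, hO⟩
    have hW : ExW H₁ hTop hF o g := ⟨hX, hC, hf⟩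
    by_cases hti : TiW hn P P' o g
    · by_cases hA : TopA n (slo H₁ hTop hF o g) (deriv (fun a => P a a) g)
      · exact Or.inr (Or.inr (Or.inl ⟨hW, hti, hA⟩))
      · exact Or.inr (Or.inr (Or.inr ⟨⟨k1 (k2 R) ⟨hX, hti, hA⟩, hA⟩, hf⟩))
    · exact Or.inr (Or.inl ⟨fun l hl h5 => hti ⟨l, hl, h5⟩, hW⟩)
  obtain ⟨p, hp⟩ := noB_thin hall hrow hh
  exact ⟨p, Or.inr hp⟩

end Pool.ASM
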