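import Pool.Agent.H56.ASM.Sk14

/-!
# No boxes with more than one contact coordinate, for all packages

`TwS n s σ`: the target has slope larger than one and another coordinate of the base than the first
has slope one. `LTwA n`: no boxes at the thin windows with more than one contact coordinate, for all
packages and all rates (also rows which are not extremal). Its pieces: `LVoA n`: all coordinates of the
base are contact coordinates, such windows do not occur; `LTvA n`: no ties; `LTp2A n`: a tie.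
`vAll_two`: no boxes at the rough windows with slopes in `TwS n`, for all packages.
-/

set_option autoImplicit false

namespace Pool.ASM

open MeasureTheory Set Filter Topology
open Pool.Agent.H49.Ent Pool.Agent.H32.Dense Pool.STK Pool.KA Pool.KSAT Pool.K2S Pool.PB
open Pool.GEN Pool.S6C Pool.GRW Pool.PKG Pool.STAT Pool.PM Pool.R1 Pool.Z4
open Pool.ONE (LocE Ext0 Ext rowN_of_ext)
open Pool.TOP (TopS rw_all)
open Pool.LEV (Law Lv)
open Pool.STR (NumI TopW Mac StaAt IsoAt StaU1 ThinAt SteepAt Rle ae_rowD ae_dia)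
open Pool.MIC6
open Pool.SW (TopC NtO OneS NoTie Rgh Xa TieO)

/-- **More than one contact coordinate.** -/
def TwS (n : ℕ) (s : Fin (n - 1) → ℝ) (σ : ℝ) : Prop := 1 < σ ∧ ¬ OneS n s

theorem twS_meas (n : ℕ) : MeasurableSet {p : (Fin (n - 1) → ℝ) × ℝ | TwS n p.1 p.2} := by
  have h1 : {p : (Fin (n - 1) → ℝ) × ℝ | TwS n p.1 p.2} =
      {p : (Fin (n - 1) → ℝ) × ℝ | 1 < p.2} ∩
      (⋂ i : Fin (n - 1), {p : (Fin (n - 1) → ℝ) × ℝ | 1 ≤ (i : ℕ) → 1 < p.1 i})ᶜ := by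
    ext p
    simp only [TwS, OneS, Set.mem_ofPred_eq, Set.mem_iInter, Set.mem_inter_iff, Set.mem_compl_iff]
  rw [h1]
  refine (measurableSet_lt measurable_const measurable_snd).inter
    (MeasurableSet.iInter fun i => ?_).compl
  by_cases hi : 1 ≤ (i : ℕ)
  · simp only [hi, true_imp_iff]
    exact measurableSet_lt measurable_const ((measurable_pi_apply i).comp measurable_fst)
  · simp only [hi, false_imp_iff]
    exact MeasurableSet.univ

/-- A statement for all packages and all rates. -/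
def AllP (n : ℕ) (Q : ∀ {hn : 2 ≤ n} {S : PCl n} {P : ℝ → ℝ → ℝ} {r : ℝ → ℝ}
    {P' : ℕ → List (Fin n) × Fin n → ℝ → ℝ → ℝ} {Λ : Finset (Fin n) → Fin n → ℝ → ℝ → ℝ}
    {PB : ℕ → List (Fin n) × Fin n → ℝ → ℝ → ℝ} {ρ : ℝ → ℝ},
    PkT hn S P r P' Λ PB → TopS n → FZX (n - 1) → ℝ → Rle r ρ → Prop) : Prop :=
  (∀ k, 2 ≤ k → k < n → Ext0 k) → ∀ (hn : 2 ≤ n) (_ : ∀ k, 1 ≤ k → k < n → FZX k)
    (hF : FZX (n - 1)) (hTop : TopS n) (S : PCl n) (P : ℝ → ℝ → ℝ) (r : ℝ → ℝ)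
    (P' : ℕ → List (Fin n) × Fin n → ℝ → ℝ → ℝ) (Λ : Finset (Fin n) → Fin n → ℝ → ℝ → ℝ)
    (PB : ℕ → List (Fin n) × Fin n → ℝ → ℝ → ℝ) (H : PkT hn S P r P' Λ PB) (h : ℝ), 0 < h →
    h ≤ 1 → ∀ (ρ : ℝ → ℝ) (hρ : Rle r ρ), (∀ᵐ Q : ℝ, deriv ρ Q < 1 → h ≤ 1 - deriv r Q) →
    Q H hTop hF h hρ

/-- **No boxes at the thin windows with more than one contact coordinate**, for all packages. -/
def LTwA (n : ℕ) : Prop :=
  AllP n fun {hn} {_} {P} {_} {P'} {_} {PB} {_} H hTop hF h hρ =>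
    NoB H hTop hF hρ h fun o g => ThW hn P P' PB o g ∧ ¬ OneS n (slo H hTop hF o g)

/-- **The thin windows where all coordinates of the base are contact coordinates** do not occur, for
all packages and all deficits. -/
def LVoA (n : ℕ) : Prop :=
  (∀ k, 2 ≤ k → k < n → Ext0 k) → ∀ (hn : 2 ≤ n) (_ : ∀ k, 1 ≤ k → k < n → FZX k)
    (hF : FZX (n - 1)) (hTop : TopS n) (S : PCl n) (P : ℝ → ℝ → ℝ) (r : ℝ → ℝ)
    (P' : ℕ → List (Fin n) × Fin n → ℝ → ℝ → ℝ) (Λ : Finset (Fin n) → Fin n → ℝ → ℝ → ℝ)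
    (PB : ℕ → List (Fin n) × Fin n → ℝ → ℝ → ℝ) (H : PkT hn S P r P' Λ PB) (h : ℝ), 0 < h →
    h ≤ 1 → ∀ o : Od n, ∀ᵐ g : ℝ, RwH H hTop hF h o g → ThW hn P P' PB o g →
      (∀ i, slo H hTop hF o g i = 1) → False

/-- **No ties**, more than one contact coordinate and a coordinate of the base of slope larger than
one, for all packages. -/
def LTvA (n : ℕ) : Prop :=
  AllP n fun {hn} {_} {P} {_} {P'} {_} {PB} {_} H hTop hF h hρ =>
    NoB H hTop hF hρ h fun o g => ThW hn P P' PB o g ∧ NtW hn P P' o g ∧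
      ¬ OneS n (slo H hTop hF o g) ∧ ∃ i, 1 < slo H hTop hF o g i

/-- **A tie**, more than one contact coordinate, for all packages. -/
def LTp2A (n : ℕ) : Prop :=
  AllP n fun {hn} {_} {P} {_} {P'} {_} {PB} {_} H hTop hF h hρ =>
    NoB H hTop hF hρ h fun o g => ThW hn P P' PB o g ∧ TiW hn P P' o g ∧
      ¬ OneS n (slo H hTop hF o g)

section

variable {n : ℕ} {hn : 2 ≤ n} {S : PCl n} {P : ℝ → ℝ → ℝ} {r ρ : ℝ → ℝ}
  {P' : ℕ → List (Fin n) × Fin n → ℝ → ℝ → ℝ} {Λ : Finset (Fin n) → Fin n → ℝ → ℝ → ℝ}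
  {PB : ℕ → List (Fin n) × Fin n → ℝ → ℝ → ℝ}

/-- **The windows of the nonfull rows of `ρ`** have deficits more than `h'`, for each `h' < h`. -/
theorem rwH_rho (H : PkT hn S P r P' Λ PB) (hTop : TopS n) (hF : FZX (n - 1)) (hρ : Rle r ρ)
    {h h' : ℝ} (hh : h' < h) (hrow : ∀ᵐ Q : ℝ, deriv ρ Q < 1 → h ≤ 1 - deriv r Q) (o : Od n) :
    ∀ᵐ g : ℝ, ((H.nk hTop hF).chg hρ H.up).RwD o g → RwH H hTop hF h' o g := by
  filter_upwards [NumI.rwD_chg (nk := H.nk hTop hF) hρ H.up (H.tgs.law ()) o,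
    ae_dia (H.tgs.law ()) hrow] with g h1 h2 R
  have R' := h1 R
  have hdg : (H.nk hTop hF).dg o (n - 1) = fun a => P a a := (H.nk hTop hF).dg_m o
  have hone : 1 ≤ deriv (fun a => P a a) g := by
    have h3 := R'.one (n - 1) le_rfl
    rwa [hdg] at h3
  have hdif : DifferentiableAt ℝ (fun a => P a a) g := by
    have h3 := R'.dif (n - 1) le_rfl
    rwa [hdg] at h3
  have h4 := h2 R'.g0 R'.g1 hdif (by linarith) R.rlt
  exact ⟨R', by linarith⟩

end

/-- **No boxes** from the pieces. -/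
theorem lTwA_of {n : ℕ} (h1 : LVoA n) (h2 : LTvA n) (h3 : LTp2A n) : LTwA n := by
  intro hi hn hZ hF hTop S P r P' Λ PB H h hh hh1 ρ hρ hrow
  have hv : NoB H hTop hF hρ h fun o g =>
      ThW hn P P' PB o g ∧ ∀ i, slo H hTop hF o g i = 1 := noB_false fun o => by
    filter_upwards [h1 hi hn hZ hF hTop S P r P' Λ PB H (h / 2) (by linarith) (by linarith) o,
      rwH_rho H hTop hF hρ (h' := h / 2) (by linarith) hrow o] with g k1 k2 R hx
    exact k1 (k2 R) hx.1 hx.2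
  refine (((h2 hi hn hZ hF hTop S P r P' Λ PB H h hh hh1 ρ hρ hrow).or
    (h3 hi hn hZ hF hTop S P r P' Λ PB H h hh hh1 ρ hρ hrow)).or hv).mono fun o => ?_
  filter_upwards [slo_ge H hTop hF hρ o] with g k3 R hx
  by_cases hex : ∃ i, 1 < slo H hTop hF o g i
  · by_cases ht : TiW hn P P' o g
    · exact Or.inl (Or.inr ⟨hx.1, ht, hx.2⟩)
    · refine Or.inl (Or.inl ⟨hx.1, fun l hl h4 => ht ⟨l, hl, h4⟩, hx.2, hex⟩)
  · push Not at hex
    exact Or.inr ⟨hx.1, fun i => le_antisymm (hex i) (k3 R i)⟩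

/-- In dimension three a second contact coordinate leaves no other coordinate. -/
theorem lTvA_three : LTvA 3 := by
  intro hi hn hZ hF hTop S P r P' Λ PB H h hh hh1 ρ hρ hrow
  refine noB_false fun o => ?_
  filter_upwards [slo_ge H hTop hF hρ o, one_zero H hTop hF o,
    NumI.rwD_chg (nk := H.nk hTop hF) hρ H.up (H.tgs.law ()) o] with g k3 k4 k5 R hx
  obtain ⟨-, -, hno, i, hi'⟩ := hx
  have h0 : slo H hTop hF o g ⟨0, by norm_num⟩ = 1 := by
    rw [slo_slN]
    show slN hn P P' o 0 g = 1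
    rw [slN_lvl o (by omega)]
    exact k4 (k5 R).mem
  refine hno fun j hj => ?_
  have hi2 := i.2
  have hj2 := j.2
  rcases Nat.eq_zero_or_pos (i : ℕ) with h1 | h1
  · have e : i = ⟨0, by norm_num⟩ := Fin.ext h1
    rw [e, h0] at hi'
    exact absurd hi' (lt_irrefl _)
  · have e : j = i := Fin.ext (by omega)
    rw [e]
    exact hi'

theorem lTp2A_three : LTp2A 3 := by
  intro hi hn hZ hF hTop S P r P' Λ PB H h hh hh1 ρ hρ hrow
  refine noB_false fun o => ?_
  filter_upwards [slo_ge H hTop hF hρ o, one_zero H hTop hF o,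
    NumI.rwD_chg (nk := H.nk hTop hF) hρ H.up (H.tgs.law ()) o] with g k3 k4 k5 R hx
  obtain ⟨hth, ⟨l, l1, l2⟩, hno⟩ := hx
  have h0 : slN hn P P' o 0 g = 1 := by
    rw [slN_lvl o (by omega)]
    exact k4 (k5 R).mem
  have hs : 1 < slN hn P P' o (3 - 1) g := hth.1
  rcases Nat.eq_zero_or_pos l with h1 | h1
  · rw [h1, h0] at l2
    rw [← l2] at hs
    exact absurd hs (lt_irrefl _)
  · refine hno fun j hj => ?_
    have hj2 := j.2
    rw [slo_slN, show (j : ℕ) = l by omega, l2]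
    exact hs

theorem lTwA_three (h1 : LVoA 3) : LTwA 3 := lTwA_of h1 lTvA_three lTp2A_three

/-- The extremal rows. -/
theorem LTwA.lTw {n : ℕ} (hA : LTwA n) : LTw n := fun hi => by
  refine (Tol.le (1 / 2) (by norm_num)).mono fun η h5 => ?_
  intro hn hZ hF hTop D hD hD1 hEx
  have e1 := h5 D hD
  refine ⟨(1 + η D) * D + 1, by linarith, fun x _ _ S P r P' Λ PB H => ?_⟩
  refine (hA hi hn hZ hF hTop S P r P' Λ PB H ((1 - η D) * D) (mul_pos (by linarith) hD)
    (by nlinarith) _ (H.rle ((1 - η D) * D)) (rt_def H.rate.lip H.rate.mono _)).mono fun o =>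
      Eventually.of_forall fun g _ hx => ⟨hx.1, hx.2.2⟩

theorem LTwA.lTp2 {n : ℕ} (hA : LTwA n) : LTp2 n := fun hi => by
  refine (Tol.le (1 / 2) (by norm_num)).mono fun η h5 => ?_
  intro hn hZ hF hTop D hD hD1 hEx
  have e1 := h5 D hD
  refine ⟨(1 + η D) * D + 1, by linarith, fun x _ _ S P r P' Λ PB H => ?_⟩
  refine (hA hi hn hZ hF hTop S P r P' Λ PB H ((1 - η D) * D) (mul_pos (by linarith) hD)
    (by nlinarith) _ (H.rle ((1 - η D) * D)) (rt_def H.rate.lip H.rate.mono _)).mono fun o =>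
      Eventually.of_forall fun g _ hx => ⟨hx.1.1, hx.2⟩

/-- **No boxes at the rough windows with more than one contact coordinate**, for all packages. -/
theorem vAll_two {n : ℕ} (hA : LTwA n) (hi : ∀ k, 2 ≤ k → k < n → Ext0 k) (hn : 2 ≤ n)
    (hZ : ∀ k, 1 ≤ k → k < n → FZX k) (hF : FZX (n - 1)) (hTop : TopS n) :
    VAll hn hTop hF (TwS n) := by
  intro S P r P' Λ PB H h h0 h1 ρ hρ hrow hW
  have h2 := hA hi hn hZ hF hTop S P r P' Λ PB H h h0 h1 ρ hρ hrow
  obtain ⟨p, hp⟩ := NoB.noBS (h := h) ((((noB_D (H := H) (hTop := hTop) (hF := hF) (hρ := hρ)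
    (h := h)).or (noB_S (hρ := hρ) (h := h))).or h2).mono fun o => by
      filter_upwards [hW o, H.mac_all H.pble hTop hF,
        NumI.rwD_chg (nk := H.nk hTop hF) hρ H.up (H.tgs.law ()) o] with g k1 k2 k3 R _
      obtain ⟨-, h4, h5⟩ := k1 R
      rcases le_or_gt (slN hn P P' o (n - 1) g) 1 with h6 | h6
      · exact Or.inl (Or.inl (Or.inl h6))
      rcases k2 o (k3 R).mem with h7 | h7
      · exact Or.inr ⟨⟨h6, h7⟩, h5⟩
      · exact Or.inl (Or.inr h7)) hrow h0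
  exact ⟨p, Or.inr hp⟩

end Pool.ASM
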