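import Pool.Agent.H56.ASM.Sk12

/-!
# The parts of `KP 4`, thirteenth form

As `kp4_of12`; the cells are listed one by one. `LCellR n`: all coordinates of the base are contact
coordinates and the target is the coordinate of the cell.
-/

set_option autoImplicit false

namespace Pool.ASM

open Pool.KA Pool.PKG Pool.GEN Pool.K2S

/-- The cell of the target over contact coordinates. -/
def LCellR (n : ℕ) : Prop := LCellV n (List.replicate (n - 1) Kd.one)

/-- **`KP 4` from its parts**, thirteenth form. -/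
theorem kp4_of13
    (cR : ∀ n, 3 ≤ n → n ≤ 4 → LCellR n) (c11 : LCellV 4 [Kd.one, Kd.one])
    (cT : ∀ n, 3 ≤ n → n ≤ 4 → LCellA n [Kd.one, Kd.thin])
    (cS : ∀ n, 3 ≤ n → n ≤ 4 → LCellA n [Kd.one, Kd.sta])
    (c11t : LCellV 4 [Kd.one, Kd.one, Kd.thin]) (c11s : LCellV 4 [Kd.one, Kd.one, Kd.sta])
    (c1t1 : LCellV 4 [Kd.one, Kd.thin, Kd.one]) (c1s1 : LCellV 4 [Kd.one, Kd.sta, Kd.one])
    (c1tt : LCellV 4 [Kd.one, Kd.thin, Kd.thin]) (c1ts : LCellV 4 [Kd.one, Kd.thin, Kd.sta])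
    (c1st : LCellV 4 [Kd.one, Kd.sta, Kd.thin]) (c1ss : LCellV 4 [Kd.one, Kd.sta, Kd.sta])
    (hE1 : ∀ n, 2 ≤ n → n ≤ 4 → LEx1 n) (hV3 : LVo 3) (hV4 : LVo 4) (hTv : LTv 4)
    (hTp : ∀ n, 3 ≤ n → n ≤ 4 → LTp n) (hNb : LNb 4) (hFc : LFc 4) (hFP : LFastP 4)
    (hEx : ∀ n, 2 ≤ n → n ≤ 4 → LExc n) (hA : LV0A 4) (hB : LV0B 4)
    (hM : ∀ n, 3 ≤ n → n ≤ 4 → LMevY n) : KP 4 := by
  refine kp4_of12 (fun n h1 h2 k => ?_) (fun k k' => ?_) (cT 4 (by omega) le_rfl).f
    (cS 4 (by omega) le_rfl).f hE1 hV3 hV4 hTv hTp hNb hFc hFP hEx hA hB hM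
  · cases k with
    | one =>
      have h3 : n = 3 ∨ n = 4 := by omega
      rcases h3 with rfl | rfl
      · exact cR 3 le_rfl (by omega)
      · exact c11
    | thin => exact (cT n h1 h2).v
    | sta => exact (cS n h1 h2).v
  · cases k with
    | one =>
      cases k' with
      | one => exact cR 4 (by omega) le_rfl
      | thin => exact c11t
      | sta => exact c11s
    | thin =>
      cases k' with
      | one => exact c1t1
      | thin => exact c1tt
      | sta => exact c1ts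
    | sta =>
      cases k' with
      | one => exact c1s1
      | thin => exact c1st
      | sta => exact c1ss

end Pool.ASM
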