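import Pool.Agent.H56.ASM.ExS

/-!
# The thin windows whose base coordinates are contact or visible, all slopes

`FasG`: the slopes `s` of the base are one or satisfy `(s - 1) (σ - 1) > 1`. `LVoG n`: there are no
thin windows with these slopes. `LTvC`, `LTp2C`, `LTpR`: the leaves which are left beside `LVoG`.
-/

set_option autoImplicit false

namespace Pool.ASM

open MeasureTheory Set Filter Topology
open Pool.Agent.H49.Ent Pool.Agent.H32.Dense Pool.STK Pool.KA Pool.KSAT Pool.K2S Pool.PB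
open Pool.GEN Pool.S6C Pool.GRW Pool.PKG Pool.STAT Pool.PM Pool.R1 Pool.Z4
open Pool.ONE (LocE Ext0 Ext rowN_of_ext)
open Pool.TOP (TopS rw_all)
open Pool.LEV (Law Lv)
open Pool.STR (NumI TopW Mac StaAt IsoAt StaU1 ThinAt SteepAt Rle)
open Pool.MIC6
open Pool.SW (TopC NtO OneS NoTie Rgh Xa TieO)

/-- The slopes of the base are one or satisfy `(s - 1) (σ - 1) > 1`. -/
def FasG (n : ℕ) (s : Fin (n - 1) → ℝ) (σ : ℝ) : Prop :=
  ∀ i, s i = 1 ∨ 1 < (s i - 1) * (σ - 1)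

theorem FasC.g {n : ℕ} {s : Fin (n - 1) → ℝ} {σ : ℝ} (h : FasC n s σ) : FasG n s σ :=
  fun i => (h i).imp id And.right

/-- **The thin windows with contact and visible coordinates of the base** do not occur, for all
packages and all deficits. -/
def LVoG (n : ℕ) : Prop :=
  (∀ k, 2 ≤ k → k < n → Ext0 k) → ∀ (hn : 2 ≤ n) (_ : ∀ k, 1 ≤ k → k < n → FZX k)
    (hF : FZX (n - 1)) (hTop : TopS n) (S : PCl n) (P : ℝ → ℝ → ℝ) (r : ℝ → ℝ)
    (P' : ℕ → List (Fin n) × Fin n → ℝ → ℝ → ℝ) (Λ : Finset (Fin n) → Fin n → ℝ → ℝ → ℝ)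
    (PB : ℕ → List (Fin n) × Fin n → ℝ → ℝ → ℝ) (H : PkT hn S P r P' Λ PB) (h : ℝ), 0 < h →
    h ≤ 1 → ∀ o : Od n, ∀ᵐ g : ℝ, RwH H hTop hF h o g → ThW hn P P' PB o g →
      FasG n (slo H hTop hF o g) (deriv (fun a => P a a) g) → False

theorem lVoF_G {n : ℕ} (h1 : LVoG n) : LVoF n := by
  intro hi hn hZ hF hTop S P r P' Λ PB H h hh hh1 o
  filter_upwards [h1 hi hn hZ hF hTop S P r P' Λ PB H h hh hh1 o] with g k R hx hs
  exact k R hx hs.g

/-- **No boxes at the thin windows with the slopes** `FasG`. -/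
theorem noB_G {n : ℕ} (h1 : LVoG n) :
    AllP n fun {hn} {_} {P} {_} {P'} {_} {PB} {_} H hTop hF h hρ =>
      NoB H hTop hF hρ h fun o g => ThW hn P P' PB o g ∧
        FasG n (slo H hTop hF o g) (deriv (fun a => P a a) g) := by
  intro hi hn hZ hF hTop S P r P' Λ PB H h hh hh1 ρ hρ hrow
  refine noB_false fun o => ?_
  filter_upwards [h1 hi hn hZ hF hTop S P r P' Λ PB H (h / 2) (by linarith) (by linarith) o,
    rwH_rho H hTop hF hρ (h' := h / 2) (by linarith) hrow o] with g k1 k2 R hx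
  exact k1 (k2 R) hx.1 hx.2

/-- **No ties**, more than one contact coordinate, slopes not in `FasG`. -/
def LTvC (n : ℕ) : Prop :=
  AllP n fun {hn} {_} {P} {_} {P'} {_} {PB} {_} H hTop hF h hρ =>
    NoB H hTop hF hρ h fun o g => (ThW hn P P' PB o g ∧ NtW hn P P' o g ∧
      ¬ OneS n (slo H hTop hF o g) ∧ ∃ i, 1 < slo H hTop hF o g i) ∧
      ¬ FasG n (slo H hTop hF o g) (deriv (fun a => P a a) g)

/-- **A tie**, more than one contact coordinate, slopes not in `FasG`. -/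
def LTp2C (n : ℕ) : Prop :=
  AllP n fun {hn} {_} {P} {_} {P'} {_} {PB} {_} H hTop hF h hρ =>
    NoB H hTop hF hρ h fun o g => (ThW hn P P' PB o g ∧ TiW hn P P' o g ∧
      ¬ OneS n (slo H hTop hF o g)) ∧ ¬ FasG n (slo H hTop hF o g) (deriv (fun a => P a a) g)

/-- **The ties with slopes larger than two**, and a coordinate of the base with
`(s - 1) (σ - 1) ≤ 1`, for all packages; the exactness is a hypothesis. -/
def LTpR (n : ℕ) : Prop :=
  AllP n fun {hn} {_} {P} {_} {P'} {_} {_} {_} H hTop hF h hρ =>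
    ExB H hTop hF hρ h (ExW H hTop hF) →
    NoB H hTop hF hρ h fun o g => ((ExW H hTop hF o g ∧ TiW hn P P' o g ∧
      TopA n (slo H hTop hF o g) (deriv (fun a => P a a) g)) ∧ 2 < deriv (fun a => P a a) g) ∧
      ¬ FasG n (slo H hTop hF o g) (deriv (fun a => P a a) g)

theorem lTvB_G {n : ℕ} (h1 : LVoG n) (h2 : LTvC n) : LTvB n := by
  intro hi hn hZ hF hTop S P r P' Λ PB H h hh hh1 ρ hρ hrow
  refine ((noB_G h1 hi hn hZ hF hTop S P r P' Λ PB H h hh hh1 ρ hρ hrow).or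
    (h2 hi hn hZ hF hTop S P r P' Λ PB H h hh hh1 ρ hρ hrow)).mono fun o =>
      Eventually.of_forall fun g _ hx => ?_
  by_cases hf : FasG n (slo H hTop hF o g) (deriv (fun a => P a a) g)
  · exact Or.inl ⟨hx.1.1, hf⟩
  · exact Or.inr ⟨hx.1, hf⟩

theorem lTp2B_G {n : ℕ} (h1 : LVoG n) (h2 : LTp2C n) : LTp2B n := by
  intro hi hn hZ hF hTop S P r P' Λ PB H h hh hh1 ρ hρ hrow
  refine ((noB_G h1 hi hn hZ hF hTop S P r P' Λ PB H h hh hh1 ρ hρ hrow).or
    (h2 hi hn hZ hF hTop S P r P' Λ PB H h hh hh1 ρ hρ hrow)).mono fun o =>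
      Eventually.of_forall fun g _ hx => ?_
  by_cases hf : FasG n (slo H hTop hF o g) (deriv (fun a => P a a) g)
  · exact Or.inl ⟨hx.1.1, hf⟩
  · exact Or.inr ⟨hx.1, hf⟩

theorem lTpS_G {n : ℕ} (h1 : LVoG n) (h2 : LTpR n) : LTpS n := by
  intro hi hn hZ hF hTop S P r P' Λ PB H h hh hh1 ρ hρ hrow hE
  refine ((noB_G h1 hi hn hZ hF hTop S P r P' Λ PB H h hh hh1 ρ hρ hrow).or
    (h2 hi hn hZ hF hTop S P r P' Λ PB H h hh hh1 ρ hρ hrow hE)).mono fun o =>
      Eventually.of_forall fun g _ hx => ?_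
  by_cases hf : FasG n (slo H hTop hF o g) (deriv (fun a => P a a) g)
  · exact Or.inl ⟨hx.1.1.1, hf⟩
  · exact Or.inr ⟨hx, hf⟩

end Pool.ASM
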