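import Pool.Agent.H56.ASM.Xf

/-!
# Sets of void windows

`FasL`: all the slopes of the base are smaller than the slope of the target. `FasM`: the slopes of the
base are one, or smaller than the slope `σ` of the target with `(s - 1) (σ - 1) > 1`. `FasT`: a thin
coordinate (of the base or the target) is strictly the fastest of all.
-/

set_option autoImplicit false

namespace Pool.ASM

open MeasureTheory Set Filter Topology
open Pool.Agent.H49.Ent Pool.Agent.H32.Dense Pool.STK Pool.KA Pool.KSAT Pool.K2S Pool.PB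
open Pool.GEN Pool.S6C Pool.GRW Pool.PKG Pool.STAT Pool.PM Pool.R1 Pool.Z4
open Pool.STR (NumI TopW Mac StaAt IsoAt StaU1 ThinAt SteepAt Rle)
open Pool.MIC6
open Pool.SW (TopC NtO OneS NoTie Rgh Xa TieO)

/-- **All the slopes of the base are smaller than the slope of the target.** -/
def FasL : WinC := fun n hn P P' _ o g =>
  ∀ l < n - 1, slN hn P P' o l g < slN hn P P' o (n - 1) g

/-- **The slopes of the base** are one, or smaller than the slope `σ` of the target with
`(s - 1) (σ - 1) > 1`. -/
def FasM : WinC := fun n hn P P' _ o g => ∀ l < n - 1, slN hn P P' o l g = 1 ∨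
  (slN hn P P' o l g < slN hn P P' o (n - 1) g ∧
    1 < (slN hn P P' o l g - 1) * (slN hn P P' o (n - 1) g - 1))

/-- **A thin coordinate of the base is strictly the fastest of all.** -/
def FasB : WinC := fun n hn P P' PB o g =>
  ∃ l < n - 1, ThinAt (LvL hn P P' o l) (LvT hn PB o l) g ∧
    slN hn P P' o (n - 1) g < slN hn P P' o l g ∧
    ∀ k < n - 1, k ≠ l → slN hn P P' o k g < slN hn P P' o l g

/-- **A thin coordinate is strictly the fastest of all.** -/
def FasT : WinC := fun n hn P P' PB o g => FasL n hn P P' PB o g ∨ FasB n hn P P' PB o g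

theorem fasT_of {n : ℕ} (h : LVoX FasL n) (h' : LVoX FasB n) : LVoX FasT n := h.or h'

theorem lVoM_of_L {n : ℕ} (h : LVoX FasL n) : LVoX FasM n := by
  intro hi hn hZ hF hTop S P r P' Λ PB H h₀ hh hh1 o
  filter_upwards [h hi hn hZ hF hTop S P r P' Λ PB H h₀ hh hh1 o] with g k R hx hy
  refine k R hx fun l hl => ?_
  rcases hy l hl with h1 | h1
  · rw [h1]
    exact hx.1
  · exact h1.1

/-- The windows where all coordinates of the base are contact coordinates. -/
theorem lVoA_L {n : ℕ} (h : LVoX FasL n) : LVoA n := by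
  intro hi hn hZ hF hTop S P r P' Λ PB H h₀ hh hh1 o
  filter_upwards [h hi hn hZ hF hTop S P r P' Λ PB H h₀ hh hh1 o] with g k R hx hs
  refine k R hx fun l hl => ?_
  rw [← slo_slN H (hTop := hTop) (hF := hF) o g ⟨l, hl⟩, hs]
  exact hx.1

theorem lVoA_M {n : ℕ} (h : LVoX FasM n) : LVoA n := by
  intro hi hn hZ hF hTop S P r P' Λ PB H h₀ hh hh1 o
  filter_upwards [h hi hn hZ hF hTop S P r P' Λ PB H h₀ hh hh1 o] with g k R hx hs
  refine k R hx fun l hl => Or.inl ?_
  rw [← slo_slN H (hTop := hTop) (hF := hF) o g ⟨l, hl⟩, hs]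

end Pool.ASM
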