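import Pool.Agent.H56.ASM.Sk4
import Pool.Agent.H77.Z4.Nor5

/-!
# The parts of `KP 4`, fifth form

The static chains with the inputs of `Pool.Z4.nore_ind5`: `GainV`: the target has macroscopic gain
over the fattest boxes, or it is static and all coordinates of the base besides the first one have
slopes larger than one. `LCellV n κ`: the cells at such windows. `LV0A`, `LV0B`: the rows `1, 1, s`
and `1, s, 1` below a static target in dimension four. `LMevV`, `LHcV`: the inputs of the counts.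
`kp4_of5`: `KP 4` from its parts.
-/

set_option autoImplicit false

namespace Pool.ASM

open MeasureTheory Set Filter Topology
open Pool.Agent.H49.Ent Pool.Agent.H32.Dense Pool.STK Pool.KA Pool.KSAT Pool.K2S Pool.PB
open Pool.GEN Pool.S6C Pool.GRW Pool.PKG Pool.STAT Pool.PM Pool.R1 Pool.Z4
open Pool.ONE (LocE Ext0 Ext rowN_of_ext)
open Pool.TOP (TopS rw_all)
open Pool.LEV (Law Lv)
open Pool.STR (TopW Mac StaAt IsoAt StaU1 ThinAt SteepAt)
open Pool.SW (ExV NoTie vAll_nt hc0_nt)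

variable {n : ℕ} {hn : 2 ≤ n} {S : PCl n} {P : ℝ → ℝ → ℝ} {r : ℝ → ℝ}
  {P' : ℕ → List (Fin n) × Fin n → ℝ → ℝ → ℝ} {Λ : Finset (Fin n) → Fin n → ℝ → ℝ → ℝ}
  {PB : ℕ → List (Fin n) × Fin n → ℝ → ℝ → ℝ}

/-- **The windows with gain of the target**; if the target is static, then the other coordinates of
the base have slopes larger than one. -/
def GainV (hn : 2 ≤ n) (P : ℝ → ℝ → ℝ) (P' PB : ℕ → List (Fin n) × Fin n → ℝ → ℝ → ℝ) (o : Od n)
    (g : ℝ) : Prop :=
  Mac (PT hn PB o) g ∨ StaAt P g ∧ 1 < deriv (fun a => P a a) g ∧ One1 hn P P' o g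

/-- **The cell `κ` of (D2)** at the windows with gain, all classes. -/
def LCellV (n : ℕ) (κ : List Kd) : Prop := (∀ k, 2 ≤ k → k < n → Ext0 k) →
  Tol fun η => AllC n η fun {hn} {_} {P} {_} {P'} {_} {PB} H hTop hF h =>
    CellX H hTop hF h (GainV hn P P' PB) κ

/-- Static coordinates of slope more than one, over coordinates of slope one: `1, 1, s`. -/
def LV0A (n : ℕ) : Prop := (∀ k, 2 ≤ k → k < n → Ext0 k) →
  Tol fun η => LocE n η MicRt → AllC n η fun {hn} {_} {P} {_} {P'} {_} {_} H hTop hF h =>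
    ∀ o : Od n, ∀ᵐ g : ℝ, RwH H hTop hF h o g → 1 < deriv (fun a => P a a) g → StaAt P g →
      deriv (fun a => LL hn P P' o 2 a a) g ≤ 1 → 1 < deriv (fun a => LL hn P P' o 3 a a) g →
      StaAt (LL hn P P' o 3) g

/-- The same with the slopes `1, s, 1`. -/
def LV0B (n : ℕ) : Prop := (∀ k, 2 ≤ k → k < n → Ext0 k) →
  Tol fun η => LocE n η MicRt → AllC n η fun {hn} {_} {P} {_} {P'} {_} {_} H hTop hF h =>
    ∀ o : Od n, ∀ᵐ g : ℝ, RwH H hTop hF h o g → 1 < deriv (fun a => P a a) g → StaAt P g →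
      deriv (fun a => LL hn P P' o 3 a a) g ≤ 1 → 1 < deriv (fun a => LL hn P P' o 2 a a) g →
      StaAt (LL hn P P' o 2) g

/-- The data on the events, near the windows where they are used, all classes. -/
def LMevV (n : ℕ) : Prop := (∀ k, 2 ≤ k → k < n → Ext0 k) →
  Tol fun η => LocE n η MicRt →
    AllC n η fun {hn} {S} {P} {r} {P'} {Λ} {PB} H hTop hF h =>
      ∀ (o : Od n) (l : ℕ), 1 ≤ l → l < n - 1 → ∃ C : ℝ, 1 ≤ C ∧
        MevX hn S P r P' Λ o l (fun g => RwH H hTop hF h o g ∧ Xv hn P P' PB o l g) C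

/-- The count with no loss, all classes. -/
def LHcV (n : ℕ) : Prop := (∀ k, 2 ≤ k → k < n → Ext0 k) →
  Tol fun η => LocE n η MicRt → AllC n η fun {hn} {_} {P} {_} {P'} {_} {PB} H hTop hF h =>
    ∀ (o : Od n) (l : ℕ), ∀ᵐ g : ℝ, RwH H hTop hF h o g → StaAt P g →
      2 ≤ deriv (fun a => P a a) g → One1 hn P P' o g → (∀ i < n - 1, ThS hn P P' PB o i g) →
      Cfg hn P P' o l g →
      deriv (fun a => P a a) g < deriv (fun a => LL hn P P' o (l + 1) a a) g → False

theorem LHcV.of {n : ℕ} (h : LHc n) : LHcV n := fun hi => by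
  refine (h hi).mono fun η h1 hMic => ?_
  intro hn hZ hF hTop D hD hD1 hE S P r P' Λ PB H o l
  filter_upwards [h1 hMic hn hZ hF hTop D hD hD1 hE S P r P' Λ PB H o l] with g k R h2 h3 _
  exact k R h2 h3

theorem LCellV.of {n : ℕ} {κ : List Kd} (h : LCell n κ) : LCellV n κ := fun hi => by
  refine (h hi).mono fun η h1 => ?_
  intro hn hZ hF hTop D hD hD1 hE S P r P' Λ PB H
  refine (h1 hn hZ hF hTop D hD hD1 hE S P r P' Λ PB H).mono fun o g hx => ?_
  rcases hx with hx | hx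
  · exact Or.inl hx
  · exact Or.inr ⟨hx.1, hx.2.1⟩

/-- (D2) for all places, from the cells. -/
theorem two_of_cellsV {n : ℕ} (hC : ∀ κ : List Kd, κ.length + 2 ≤ n → LCellV n (Kd.one :: κ))
    (hi : ∀ k, 2 ≤ k → k < n → Ext0 k) :
    Tol fun η => AllC n η fun {hn} {_} {P} {_} {P'} {_} {PB} H hTop hF h =>
      ∀ i, 1 ≤ i → i ≤ n - 1 → TwoX H hTop hF h (GainV hn P P' PB) i := by
  have hfin := cells_fin n
  refine (Tol.fin fun κ : {κ : List Kd // κ.length + 2 ≤ n} => hC κ.1 κ.2 hi).mono fun η h => ?_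
  intro hn hZ hF hTop D hD hD1 hE S P r P' Λ PB H i h1 h2
  exact twoX_of H hTop hF h1 h2 fun κ hκ =>
    h ⟨κ, by omega⟩ hn hZ hF hTop D hD hD1 hE S P r P' Λ PB H

/-- **Three kinds of windows** from (D2) for the coordinates, at the windows with macroscopic gain,
and for the target. -/
theorem classN_mac {H : PkT hn S P r P' Λ PB} {hTop : TopS n} {hF : FZX (n - 1)} {h : ℝ}
    (noBS : ∃ p : ((H.nk hTop hF).chg (H.rle h) H.up).Par, p.cell.NoJS ∨ p.cell.NoBS)
    (hB : ∀ o : Od n, ∀ᵐ g : ℝ, RwH H hTop hF h o g → Mac (PT hn PB o) g →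
      BigS hn P P' PB o g) (hT : TwoC H hTop hF h) : ClassN H hTop hF h := by
  refine ⟨noBS, fun o : Od n => ?_⟩
  have hlaw := H.tgs.law ()
  have hL : Law (PT hn PB o) := (H.nk hTop hF).hPT o
  filter_upwards [ths_big H hTop hF (h := h) o, mac_big H hTop hF (h := h) o, hT o,
    STR.isoS_or_mac hL, STR.dia_ae hL, (H.nk hTop hF).derT_ae hlaw o, hB o]
    with g k0 k1 k2 k3 k5 k4 k6 R
  have hg0 := R.rwd.g0
  have hg1 := R.rwd.g1
  have hlt : PT hn PB o g g < 1 :=
    lt_of_le_of_lt (H.le o g g hg0 le_rfl hg1.le) R.rwd.val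
  rcases k3 hg0 hg1 hlt with hiso | hmac
  · exact Or.inl hiso
  have hbig := k6 R hmac
  rcases k1 R hbig with h1 | h1
  · exact Or.inl (STR.iso_of_thin hL hg0 hg1 hlt (k5 hg0 hg1)
      (fun a w a0 a1 a2 => H.le o a w a0 a1 a2) h1)
  have hder := (k4 R.rwd.mem hg0 hg1).2
  rcases le_or_gt (deriv (fun a => P a a) g) 2 with h2 | h2
  · exact Or.inr (Or.inl (STR.sta_of_steep (k5 hg0 hg1) (hder.trans_le h2) h1))
  · rcases k2 R h2 (k0 R hbig) h1 hmac with h3 | h3
    · exact Or.inr (Or.inl h3)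
    · exact Or.inr (Or.inr ⟨h3, by linarith⟩)

/-- **`ClassN`** from `noBS` and (D2) for the places, at the windows with gain. -/
theorem classN_V {H : PkT hn S P r P' Λ PB} {hTop : TopS n} {hF : FZX (n - 1)} {h : ℝ}
    (noBS : ∃ p : ((H.nk hTop hF).chg (H.rle h) H.up).Par, p.cell.NoJS ∨ p.cell.NoBS)
    (hT : ∀ i, 1 ≤ i → i ≤ n - 1 → TwoX H hTop hF h (GainV hn P P' PB) i) :
    ClassN H hTop hF h := by
  refine classN_mac noBS (fun o => ?_) fun o => ?_
  · filter_upwards [TwoX.big (fun i h1 h2 => hT i h1 (by omega)) o] with g k1 R hM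
    exact k1 R (Or.inl hM)
  · filter_upwards [hT (n - 1) (by omega) le_rfl o] with g k1 R hs hl hst hM
    have eL : LvL hn P P' o (n - 1) = P := by
      funext a w
      exact LvL_top o a w
    rw [eL, LvT_top] at k1
    exact Or.inr (k1 R (Or.inl hM) hl hs hst)

/-- **The static chains** from their parts. -/
theorem lNor_V {n : ℕ} (hn4 : n ≤ 4)
    (hC : ∀ κ : List Kd, κ.length + 2 ≤ n → LCellV n (Kd.one :: κ))
    (hA : n = 4 → LV0A n) (hB : n = 4 → LV0B n) (hM : LMevV n) (hH : LHcV n) : LNor n := fun hi => by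
  have hA' : Tol fun η => n = 4 → LocE n η MicRt →
      AllC n η fun {hn} {_} {P} {_} {P'} {_} {_} H hTop hF h =>
        ∀ o : Od n, ∀ᵐ g : ℝ, RwH H hTop hF h o g → 1 < deriv (fun a => P a a) g → StaAt P g →
        deriv (fun a => LL hn P P' o 2 a a) g ≤ 1 → 1 < deriv (fun a => LL hn P P' o 3 a a) g →
        StaAt (LL hn P P' o 3) g := by
    by_cases h4 : n = 4
    · exact (hA h4 hi).mono fun η h _ => h
    · exact Tol.of_all fun _ _ _ h5 => absurd h5 h4
  have hB' : Tol fun η => n = 4 → LocE n η MicRt →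
      AllC n η fun {hn} {_} {P} {_} {P'} {_} {_} H hTop hF h =>
        ∀ o : Od n, ∀ᵐ g : ℝ, RwH H hTop hF h o g → 1 < deriv (fun a => P a a) g → StaAt P g →
        deriv (fun a => LL hn P P' o 3 a a) g ≤ 1 → 1 < deriv (fun a => LL hn P P' o 2 a a) g →
        StaAt (LL hn P P' o 2) g := by
    by_cases h4 : n = 4
    · exact (hB h4 hi).mono fun η h _ => h
    · exact Tol.of_all fun _ _ _ h5 => absurd h5 h4
  refine ((two_of_cellsV hC hi).and (hA'.and (hB'.and ((hM hi).and ((hH hi).and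
    (Tol.le 1 one_pos)))))).mono fun η h hMic => ?_
  obtain ⟨h1, h2, h3, h4, h5, h6⟩ := h
  intro hn hZ hF hTop D hD hD1 hE S P r P' Λ PB H
  have e1 := h6 D hD
  refine nore_ind5 hMic hi hn hZ hF hTop hD hD1 e1.1 e1.2 hE H ?_ (fun o => ?_)
    (h5 hMic hn hZ hF hTop D hD hD1 hE S P r P' Λ PB H)
    (h4 hMic hn hZ hF hTop D hD hD1 hE S P r P' Λ PB H)
  · by_cases hn3 : n ≤ 3
    · exact v0C_three H hTop hF hn3
    · have h7 : n = 4 := by omega
      exact v0C_four H hTop hF h7 (h2 h7 hMic hn hZ hF hTop D hD hD1 hE S P r P' Λ PB H)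
        (h3 h7 hMic hn hZ hF hTop D hD hD1 hE S P r P' Λ PB H)
  · filter_upwards [TwoX.big (fun i a1 a2 =>
      h1 hn hZ hF hTop D hD hD1 hE S P r P' Λ PB H i a1 (by omega)) o] with g k1 R hS hst h8
    exact k1 R (Or.inr ⟨hst, hS, h8⟩)

/-- **`KP 4` from its parts**, fifth form. -/
theorem kp4_of5
    (hC : ∀ n, 2 ≤ n → n ≤ 4 → ∀ κ : List Kd, κ.length + 2 ≤ n → LCellV n (Kd.one :: κ))
    (hBs : ∀ n, 2 ≤ n → n ≤ 4 → LBs n) (hEx : ∀ n, 2 ≤ n → n ≤ 4 → LExc n)
    (hA : LV0A 4) (hB : LV0B 4)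
    (hM : ∀ n, 3 ≤ n → n ≤ 4 → LMevV n) (hH : ∀ n, 3 ≤ n → n ≤ 4 → LHcV n) : KP 4 := by
  refine kp_of_tol (by norm_num) (fun n a1 a2 a3 => ?_) (fun n a1 a2 a3 => ?_)
    fun n a1 a2 a3 => Tol.of_all fun η _ _ => topW_upto (fun _ => η) n a1 a2 a3
  · refine ((hBs n a1 a2 a3).and (two_of_cellsV (hC n a1 a2) a3)).mono fun η h => ?_
    intro hn hZ hF hTop D hD hD1 hE S P r P' Λ PB H
    exact classN_V (h.1 hn hZ hF hTop D hD hD1 hE S P r P' Λ PB H)
      (h.2 hn hZ hF hTop D hD hD1 hE S P r P' Λ PB H)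
  · have hN : LNor n := by
      by_cases h3 : n = 2
      · subst h3
        refine fun _ => Tol.of_all fun _ _ _ _ => ?_
        intro hn hZ hF hTop D hD hD1 hE S P r P' Λ PB H
        exact nore_two H hTop hF rfl
      · refine lNor_V a2 (hC n a1 a2) (fun h4 => ?_) (fun h4 => ?_) (hM n (by omega) a2)
          (hH n (by omega) a2)
        · subst h4
          exact hA
        · subst h4
          exact hB
    refine ((hEx n a1 a2 a3).and (hN a3)).mono fun η h hM' => ?_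
    intro hn hZ hF hTop D hD hD1 hE S P r P' Λ PB H
    exact ⟨h.1 hM' hn hZ hF hTop D hD hD1 hE S P r P' Λ PB H,
      h.2 hM' hn hZ hF hTop D hD hD1 hE S P r P' Λ PB H⟩

end Pool.ASM
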