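import Pool.Agent.H56.ASM.Xq
import Pool.Agent.H3.D2G.RecT
import Pool.Agent.H3.D2G.RecV
import Pool.Agent.H6.ASM.V0a

/-!
# Joints of the thin windows, by kinds, dimension four

`ClV κ Φ`: the class theorem of a void kind of windows, with some property, for the slopes with `Φ`.
`VdP κ Φ`: the same for the windows of all packages (`ClV.p`); `VdP.or`: two ranges of the slopes.
`KgF`: the kinds of the places one and two at a thin window; the place one is not steep. `void_k4`,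
`noB_k4`: the thin windows with a condition on the kinds and the slopes. `lTv_of_k`, `lTp2_of_k`,
`lVo2_of_k`, `lVoE_of_k`, `lBt5_of_k`: the leaves `LTvX FasL 4`, `LTp2X FasL 4`, `LNoX Vo2W 4`,
`LNoX VoEW 4`, `LBt5 4` from the kinds (`PTwo R`, `POne R`; `R` = relation of the slope of the third
coordinate of the base, of the tie, to the slope of the target).
-/

set_option autoImplicit false

namespace Pool.ASM

open MeasureTheory Set Filter Topology
open Pool.Agent.H49.Ent Pool.Agent.H32.Dense Pool.STK Pool.KA Pool.KSAT Pool.K2S Pool.PB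
open Pool.GEN Pool.PKG Pool.SW
open Pool.ONE (Ext0 Ext)
open Pool.TOP (TopS)
open Pool.MIC6
open Pool.STR (StaAt SteepAt ThinAt)
open Pool.LA91 (sumQ HerQ aePG_sum her_sum)

/-- **The class theorem of a void kind of windows**, with some property, which may depend on the
deficit `h`. -/
def ClV (κ : ℕ → Kg) (Φ : (ℕ → ℝ) → Prop) : Prop :=
  ∀ h : ℝ, 0 < h → h ≤ 1 → ∃ (ι : Type) (_ : Countable ι) (Q : PropG 4 ι),
    ((∀ k, 1 ≤ k → k < 4 → FZX k) → AePG 4 Q) ∧ ∀ Sl : ℕ → ℝ, Φ Sl → VoidQH 4 h Sl κ Q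

/-- With one property for all deficits. -/
theorem clV_of {κ : ℕ → Kg} {Φ : (ℕ → ℝ) → Prop} {ι : Type} [Countable ι] {Q : PropG 4 ι}
    (hQ : AePG 4 Q) (H : ∀ h : ℝ, 0 < h → h ≤ 1 → ∀ Sl : ℕ → ℝ, Φ Sl → VoidQH 4 h Sl κ Q) :
    ClV κ Φ := fun h h0 h1 => ⟨ι, inferInstance, Q, fun _ => hQ, fun Sl hS => H h h0 h1 Sl hS⟩

theorem ClV.mono {κ : ℕ → Kg} {Φ Φ' : (ℕ → ℝ) → Prop} (H : ClV κ Φ) (h : ∀ Sl, Φ' Sl → Φ Sl) :
    ClV κ Φ' := by
  intro h' h0 h1
  obtain ⟨ι, hc, Q, hQ, H⟩ := H h' h0 h1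
  exact ⟨ι, hc, Q, hQ, fun Sl hS => H Sl (h Sl hS)⟩

/-- **No windows of the kinds `κ` and the slopes with `Φ`**, for all packages. -/
def VdP (κ : ℕ → Kg) (Φ : (ℕ → ℝ) → Prop) : Prop :=
  ∀ (hn : 2 ≤ 4) (S : PCl 4) (P : ℝ → ℝ → ℝ) (r : ℝ → ℝ)
    (P' : ℕ → List (Fin 4) × Fin 4 → ℝ → ℝ → ℝ) (Λ : Finset (Fin 4) → Fin 4 → ℝ → ℝ → ℝ)
    (PB : ℕ → List (Fin 4) × Fin 4 → ℝ → ℝ → ℝ) (H : PkT hn S P r P' Λ PB) (hTop : TopS 4)
    (hF : FZX (4 - 1)) (_ : ∀ k, 1 ≤ k → k < 4 → FZX k) (h : ℝ), 0 < h → h ≤ 1 → ∀ o : Od 4,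
    ∀ᵐ g : ℝ, RwH H hTop hF h o g → Φ (SlL hn P P' o g) →
      (∀ l < 4, KgAt hn P P' PB o l g (κ l)) → False

/-- **From the class theorem.** -/
theorem ClV.p {κ : ℕ → Kg} {Φ : (ℕ → ℝ) → Prop} (H : ClV κ Φ) : VdP κ Φ := by
  intro hn S P r P' Λ PB Hp hTop hF hZ h hh hh1 o
  obtain ⟨ι, _, Q, hQ, hc⟩ := H h hh hh1
  exact void_of_ghs (κ := κ) (hQ hZ) Hp hTop hF h Φ (fun Sl hS _ _ => hc Sl hS) o

theorem VdP.mono {κ : ℕ → Kg} {Φ Φ' : (ℕ → ℝ) → Prop} (H : VdP κ Φ) (h : ∀ Sl, Φ' Sl → Φ Sl) :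
    VdP κ Φ' := by
  intro hn S P r P' Λ PB Hp hTop hF hZ h' hh hh1 o
  filter_upwards [H hn S P r P' Λ PB Hp hTop hF hZ h' hh hh1 o] with g k R hS
  exact k R (h _ hS)

/-- **Two ranges of the slopes.** -/
theorem VdP.or {κ : ℕ → Kg} {Φ Φ' : (ℕ → ℝ) → Prop} (H : VdP κ Φ) (H' : VdP κ Φ') :
    VdP κ (fun Sl => Φ Sl ∨ Φ' Sl) := by
  intro hn S P r P' Λ PB Hp hTop hF hZ h' hh hh1 o
  filter_upwards [H hn S P r P' Λ PB Hp hTop hF hZ h' hh hh1 o,
    H' hn S P r P' Λ PB Hp hTop hF hZ h' hh hh1 o] with g k k' R hS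
  rcases hS with hS | hS
  · exact k R hS
  · exact k' R hS

theorem vdP_false {κ : ℕ → Kg} {Φ : (ℕ → ℝ) → Prop} (h : ∀ Sl, ¬ Φ Sl) : VdP κ Φ :=
  fun _ _ _ _ _ _ _ _ _ _ _ _ _ _ _ => Eventually.of_forall fun _ _ hS => absurd hS (h _)

section

variable {hn : 2 ≤ 4} {S : PCl 4} {P : ℝ → ℝ → ℝ} {r : ℝ → ℝ}
  {P' : ℕ → List (Fin 4) × Fin 4 → ℝ → ℝ → ℝ} {Λ : Finset (Fin 4) → Fin 4 → ℝ → ℝ → ℝ}
  {PB : ℕ → List (Fin 4) × Fin 4 → ℝ → ℝ → ℝ}

/-- **The kinds of the places one and two** at a thin window; the place one is not steep. -/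
structure KgF (hn : 2 ≤ 4) (P : ℝ → ℝ → ℝ) (P' PB : ℕ → List (Fin 4) × Fin 4 → ℝ → ℝ → ℝ)
    (o : Od 4) (g : ℝ) (k₁ k₂ : Kg) : Prop where
  t : KgT 4 (kg4 .one k₁ k₂ .thin) (SlL hn P P' o g)
  u : KgU hn P P' PB o g (kg4 .one k₁ k₂ .thin)
  p1 : k₁ ≠ .stp

/-- The place one is thin or static. -/
theorem ths_one (H : PkT hn S P r P' Λ PB) (hTop : TopS 4) (hF : FZX (4 - 1)) (h : ℝ) (o : Od 4) :
    ∀ᵐ g : ℝ, RwH H hTop hF h o g → 2 < deriv (fun a => LvL hn P P' o 1 a a) g →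
      SteepAt 2 (LvT hn PB o 1) g → StaAt (LvL hn P P' o 1) g := by
  have h1 : TwoAt H hTop hF h 1 := twoAt_of H hTop hF le_rfl (by norm_num) fun κ hκ => by
    have h2 : κ = [] := List.length_eq_zero_iff.1 (by omega)
    rw [h2]
    exact cell_one H hTop hF _
  filter_upwards [h1 o, Pool.Z4.sta_zero H hTop hF o] with g k1 k2 R hs hst
  refine k1 R (fun l hl => ?_) hs hst
  have h3 : l = 0 := by omega
  rw [h3]
  refine Or.inr ?_
  rw [Pool.Z4.lvL_eq o (by norm_num)]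
  exact k2 R.rwd.mem

/-- **The thin windows with a condition on the kinds and the slopes** are void, from the kinds. -/
theorem void_k4 (H : PkT hn S P r P' Λ PB) (hTop : TopS 4) (hF : FZX (4 - 1))
    (hZ : ∀ k, 1 ≤ k → k < 4 → FZX k) {h : ℝ} (hh : 0 < h) (hh1 : h ≤ 1) (F : Kg → Kg → (ℕ → ℝ) → Prop)
    (hcl : ∀ k₁ k₂ : Kg, VdP (kg4 .one k₁ k₂ .thin) (F k₁ k₂)) (o : Od 4) :
    ∀ᵐ g : ℝ, RwH H hTop hF h o g → ThW hn P P' PB o g →
      (∀ k₁ k₂ : Kg, KgF hn P P' PB o g k₁ k₂ → F k₁ k₂ (SlL hn P P' o g)) → False := by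
  have : Countable Kg := Kg.count
  have hall : ∀ᵐ g : ℝ, ∀ k : Kg × Kg, RwH H hTop hF h o g → F k.1 k.2 (SlL hn P P' o g) →
      (∀ l < 4, KgAt hn P P' PB o l g (kg4 .one k.1 k.2 .thin l)) → False := by
    exact ae_all_iff.2 fun k => hcl k.1 k.2 hn S P r P' Λ PB H hTop hF hZ h hh hh1 o
  filter_upwards [hall, kg_all H hTop hF, kg_sta H hTop hF, sl_one H hTop hF,
    one_zero H hTop hF o, kg_nts H hTop hF, ths_one H hTop hF h o]
    with g k1 k2 k3 k3' k3'' k6 k7 R hT hs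
  have ho := R.rwd.mem
  have k4 : ∀ l : ℕ, l < 3 → ∃ k : Kg, k ≠ .any ∧
      (StaAt (LvL hn P P' o l) g → 1 < SlL hn P P' o g l → k = .sta) ∧
      (ThinAt (LvL hn P P' o l) (LvT hn PB o l) g → 1 < SlL hn P P' o g l →
        k = .thin) ∧ KgAt hn P P' PB o l g k := fun l hl => by
    by_cases hst : StaAt (LvL hn P P' o l) g ∧ 1 < SlL hn P P' o g l
    · exact ⟨.sta, by simp, fun _ _ => rfl,
        fun h1 _ => absurd h1 (k6 o ho l (by omega) hst.1 hst.2), k3 o ho l (by omega) hst.1 hst.2⟩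
    · by_cases hth : ThinAt (LvL hn P P' o l) (LvT hn PB o l) g ∧ 1 < SlL hn P P' o g l
      · exact ⟨.thin, by simp, fun h1 h2 => absurd ⟨h1, h2⟩ hst,
          fun _ _ => rfl, hth.2, hth.1⟩
      · obtain ⟨k, hk, hk'⟩ := k2 o ho l (by omega)
        exact ⟨k, hk, fun h1 h2 => absurd ⟨h1, h2⟩ hst, fun h1 h2 => absurd ⟨h1, h2⟩ hth, hk'⟩
  obtain ⟨κ₁, a1, a2, a3, a4⟩ := k4 1 (by norm_num)
  obtain ⟨κ₂, b1, b2, b3, b4⟩ := k4 2 (by norm_num)
  have h0 : KgAt hn P P' PB o 0 g .one := k3'' ho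
  have h3 : KgAt hn P P' PB o 3 g .thin := by
    have h5 : LvL hn P P' o 3 = P := lvL_last o
    have h6 : LvT hn PB o 3 = PT hn PB o := LvT_top o
    obtain ⟨h7, h8⟩ := hT
    rw [slN_tar] at h7
    refine ⟨?_, ?_⟩
    · rw [h5]
      exact h7
    · rw [h5, h6]
      exact h8
  have hkg : ∀ l < 4, KgAt hn P P' PB o l g (kg4 .one κ₁ κ₂ .thin l) := fun l hl => by
    interval_cases l
    · exact h0
    · exact a4
    · exact b4
    · exact h3
  have hany : ∀ l < 4, kg4 .one κ₁ κ₂ .thin l ≠ .any := fun l hl => by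
    interval_cases l
    · simp [kg4]
    · exact a1
    · exact b1
    · simp [kg4]
  have hone : ∀ l < 4, SlL hn P P' o g l = 1 → kg4 .one κ₁ κ₂ .thin l = .one := fun l hl h3 => by
    obtain ⟨-, m2, m3, m4⟩ := (hkg l hl).sl
    have h4 := hany l hl
    rcases h5 : kg4 .one κ₁ κ₂ .thin l with _ | _ | _ | _ | _
    · rfl
    · exact absurd (m2 h5) (by rw [h3]; exact lt_irrefl _)
    · exact absurd (m3 h5) (by rw [h3]; norm_num)
    · exact absurd (m4 h5) (by rw [h3]; norm_num)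
    · exact absurd h5 h4
  have hK : KgT 4 (kg4 .one κ₁ κ₂ .thin) (SlL hn P P' o g) :=
    { zero := rfl
      tar := rfl
      any := hany
      one := fun l hl => ⟨(hkg l hl).sl.1, hone l hl⟩
      tar1 := by
        rw [← slN_SlL (hn := hn) (P := P) (P' := P') o g le_rfl]
        exact hT.1
      ge := k3' o ho
      sta := fun l hl => (hkg l hl).sl.2.2.1
      stp := fun l hl => (hkg l hl).sl.2.2.2 }
  have hc : ∀ l < 4 - 1, l = 0 ∨ l = 1 ∨ l = 2 := fun l hl => by omega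
  have hs0 : SlL hn P P' o g 0 = 1 := (hkg 0 (by norm_num)).sl.1 rfl
  have hU : KgU hn P P' PB o g (kg4 .one κ₁ κ₂ .thin) := by
    refine ⟨fun l hl h1 h2 => ?_, fun l hl h1 h2 => ?_⟩
    · rcases hc l hl with rfl | rfl | rfl
      · rw [hs0] at h2
        exact absurd h2 (lt_irrefl _)
      · exact a2 h1 h2
      · exact b2 h1 h2
    · rcases hc l hl with rfl | rfl | rfl
      · rw [hs0] at h2
        exact absurd h2 (lt_irrefl _)
      · exact a3 h1 h2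
      · exact b3 h1 h2
  have hp : κ₁ ≠ .stp := by
    rintro rfl
    have h5 : 2 < deriv (fun a => LvL hn P P' o 1 a a) g ∧ SteepAt 2 (LvT hn PB o 1) g := a4
    have h6 := a2 (k7 R h5.1 h5.2) (by
      show 1 < deriv (fun a => LvL hn P P' o 1 a a) g
      linarith [h5.1])
    exact absurd h6 (by simp)
  exact k1 (κ₁, κ₂) R (hs κ₁ κ₂ ⟨hK, hU, hp⟩) hkg

end

/-- **No boxes at the thin windows with a condition on the kinds and the slopes**, from the class
theorems of the kinds. -/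
theorem noB_k4 (F : Kg → Kg → (ℕ → ℝ) → Prop)
    (hcl : ∀ k₁ k₂ : Kg, VdP (kg4 .one k₁ k₂ .thin) (F k₁ k₂)) :
    AllP 4 fun {hn} {_} {P} {_} {P'} {_} {PB} {_} H hTop hF h hρ =>
      NoB H hTop hF hρ h fun o g => ThW hn P P' PB o g ∧
        ∀ k₁ k₂ : Kg, KgF hn P P' PB o g k₁ k₂ → F k₁ k₂ (SlL hn P P' o g) := by
  intro hi hn hZ hF hTop S P r P' Λ PB H h hh hh1 ρ hρ hrow
  refine noB_false fun o => ?_
  filter_upwards [void_k4 H hTop hF hZ (h := h / 2) (by linarith) (by linarith) F hcl o,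
    rwH_rho H hTop hF hρ (h' := h / 2) (by linarith) hrow o] with g k1 k2 R hx
  exact k1 (k2 R) hx.1 hx.2

/-! ### Two contact coordinates -/

/-- **The numbers**: the places `0`, `j` have slope one, the place `l` has the kind `k`, the slopes
of the place `l` and of the target are in relation `R`. -/
structure Nm2 (l j : ℕ) (R : ℝ → ℝ → Prop) (k : Kg) (Sl : ℕ → ℝ) : Prop where
  s0 : Sl 0 = 1
  sj : Sl j = 1
  sl : 1 < Sl l
  s3 : 1 < Sl 3
  rel : R (Sl l) (Sl 3)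
  sta : k = .sta → 2 ≤ Sl l
  stp : k = .stp → 2 < Sl l

/-- **The parts at two contact coordinates**, target thin: the slope `a` of the third coordinate of
the base and the slope `b` of the target in relation `R`. The target is the place `3`. -/
structure PTwo (R : ℝ → ℝ → Prop) : Prop where
  /-- `1, 1, a; b`, thin. -/
  t2 : VdP (kg4 .one .one .thin .thin) (Nm2 2 1 R .thin)
  /-- `1, 1, a; b`, static. -/
  s2 : VdP (kg4 .one .one .sta .thin) (Nm2 2 1 R .sta)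
  /-- `1, 1, a; b`, steep. -/
  p2 : VdP (kg4 .one .one .stp .thin) (Nm2 2 1 R .stp)
  /-- `1, a, 1; b`, thin. -/
  t1 : VdP (kg4 .one .thin .one .thin) (Nm2 1 2 R .thin)
  /-- `1, a, 1; b`, static. -/
  s1 : VdP (kg4 .one .sta .one .thin) (Nm2 1 2 R .sta)

/-- The condition on the kinds and the slopes. -/
def Fk2 (R : ℝ → ℝ → Prop) (k₁ k₂ : Kg) (Sl : ℕ → ℝ) : Prop :=
  (k₁ = .one ∧ k₂ ≠ .one ∧ k₂ ≠ .any ∧ Nm2 2 1 R k₂ Sl) ∨
    (k₂ = .one ∧ k₁ ≠ .one ∧ k₁ ≠ .stp ∧ k₁ ≠ .any ∧ Nm2 1 2 R k₁ Sl)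

theorem PTwo.cl {R : ℝ → ℝ → Prop} (H : PTwo R) (k₁ k₂ : Kg) :
    VdP (kg4 .one k₁ k₂ .thin) (Fk2 R k₁ k₂) := by
  by_cases h1 : k₁ = .one
  · subst h1
    rcases k₂ with _ | _ | _ | _ | _
    · exact vdP_false fun Sl h => by
        rcases h with h | h
        · exact h.2.1 rfl
        · exact h.2.1 rfl
    · exact H.t2.mono fun Sl h => by
        rcases h with h | h
        · exact h.2.2.2
        · exact absurd h.1 (by simp)
    · exact H.s2.mono fun Sl h => by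
        rcases h with h | h
        · exact h.2.2.2
        · exact absurd h.1 (by simp)
    · exact H.p2.mono fun Sl h => by
        rcases h with h | h
        · exact h.2.2.2
        · exact absurd h.1 (by simp)
    · exact vdP_false fun Sl h => by
        rcases h with h | h
        · exact h.2.2.1 rfl
        · exact h.2.1 rfl
  · by_cases h2 : k₂ = .one
    · subst h2
      rcases k₁ with _ | _ | _ | _ | _
      · exact absurd rfl h1
      · exact H.t1.mono fun Sl h => by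
          rcases h with h | h
          · exact absurd h.1 (by simp)
          · exact h.2.2.2.2
      · exact H.s1.mono fun Sl h => by
          rcases h with h | h
          · exact absurd h.1 (by simp)
          · exact h.2.2.2.2
      · exact vdP_false fun Sl h => by
          rcases h with h | h
          · exact absurd h.1 (by simp)
          · exact h.2.2.1 rfl
      · exact vdP_false fun Sl h => by
          rcases h with h | h
          · exact absurd h.1 (by simp)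
          · exact h.2.2.2.1 rfl
    · exact vdP_false fun Sl h => by
        rcases h with h | h
        · exact h1 h.1
        · exact h2 h.1

section

variable {hn : 2 ≤ 4} {P : ℝ → ℝ → ℝ}
  {P' : ℕ → List (Fin 4) × Fin 4 → ℝ → ℝ → ℝ} {PB : ℕ → List (Fin 4) × Fin 4 → ℝ → ℝ → ℝ}
  {o : Od 4} {g : ℝ} {k₁ k₂ : Kg}

theorem KgF.s0 (K : KgF hn P P' PB o g k₁ k₂) : SlL hn P P' o g 0 = 1 :=
  (K.t.one 0 (by norm_num)).1 K.t.zero

/-- The condition, from the slopes. -/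
theorem KgF.two (K : KgF hn P P' PB o g k₁ k₂) {R : ℝ → ℝ → Prop} {l j : ℕ}
    (hlj : (l = 2 ∧ j = 1) ∨ (l = 1 ∧ j = 2)) (hj : SlL hn P P' o g j = 1)
    (hl : 1 < SlL hn P P' o g l) (hR : R (SlL hn P P' o g l) (SlL hn P P' o g 3)) :
    Fk2 R k₁ k₂ (SlL hn P P' o g) := by
  have e1 : kg4 .one k₁ k₂ .thin 1 = k₁ := rfl
  have e2 : kg4 .one k₁ k₂ .thin 2 = k₂ := rfl
  have a1 := K.t.one 1 (by norm_num)
  have a2 := K.t.one 2 (by norm_num)
  have b1 := K.t.any 1 (by norm_num)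
  have b2 := K.t.any 2 (by norm_num)
  have c1 := K.t.sta 1 (by norm_num)
  have c2 := K.t.sta 2 (by norm_num)
  have d1 := K.t.stp 1 (by norm_num)
  have d2 := K.t.stp 2 (by norm_num)
  rw [e1] at a1 b1 c1 d1
  rw [e2] at a2 b2 c2 d2
  rcases hlj with ⟨rfl, rfl⟩ | ⟨rfl, rfl⟩
  · refine Or.inl ⟨a1.2 hj, fun h => ?_, b2, ⟨K.s0, hj, hl, K.t.tar1, hR, c2, d2⟩⟩
    rw [a2.1 h] at hl
    exact lt_irrefl _ hl
  · refine Or.inr ⟨a2.2 hj, fun h => ?_, K.p1, b1, ⟨K.s0, hj, hl, K.t.tar1, hR, c1, d1⟩⟩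
    rw [a1.1 h] at hl
    exact lt_irrefl _ hl

end

/-- **No tie, two contact coordinates**, the third coordinate of the base faster than the target. -/
theorem lTv_of_k (H : PTwo fun a b => b < a) : LTvX FasL 4 := by
  intro hi hn hZ hF hTop S P r P' Λ PB Hp h hh hh1 ρ hρ hrow
  refine (noB_k4 _ H.cl hi hn hZ hF hTop S P r P' Λ PB Hp h hh hh1 ρ hρ hrow).mono fun o =>
    Eventually.of_forall fun g _ hx => ?_
  obtain ⟨⟨hT, hN, hO, i, hi1⟩, hf⟩ := hx
  refine ⟨hT, fun k₁ k₂ K => ?_⟩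
  obtain ⟨l, hl, hle⟩ := notL_SlL hf
  have h3 : 1 < SlL hn P P' o g 3 := K.t.tar1
  have hne : SlL hn P P' o g l ≠ SlL hn P P' o g 3 := by
    have h4 := hN l hl
    rwa [slN_SlL (hn := hn) (P := P) (P' := P') o g (by omega),
      slN_SlL (hn := hn) (P := P) (P' := P') o g le_rfl] at h4
  have hlt : SlL hn P P' o g 3 < SlL hn P P' o g l := lt_of_le_of_ne hle hne.symm
  have hl1 : 1 < SlL hn P P' o g l := h3.trans hlt
  obtain ⟨j, hj1, hj, hjs⟩ : ∃ j, 1 ≤ j ∧ j < 3 ∧ SlL hn P P' o g j ≤ 1 := by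
    by_contra hcon
    push Not at hcon
    refine hO fun j hj => ?_
    rw [slo_SlL Hp hTop hF o g j.2]
    exact hcon j hj j.2
  have hj' : SlL hn P P' o g j = 1 := le_antisymm hjs (K.t.ge j (by omega))
  have hl0 : l ≠ 0 := by
    rintro rfl
    rw [K.s0] at hl1
    exact lt_irrefl _ hl1
  have hjl : j ≠ l := by
    rintro rfl
    rw [hj'] at hl1
    exact lt_irrefl _ hl1
  exact K.two (by omega) hj' hl1 hlt

/-- **A tie, two contact coordinates.** -/
theorem lTp2_of_k (H : PTwo fun a b => a = b) : LTp2X FasL 4 := by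
  intro hi hn hZ hF hTop S P r P' Λ PB Hp h hh hh1 ρ hρ hrow
  refine (noB_k4 _ H.cl hi hn hZ hF hTop S P r P' Λ PB Hp h hh hh1 ρ hρ hrow).mono fun o =>
    Eventually.of_forall fun g _ hx => ?_
  obtain ⟨⟨hT, ⟨l, hl, hti⟩, hO⟩, hf⟩ := hx
  refine ⟨hT, fun k₁ k₂ K => ?_⟩
  have h3 : 1 < SlL hn P P' o g 3 := K.t.tar1
  have h2 : SlL hn P P' o g l = SlL hn P P' o g 3 := by
    rw [slN_SlL (hn := hn) (P := P) (P' := P') o g (by omega),
      slN_SlL (hn := hn) (P := P) (P' := P') o g le_rfl] at hti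
    exact hti
  have hl1 : 1 < SlL hn P P' o g l := by rw [h2]; exact h3
  obtain ⟨j, hj1, hj, hjs⟩ : ∃ j, 1 ≤ j ∧ j < 3 ∧ SlL hn P P' o g j ≤ 1 := by
    by_contra hcon
    push Not at hcon
    refine hO fun j hj => ?_
    rw [slo_SlL Hp hTop hF o g j.2]
    exact hcon j hj j.2
  have hj' : SlL hn P P' o g j = 1 := le_antisymm hjs (K.t.ge j (by omega))
  have hl0 : l ≠ 0 := by
    rintro rfl
    rw [K.s0] at hl1
    exact lt_irrefl _ hl1
  have hjl : j ≠ l := by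
    rintro rfl
    rw [hj'] at hl1
    exact lt_irrefl _ hl1
  exact K.two (by omega) hj' hl1 h2

/-- **Two contact coordinates, a third coordinate of the base slower than the target.** -/
theorem lVo2_of_k (H : PTwo fun a b => a < b) : LNoX Vo2W 4 := by
  intro hi hn hZ hF hTop S P r P' Λ PB Hp h hh hh1 ρ hρ hrow
  refine (noB_k4 _ H.cl hi hn hZ hF hTop S P r P' Λ PB Hp h hh hh1 ρ hρ hrow).mono fun o =>
    Eventually.of_forall fun g _ hx => ?_
  obtain ⟨hT, -, -, hc⟩ := hx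
  refine ⟨hT, fun k₁ k₂ K => ?_⟩
  have e1 := slN_SlL (hn := hn) (P := P) (P' := P') o g (l := 1) (by norm_num)
  have e2 := slN_SlL (hn := hn) (P := P) (P' := P') o g (l := 2) (by norm_num)
  have e3 := slN_SlL (hn := hn) (P := P) (P' := P') o g (l := 4 - 1) le_rfl
  rw [e1, e2, e3] at hc
  rcases hc with ⟨h1, h2, h3⟩ | ⟨h1, h2, h3⟩
  · exact K.two (Or.inl ⟨rfl, rfl⟩) h1 h2 h3
  · exact K.two (Or.inr ⟨rfl, rfl⟩) h1 h2 h3

/-! ### One contact coordinate, a tie in the base -/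

/-- **The parts at one contact coordinate and a tie in the base**, target thin: the slope `s` of both
coordinates and the slope `b` of the target in relation `R`. -/
structure POne (R : ℝ → ℝ → Prop) : Prop where
  /-- Both thin. -/
  tt : VdP (kg4 .one .thin .thin .thin) fun Sl =>
    Sl 0 = 1 ∧ 1 < Sl 1 ∧ Sl 2 = Sl 1 ∧ R (Sl 1) (Sl 3)
  /-- Thin and static, slope two. -/
  ts : VdP (kg4 .one .thin .sta .thin) fun Sl => Sl 0 = 1 ∧ Sl 1 = 2 ∧ Sl 2 = 2 ∧ R 2 (Sl 3)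
  /-- Static and thin, slope two. -/
  st : VdP (kg4 .one .sta .thin .thin) fun Sl => Sl 0 = 1 ∧ Sl 1 = 2 ∧ Sl 2 = 2 ∧ R 2 (Sl 3)
  /-- Both static, slope two. -/
  ss : VdP (kg4 .one .sta .sta .thin) fun Sl => Sl 0 = 1 ∧ Sl 1 = 2 ∧ Sl 2 = 2 ∧ R 2 (Sl 3)

/-- The condition on the kinds and the slopes. -/
def Fk1 (R : ℝ → ℝ → Prop) (k₁ k₂ : Kg) (Sl : ℕ → ℝ) : Prop :=
  (k₁ = .thin ∧ k₂ = .thin ∧ Sl 0 = 1 ∧ 1 < Sl 1 ∧ Sl 2 = Sl 1 ∧ R (Sl 1) (Sl 3)) ∨
    ((k₁ = .thin ∨ k₁ = .sta) ∧ (k₂ = .thin ∨ k₂ = .sta) ∧ Sl 0 = 1 ∧ Sl 1 = 2 ∧ Sl 2 = 2 ∧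
      R 2 (Sl 3))

theorem POne.cl {R : ℝ → ℝ → Prop} (H : POne R) (k₁ k₂ : Kg) :
    VdP (kg4 .one k₁ k₂ .thin) (Fk1 R k₁ k₂) := by
  have hf : ∀ {k₁ k₂ : Kg}, ¬ (k₁ = .thin ∨ k₁ = .sta) ∨ ¬ (k₂ = .thin ∨ k₂ = .sta) →
      VdP (kg4 .one k₁ k₂ .thin) (Fk1 R k₁ k₂) := fun h => vdP_false fun Sl hS => by
    rcases hS with ⟨h1, h2, -⟩ | ⟨h1, h2, -⟩
    · rcases h with h | h
      · exact h (Or.inl h1)
      · exact h (Or.inl h2)
    · rcases h with h | h
      · exact h h1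
      · exact h h2
  rcases k₁ with _ | _ | _ | _ | _
  · exact hf (Or.inl (by simp))
  · rcases k₂ with _ | _ | _ | _ | _
    · exact hf (Or.inr (by simp))
    · exact H.tt.mono fun Sl h => by
        rcases h with ⟨-, -, h0, h1, h2, h3⟩ | ⟨-, -, h0, h1, h2, h3⟩
        · exact ⟨h0, h1, h2, h3⟩
        · refine ⟨h0, by rw [h1]; norm_num, by rw [h1, h2], ?_⟩
          rw [h1]
          exact h3
    · exact H.ts.mono fun Sl h => by
        rcases h with ⟨-, h, -⟩ | ⟨-, -, h0, h1, h2, h3⟩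
        · exact absurd h (by simp)
        · exact ⟨h0, h1, h2, h3⟩
    · exact hf (Or.inr (by simp))
    · exact hf (Or.inr (by simp))
  · rcases k₂ with _ | _ | _ | _ | _
    · exact hf (Or.inr (by simp))
    · exact H.st.mono fun Sl h => by
        rcases h with ⟨h, -⟩ | ⟨-, -, h0, h1, h2, h3⟩
        · exact absurd h (by simp)
        · exact ⟨h0, h1, h2, h3⟩
    · exact H.ss.mono fun Sl h => by
        rcases h with ⟨h, -⟩ | ⟨-, -, h0, h1, h2, h3⟩
        · exact absurd h (by simp)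
        · exact ⟨h0, h1, h2, h3⟩
    · exact hf (Or.inr (by simp))
    · exact hf (Or.inr (by simp))
  · exact hf (Or.inl (by simp))
  · exact hf (Or.inl (by simp))

section

variable {hn : 2 ≤ 4} {P : ℝ → ℝ → ℝ}
  {P' : ℕ → List (Fin 4) × Fin 4 → ℝ → ℝ → ℝ} {PB : ℕ → List (Fin 4) × Fin 4 → ℝ → ℝ → ℝ}
  {o : Od 4} {g : ℝ} {k₁ k₂ : Kg}

/-- The condition, from the slopes and the kinds. -/
theorem KgF.one (K : KgF hn P P' PB o g k₁ k₂) {R : ℝ → ℝ → Prop}
    (h1 : 1 < SlL hn P P' o g 1) (h12 : SlL hn P P' o g 2 = SlL hn P P' o g 1)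
    (hR : R (SlL hn P P' o g 1) (SlL hn P P' o g 3)) (hK : Kd2 hn P P' PB o g) :
    Fk1 R k₁ k₂ (SlL hn P P' o g) := by
  have e1 : kg4 .one k₁ k₂ .thin 1 = k₁ := rfl
  have e2 : kg4 .one k₁ k₂ .thin 2 = k₂ := rfl
  have h2 : 1 < SlL hn P P' o g 2 := by rw [h12]; exact h1
  rcases hK with ⟨a, b⟩ | a
  · exact Or.inl ⟨K.u.2 1 (by norm_num) a h1, K.u.2 2 (by norm_num) b h2, K.s0, h1, h12, hR⟩
  · have hs : SlL hn P P' o g 1 = 2 := by
      rw [← slN_SlL (hn := hn) (P := P) (P' := P') o g (by norm_num)]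
      exact a
    have hs2 : SlL hn P P' o g 2 = 2 := by rw [h12, hs]
    have key : ∀ l, 1 ≤ l → l < 3 → SlL hn P P' o g l = 2 →
        kg4 .one k₁ k₂ .thin l = .thin ∨ kg4 .one k₁ k₂ .thin l = .sta := by
      intro l hl hl3 h5
      have c1 := K.t.one l (by omega)
      have c2 := K.t.any l (by omega)
      have c3 := K.t.stp l (by omega)
      rcases h6 : kg4 .one k₁ k₂ .thin l with _ | _ | _ | _ | _
      · have := c1.1 h6
        rw [h5] at this
        norm_num at this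
      · exact Or.inl rfl
      · exact Or.inr rfl
      · have := c3 h6
        rw [h5] at this
        norm_num at this
      · exact absurd h6 c2
    refine Or.inr ⟨key 1 le_rfl (by norm_num) hs, key 2 (by norm_num) (by norm_num) hs2, K.s0,
      hs, hs2, ?_⟩
    rw [hs] at hR
    exact hR

end

/-- **One contact coordinate, a tie in the base below the target.** -/
theorem lVoE_of_k (H : POne fun a b => a < b) : LNoX VoEW 4 := by
  intro hi hn hZ hF hTop S P r P' Λ PB Hp h hh hh1 ρ hρ hrow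
  refine (noB_k4 _ H.cl hi hn hZ hF hTop S P r P' Λ PB Hp h hh hh1 ρ hρ hrow).mono fun o =>
    Eventually.of_forall fun g _ hx => ?_
  obtain ⟨hT, ⟨-, hone, -, h12, h2n⟩, hk⟩ := hx
  refine ⟨hT, fun k₁ k₂ K => ?_⟩
  have e1 := slN_SlL (hn := hn) (P := P) (P' := P') o g (l := 1) (by norm_num)
  have e2 := slN_SlL (hn := hn) (P := P) (P' := P') o g (l := 2) (by norm_num)
  have e3 := slN_SlL (hn := hn) (P := P) (P' := P') o g (l := 4 - 1) le_rfl
  have h1 := hone 1 le_rfl (by norm_num)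
  rw [e1] at h1 h12
  rw [e2] at h12 h2n
  rw [e3] at h2n
  exact K.one h1 h12.symm (by rw [h12]; exact h2n) hk

/-- **The triple ties.** -/
theorem lBt5_of_k (H : POne fun a b => a = b) : LBt5 4 := fun hi => by
  refine (Tol.le (1 / 2) (by norm_num)).mono fun η h1 => ?_
  intro hn hZ hF hTop D hD hD1 hEx
  have e1 := h1 D hD
  refine ⟨(1 + η D) * D + 1, by linarith, fun x h3 h4 S P r P' Λ PB Hp => ?_⟩
  have hh : 0 < (1 - η D) * D := mul_pos (by linarith) hD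
  have hh1 : (1 - η D) * D ≤ 1 := by nlinarith
  have h5 := noB_k4 _ H.cl hi hn hZ hF hTop S P r P' Λ PB Hp ((1 - η D) * D) hh hh1 _
    (Hp.rle ((1 - η D) * D)) (rt_def Hp.rate.lip Hp.rate.mono _)
  refine h5.mono fun o => Eventually.of_forall fun g _ hX => ⟨hX.1.bti.th, fun k₁ k₂ K => ?_⟩
  have e1 := slN_SlL (hn := hn) (P := P) (P' := P') o g (l := 1) (by norm_num)
  have e2 := slN_SlL (hn := hn) (P := P) (P' := P') o g (l := 2) (by norm_num)
  have e3 := slN_SlL (hn := hn) (P := P) (P' := P') o g (l := 4 - 1) le_rfl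
  have a1 := hX.1.bti.one 1 le_rfl (by norm_num)
  have a2 := hX.1.bti.tie
  have a3 := hX.1.eq
  rw [e1] at a1 a2 a3
  rw [e2] at a2
  rw [e3] at a3
  exact K.one a1 a2.symm a3.symm hX.2

end Pool.ASM
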