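import Pool.Agent.H60.GEN.TopE

/-!
# Full rows and the three local statements

`mic_of_ext`, `sta_of_ext`, `jmp_of_ext`: if all the rows of all classes are full (`Ext0 n`), then the
three local statements `Mic n`, `Sta n`, `Jmp n` hold.
`locE_of_locN`: a local statement about all classes is a local statement about the rows of maximal
deficit.
-/

set_option autoImplicit false

namespace Pool.ONE

open Set MeasureTheory Pool.KA Pool.GEN Pool.STR Pool.LEV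
open Pool.ALL Pool.STK Pool.PB
open Pool.LBT (LSys ThrOf Slo Tri)

variable {n : ℕ}

/-- The rows of a class are full. -/
theorem full_all {hn : 2 ≤ n} {al : ℝ} {g₀ : ℝ → ℝ} {s : Fin n → ℝ} {d : ℕ → ℝ} {e : ℝ} {K₀ : ℕ}
    {N : ℚ → ℚ → ℝ} {S : PCl n} {P : ℝ → ℝ → ℝ} {r : ℝ → ℝ} (h : Ext0 n) (h1 : 0 < al)
    (h2 : ∀ ε : ℝ, 0 < ε → 0 < g₀ ε) (h3 : NumX s d) (h4 : 0 < e) (h5 : ClX s d al g₀ e K₀ N S)
    (h6 : ThrOf (tgs (lst hn)) S (fun _ => P)) (h7 : RateOf S (lst hn) r) :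
    ∀ᵐ Q : ℝ, 0 < Q → Q < 1 → 0 < Lv P (Q, 0) → DifferentiableAt ℝ r Q → 1 ≤ deriv r Q := by
  have hx : ∀ m : ℕ, ∀ᵐ Q : ℝ, 0 < Q → Q < 1 → 0 < Lv P (Q, 0) → DifferentiableAt ℝ r Q →
      1 - 1 / ((m : ℝ) + 1) ≤ deriv r Q := fun m =>
    h (1 / ((m : ℝ) + 1)) (by positivity) hn al g₀ s d h1 h2 h3 e K₀ N S h4 h5 P r h6 h7
  filter_upwards [ae_all_iff.2 hx] with Q h8 b1 b2 b3 b4
  by_contra hcon
  push Not at hcon
  obtain ⟨m, hm⟩ := exists_nat_one_div_lt (show (0 : ℝ) < 1 - deriv r Q by linarith)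
  have := h8 m b1 b2 b3 b4
  linarith

/-- **(M)** if all rows are full. -/
theorem mic_of_ext (h : Ext0 n) : Mic n := by
  intro hn _ al g₀ s d h1 h2 h3 e K₀ N S h4 h5 P r h6 h7
  filter_upwards [full_all h h1 h2 h3 h4 h5 h6 h7] with Q h8 b1 b2 b3 b4 b5 b6 b7
  have := h8 b1 b2 b3 b6
  linarith

/-- **(S)** if all rows are full. -/
theorem sta_of_ext (h : Ext0 n) : Sta n := by
  intro hn _ al g₀ s d h1 h2 h3 e K₀ N S h4 h5 P r h6 h7 x hx
  filter_upwards [full_all h h1 h2 h3 h4 h5 h6 h7] with Q h8 b1 b2 b3 _ _ _ b7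
  have := h8 b1 b2 b3 b7
  linarith

/-- **(J)** if all rows are full. -/
theorem jmp_of_ext (h : Ext0 n) : Jmp n := by
  intro hn _ al g₀ s d h1 h2 h3 e K₀ N S h4 h5 P r h6 h7 x hx
  filter_upwards [full_all h h1 h2 h3 h4 h5 h6 h7] with Q h8 b1 b2 b3 _ _ b7
  have := h8 b1 b2 b3 b7
  linarith

/-- The three local statements if all rows are full. -/
theorem msj_of_ext (h : Ext0 n) : Mic n ∧ Sta n ∧ Jmp n :=
  ⟨mic_of_ext h, sta_of_ext h, jmp_of_ext h⟩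

/-- The three local statements in smaller dimensions. -/
theorem msj_lt (h : ∀ k, 2 ≤ k → k < n → Ext0 k) :
    ∀ k, 2 ≤ k → k < n → Mic k ∧ Sta k ∧ Jmp k := fun k h1 h2 => msj_of_ext (h k h1 h2)

/-- **A local statement about all classes** is a local statement about the rows of maximal
deficit. -/
theorem locE_of_locN {η : ℝ → ℝ} {Φ : (ℝ → ℝ → ℝ) → (ℝ → ℝ) → Prop} (h : LocN n Φ) :
    LocE n η fun P r _ => Φ P r :=
  fun hn hZ _ _ _ _ al g₀ s d h1 h2 h3 e K₀ N S h4 h5 P r h6 h7 =>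
    h hn hZ al g₀ s d h1 h2 h3 e K₀ N S h4 h5 P r h6 h7

end Pool.ONE
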