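import Pool.Agent.H56.ASM.ExJ

/-!
# Exactness of the kit of the affine cells at a part of the windows

`ExcG`, `ZmG`: as `ExcJ`, `ZmJ`, at the windows with the property `G`. `excG_zoom`: `ZmG` gives
`ExcG`. `excG_all`: the windows without the property `G` do not occur.
-/

set_option autoImplicit false

namespace Pool.PKG

open MeasureTheory Set Filter Topology
open Pool.Agent.H49.Ent Pool.Agent.H32.Dense Pool.STK Pool.KA Pool.KSAT Pool.K2S Pool.PB
open Pool.GEN Pool.S6C Pool.STAT Pool.CHT Pool.GRW Pool.ONE Pool.STA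
open Pool.LBT (LSys ThrOf)
open Pool.LEV (Law Lv)
open Pool.TOP (TopS)
open Pool.RTS (iso iso_dia iso_law iso_low)
open Pool.STR (NumI Rle)
open Pool.STAT.CLO Pool.MIC6
open Pool.EXC33 (ZmC exn_zoom exs_zoom)

variable {n : ℕ} {hn : 2 ≤ n} {S : PCl n} {P : ℝ → ℝ → ℝ} {r ρ : ℝ → ℝ}
  {P' : ℕ → List (Fin n) × Fin n → ℝ → ℝ → ℝ} {Λ : Finset (Fin n) → Fin n → ℝ → ℝ → ℝ}
  {PB : ℕ → List (Fin n) × Fin n → ℝ → ℝ → ℝ}

/-- **Exactness of the kit of the affine cells**, where the target has slope one, at the windows with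
the property `G`. -/
def ExcG (H : PkT hn S P r P' Λ PB) (hTop : TopS n) (hF : FZX (n - 1)) (hr : Rle r ρ)
    (W : Od n → Set ℝ) (G : Od n → ℝ → Prop) : Prop :=
  ∀ o : Od n, ∀ᵐ g : ℝ, ((H.nk hTop hF).chg hr H.up).RwD o g →
    deriv (fun a => P a a) g = 1 → G o g →
    ∀ (s D K' s₁ : ℕ) (sh : ℕ → ℕ), 1 ≤ D → 1 ≤ K' →
      (∀ i ≤ n - 1 + 1, (H.nk hTop hF).sg o g i ≤ s) →
      (∀ k : ℝ, 0 < k → ∀ M : ℕ,
        EvQ (IsCJ ((H.nk hTop hF).Li o) (n - 1) ((H.nk hTop hF).sg o g) s g (W o)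
          (AttI (P' o.2))) fun N θ p =>
        (H.kit hTop hF o g D).FldN S K' s₁ sh M N θ p fun G J F D' q =>
          OKI.ExN D' G.c G.n G.sh ((H.kit hTop hF o g D).rc p N M θ J F D') (up G.ϖ J)
            (up G.ζ J) G.M (G.gn J) (k * up G.ζ J) q) ∧
      (∀ k : ℝ, 0 < k → ∀ M : ℕ,
        EvQ (IsCJ ((H.nk hTop hF).Li o) (n - 1) ((H.nk hTop hF).sg o g) s g (W o)
          (AttI (P' o.2))) fun N θ p =>
        (H.kit hTop hF o g D).FldN S K' s₁ sh M N θ p fun G J F D' q =>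
          ExS D' G.c G.n G.sh G.M (G.gn J) (k * up G.ζ J) q)

theorem ExcJ.g {H : PkT hn S P r P' Λ PB} {hTop : TopS n} {hF : FZX (n - 1)} {hr : Rle r ρ}
    {W : Od n → Set ℝ} (hX : ExcJ H hTop hF hr W) (G : Od n → ℝ → Prop) :
    ExcG H hTop hF hr W G := fun o => by
  filter_upwards [hX o] with g h R h1 _
  exact h R h1

/-- **The windows without the property `G` do not occur.** -/
theorem excG_all {H : PkT hn S P r P' Λ PB} {hTop : TopS n} {hF : FZX (n - 1)} {hr : Rle r ρ}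
    {W : Od n → Set ℝ} {G : Od n → ℝ → Prop} (hX : ExcG H hTop hF hr W G)
    (hG : ∀ o : Od n, ∀ᵐ g : ℝ, ((H.nk hTop hF).chg hr H.up).RwD o g →
      deriv (fun a => P a a) g = 1 → G o g) : ExcJ H hTop hF hr W := fun o => by
  filter_upwards [hX o, hG o] with g h h' R h1
  exact h R h1 (h' R h1)

/-- **The base is full in the subclasses with one datum**, for the kits of the affine cells near the
windows of the nonfull rows of `ρ` where the target has slope one. -/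
def ZmG (H : PkT hn S P r P' Λ PB) (hTop : TopS n) (hF : FZX (n - 1)) (hr : Rle r ρ)
    (W : Od n → Set ℝ) (G : Od n → ℝ → Prop) : Prop :=
  ∀ o : Od n, ∀ᵐ g : ℝ, ((H.nk hTop hF).chg hr H.up).RwD o g →
    deriv (fun a => P a a) g = 1 → G o g →
    ∀ (s D K' s₁ : ℕ) (sh : ℕ → ℕ), 1 ≤ D → 1 ≤ K' →
      (∀ i ≤ n - 1 + 1, (H.nk hTop hF).sg o g i ≤ s) → ∀ ka : ℝ, 0 < ka → ∀ M : ℕ,
        EvQ (IsCJ ((H.nk hTop hF).Li o) (n - 1) ((H.nk hTop hF).sg o g) s g (W o)
          (AttI (P' o.2))) fun N θ p =>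
          ZmC (H.kit hTop hF o g D) S K' s₁ sh N M θ p ka

/-- **Exactness of the kit of the affine cells** from the subclasses with one datum. -/
theorem excG_zoom (H : PkT hn S P r P' Λ PB) {hTop : TopS n} {hF : FZX (n - 1)} {hr : Rle r ρ}
    {W : Od n → Set ℝ} {G : Od n → ℝ → Prop} (hz : ZmG H hTop hF hr W G) :
    ExcG H hTop hF hr W G := by
  have hlaw := H.tgs.law ()
  have hP01 : ∀ a : ℝ, 0 ≤ a → a ≤ 1 → a ≤ P a a ∧ P a a ≤ 1 := fun a h0 h1 =>
    ⟨H.tgs.low () a a h0 le_rfl h1, H.tgs.up () a a h0 le_rfl h1⟩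
  intro o
  filter_upwards [hz o, NumI.rwD_chg (nk := H.nk hTop hF) hr H.up (H.tgs.law ()) o] with g h1 h2
    R' hone hG s D K' s₁ sh hD hK' hs
  have R := h2 R'
  have hg0 := R.g0
  have hg1 := R.g1
  have hm : (H.nk hTop hF).m = n - 1 := rfl
  have hdz := fun i (hi : i ≤ n - 1) =>
    NumI.diag_dz (nk := H.nk hTop hF) hlaw hP01 o (i := i) hi
  have hLi := fun i (hi : i ≤ n - 1) => (H.nk hTop hF).li_le o (i := i) hi
  have hdgm : (H.nk hTop hF).dg o (n - 1) = fun a => P a a := (H.nk hTop hF).dg_m o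
  have hL1 : ∀ i, Law ((H.nk hTop hF).Li o i) := by
    intro i
    rcases Nat.lt_or_ge (n - 1) i with h | h
    · have : (H.nk hTop hF).Li o i = fun a _ => a := by
        funext a w
        exact (H.nk hTop hF).li_big o h a w
      rw [this]
      exact ⟨fun _ _ _ _ _ h _ => h, fun _ _ _ _ _ _ _ => le_rfl, fun _ _ _ _ _ _ _ =>
        min_le_right _ _⟩
    · rw [hLi i h]
      exact iso_law (hdz i h)
  have hL2 : ∀ i a w, 0 ≤ w → w ≤ a → a ≤ 1 → a ≤ (H.nk hTop hF).Li o i a w := by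
    intro i a w h0 h1 h2
    rcases Nat.lt_or_ge (n - 1) i with h | h
    · exact ((H.nk hTop hF).li_big o h a w).ge
    · rw [hLi i h]
      exact iso_low (hdz i h) h0 h1 h2
  have hL3 : ∀ i ≤ n - 1, (H.nk hTop hF).Li o i g g = (H.nk hTop hF).dg o i g := by
    intro i hi
    rw [hLi i hi, iso_dia (hdz i hi) hg0.le hg1.le, (H.nk hTop hF).dz_pos o _ hg0]
  have hσn : (H.nk hTop hF).sg o g (n - 1 + 1) = 1 := by
    show deriv ((H.nk hTop hF).dg o (n - 1)) g = 1
    rw [hdgm]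
    exact hone
  have hσ1 : ∀ i, 1 ≤ (H.nk hTop hF).sg o g i := by
    intro i
    rcases i with _ | i
    · exact le_rfl
    · show 1 ≤ deriv ((H.nk hTop hF).dg o i) g
      rcases Nat.lt_or_ge (n - 1) i with h | h
      · have e1 : (H.nk hTop hF).dg o i = fun a => P a a := by
          funext a
          unfold NumI.dg
          rw [dif_neg (by rw [hm]; omega)]
        rw [e1, hone]
      · exact R.one i h
  have hinj : CLO.Inj (cc hn o.1.1) (n - 1 + 1) := fun l hl l' hl' h =>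
    cc_inj' hn o.1.1 (by omega) (by omega) h
  have hcel : ∀ ε' : ℝ, 0 < ε' → EvP (IsCJ ((H.nk hTop hF).Li o) (n - 1)
      ((H.nk hTop hF).sg o g) s g (W o) (AttI (P' o.2))) fun p =>
      CellL (n - 1 + 1) ((H.kit hTop hF o g D).L p) ε' s ((H.kit hTop hF o g D).y p)
        ((H.kit hTop hF o g D).X p) ((H.kit hTop hF o g D).la p)
        ((H.kit hTop hF o g D).ml p) :=
    kitJ_cel hL1 hL2 hσn hσ1 hs fun i hi => by rw [hL3 i hi]; exact R.lt i hi
  exact ⟨fun k hk M => exn_zoom isCJ_mono H.tmh.1 (H.kit hTop hF o g D) (fun _ => hinj) hcel hK'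
      (fun ka hka M => h1 R' hone hG s D K' s₁ sh hD hK' hs ka hka M) hk M,
    fun k hk M => exs_zoom isCJ_mono H.tmh.1 (H.kit hTop hF o g D)
      ((hcel 1 one_pos).mono fun _ h => h.pos)
      (fun ka hka M => h1 R' hone hG s D K' s₁ sh hD hK' hs ka hka M) hk M⟩

end Pool.PKG
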