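import Pool.Agent.H82.GEN.PlayR

/-!
# The families of a class are rounded

`Pk.gd`: the lines of the families of the class of a package have positions and directions which are
multiples of `2 ^ (-J)` and nonnegative (`Gd`). `Gd.u_eq`, `Gd.d_eq`: so they are determined by their
digits. `Gd.zero`: positions and directions are equal, if their digits are equal.
-/

set_option autoImplicit false

namespace Pool.GEN

open Pool.Agent.H49.Ent Pool.Agent.H32.Dense Pool.STK Pool.KA Pool.KSAT Pool.K2S Pool.PB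

variable {n J : ℕ} {F : Fam n J}

theorem flr_dy {r : ℝ} (h : ∃ a : ℤ, r = a / 2 ^ J) : r = (⌊(2 : ℝ) ^ J * r⌋ : ℤ) / 2 ^ J := by
  obtain ⟨a, rfl⟩ := h
  have : (2 : ℝ) ^ J * ((a : ℝ) / 2 ^ J) = a := by field_simp
  rw [this, Int.floor_intCast]

/-- The position of a line is determined by its digits. -/
theorem Gd.u_eq (hG : Gd F) (ω : F.Ω) (i : Fin n) :
    F.u ω i = (⌊(2 : ℝ) ^ J * F.u ω i⌋ : ℤ) / 2 ^ J := flr_dy (hG ω i).2.2.1

/-- The direction of a line is determined by its digits. -/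
theorem Gd.d_eq (hG : Gd F) (ω : F.Ω) (i : Fin n) :
    F.d ω i = (⌊(2 : ℝ) ^ J * F.d ω i⌋ : ℤ) / 2 ^ J := flr_dy (hG ω i).2.2.2

/-- Equal digits, equal coordinates of the lines. -/
theorem Gd.ext (hG : Gd F) {ω ω' : F.Ω} {i : Fin n}
    (hu : ⌊(2 : ℝ) ^ J * F.u ω i⌋ = ⌊(2 : ℝ) ^ J * F.u ω' i⌋)
    (hd : ⌊(2 : ℝ) ^ J * F.d ω i⌋ = ⌊(2 : ℝ) ^ J * F.d ω' i⌋) :
    F.u ω i = F.u ω' i ∧ F.d ω i = F.d ω' i := by
  constructor
  · rw [hG.u_eq ω i, hG.u_eq ω' i, hu]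
  · rw [hG.d_eq ω i, hG.d_eq ω' i, hd]

end Pool.GEN

namespace Pool.PKG

open Pool.Agent.H49.Ent Pool.Agent.H32.Dense Pool.STK Pool.KA Pool.KSAT Pool.K2S Pool.PB
open Pool.GEN

variable {n : ℕ} {hn : 2 ≤ n} {S : PCl n} {P : ℝ → ℝ → ℝ} {r : ℝ → ℝ}
  {P' : ℕ → List (Fin n) × Fin n → ℝ → ℝ → ℝ} {Λ : Finset (Fin n) → Fin n → ℝ → ℝ → ℝ}

/-- **The families of the class of a package are rounded.** -/
theorem Pk.gd (H : Pk hn S P r P' Λ) (τ : ℝ) (J : ℕ) (F : Fam n J) (A : F.Ω → Prop)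
    (h : S.St τ J F A) : Gd F := by
  obtain ⟨al, g₀, s, d, e, K₀, N, -, -, hC⟩ := H.cl
  exact (hC.mem τ J F A h).2.2.2.2.1

end Pool.PKG
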