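import Pool.Agent.H56.ASM.Ad
import Pool.Agent.H22.M.Top4a
import Pool.Agent.H69.NJ.Hin3
import Pool.Agent.H96.R1.Gnn

/-!
# The last rows in the dimensions two, three, four

`topW_upto`: the statement on the last rows for `2 ≤ n ≤ 4`, in the form which is asked by
`Pool.PKG.kp_of_classN`.
-/

set_option autoImplicit false

namespace Pool.ASM

open Pool.Agent.H49.Ent Pool.Agent.H32.Dense Pool.STK Pool.KA Pool.KSAT Pool.K2S Pool.PB
open Pool.GEN Pool.S6C Pool.GRW Pool.PKG Pool.R1 Pool.PM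
open Pool.ONE (lst LocN LocE Mic Sta Jmp Ext0 msj_lt locE_of_locN)
open Pool.STR (TopW)

/-- **The last rows in the dimensions up to four.** -/
theorem topW_upto (η : ℕ → ℝ → ℝ) :
    ∀ n, 2 ≤ n → n ≤ 4 → (∀ k, 2 ≤ k → k < n → Ext0 k) →
      LocE n (η n) fun P r _ => TopW P r := by
  intro n a1 a2 a3
  have hM := msj_lt a3
  have hn : n = 2 ∨ n = 3 ∨ n = 4 := by omega
  rcases hn with rfl | rfl | rfl
  · exact locE_of_locN (Pool.PM93.topW_two (geo_n 2))
  · exact locE_of_locN (Pool.NJ69.topW3 (geo_n 3) (hM 2 le_rfl (by omega)))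
  · exact locE_of_locN (Pool.PM.topW_four hM)

end Pool.ASM
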