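import Pool.Agent.H56.ASM.Tol
import Pool.Agent.H56.ASM.TopA

/-!
# The parts of `KP 4`

`LBs n`, `LThin n`, `LTwo n`, `LExc n`, `LNor n`: the statements about one class in dimension `n`
inside the induction, for small tolerances. `kp4_of`: `KP 4` from these statements.
-/

set_option autoImplicit false

namespace Pool.ASM

open MeasureTheory Set Filter Topology
open Pool.Agent.H49.Ent Pool.Agent.H32.Dense Pool.STK Pool.KA Pool.KSAT Pool.K2S Pool.PB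
open Pool.GEN Pool.S6C Pool.GRW Pool.PKG Pool.STAT Pool.PM Pool.R1
open Pool.ONE (LocE Ext0 Ext)
open Pool.TOP (TopS)
open Pool.STR (TopW Mac StaAt IsoAt StaU1 ThinAt SteepAt)

/-- **No boxes.** -/
def LBs (n : ℕ) : Prop := (∀ k, 2 ≤ k → k < n → Ext0 k) →
  Tol fun η => AllC n η fun H hTop hF h =>
    ∃ p : ((H.nk hTop hF).chg (H.rle h) H.up).Par, p.cell.NoJS ∨ p.cell.NoBS

/-- **The windows with slope at most two.** -/
def LThin (n : ℕ) : Prop := (∀ k, 2 ≤ k → k < n → Ext0 k) →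
  Tol fun η => AllC n η fun {hn} {_} {P} {_} {_} {_} {PB} H hTop hF h =>
    ∀ o : Od n, ∀ᵐ g : ℝ, RwH H hTop hF h o g → deriv (fun a => P a a) g ≤ 2 →
      Mac (PT hn PB o) g → ThinAt P (PT hn PB o) g ∨ SteepAt 2 (PT hn PB o) g ∨
        IsoAt (PT hn PB o) g ∨ StaAt (PT hn PB o) g ∨ StaU1 P g

/-- **The windows with slope larger than two.** -/
def LTwo (n : ℕ) : Prop := (∀ k, 2 ≤ k → k < n → Ext0 k) →
  Tol fun η => AllC n η fun {hn} {_} {P} {_} {_} {_} {PB} H hTop hF h =>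
    ∀ o : Od n, ∀ᵐ g : ℝ, RwH H hTop hF h o g → 2 < deriv (fun a => P a a) g →
      Mac (PT hn PB o) g → StaAt (PT hn PB o) g ∨ StaAt P g

/-- **Exactness** in the rows (I). -/
def LExc (n : ℕ) : Prop := (∀ k, 2 ≤ k → k < n → Ext0 k) →
  Tol fun η => LocE n η MicRt → AllC n η fun {_} {_} {P} {r} {P'} {Λ} {_} H hTop hF h =>
    ∃ W : Od n → Set ℝ, (∀ o, MeasurableSet (W o)) ∧
      (∀ o, ∀ᵐ g : ℝ, g ∈ Gs P r P' Λ o → 0 < g → g < 1 → g ∈ W o) ∧ ExcJ H hTop hF (H.rle h) W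

/-- **Static chains** in the rows (II). -/
def LNor (n : ℕ) : Prop := (∀ k, 2 ≤ k → k < n → Ext0 k) →
  Tol fun η => LocE n η MicRt → AllC n η fun H hTop hF h => NoRE H hTop hF h

/-- **`KP 4` from its parts.** -/
theorem kp4_of (hBs : ∀ n, 2 ≤ n → n ≤ 4 → LBs n) (hTh : ∀ n, 2 ≤ n → n ≤ 4 → LThin n)
    (hTw : ∀ n, 2 ≤ n → n ≤ 4 → LTwo n) (hEx : ∀ n, 2 ≤ n → n ≤ 4 → LExc n)
    (hNr : ∀ n, 2 ≤ n → n ≤ 4 → LNor n) : KP 4 := by
  refine kp_of_tol (by norm_num) (fun n a1 a2 a3 => ?_) (fun n a1 a2 a3 => ?_)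
    fun n a1 a2 a3 => Tol.of_all fun η _ _ => topW_upto (fun _ => η) n a1 a2 a3
  · refine (((hBs n a1 a2 a3).and (hTh n a1 a2 a3)).and (hTw n a1 a2 a3)).mono fun η h => ?_
    intro hn hZ hF hTop D hD hD1 hE S P r P' Λ PB H
    exact classN_of (h.1.1 hn hZ hF hTop D hD hD1 hE S P r P' Λ PB H)
      (h.1.2 hn hZ hF hTop D hD hD1 hE S P r P' Λ PB H)
      (h.2 hn hZ hF hTop D hD hD1 hE S P r P' Λ PB H)
  · refine ((hEx n a1 a2 a3).and (hNr n a1 a2 a3)).mono fun η h hM => ?_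
    intro hn hZ hF hTop D hD hD1 hE S P r P' Λ PB H
    exact ⟨h.1 hM hn hZ hF hTop D hD hD1 hE S P r P' Λ PB H,
      h.2 hM hn hZ hF hTop D hD hD1 hE S P r P' Λ PB H⟩

end Pool.ASM
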