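import Pool.Agent.H56.ASM.Sk9
import Pool.Agent.H56.NB.Thn

/-!
# The parts of `KP 4`, tenth form

The target is thin or steep at almost every window, so the coordinates of the base matter only at the
windows with a tie and a faster coordinate. `LTw n`: no boxes at the thin windows without ties and
with more than one contact coordinate; `LTp n`: at the thin windows with a tie at the top speed.
`LCellF n κ`: the cells at the windows with a tie and a faster coordinate. `kp4_of10`: `KP 4` from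
its parts.
-/

set_option autoImplicit false

namespace Pool.ASM

open MeasureTheory Set Filter Topology
open Pool.Agent.H49.Ent Pool.Agent.H32.Dense Pool.STK Pool.KA Pool.KSAT Pool.K2S Pool.PB
open Pool.GEN Pool.S6C Pool.GRW Pool.PKG Pool.STAT Pool.PM Pool.R1 Pool.Z4
open Pool.ONE (LocE Ext0 Ext rowN_of_ext)
open Pool.TOP (TopS rw_all)
open Pool.LEV (Law Lv)
open Pool.STR (NumI TopW Mac StaAt IsoAt StaU1 ThinAt SteepAt Rle)
open Pool.MIC6
open Pool.SW (TopC NtO OneS NoTie Rgh Xa TieO)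

/-- **No boxes at the thin windows without ties and with more than one contact coordinate.** -/
def LTw (n : ℕ) : Prop := (∀ k, 2 ≤ k → k < n → Ext0 k) →
  Tol fun η => AllX n η fun {hn} {_} {P} {_} {P'} {_} {PB} H hTop hF h _ =>
    NoB H hTop hF (H.rle h) h fun o g => ThW hn P P' PB o g ∧ NtW hn P P' o g ∧
      ¬ OneS n (slo H hTop hF o g)

/-- **No boxes at the thin windows with a tie** at the top speed. -/
def LTp (n : ℕ) : Prop := (∀ k, 2 ≤ k → k < n → Ext0 k) →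
  Tol fun η => AllX n η fun {hn} {_} {P} {_} {P'} {_} {PB} H hTop hF h _ =>
    NoB H hTop hF (H.rle h) h fun o g => ThW hn P P' PB o g ∧ TiW hn P P' o g ∧
      TopA n (slo H hTop hF o g) (deriv (fun a => P a a) g)

/-- The thin windows with a tie and a faster coordinate. -/
def FaW {n : ℕ} {hn : 2 ≤ n} {S : PCl n} {P : ℝ → ℝ → ℝ} {r : ℝ → ℝ}
    {P' : ℕ → List (Fin n) × Fin n → ℝ → ℝ → ℝ} {Λ : Finset (Fin n) → Fin n → ℝ → ℝ → ℝ}
    {PB : ℕ → List (Fin n) × Fin n → ℝ → ℝ → ℝ} (H : PkT hn S P r P' Λ PB) (hTop : TopS n)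
    (hF : FZX (n - 1)) (o : Od n) (g : ℝ) : Prop :=
  ThW hn P P' PB o g ∧ TiW hn P P' o g ∧
    ¬ TopA n (slo H hTop hF o g) (deriv (fun a => P a a) g)

/-- The cell `κ` at the windows with a tie and a faster coordinate. -/
def LCellF (n : ℕ) (κ : List Kd) : Prop := (∀ k, 2 ≤ k → k < n → Ext0 k) →
  Tol fun η => AllC n η fun H hTop hF h => CellX H hTop hF h (FaW H hTop hF) κ

theorem LCellA.f {n : ℕ} {κ : List Kd} (h : LCellA n κ) : LCellF n κ := fun hi => by
  refine (h hi).mono fun η h1 => ?_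
  intro hn hZ hF hTop D hD hD1 hE S P r P' Λ PB H
  exact CellX.of (h1 hn hZ hF hTop D hD hD1 hE S P r P' Λ PB H) _

section

variable {n : ℕ} {hn : 2 ≤ n} {S : PCl n} {P : ℝ → ℝ → ℝ} {r : ℝ → ℝ}
  {P' : ℕ → List (Fin n) × Fin n → ℝ → ℝ → ℝ} {Λ : Finset (Fin n) → Fin n → ℝ → ℝ → ℝ}
  {PB : ℕ → List (Fin n) × Fin n → ℝ → ℝ → ℝ}

/-- The windows with a tie and a faster coordinate have one contact coordinate, and `n = 4`. -/
theorem faW_one (hn4 : n ≤ 4) (H : PkT hn S P r P' Λ PB) (hTop : TopS n) (hF : FZX (n - 1))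
    (o : Od n) : ∀ᵐ g : ℝ, g ∈ Gs P r P' Λ o → FaW H hTop hF o g →
      OneC n (slo H hTop hF o g) (deriv (fun a => P a a) g) ∧ n = 4 := by
  filter_upwards [one_zero H hTop hF o, tie_of H hTop hF o] with g k0 k1 hg hX
  obtain ⟨⟨hone, hth⟩, hti, hX2⟩ := hX
  obtain ⟨l, l1, l2, l3⟩ := k1 hg hone hti
  rw [slN_tar] at hone l3
  have h6 : ∃ j : Fin (n - 1), deriv (fun a => P a a) g < slo H hTop hF o g j := by
    by_contra hcon
    push Not at hcon
    exact hX2 ⟨hone, hcon⟩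
  obtain ⟨j, hj⟩ := h6
  have hj0 : 1 ≤ (j : ℕ) := by
    rcases Nat.eq_zero_or_pos (j : ℕ) with h7 | h7
    · exfalso
      rw [slo_slN, h7, slN_lvl o (by omega), k0 hg] at hj
      linarith
    · exact h7
  have hjl : (j : ℕ) ≠ l := fun h7 => by
    rw [slo_slN, h7, l3] at hj
    exact lt_irrefl _ hj
  have hj2 := j.2
  refine ⟨⟨hone, fun i hi1 => ?_⟩, by omega⟩
  have hi2 := i.2
  have h8 : (i : ℕ) = j ∨ (i : ℕ) = l := by omega
  rcases h8 with h8 | h8
  · have h9 : i = j := Fin.ext h8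
    rw [h9]
    linarith
  · rw [slo_slN, h8, l3]
    exact hone

/-- At the windows with a tie and a faster coordinate there is only one contact coordinate. -/
theorem faW_cell {h : ℝ} (H : PkT hn S P r P' Λ PB) (hTop : TopS n) (hF : FZX (n - 1))
    (hn4 : n ≤ 4) (κ : List Kd) (hκ : κ.length + 3 ≤ n) :
    CellX H hTop hF h (FaW H hTop hF) (Kd.one :: Kd.one :: κ) := by
  intro o
  filter_upwards [faW_one hn4 H hTop hF o] with g k1 R hX hth hkd
  exfalso
  have h1 := hkd 1 (by simp)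
  have h2 : deriv (fun a => LvL hn P P' o 1 a a) g = 1 := h1
  have h3 := (k1 R.rwd.mem hX).1.2 ⟨1, by omega⟩ le_rfl
  rw [slo_slN, slN_lvl o (by show (1 : ℕ) ≤ n - 1; omega)] at h3
  exact absurd h3 (by
    show ¬ (1 : ℝ) < deriv (fun a => LvL hn P P' o 1 a a) g
    rw [h2]
    exact lt_irrefl _)

end

/-- The windows with a tie and a faster coordinate: the base is thin or static. -/
theorem lFaW_ths {n : ℕ} (hn4 : n ≤ 4) (h1 : n = 4 → LCellF n [Kd.one])
    (h2 : n = 4 → LCellF n [Kd.one, Kd.thin]) (h3 : n = 4 → LCellF n [Kd.one, Kd.sta])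
    (hi : ∀ k, 2 ≤ k → k < n → Ext0 k) :
    Tol fun η => AllC n η fun {hn} {_} {P} {_} {P'} {_} {PB} H hTop hF h =>
      ∀ o : Od n, ∀ᵐ g : ℝ, RwH H hTop hF h o g → FaW H hTop hF o g → TieT hn P P' PB o g := by
  by_cases h4 : n = 4
  swap
  · refine Tol.of_all fun η _ _ => ?_
    intro hn hZ hF hTop D hD hD1 hE S P r P' Λ PB H o
    filter_upwards [faW_one hn4 H hTop hF o] with g k R hX
    exact absurd (k R.rwd.mem hX).2 h4
  refine ((h1 h4 hi).and ((h2 h4 hi).and (h3 h4 hi))).mono fun η h => ?_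
  obtain ⟨a1, a2, a3⟩ := h
  intro hn hZ hF hTop D hD hD1 hE S P r P' Λ PB H o
  have hbig := TwoX.big (X := FaW H hTop hF) (fun i b1 b2 =>
    twoX_of H hTop hF b1 (by omega) fun κ hκ => by
      match κ with
      | [] => exact a1 hn hZ hF hTop D hD hD1 hE S P r P' Λ PB H
      | Kd.one :: κ => exact faW_cell H hTop hF hn4 κ (by simp at hκ; omega)
      | [Kd.thin] => exact a2 hn hZ hF hTop D hD hD1 hE S P r P' Λ PB H
      | [Kd.sta] => exact a3 hn hZ hF hTop D hD hD1 hE S P r P' Λ PB H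
      | Kd.thin :: _ :: _ => exact absurd hκ (by simp; omega)
      | Kd.sta :: _ :: _ => exact absurd hκ (by simp; omega)) o
  filter_upwards [hbig, ths_of H hTop hF, tie_of H hTop hF o] with g k1 k2 k3 R hX
  exact ⟨hX.1.1, k3 R.rwd.mem hX.1.1 hX.2.1, hX.1.2,
    k2 o R.rwd.mem fun i b1 b2 => k1 R hX i b1 b2⟩

/-- **No boxes** from their parts. -/
theorem lBs_of10 {n : ℕ} (hn4 : n ≤ 4) (hE1 : LEx1 n) (hTw : 3 ≤ n → LTw n)
    (hTp : 3 ≤ n → LTp n) (hFc : LFc n) (hFP : LFastP n) (c1 : n = 4 → LCellF n [Kd.one])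
    (c2 : n = 4 → LCellF n [Kd.one, Kd.thin]) (c3 : n = 4 → LCellF n [Kd.one, Kd.sta]) :
    LBs n := fun hi => by
  by_cases hn1 : 2 ≤ n
  swap
  · exact Tol.of_all fun _ _ _ hn => absurd hn hn1
  have hTw' : Tol fun η => AllX n η fun {hn} {_} {P} {_} {P'} {_} {PB} H hTop hF h _ =>
      NoB H hTop hF (H.rle h) h fun o g => ThW hn P P' PB o g ∧ NtW hn P P' o g ∧
        ¬ OneS n (slo H hTop hF o g) := by
    by_cases h3 : 3 ≤ n
    · exact hTw h3 hi
    · refine Tol.of_all fun η h0 _ => ?_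
      intro hn hZ hF hTop D hD hD1 hEx
      refine ⟨(1 + η D) * D + 1, by linarith, fun x _ _ S P r P' Λ PB H => noB_false fun o =>
        Eventually.of_forall fun g R hx => hx.2.2 fun i hi' => absurd i.2 (by omega)⟩
  have hTp' : Tol fun η => AllX n η fun {hn} {_} {P} {_} {P'} {_} {PB} H hTop hF h _ =>
      NoB H hTop hF (H.rle h) h fun o g => ThW hn P P' PB o g ∧ TiW hn P P' o g ∧
        TopA n (slo H hTop hF o g) (deriv (fun a => P a a) g) := by
    by_cases h3 : 3 ≤ n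
    · exact hTp h3 hi
    · refine Tol.of_all fun η h0 _ => ?_
      intro hn hZ hF hTop D hD hD1 hEx
      refine ⟨(1 + η D) * D + 1, by linarith, fun x _ _ S P r P' Λ PB H => noB_false fun o => ?_⟩
      filter_upwards [tie_of H hTop hF o] with g k R hx
      obtain ⟨l, l1, l2, -⟩ := k R.mem hx.1.1 hx.2.1
      omega
  refine ((lFaW_ths hn4 c1 c2 c3 hi).and (hTw'.and (hTp'.and ((hFc hi).and ((hFP hi).and
    ((tol_micX (n := n - 1 + 1) (B₀ := n + 2) (by omega) (by omega)).and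
      (Tol.le (1 / 2) (by norm_num)))))))).mono fun η h => ?_
  obtain ⟨h1, h0, h2, h3, h4, h6, h5⟩ := h
  intro hn hZ hF hTop D hD hD1 hEx S P r P' Λ PB H
  have e1 := h5 D hD
  obtain ⟨h, hh'⟩ : ∃ h, h = (1 - η D) * D := ⟨_, rfl⟩
  have hh : 0 < h := by
    rw [hh']
    exact mul_pos (by linarith) hD
  have hh1 : h ≤ 1 := by
    rw [hh']
    nlinarith
  obtain ⟨S', PW, H', hPW⟩ := H.subW
  have hEA := hE1 hi hn hZ hF hTop S' P r P' Λ PB H' h hh hh1 _ (H'.rle h)
    (rt_def H'.rate.lip H'.rate.mono _)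
  obtain ⟨x₀, a0, b0⟩ := h0 hn hZ hF hTop D hD hD1 hEx
  obtain ⟨x₄, a4, b4⟩ := h2 hn hZ hF hTop D hD hD1 hEx
  obtain ⟨x₁, a1, b1⟩ := h3 hn hZ hF hTop D hD hD1 hEx
  obtain ⟨x₂, a2, b2⟩ := h4 hn hZ hF hTop D hD hD1 hEx
  obtain ⟨x₃, a3, b3⟩ := h6 D hD hD1
  obtain ⟨x, hx⟩ : ∃ x, x = min (min x₀ x₄) (min x₁ (min x₂ x₃)) := ⟨_, rfl⟩
  have hx0 : (1 + η D) * D < x := by
    rw [hx]
    exact lt_min (lt_min a0 a4) (lt_min a1 (lt_min a2 a3))
  have hxa : x ≤ min x₀ x₄ := by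
    rw [hx]
    exact min_le_left _ _
  have hxb : x ≤ min x₁ (min x₂ x₃) := by
    rw [hx]
    exact min_le_right _ _
  have hx1 : x ≤ x₁ := hxb.trans (min_le_left _ _)
  have hx2 : x ≤ x₂ := hxb.trans ((min_le_right _ _).trans (min_le_left _ _))
  have hx3 : x ≤ x₃ := hxb.trans ((min_le_right _ _).trans (min_le_right _ _))
  obtain ⟨hp4, hp5⟩ := b3 x hx3
  have hTwo := b0 x hx0 (hxa.trans (min_le_left _ _)) S' P r P' Λ PB H'
  have hTop' := b4 x hx0 (hxa.trans (min_le_right _ _)) S' P r P' Λ PB H'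
  have hFc' := b1 x hx0 hx1 S' P r P' Λ PB H'
  have hLe := b2 x hx0 hx2 S' P r P' Λ PB H'
  have hFa := h1 hn hZ hF hTop D hD hD1 hEx S' P r P' Λ PB H'
  rw [← hh'] at hTwo hTop' hFc' hLe hp4 hp5 hFa
  rw [← hh']
  have hfast := noB_fast (H := H') (hρ := H'.rle h) hh hh1 hp4 hp5 hPW
    (Y := fun o g => TieT hn P P' PB o g ∧
      ¬ TopA n (slo H' hTop hF o g) (deriv (fun a => P a a) g)) (fun o => by
      filter_upwards [fast_one hn4 H' hTop hF o] with g k1 R hX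
      exact ⟨k1 R.mem hX.1 hX.2, hX.1⟩) hEA hFc' hLe
  have hfast' : NoB H' hTop hF (H'.rle h) h fun o g => ThW hn P P' PB o g ∧ TiW hn P P' o g ∧
      ¬ TopA n (slo H' hTop hF o g) (deriv (fun a => P a a) g) := hfast.mono fun o => by
    filter_upwards [hFa o, H'.rwH_chg hTop hF h o] with g k1 k2 R hX
    exact ⟨k1 (k2 R) hX, hX.2.2⟩
  obtain ⟨p, hp⟩ := noB_thin (noB_parts (H := H') (hρ := H'.rle h) Pool.VAS.micV hh hh1 hEA hTwo
    hTop' hfast') (rt_def H'.rate.lip H'.rate.mono _) hh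
  exact ⟨p, Or.inr hp⟩

/-- **`KP 4` from its parts**, tenth form. -/
theorem kp4_of10
    (hC : ∀ n, 2 ≤ n → n ≤ 4 → ∀ κ : List Kd, κ.length + 2 ≤ n → LCellV n (Kd.one :: κ))
    (c1 : LCellF 4 [Kd.one]) (c2 : LCellF 4 [Kd.one, Kd.thin]) (c3 : LCellF 4 [Kd.one, Kd.sta])
    (hE1 : ∀ n, 2 ≤ n → n ≤ 4 → LEx1 n) (hTw : ∀ n, 3 ≤ n → n ≤ 4 → LTw n)
    (hTp : ∀ n, 3 ≤ n → n ≤ 4 → LTp n) (hNb : LNb 4) (hFc : LFc 4) (hFP : LFastP 4)
    (hEx : ∀ n, 2 ≤ n → n ≤ 4 → LExc n) (hA : LV0A 4) (hB : LV0B 4)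
    (hM : ∀ n, 3 ≤ n → n ≤ 4 → LMevY n) : KP 4 := by
  refine kp_of_tol (by norm_num) (fun n a1 a2 a3 => ?_) (fun n a1 a2 a3 => ?_)
    fun n a1 a2 a3 => Tol.of_all fun η _ _ => topW_upto (fun _ => η) n a1 a2 a3
  · have hBs : LBs n := by
      refine lBs_of10 a2 (hE1 n a1 a2) (fun h3 => hTw n h3 a2) (fun h3 => hTp n h3 a2) ?_ ?_
        (fun h4 => by subst h4; exact c1) (fun h4 => by subst h4; exact c2)
        (fun h4 => by subst h4; exact c3)
      · have h3 : n = 2 ∨ n = 3 ∨ n = 4 := by omega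
        rcases h3 with rfl | rfl | rfl
        · exact lFc_two
        · exact lFc_three
        · exact hFc
      · have h3 : n = 2 ∨ n = 3 ∨ n = 4 := by omega
        rcases h3 with rfl | rfl | rfl
        · exact lFastP_two
        · exact lFastP_three
        · exact hFP
    refine ((hBs a3).and (two_of_cellsV (hC n a1 a2) a3)).mono fun η h => ?_
    intro hn hZ hF hTop D hD hD1 hE S P r P' Λ PB H
    exact classN_V (h.1 hn hZ hF hTop D hD hD1 hE S P r P' Λ PB H)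
      (h.2 hn hZ hF hTop D hD hD1 hE S P r P' Λ PB H)
  · have hN : LNor n := by
      by_cases h3 : n = 2
      · subst h3
        refine fun _ => Tol.of_all fun _ _ _ _ => ?_
        intro hn hZ hF hTop D hD hD1 hE S P r P' Λ PB H
        exact nore_two H hTop hF rfl
      · refine lNor_9 a2 (hC n a1 a2) (fun h4 => ?_) (fun h4 => ?_) (hE1 n a1 a2) (fun h4 => ?_)
          (hM n (by omega) a2)
        · subst h4
          exact hA
        · subst h4
          exact hB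
        · subst h4
          exact hNb
    refine ((hEx n a1 a2 a3).and (hN a3)).mono fun η h hM' => ?_
    intro hn hZ hF hTop D hD hD1 hE S P r P' Λ PB H
    exact ⟨h.1 hM' hn hZ hF hTop D hD hD1 hE S P r P' Λ PB H,
      h.2 hM' hn hZ hF hTop D hD hD1 hE S P r P' Λ PB H⟩

end Pool.ASM
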