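import Pool.Agent.H56.ASM.Sk10
import Pool.Agent.H3.D2G.Cel

/-!
# The parts of `KP 4`, eleventh form

As `kp4_of10`; the cell `[one]` is a theorem (`lCellA_one` of `H3/D2G`), the other cells are listed.
-/

set_option autoImplicit false

namespace Pool.ASM

open Pool.KA Pool.PKG Pool.GEN Pool.K2S

/-- The cells of length two and three. -/
theorem cells_of {n : ℕ} (hn : n ≤ 4) (h2 : 3 ≤ n → ∀ k : Kd, LCellV n [Kd.one, k])
    (h3 : n = 4 → ∀ k k' : Kd, LCellV n [Kd.one, k, k']) (κ : List Kd) (hκ : κ.length + 2 ≤ n) :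
    LCellV n (Kd.one :: κ) := by
  match κ with
  | [] => exact (lCellA_one n).v
  | [k] => exact h2 (by simp at hκ; omega) k
  | [k, k'] => exact h3 (by simp at hκ; omega) k k'
  | _ :: _ :: _ :: _ => exact absurd hκ (by simp; omega)

/-- **`KP 4` from its parts**, eleventh form. -/
theorem kp4_of11
    (hC2 : ∀ n, 3 ≤ n → n ≤ 4 → ∀ k : Kd, LCellV n [Kd.one, k])
    (hC3 : ∀ k k' : Kd, LCellV 4 [Kd.one, k, k'])
    (c2 : LCellF 4 [Kd.one, Kd.thin]) (c3 : LCellF 4 [Kd.one, Kd.sta])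
    (hE1 : ∀ n, 2 ≤ n → n ≤ 4 → LEx1 n) (hTw : ∀ n, 3 ≤ n → n ≤ 4 → LTw n)
    (hTp : ∀ n, 3 ≤ n → n ≤ 4 → LTp n) (hNb : LNb 4) (hFc : LFc 4) (hFP : LFastP 4)
    (hEx : ∀ n, 2 ≤ n → n ≤ 4 → LExc n) (hA : LV0A 4) (hB : LV0B 4)
    (hM : ∀ n, 3 ≤ n → n ≤ 4 → LMevY n) : KP 4 :=
  kp4_of10 (fun n h1 h2 => cells_of h2 (fun h3 => hC2 n h3 h2) fun h4 => by subst h4; exact hC3)
    (lCellA_one 4).f c2 c3 hE1 hTw hTp hNb hFc hFP hEx hA hB hM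

end Pool.ASM
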