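import Pool.Agent.H56.ASM.Sk11

/-!
# The parts of `KP 4`, twelfth form

As `kp4_of11`; the thin windows without ties and with more than one contact coordinate are divided:
`LVo n`: all coordinates of the base are contact coordinates, such windows do not occur; `LTv n`: the
base has a coordinate of slope larger than one (only `n = 4`).
-/

set_option autoImplicit false

namespace Pool.ASM

open MeasureTheory Set Filter Topology
open Pool.Agent.H49.Ent Pool.Agent.H32.Dense Pool.STK Pool.KA Pool.KSAT Pool.K2S Pool.PB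
open Pool.GEN Pool.S6C Pool.GRW Pool.PKG Pool.STAT Pool.PM Pool.R1 Pool.Z4
open Pool.ONE (LocE Ext0 Ext rowN_of_ext)
open Pool.TOP (TopS rw_all)
open Pool.LEV (Law Lv)
open Pool.STR (NumI TopW Mac StaAt IsoAt StaU1 ThinAt SteepAt Rle)
open Pool.MIC6
open Pool.SW (TopC NtO OneS NoTie Rgh Xa TieO)

/-- **The thin windows where all coordinates of the base are contact coordinates** do not occur. -/
def LVo (n : ℕ) : Prop := (∀ k, 2 ≤ k → k < n → Ext0 k) →
  Tol fun η => AllC n η fun {hn} {_} {P} {_} {P'} {_} {PB} H hTop hF h =>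
    ∀ o : Od n, ∀ᵐ g : ℝ, RwH H hTop hF h o g → ThW hn P P' PB o g →
      (∀ i, slo H hTop hF o g i = 1) → False

/-- **No boxes at the thin windows without ties**, with more than one contact coordinate and with a
coordinate of the base of slope larger than one. -/
def LTv (n : ℕ) : Prop := (∀ k, 2 ≤ k → k < n → Ext0 k) →
  Tol fun η => AllX n η fun {hn} {_} {P} {_} {P'} {_} {PB} H hTop hF h _ =>
    NoB H hTop hF (H.rle h) h fun o g => ThW hn P P' PB o g ∧ NtW hn P P' o g ∧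
      ¬ OneS n (slo H hTop hF o g) ∧ ∃ i, 1 < slo H hTop hF o g i

/-- The slopes of the base are at least one. -/
theorem slo_ge {n : ℕ} {hn : 2 ≤ n} {S : PCl n} {P : ℝ → ℝ → ℝ} {r ρ : ℝ → ℝ}
    {P' : ℕ → List (Fin n) × Fin n → ℝ → ℝ → ℝ} {Λ : Finset (Fin n) → Fin n → ℝ → ℝ → ℝ}
    {PB : ℕ → List (Fin n) × Fin n → ℝ → ℝ → ℝ} (H : PkT hn S P r P' Λ PB) (hTop : TopS n)
    (hF : FZX (n - 1)) (hρ : Rle r ρ) (o : Od n) :
    ∀ᵐ g : ℝ, ((H.nk hTop hF).chg hρ H.up).RwD o g → ∀ i, 1 ≤ slo H hTop hF o g i := by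
  filter_upwards [NumI.rwD_chg (nk := H.nk hTop hF) hρ H.up (H.tgs.law ()) o] with g h1 R i
  exact (h1 R).one i (le_of_lt i.2)

theorem lTw_three (h : LVo 3) : LTw 3 := fun hi => by
  refine (h hi).mono fun η hη => ?_
  intro hn hZ hF hTop D hD hD1 hEx
  refine ⟨(1 + η D) * D + 1, by linarith, fun x _ _ S P r P' Λ PB H => noB_false fun o => ?_⟩
  filter_upwards [hη hn hZ hF hTop D hD hD1 hEx S P r P' Λ PB H o, H.rwH_chg hTop hF _ o,
    slo_ge H hTop hF (H.rle ((1 - η D) * D)) o, one_zero H hTop hF o] with g k1 k2 k3 k4 R hx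
  refine k1 (k2 R) hx.1 fun i => ?_
  have hno := hx.2.2
  unfold OneS at hno
  push Not at hno
  obtain ⟨j, j1, j2⟩ := hno
  have hj := j.2
  have hi := i.2
  rcases Nat.eq_zero_or_pos (i : ℕ) with h0 | h0
  · rw [slo_slN, h0, slN_lvl o (by omega)]
    exact k4 R.mem
  · have e : i = j := Fin.ext (by omega)
    rw [e]
    exact le_antisymm j2 (k3 R j)

theorem lTw_four (h : LVo 4) (h' : LTv 4) : LTw 4 := fun hi => by
  refine ((h hi).and (h' hi)).mono fun η hη => ?_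
  obtain ⟨hη, hη'⟩ := hη
  intro hn hZ hF hTop D hD hD1 hEx
  obtain ⟨x₀, hx₀, h2⟩ := hη' hn hZ hF hTop D hD hD1 hEx
  refine ⟨x₀, hx₀, fun x h3 h4 S P r P' Λ PB H => ?_⟩
  have hv : NoB H hTop hF (H.rle ((1 - η D) * D)) ((1 - η D) * D) fun o g =>
      ThW hn P P' PB o g ∧ ∀ i, slo H hTop hF o g i = 1 := noB_false fun o => by
    filter_upwards [hη hn hZ hF hTop D hD hD1 hEx S P r P' Λ PB H o, H.rwH_chg hTop hF _ o]
      with g k1 k2 R hx
    exact k1 (k2 R) hx.1 hx.2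
  refine ((h2 x h3 h4 S P r P' Λ PB H).or hv).mono fun o => ?_
  filter_upwards [slo_ge H hTop hF (H.rle ((1 - η D) * D)) o] with g k3 R hx
  by_cases hex : ∃ i, 1 < slo H hTop hF o g i
  · exact Or.inl ⟨hx.1, hx.2.1, hx.2.2, hex⟩
  · push Not at hex
    exact Or.inr ⟨hx.1, fun i => le_antisymm (hex i) (k3 R i)⟩

/-- **`KP 4` from its parts**, twelfth form. -/
theorem kp4_of12
    (hC2 : ∀ n, 3 ≤ n → n ≤ 4 → ∀ k : Kd, LCellV n [Kd.one, k])
    (hC3 : ∀ k k' : Kd, LCellV 4 [Kd.one, k, k'])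
    (c2 : LCellF 4 [Kd.one, Kd.thin]) (c3 : LCellF 4 [Kd.one, Kd.sta])
    (hE1 : ∀ n, 2 ≤ n → n ≤ 4 → LEx1 n) (hV3 : LVo 3) (hV4 : LVo 4) (hTv : LTv 4)
    (hTp : ∀ n, 3 ≤ n → n ≤ 4 → LTp n) (hNb : LNb 4) (hFc : LFc 4) (hFP : LFastP 4)
    (hEx : ∀ n, 2 ≤ n → n ≤ 4 → LExc n) (hA : LV0A 4) (hB : LV0B 4)
    (hM : ∀ n, 3 ≤ n → n ≤ 4 → LMevY n) : KP 4 :=
  kp4_of11 hC2 hC3 c2 c3 hE1 (fun n h1 h2 => by
    have h3 : n = 3 ∨ n = 4 := by omega
    rcases h3 with rfl | rfl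
    · exact lTw_three hV3
    · exact lTw_four hV4 hTv) hTp hNb hFc hFP hEx hA hB hM

end Pool.ASM
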