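import Pool.Agent.H56.ASM.Sk13

/-!
# The parts of `KP 4`, fourteenth form

As `kp4_of13`; the thin windows with a tie at the top speed are divided: `LTp1 n`: one contact
coordinate; `LTp2 n`: more contact coordinates (only `n = 4`).
-/

set_option autoImplicit false

namespace Pool.ASM

open MeasureTheory Set Filter Topology
open Pool.Agent.H49.Ent Pool.Agent.H32.Dense Pool.STK Pool.KA Pool.KSAT Pool.K2S Pool.PB
open Pool.GEN Pool.S6C Pool.GRW Pool.PKG Pool.STAT Pool.PM Pool.R1 Pool.Z4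
open Pool.ONE (LocE Ext0 Ext rowN_of_ext)
open Pool.TOP (TopS rw_all)
open Pool.LEV (Law Lv)
open Pool.STR (NumI TopW Mac StaAt IsoAt StaU1 ThinAt SteepAt Rle)
open Pool.MIC6
open Pool.SW (TopC NtO OneS NoTie Rgh Xa TieO)

/-- **No boxes at the thin windows with a tie** at the top speed, with one contact coordinate. -/
def LTp1 (n : ℕ) : Prop := (∀ k, 2 ≤ k → k < n → Ext0 k) →
  Tol fun η => AllX n η fun {hn} {_} {P} {_} {P'} {_} {PB} H hTop hF h _ =>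
    NoB H hTop hF (H.rle h) h fun o g => (ThW hn P P' PB o g ∧ TiW hn P P' o g ∧
      TopA n (slo H hTop hF o g) (deriv (fun a => P a a) g)) ∧ OneS n (slo H hTop hF o g)

/-- **No boxes at the thin windows with a tie** at the top speed, with more contact coordinates. -/
def LTp2 (n : ℕ) : Prop := (∀ k, 2 ≤ k → k < n → Ext0 k) →
  Tol fun η => AllX n η fun {hn} {_} {P} {_} {P'} {_} {PB} H hTop hF h _ =>
    NoB H hTop hF (H.rle h) h fun o g => (ThW hn P P' PB o g ∧ TiW hn P P' o g ∧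
      TopA n (slo H hTop hF o g) (deriv (fun a => P a a) g)) ∧ ¬ OneS n (slo H hTop hF o g)

theorem lTp_of {n : ℕ} (h1 : LTp1 n) (h2 : LTp2 n) : LTp n := fun hi => by
  refine ((h1 hi).and (h2 hi)).mono fun η hη => ?_
  obtain ⟨hη1, hη2⟩ := hη
  intro hn hZ hF hTop D hD hD1 hEx
  obtain ⟨x₁, a1, b1⟩ := hη1 hn hZ hF hTop D hD hD1 hEx
  obtain ⟨x₂, a2, b2⟩ := hη2 hn hZ hF hTop D hD hD1 hEx
  refine ⟨min x₁ x₂, lt_min a1 a2, fun x h3 h4 S P r P' Λ PB H => ?_⟩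
  refine ((b1 x h3 (h4.trans (min_le_left _ _)) S P r P' Λ PB H).or
    (b2 x h3 (h4.trans (min_le_right _ _)) S P r P' Λ PB H)).mono fun o =>
      Eventually.of_forall fun g _ hx => ?_
  by_cases h5 : OneS n (slo H hTop hF o g)
  · exact Or.inl ⟨hx, h5⟩
  · exact Or.inr ⟨hx, h5⟩

/-- In dimension three a tie leaves only one contact coordinate. -/
theorem lTp2_three : LTp2 3 := fun _ => Tol.of_all fun η h0 _ => by
  intro hn hZ hF hTop D hD hD1 hEx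
  refine ⟨(1 + η D) * D + 1, by linarith, fun x _ _ S P r P' Λ PB H => noB_false fun o => ?_⟩
  filter_upwards [tie_of H hTop hF o] with g k R hx
  obtain ⟨l, l1, l2, l3⟩ := k R.mem hx.1.1.1 hx.1.2.1
  refine hx.2 fun i hi1 => ?_
  have hi := i.2
  have e : (i : ℕ) = l := by omega
  rw [slo_slN, e, l3]
  exact hx.1.1.1

/-- **`KP 4` from its parts**, fourteenth form. -/
theorem kp4_of14
    (cR : ∀ n, 3 ≤ n → n ≤ 4 → LCellR n) (c11 : LCellV 4 [Kd.one, Kd.one])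
    (cT : ∀ n, 3 ≤ n → n ≤ 4 → LCellA n [Kd.one, Kd.thin])
    (cS : ∀ n, 3 ≤ n → n ≤ 4 → LCellA n [Kd.one, Kd.sta])
    (c11t : LCellV 4 [Kd.one, Kd.one, Kd.thin]) (c11s : LCellV 4 [Kd.one, Kd.one, Kd.sta])
    (c1t1 : LCellV 4 [Kd.one, Kd.thin, Kd.one]) (c1s1 : LCellV 4 [Kd.one, Kd.sta, Kd.one])
    (c1tt : LCellV 4 [Kd.one, Kd.thin, Kd.thin]) (c1ts : LCellV 4 [Kd.one, Kd.thin, Kd.sta])
    (c1st : LCellV 4 [Kd.one, Kd.sta, Kd.thin]) (c1ss : LCellV 4 [Kd.one, Kd.sta, Kd.sta])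
    (hE1 : ∀ n, 2 ≤ n → n ≤ 4 → LEx1 n) (hV3 : LVo 3) (hV4 : LVo 4) (hTv : LTv 4)
    (hTp : ∀ n, 3 ≤ n → n ≤ 4 → LTp1 n) (hTp2 : LTp2 4) (hNb : LNb 4) (hFc : LFc 4)
    (hFP : LFastP 4) (hEx : ∀ n, 2 ≤ n → n ≤ 4 → LExc n) (hA : LV0A 4) (hB : LV0B 4)
    (hM : ∀ n, 3 ≤ n → n ≤ 4 → LMevY n) : KP 4 :=
  kp4_of13 cR c11 cT cS c11t c11s c1t1 c1s1 c1tt c1ts c1st c1ss hE1 hV3 hV4 hTv
    (fun n h1 h2 => by
      have h3 : n = 3 ∨ n = 4 := by omega
      rcases h3 with rfl | rfl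
      · exact lTp_of (hTp 3 h1 h2) lTp2_three
      · exact lTp_of (hTp 4 h1 h2) hTp2) hNb hFc hFP hEx hA hB hM

end Pool.ASM
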