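import Pool.Agent.H56.ASM.Sub
import Pool.Agent.H56.ASM.ExG
import Pool.Agent.H82.MV.Nor8

/-!
# The parts of `KP 4`, fifteenth form

As `kp4_of14`. Exactness is asked in a subclass and is divided: `LExA n`: the windows where all
coordinates of the base are contact coordinates; `LExB n`: the windows where the target has slope one
and a coordinate of the base has a larger slope do not occur. The data on the events are replaced by
the variations `LNv n l i` (`H82/MV`).
-/

set_option autoImplicit false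

namespace Pool.ASM

open MeasureTheory Set Filter Topology
open Pool.Agent.H49.Ent Pool.Agent.H32.Dense Pool.STK Pool.KA Pool.KSAT Pool.K2S Pool.PB
open Pool.GEN Pool.S6C Pool.GRW Pool.PKG Pool.STAT Pool.PM Pool.R1 Pool.Z4
open Pool.ONE (LocE Ext0 Ext rowN_of_ext)
open Pool.TOP (TopS rw_all)
open Pool.LEV (Law Lv)
open Pool.STR (NumI TopW Mac StaAt IsoAt StaU1 ThinAt SteepAt Rle)
open Pool.MIC6
open Pool.SW (TopC NtO OneS NoTie Rgh Xa TieO)

/-- **Exactness in the rows (I)**, in a subclass with the same threshold and the same rate, at the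
windows where all coordinates of the base are contact coordinates. -/
def LExA (n : ℕ) : Prop := (∀ k, 2 ≤ k → k < n → Ext0 k) →
  Tol fun η => LocE n η MicRt → AllC n η fun {hn} {_} {P} {r} {_} {_} {_} _ hTop hF h =>
    ∃ (S₁ : PCl n) (P₁ : ℕ → List (Fin n) × Fin n → ℝ → ℝ → ℝ)
      (Λ₁ : Finset (Fin n) → Fin n → ℝ → ℝ → ℝ) (PB₁ : ℕ → List (Fin n) × Fin n → ℝ → ℝ → ℝ)
      (H₁ : PkT hn S₁ P r P₁ Λ₁ PB₁) (W : Od n → Set ℝ), (∀ o, MeasurableSet (W o)) ∧
        (∀ o, ∀ᵐ g : ℝ, g ∈ Gs P r P₁ Λ₁ o → 0 < g → g < 1 → g ∈ W o) ∧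
        ExcG H₁ hTop hF (H₁.rle h) W fun o g => ∀ i, slo H₁ hTop hF o g i = 1

/-- **The windows of the rows (I) with a coordinate of the base of slope larger than one** do not
occur. -/
def LExB (n : ℕ) : Prop := (∀ k, 2 ≤ k → k < n → Ext0 k) →
  Tol fun η => LocE n η MicRt → AllC n η fun {_} {_} {P} {_} {_} {_} {_} H hTop hF h =>
    ∀ o : Od n, ∀ᵐ g : ℝ, RwH H hTop hF h o g → deriv (fun a => P a a) g = 1 →
      ∀ i, slo H hTop hF o g i = 1

theorem lExB_two : LExB 2 := fun _ => Tol.of_all fun _ _ _ _ => by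
  intro hn hZ hF hTop D hD hD1 hE S P r P' Λ PB H o
  filter_upwards [one_zero H hTop hF o] with g k R _ i
  have hi := i.2
  rw [slo_slN, show (i : ℕ) = 0 by omega, slN_lvl o (by omega)]
  exact k R.rwd.mem

/-- **`KP 4` from its parts**, fifteenth form. -/
theorem kp4_of15
    (cR : ∀ n, 3 ≤ n → n ≤ 4 → LCellR n) (c11 : LCellV 4 [Kd.one, Kd.one])
    (cT : ∀ n, 3 ≤ n → n ≤ 4 → LCellA n [Kd.one, Kd.thin])
    (cS : ∀ n, 3 ≤ n → n ≤ 4 → LCellA n [Kd.one, Kd.sta])
    (c11t : LCellV 4 [Kd.one, Kd.one, Kd.thin]) (c11s : LCellV 4 [Kd.one, Kd.one, Kd.sta])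
    (c1t1 : LCellV 4 [Kd.one, Kd.thin, Kd.one]) (c1s1 : LCellV 4 [Kd.one, Kd.sta, Kd.one])
    (c1tt : LCellV 4 [Kd.one, Kd.thin, Kd.thin]) (c1ts : LCellV 4 [Kd.one, Kd.thin, Kd.sta])
    (c1st : LCellV 4 [Kd.one, Kd.sta, Kd.thin]) (c1ss : LCellV 4 [Kd.one, Kd.sta, Kd.sta])
    (hE1 : ∀ n, 2 ≤ n → n ≤ 4 → LEx1 n) (hV3 : LVo 3) (hV4 : LVo 4) (hTv : LTv 4)
    (hTp : ∀ n, 3 ≤ n → n ≤ 4 → LTp1 n) (hTp2 : LTp2 4) (hNb : LNb 4) (hFc : LFc 4)
    (hFP : LFastP 4) (hXA : ∀ n, 2 ≤ n → n ≤ 4 → LExA n) (hXB : ∀ n, 3 ≤ n → n ≤ 4 → LExB n)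
    (hA : LV0A 4) (hB : LV0B 4) (h312 : LNv 3 1 2) (h412 : LNv 4 1 2) (h413 : LNv 4 1 3)
    (h423 : LNv 4 2 3) : KP 4 := by
  have hCel : ∀ n, 2 ≤ n → n ≤ 4 → ∀ κ : List Kd, κ.length + 2 ≤ n → LCellV n (Kd.one :: κ) := by
    intro n h1 h2
    refine cells_of h2 (fun h3 k => ?_) fun h4 k k' => ?_
    · cases k with
      | one =>
        have h5 : n = 3 ∨ n = 4 := by omega
        rcases h5 with rfl | rfl
        · exact cR 3 le_rfl (by omega)
        · exact c11
      | thin => exact (cT n h3 h2).v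
      | sta => exact (cS n h3 h2).v
    · subst h4
      cases k with
      | one =>
        cases k' with
        | one => exact cR 4 (by omega) le_rfl
        | thin => exact c11t
        | sta => exact c11s
      | thin =>
        cases k' with
        | one => exact c1t1
        | thin => exact c1tt
        | sta => exact c1ts
      | sta =>
        cases k' with
        | one => exact c1s1
        | thin => exact c1st
        | sta => exact c1ss
  have hTw : ∀ n, 3 ≤ n → n ≤ 4 → LTw n := fun n h1 h2 => by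
    have h3 : n = 3 ∨ n = 4 := by omega
    rcases h3 with rfl | rfl
    · exact lTw_three hV3
    · exact lTw_four hV4 hTv
  have hTpn : ∀ n, 3 ≤ n → n ≤ 4 → LTp n := fun n h1 h2 => by
    have h3 : n = 3 ∨ n = 4 := by omega
    rcases h3 with rfl | rfl
    · exact lTp_of (hTp 3 h1 h2) lTp2_three
    · exact lTp_of (hTp 4 h1 h2) hTp2
  refine kp_of_tolS (by norm_num) (fun n a1 a2 a3 => ?_) (fun n a1 a2 a3 => ?_)
    (fun n a1 a2 a3 => ?_) fun n a1 a2 a3 => Tol.of_all fun η _ _ => topW_upto (fun _ => η) n a1 a2 a3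
  · have hBs : LBs n := by
      refine lBs_of10 a2 (hE1 n a1 a2) (fun h3 => hTw n h3 a2) (fun h3 => hTpn n h3 a2) ?_ ?_
        (fun h4 => by subst h4; exact (lCellA_one 4).f)
        (fun h4 => by subst h4; exact (cT 4 (by omega) le_rfl).f)
        (fun h4 => by subst h4; exact (cS 4 (by omega) le_rfl).f)
      · have h3 : n = 2 ∨ n = 3 ∨ n = 4 := by omega
        rcases h3 with rfl | rfl | rfl
        · exact lFc_two
        · exact lFc_three
        · exact hFc
      · have h3 : n = 2 ∨ n = 3 ∨ n = 4 := by omega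
        rcases h3 with rfl | rfl | rfl
        · exact lFastP_two
        · exact lFastP_three
        · exact hFP
    refine ((hBs a3).and (two_of_cellsV (hCel n a1 a2) a3)).mono fun η h => ?_
    intro hn hZ hF hTop D hD hD1 hE S P r P' Λ PB H
    exact classN_V (h.1 hn hZ hF hTop D hD hD1 hE S P r P' Λ PB H)
      (h.2 hn hZ hF hTop D hD hD1 hE S P r P' Λ PB H)
  · have hN : LNor n := by
      by_cases h3 : n = 2
      · subst h3
        refine fun _ => Tol.of_all fun _ _ _ _ => ?_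
        intro hn hZ hF hTop D hD hD1 hE S P r P' Λ PB H
        exact nore_two H hTop hF rfl
      · refine lNor_10 a2 (hCel n a1 a2) (fun h4 => ?_) (fun h4 => ?_) (hE1 n a1 a2)
          (fun h4 => ?_) ?_
        · subst h4
          exact hA
        · subst h4
          exact hB
        · subst h4
          exact hNb
        · have h4 : n = 3 ∨ n = 4 := by omega
          rcases h4 with rfl | rfl
          · exact lMevD_three h312
          · exact lMevD_four h412 h413 h423
    exact hN a3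
  · have hXB' : LExB n := by
      by_cases h3 : n = 2
      · subst h3
        exact lExB_two
      · exact hXB n (by omega) a2
    refine ((hXA n a1 a2 a3).and (hXB' a3)).mono fun η h hM => ?_
    obtain ⟨h1, h2⟩ := h
    intro hn hZ hF hTop D hD hD1 hE S P r P' Λ PB H
    obtain ⟨S₁, P₁, Λ₁, PB₁, H₁, W, b1, b2, b3⟩ :=
      h1 hM hn hZ hF hTop D hD hD1 hE S P r P' Λ PB H
    refine ⟨S₁, P₁, Λ₁, PB₁, H₁, W, b1, b2, excG_all b3 fun o => ?_⟩
    filter_upwards [h2 hM hn hZ hF hTop D hD hD1 hE S₁ P r P₁ Λ₁ PB₁ H₁ o,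
      H₁.rwH_chg hTop hF ((1 - η D) * D) o] with g k1 k2 R hs
    exact k1 (k2 R) hs

end Pool.ASM
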