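import Pool.Agent.H19.ONE.Nor1
import Pool.Agent.H72.KE.Has

/-!
# The parts of `KP 4`, sixteenth form

The strategy needs no exactness: the base is static at all windows of the nonfull rows (helper19's
`playA`); `LSta1 n` (helper19): this at the windows where the target has slope one. The cells are asked only at
the windows `GainZ`: the target is not static, or it is static and all coordinates of the base besides
the first have slopes larger than one. The windows with more than one contact coordinate: `LTwA n`,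
for all packages. The variations which are left: `LNv 4 1 3`, `LNv 4 2 3`.
-/

set_option autoImplicit false

namespace Pool.ASM

open MeasureTheory Set Filter Topology
open Pool.Agent.H49.Ent Pool.Agent.H32.Dense Pool.STK Pool.KA Pool.KSAT Pool.K2S Pool.PB
open Pool.GEN Pool.S6C Pool.GRW Pool.PKG Pool.STAT Pool.PM Pool.R1 Pool.Z4
open Pool.ONE
open Pool.TOP (TopS rw_all)
open Pool.LEV (Law Lv)
open Pool.STR (NumI TopW Mac StaAt IsoAt StaU1 ThinAt SteepAt Rle)
open Pool.MIC6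
open Pool.SW (TopC NtO OneS NoTie Rgh Xa TieO)
open Pool.MV (DfO NvU nore_ind8 mevY_of)

variable {n : ℕ} {hn : 2 ≤ n} {S : PCl n} {P : ℝ → ℝ → ℝ} {r : ℝ → ℝ}
  {P' : ℕ → List (Fin n) × Fin n → ℝ → ℝ → ℝ} {Λ : Finset (Fin n) → Fin n → ℝ → ℝ → ℝ}
  {PB : ℕ → List (Fin n) × Fin n → ℝ → ℝ → ℝ}

/-- **The windows of the cells**: with gain and the target is not static, or the target is static and
the other coordinates of the base have slopes larger than one. -/
def GainZ (hn : 2 ≤ n) (P : ℝ → ℝ → ℝ) (P' PB : ℕ → List (Fin n) × Fin n → ℝ → ℝ → ℝ) (o : Od n)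
    (g : ℝ) : Prop :=
  (Mac (PT hn PB o) g ∧ ¬ StaAt P g) ∨
    (StaAt P g ∧ 1 < deriv (fun a => P a a) g ∧ One1 hn P P' o g)

theorem GainZ.v {o : Od n} {g : ℝ} (h : GainZ hn P P' PB o g) : GainV hn P P' PB o g :=
  h.imp And.left id

/-- **The cell `κ` of (D2)** at the windows `GainZ`, all classes. -/
def LCellZ (n : ℕ) (κ : List Kd) : Prop := (∀ k, 2 ≤ k → k < n → Ext0 k) →
  Tol fun η => AllC n η fun {hn} {_} {P} {_} {P'} {_} {PB} H hTop hF h =>
    CellX H hTop hF h (GainZ hn P P' PB) κ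

theorem LCellV.z {n : ℕ} {κ : List Kd} (h : LCellV n κ) : LCellZ n κ := fun hi => by
  refine (h hi).mono fun η h1 => ?_
  intro hn hZ hF hTop D hD hD1 hE S P r P' Λ PB H
  exact (h1 hn hZ hF hTop D hD hD1 hE S P r P' Λ PB H).mono fun o g hx => hx.v

/-- The cells of length two and three. -/
theorem cellsZ_of {n : ℕ} (hn : n ≤ 4) (h2 : 3 ≤ n → ∀ k : Kd, LCellZ n [Kd.one, k])
    (h3 : n = 4 → ∀ k k' : Kd, LCellZ n [Kd.one, k, k']) (κ : List Kd) (hκ : κ.length + 2 ≤ n) :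
    LCellZ n (Kd.one :: κ) := by
  match κ with
  | [] => exact (lCellA_one n).v.z
  | [k] => exact h2 (by simp at hκ; omega) k
  | [k, k'] => exact h3 (by simp at hκ; omega) k k'
  | _ :: _ :: _ :: _ => exact absurd hκ (by simp; omega)

/-- (D2) for all places, from the cells. -/
theorem two_of_cellsZ {n : ℕ} (hC : ∀ κ : List Kd, κ.length + 2 ≤ n → LCellZ n (Kd.one :: κ))
    (hi : ∀ k, 2 ≤ k → k < n → Ext0 k) :
    Tol fun η => AllC n η fun {hn} {_} {P} {_} {P'} {_} {PB} H hTop hF h =>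
      ∀ i, 1 ≤ i → i ≤ n - 1 → TwoX H hTop hF h (GainZ hn P P' PB) i := by
  have hfin := cells_fin n
  refine (Tol.fin fun κ : {κ : List Kd // κ.length + 2 ≤ n} => hC κ.1 κ.2 hi).mono fun η h => ?_
  intro hn hZ hF hTop D hD hD1 hE S P r P' Λ PB H i h1 h2
  exact twoX_of H hTop hF h1 h2 fun κ hκ =>
    h ⟨κ, by omega⟩ hn hZ hF hTop D hD hD1 hE S P r P' Λ PB H

/-- **`ClassN`** from `noBS` and (D2) for the places, at the windows `GainZ`. -/
theorem classN_Z {H : PkT hn S P r P' Λ PB} {hTop : TopS n} {hF : FZX (n - 1)} {h : ℝ}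
    (noBS : ∃ p : ((H.nk hTop hF).chg (H.rle h) H.up).Par, p.cell.NoJS ∨ p.cell.NoBS)
    (hT : ∀ i, 1 ≤ i → i ≤ n - 1 → TwoX H hTop hF h (GainZ hn P P' PB) i) :
    ClassN H hTop hF h := by
  refine ⟨noBS, fun o : Od n => ?_⟩
  have hlaw := H.tgs.law ()
  have hL : Law (PT hn PB o) := (H.nk hTop hF).hPT o
  filter_upwards [ths_big H hTop hF (h := h) o, mac_big H hTop hF (h := h) o,
    STR.isoS_or_mac hL, STR.dia_ae hL, (H.nk hTop hF).derT_ae hlaw o,
    TwoX.big (fun i h1 h2 => hT i h1 (by omega)) o, hT (n - 1) (by omega) le_rfl o]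
    with g k0 k1 k3 k5 k4 k6 k7 R
  have hg0 := R.rwd.g0
  have hg1 := R.rwd.g1
  have hlt : PT hn PB o g g < 1 :=
    lt_of_le_of_lt (H.le o g g hg0 le_rfl hg1.le) R.rwd.val
  rcases k3 hg0 hg1 hlt with hiso | hmac
  · exact Or.inl hiso
  have hder := (k4 R.rwd.mem hg0 hg1).2
  by_cases hsp : StaAt P g
  · rcases le_or_gt (deriv (fun a => P a a) g) 1 with h1 | h1
    · refine Or.inr (Or.inl (sta_of_one hL hg0 hg1 (fun a h0 h2 => ?_) (k5 hg0 hg1)
        (hder.trans_le h1)))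
      exact (H.thb o.2).up _ a a h0 le_rfl h2
    · exact Or.inr (Or.inr ⟨hsp, h1⟩)
  have hX : GainZ hn P P' PB o g := Or.inl ⟨hmac, hsp⟩
  have hbig := k6 R hX
  rcases k1 R hbig with h1 | h1
  · exact Or.inl (STR.iso_of_thin hL hg0 hg1 hlt (k5 hg0 hg1)
      (fun a w a0 a1 a2 => H.le o a w a0 a1 a2) h1)
  rcases le_or_gt (deriv (fun a => P a a) g) 2 with h2 | h2
  · exact Or.inr (Or.inl (STR.sta_of_steep (k5 hg0 hg1) (hder.trans_le h2) h1))
  · have eL : LvL hn P P' o (n - 1) = P := by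
      funext a w
      exact LvL_top o a w
    rw [eL, LvT_top] at k7
    exact absurd (k7 R hX (k0 R hbig) h2 h1) hsp

/-- **The static chains** from their parts. -/
theorem lNor_Z {n : ℕ} (hn4 : n ≤ 4)
    (hC : ∀ κ : List Kd, κ.length + 2 ≤ n → LCellZ n (Kd.one :: κ))
    (hA : n = 4 → LV0A n) (hB : n = 4 → LV0B n) (hE : LEx1 n) (hNb : n = 4 → LNb n)
    (hM : LMevD n) : LNor n := fun hi => by
  have hA' : Tol fun η => n = 4 → LocE n η MicRt →
      AllC n η fun {hn} {_} {P} {_} {P'} {_} {_} H hTop hF h =>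
        ∀ o : Od n, ∀ᵐ g : ℝ, RwH H hTop hF h o g → 1 < deriv (fun a => P a a) g → StaAt P g →
        deriv (fun a => LL hn P P' o 2 a a) g ≤ 1 → 1 < deriv (fun a => LL hn P P' o 3 a a) g →
        StaAt (LL hn P P' o 3) g := by
    by_cases h4 : n = 4
    · exact (hA h4 hi).mono fun η h _ => h
    · exact Tol.of_all fun _ _ _ h5 => absurd h5 h4
  have hB' : Tol fun η => n = 4 → LocE n η MicRt →
      AllC n η fun {hn} {_} {P} {_} {P'} {_} {_} H hTop hF h =>
        ∀ o : Od n, ∀ᵐ g : ℝ, RwH H hTop hF h o g → 1 < deriv (fun a => P a a) g → StaAt P g →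
        deriv (fun a => LL hn P P' o 3 a a) g ≤ 1 → 1 < deriv (fun a => LL hn P P' o 2 a a) g →
        StaAt (LL hn P P' o 2) g := by
    by_cases h4 : n = 4
    · exact (hB h4 hi).mono fun η h _ => h
    · exact Tol.of_all fun _ _ _ h5 => absurd h5 h4
  refine ((two_of_cellsZ hC hi).and (hA'.and (hB'.and ((hM hi).and
    (Tol.le 1 one_pos))))).mono fun η h hMic => ?_
  obtain ⟨h1, h2, h3, h4, h6⟩ := h
  intro hn hZ hF hTop D hD hD1 hE' S P r P' Λ PB H
  have e1 := h6 D hD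
  have hEA := hE hi hn hZ hF hTop
  obtain ⟨Y, hY, hMev⟩ := h4 hMic hn hZ hF hTop D hD hD1 hE' S P r P' Λ PB H
  refine nore_ind8 hMic hi hn hn4 hZ hF hTop hD hD1 e1.1 e1.2 hE' H ?_ (fun o => ?_)
    (vAll_n Pool.VAS.micV hEA) (fun h5 => vAll_t Pool.VAS.micV hEA (topC_one n)
      (hNb h5 hi hn hZ hF hTop)) hY hMev
  · by_cases hn3 : n ≤ 3
    · exact v0C_three H hTop hF hn3
    · have h7 : n = 4 := by omega
      exact v0C_four H hTop hF h7 (h2 h7 hMic hn hZ hF hTop D hD hD1 hE' S P r P' Λ PB H)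
        (h3 h7 hMic hn hZ hF hTop D hD hD1 hE' S P r P' Λ PB H)
  · filter_upwards [TwoX.big (fun i a1 a2 =>
      h1 hn hZ hF hTop D hD hD1 hE' S P r P' Λ PB H i a1 (by omega)) o] with g k1 R hS hst h8
    exact k1 R (Or.inr ⟨hst, hS, h8⟩)

/-- **`KP 4` from its parts**, sixteenth form. -/
theorem kp4_of16
    (cR : ∀ n, 3 ≤ n → n ≤ 4 → LCellZ n (List.replicate (n - 1) Kd.one))
    (c11 : LCellZ 4 [Kd.one, Kd.one])
    (cT : ∀ n, 3 ≤ n → n ≤ 4 → LCellA n [Kd.one, Kd.thin])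
    (cS : ∀ n, 3 ≤ n → n ≤ 4 → LCellA n [Kd.one, Kd.sta])
    (c11t : LCellZ 4 [Kd.one, Kd.one, Kd.thin]) (c11s : LCellZ 4 [Kd.one, Kd.one, Kd.sta])
    (c1t1 : LCellZ 4 [Kd.one, Kd.thin, Kd.one]) (c1s1 : LCellZ 4 [Kd.one, Kd.sta, Kd.one])
    (c1tt : LCellZ 4 [Kd.one, Kd.thin, Kd.thin]) (c1ts : LCellZ 4 [Kd.one, Kd.thin, Kd.sta])
    (c1st : LCellZ 4 [Kd.one, Kd.sta, Kd.thin]) (c1ss : LCellZ 4 [Kd.one, Kd.sta, Kd.sta])
    (hE4 : LEx1 4) (hV3 : LVoA 3) (hT4 : LTwA 4)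
    (hTp : ∀ n, 3 ≤ n → n ≤ 4 → LTp1 n) (hNb : LNb 4) (hFc : LFc 4)
    (hFP : LFastP 4) (hS1 : ∀ n, 3 ≤ n → n ≤ 4 → LSta1 n)
    (hA : LV0A 4) (hB : LV0B 4) (h413 : LNv 4 1 3) (h423 : LNv 4 2 3) : KP 4 := by
  have hE1 : ∀ n, 2 ≤ n → n ≤ 4 → LEx1 n := fun n h1 h2 => by
    have h3 : n = 2 ∨ n = 3 ∨ n = 4 := by omega
    rcases h3 with rfl | rfl | rfl
    · exact Pool.OWN72.lEx1_two
    · exact Pool.OWN72.lEx1_three
    · exact hE4
  have hTA : ∀ n, 3 ≤ n → n ≤ 4 → LTwA n := fun n h1 h2 => by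
    have h3 : n = 3 ∨ n = 4 := by omega
    rcases h3 with rfl | rfl
    · exact lTwA_three hV3
    · exact hT4
  have hCel : ∀ n, 2 ≤ n → n ≤ 4 → ∀ κ : List Kd, κ.length + 2 ≤ n → LCellZ n (Kd.one :: κ) := by
    intro n h1 h2
    refine cellsZ_of h2 (fun h3 k => ?_) fun h4 k k' => ?_
    · cases k with
      | one =>
        have h5 : n = 3 ∨ n = 4 := by omega
        rcases h5 with rfl | rfl
        · exact cR 3 le_rfl (by omega)
        · exact c11
      | thin => exact (cT n h3 h2).v.z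
      | sta => exact (cS n h3 h2).v.z
    · subst h4
      cases k with
      | one =>
        cases k' with
        | one => exact cR 4 (by omega) le_rfl
        | thin => exact c11t
        | sta => exact c11s
      | thin =>
        cases k' with
        | one => exact c1t1
        | thin => exact c1tt
        | sta => exact c1ts
      | sta =>
        cases k' with
        | one => exact c1s1
        | thin => exact c1st
        | sta => exact c1ss
  have hTpn : ∀ n, 3 ≤ n → n ≤ 4 → LTp n := fun n h1 h2 => by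
    have h3 : n = 3 ∨ n = 4 := by omega
    rcases h3 with rfl | rfl
    · exact lTp_of (hTp 3 h1 h2) lTp2_three
    · exact lTp_of (hTp 4 h1 h2) hT4.lTp2
  have hCE : ∀ n, 2 ≤ n → n ≤ 4 → (∀ k, 2 ≤ k → k < n → Ext0 k) → Tol fun η => CellE n η := by
    intro n a1 a2 a3
    have hBs : LBs n := by
      refine lBs_of10 a2 (hE1 n a1 a2) (fun h3 => (hTA n h3 a2).lTw) (fun h3 => hTpn n h3 a2) ?_ ?_
        (fun h4 => by subst h4; exact (lCellA_one 4).f)
        (fun h4 => by subst h4; exact (cT 4 (by omega) le_rfl).f)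
        (fun h4 => by subst h4; exact (cS 4 (by omega) le_rfl).f)
      · have h3 : n = 2 ∨ n = 3 ∨ n = 4 := by omega
        rcases h3 with rfl | rfl | rfl
        · exact lFc_two
        · exact lFc_three
        · exact hFc
      · have h3 : n = 2 ∨ n = 3 ∨ n = 4 := by omega
        rcases h3 with rfl | rfl | rfl
        · exact lFastP_two
        · exact lFastP_three
        · exact hFP
    have hN : LNor n := by
      by_cases h3 : n = 2
      · subst h3
        refine fun _ => Tol.of_all fun _ _ _ _ => ?_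
        intro hn hZ hF hTop D hD hD1 hE S P r P' Λ PB H
        exact nore_two H hTop hF rfl
      · refine lNor_Z a2 (hCel n a1 a2) (fun h4 => ?_) (fun h4 => ?_) (hE1 n a1 a2)
          (fun h4 => ?_) ?_
        · subst h4
          exact hA
        · subst h4
          exact hB
        · subst h4
          exact hNb
        · have h4 : n = 3 ∨ n = 4 := by omega
          rcases h4 with rfl | rfl
          · exact lMevD_3
          · exact lMevD_four (lNv_12 (by norm_num)) h413 h423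
    have hS : LSta1 n := by
      by_cases h3 : n = 2
      · subst h3
        exact lSta1_two
      · exact hS1 n (by omega) a2
    refine (((hBs a3).and (two_of_cellsZ (hCel n a1 a2) a3)).and ((hN a3).and (hS a3))).mono
      fun η h => ?_
    obtain ⟨⟨b1, b2⟩, b3, b4⟩ := h
    have hG : ∀ (hn : 2 ≤ n) (_ : ∀ k, 1 ≤ k → k < n → FZX k) (hF : FZX (n - 1)) (hTop : TopS n)
        (D : ℝ), 0 < D → D ≤ 1 → Ext n ((1 + η D) * D) → ∀ (S : PCl n) (P : ℝ → ℝ → ℝ)
        (r : ℝ → ℝ) (P' : ℕ → List (Fin n) × Fin n → ℝ → ℝ → ℝ)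
        (Λ : Finset (Fin n) → Fin n → ℝ → ℝ → ℝ)
        (PB : ℕ → List (Fin n) × Fin n → ℝ → ℝ → ℝ) (H : PkT hn S P r P' Λ PB),
        GoalN ((H.nk hTop hF).chg (H.rle ((1 - η D) * D)) H.up) :=
      fun hn hZ hF hTop D hD hD1 hE S P r P' Λ PB H =>
        (classN_Z (b1 hn hZ hF hTop D hD hD1 hE S P r P' Λ PB H)
          (b2 hn hZ hF hTop D hD hD1 hE S P r P' Λ PB H)).goalN
    exact cellE_ofN a3 hG fun hM hn hZ hF hTop D hD hD1 hE S P r P' Λ PB H =>
      ⟨triv _, H.playA hTop hF _ ((b3 hM hn hZ hF hTop D hD hD1 hE S P r P' Λ PB H).noRa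
        (b4 hM hn hZ hF hTop D hD hD1 hE S P r P' Λ PB H)) _⟩
  classical
  have hall : ∀ n, ∃ η₀ : ℝ → ℝ, (∀ D, 0 < D → 0 < η₀ D) ∧
      (2 ≤ n → n ≤ 4 → (∀ k, 2 ≤ k → k < n → Ext0 k) →
        ∀ η : ℝ → ℝ, (∀ D, 0 < D → 0 < η D ∧ η D ≤ η₀ D) → CellE n η) := by
    intro n
    by_cases h : 2 ≤ n ∧ n ≤ 4 ∧ ∀ k, 2 ≤ k → k < n → Ext0 k
    · obtain ⟨η₀, h1, h2⟩ := hCE n h.1 h.2.1 h.2.2
      exact ⟨η₀, h1, fun _ _ _ => h2⟩
    · exact ⟨fun _ => 1, fun _ _ => one_pos, fun a1 a2 a3 => absurd ⟨a1, a2, a3⟩ h⟩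
  choose η₀ h1 h2 using hall
  obtain ⟨η, hη⟩ : ∃ η : ℕ → ℝ → ℝ, η = fun n D => min (η₀ n D) 1 := ⟨_, rfl⟩
  have e1 : ∀ n D, 0 < D → 0 < η n D := fun n D hD => by
    rw [hη]
    exact lt_min (h1 n D hD) one_pos
  have e2 : ∀ n D, 0 < D → η n D ≤ 1 := fun n D _ => by
    rw [hη]
    exact min_le_right _ _
  have e3 : ∀ n D, 0 < D → 0 < η n D ∧ η n D ≤ η₀ n D := fun n D hD => by
    refine ⟨e1 n D hD, ?_⟩
    rw [hη]
    exact min_le_left _ _
  have hC : ∀ n, 2 ≤ n → n ≤ 4 → (∀ k, 2 ≤ k → k < n → Ext0 k) → CellE n (η n) :=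
    fun n a1 a2 a3 => h2 n a1 a2 a3 (η n) (e3 n)
  exact kp_indE (by norm_num) η e1 (fun n h1 h2 h3 => (hC n h1 h2 h3).mic (e2 n))
    (fun n h1 h2 h3 => (hC n h1 h2 h3).sta (e2 n)) fun n a1 a2 a3 =>
      jmpE_of_top (e2 n) ((hC n a1 a2 a3).mic (e2 n)) ((hC n a1 a2 a3).sta (e2 n))
        (topW_upto η n a1 a2 a3)

end Pool.ASM
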