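import Pool.Agent.H56.ASM.Sk16
import Pool.Agent.H60.ASM.GnM

/-!
# The parts of `KP 4`, seventeenth form

As `kp4_of16`, with the cells only at helper60's windows `GainM`: the target is steep, has slope larger
than two and is not static, or it is static and all coordinates of the base besides the first have
slopes larger than one. `LCellB`: the third coordinate over two contact coordinates, `n = 4`.
-/

set_option autoImplicit false

namespace Pool.ASM

open MeasureTheory Set Filter Topology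
open Pool.Agent.H49.Ent Pool.Agent.H32.Dense Pool.STK Pool.KA Pool.KSAT Pool.K2S Pool.PB
open Pool.GEN Pool.S6C Pool.GRW Pool.PKG Pool.STAT Pool.PM Pool.R1 Pool.Z4
open Pool.ONE
open Pool.TOP (TopS rw_all)
open Pool.LEV (Law Lv)
open Pool.STR (NumI TopW Mac StaAt IsoAt StaU1 ThinAt SteepAt Rle)
open Pool.MIC6
open Pool.SW (TopC NtO OneS NoTie Rgh Xa TieO)
open Pool.MV (DfO NvU nore_ind8 mevY_of)

/-- The cells of length two and three. -/
theorem cellsM_of {n : ℕ} (hn : n ≤ 4) (h2 : 3 ≤ n → ∀ k : Kd, LCellM n [Kd.one, k])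
    (h3 : n = 4 → ∀ k k' : Kd, LCellM n [Kd.one, k, k']) (κ : List Kd) (hκ : κ.length + 2 ≤ n) :
    LCellM n (Kd.one :: κ) := by
  match κ with
  | [] => exact (lCellA_one n).v.m
  | [k] => exact h2 (by simp at hκ; omega) k
  | [k, k'] => exact h3 (by simp at hκ; omega) k k'
  | _ :: _ :: _ :: _ => exact absurd hκ (by simp; omega)

/-- **`KP 4` from its parts**, seventeenth form. -/
theorem kp4_of17
    (cR : ∀ n, 3 ≤ n → n ≤ 4 → LCellM n (List.replicate (n - 1) Kd.one))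
    (c11 : LCellB)
    (cT : ∀ n, 3 ≤ n → n ≤ 4 → LCellA n [Kd.one, Kd.thin])
    (cS : ∀ n, 3 ≤ n → n ≤ 4 → LCellA n [Kd.one, Kd.sta])
    (c11t : LCellM 4 [Kd.one, Kd.one, Kd.thin]) (c11s : LCellM 4 [Kd.one, Kd.one, Kd.sta])
    (c1t1 : LCellM 4 [Kd.one, Kd.thin, Kd.one]) (c1s1 : LCellM 4 [Kd.one, Kd.sta, Kd.one])
    (c1tt : LCellM 4 [Kd.one, Kd.thin, Kd.thin]) (c1ts : LCellM 4 [Kd.one, Kd.thin, Kd.sta])
    (c1st : LCellM 4 [Kd.one, Kd.sta, Kd.thin]) (c1ss : LCellM 4 [Kd.one, Kd.sta, Kd.sta])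
    (hE4 : LEx1 4) (hV3 : LVoA 3) (hT4 : LTwA 4)
    (hTp : ∀ n, 3 ≤ n → n ≤ 4 → LTp1 n) (hNb : LNb 4) (hFc : LFc 4)
    (hFP : LFastP 4) (hS1 : ∀ n, 3 ≤ n → n ≤ 4 → LSta1 n)
    (hA : LV0A 4) (hB : LV0B 4) (h413 : LNv 4 1 3) (h423 : LNv 4 2 3) : KP 4 := by
  have hE1 : ∀ n, 2 ≤ n → n ≤ 4 → LEx1 n := fun n h1 h2 => by
    have h3 : n = 2 ∨ n = 3 ∨ n = 4 := by omega
    rcases h3 with rfl | rfl | rfl
    · exact Pool.OWN72.lEx1_two
    · exact Pool.OWN72.lEx1_three
    · exact hE4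
  have hTA : ∀ n, 3 ≤ n → n ≤ 4 → LTwA n := fun n h1 h2 => by
    have h3 : n = 3 ∨ n = 4 := by omega
    rcases h3 with rfl | rfl
    · exact lTwA_three hV3
    · exact hT4
  have hCel : ∀ n, 2 ≤ n → n ≤ 4 → ∀ κ : List Kd, κ.length + 2 ≤ n → LCellM n (Kd.one :: κ) := by
    intro n h1 h2
    refine cellsM_of h2 (fun h3 k => ?_) fun h4 k k' => ?_
    · cases k with
      | one =>
        have h5 : n = 3 ∨ n = 4 := by omega
        rcases h5 with rfl | rfl
        · exact cR 3 le_rfl (by omega)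
        · exact lCellM_of c11
      | thin => exact (cT n h3 h2).v.m
      | sta => exact (cS n h3 h2).v.m
    · subst h4
      cases k with
      | one =>
        cases k' with
        | one => exact cR 4 (by omega) le_rfl
        | thin => exact c11t
        | sta => exact c11s
      | thin =>
        cases k' with
        | one => exact c1t1
        | thin => exact c1tt
        | sta => exact c1ts
      | sta =>
        cases k' with
        | one => exact c1s1
        | thin => exact c1st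
        | sta => exact c1ss
  have hTpn : ∀ n, 3 ≤ n → n ≤ 4 → LTp n := fun n h1 h2 => by
    have h3 : n = 3 ∨ n = 4 := by omega
    rcases h3 with rfl | rfl
    · exact lTp_of (hTp 3 h1 h2) lTp2_three
    · exact lTp_of (hTp 4 h1 h2) hT4.lTp2
  have hCE : ∀ n, 2 ≤ n → n ≤ 4 → (∀ k, 2 ≤ k → k < n → Ext0 k) → Tol fun η => CellE n η := by
    intro n a1 a2 a3
    have hBs : LBs n := by
      refine lBs_of10 a2 (hE1 n a1 a2) (fun h3 => (hTA n h3 a2).lTw) (fun h3 => hTpn n h3 a2) ?_ ?_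
        (fun h4 => by subst h4; exact (lCellA_one 4).f)
        (fun h4 => by subst h4; exact (cT 4 (by omega) le_rfl).f)
        (fun h4 => by subst h4; exact (cS 4 (by omega) le_rfl).f)
      · have h3 : n = 2 ∨ n = 3 ∨ n = 4 := by omega
        rcases h3 with rfl | rfl | rfl
        · exact lFc_two
        · exact lFc_three
        · exact hFc
      · have h3 : n = 2 ∨ n = 3 ∨ n = 4 := by omega
        rcases h3 with rfl | rfl | rfl
        · exact lFastP_two
        · exact lFastP_three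
        · exact hFP
    have hN : LNor n := by
      by_cases h3 : n = 2
      · subst h3
        refine fun _ => Tol.of_all fun _ _ _ _ => ?_
        intro hn hZ hF hTop D hD hD1 hE S P r P' Λ PB H
        exact nore_two H hTop hF rfl
      · refine lNor_M a2 (hCel n a1 a2) (fun h4 => ?_) (fun h4 => ?_) (hE1 n a1 a2)
          (fun h4 => ?_) ?_
        · subst h4
          exact hA
        · subst h4
          exact hB
        · subst h4
          exact hNb
        · have h4 : n = 3 ∨ n = 4 := by omega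
          rcases h4 with rfl | rfl
          · exact lMevD_3
          · exact lMevD_four (lNv_12 (by norm_num)) h413 h423
    have hS : LSta1 n := by
      by_cases h3 : n = 2
      · subst h3
        exact lSta1_two
      · exact hS1 n (by omega) a2
    refine (((hBs a3).and (two_of_cellsM (hCel n a1 a2) a3)).and ((hN a3).and (hS a3))).mono
      fun η h => ?_
    obtain ⟨⟨b1, b2⟩, b3, b4⟩ := h
    have hG : ∀ (hn : 2 ≤ n) (_ : ∀ k, 1 ≤ k → k < n → FZX k) (hF : FZX (n - 1)) (hTop : TopS n)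
        (D : ℝ), 0 < D → D ≤ 1 → Ext n ((1 + η D) * D) → ∀ (S : PCl n) (P : ℝ → ℝ → ℝ)
        (r : ℝ → ℝ) (P' : ℕ → List (Fin n) × Fin n → ℝ → ℝ → ℝ)
        (Λ : Finset (Fin n) → Fin n → ℝ → ℝ → ℝ)
        (PB : ℕ → List (Fin n) × Fin n → ℝ → ℝ → ℝ) (H : PkT hn S P r P' Λ PB),
        GoalN ((H.nk hTop hF).chg (H.rle ((1 - η D) * D)) H.up) :=
      fun hn hZ hF hTop D hD hD1 hE S P r P' Λ PB H =>
        (classN_M (b1 hn hZ hF hTop D hD hD1 hE S P r P' Λ PB H)
          (b2 hn hZ hF hTop D hD hD1 hE S P r P' Λ PB H)).goalN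
    exact cellE_ofN a3 hG fun hM hn hZ hF hTop D hD hD1 hE S P r P' Λ PB H =>
      ⟨triv _, H.playA hTop hF _ ((b3 hM hn hZ hF hTop D hD hD1 hE S P r P' Λ PB H).noRa
        (b4 hM hn hZ hF hTop D hD hD1 hE S P r P' Λ PB H)) _⟩
  classical
  have hall : ∀ n, ∃ η₀ : ℝ → ℝ, (∀ D, 0 < D → 0 < η₀ D) ∧
      (2 ≤ n → n ≤ 4 → (∀ k, 2 ≤ k → k < n → Ext0 k) →
        ∀ η : ℝ → ℝ, (∀ D, 0 < D → 0 < η D ∧ η D ≤ η₀ D) → CellE n η) := by
    intro n
    by_cases h : 2 ≤ n ∧ n ≤ 4 ∧ ∀ k, 2 ≤ k → k < n → Ext0 k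
    · obtain ⟨η₀, h1, h2⟩ := hCE n h.1 h.2.1 h.2.2
      exact ⟨η₀, h1, fun _ _ _ => h2⟩
    · exact ⟨fun _ => 1, fun _ _ => one_pos, fun a1 a2 a3 => absurd ⟨a1, a2, a3⟩ h⟩
  choose η₀ h1 h2 using hall
  obtain ⟨η, hη⟩ : ∃ η : ℕ → ℝ → ℝ, η = fun n D => min (η₀ n D) 1 := ⟨_, rfl⟩
  have e1 : ∀ n D, 0 < D → 0 < η n D := fun n D hD => by
    rw [hη]
    exact lt_min (h1 n D hD) one_pos
  have e2 : ∀ n D, 0 < D → η n D ≤ 1 := fun n D _ => by
    rw [hη]
    exact min_le_right _ _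
  have e3 : ∀ n D, 0 < D → 0 < η n D ∧ η n D ≤ η₀ n D := fun n D hD => by
    refine ⟨e1 n D hD, ?_⟩
    rw [hη]
    exact min_le_left _ _
  have hC : ∀ n, 2 ≤ n → n ≤ 4 → (∀ k, 2 ≤ k → k < n → Ext0 k) → CellE n (η n) :=
    fun n a1 a2 a3 => h2 n a1 a2 a3 (η n) (e3 n)
  exact kp_indE (by norm_num) η e1 (fun n h1 h2 h3 => (hC n h1 h2 h3).mic (e2 n))
    (fun n h1 h2 h3 => (hC n h1 h2 h3).sta (e2 n)) fun n a1 a2 a3 =>
      jmpE_of_top (e2 n) ((hC n a1 a2 a3).mic (e2 n)) ((hC n a1 a2 a3).sta (e2 n))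
        (topW_upto η n a1 a2 a3)

end Pool.ASM
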