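import Pool.Agent.H56.ASM.Sk17

/-!
# The parts of `KP 4`, eighteenth form

As `kp4_of17`; the rows whose target has slope one by helper19's `lSta1_three`, `lSta1_four`: left are
the cell `LCell1 4 [one, one]` and the variations `LNv1 4 1 3`, `LNv1 4 2 3`. The leaf `LTwA 4` is
divided in `LVoA 4`, `LTvA 4`, `LTp2A 4`.
-/

set_option autoImplicit false

namespace Pool.ASM

open Pool.KA Pool.PKG Pool.GEN Pool.K2S

/-- **`KP 4` from its parts**, eighteenth form. -/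
theorem kp4_of18
    (cR : ∀ n, 3 ≤ n → n ≤ 4 → LCellM n (List.replicate (n - 1) Kd.one))
    (c11 : LCellB) (d11 : LCell1 4 [Kd.one, Kd.one])
    (cT : ∀ n, 3 ≤ n → n ≤ 4 → LCellA n [Kd.one, Kd.thin])
    (cS : ∀ n, 3 ≤ n → n ≤ 4 → LCellA n [Kd.one, Kd.sta])
    (c11t : LCellM 4 [Kd.one, Kd.one, Kd.thin]) (c11s : LCellM 4 [Kd.one, Kd.one, Kd.sta])
    (c1t1 : LCellM 4 [Kd.one, Kd.thin, Kd.one]) (c1s1 : LCellM 4 [Kd.one, Kd.sta, Kd.one])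
    (c1tt : LCellM 4 [Kd.one, Kd.thin, Kd.thin]) (c1ts : LCellM 4 [Kd.one, Kd.thin, Kd.sta])
    (c1st : LCellM 4 [Kd.one, Kd.sta, Kd.thin]) (c1ss : LCellM 4 [Kd.one, Kd.sta, Kd.sta])
    (hE4 : LEx1 4) (hV : ∀ n, 3 ≤ n → n ≤ 4 → LVoA n) (hTv : LTvA 4) (hTp2 : LTp2A 4)
    (hTp : ∀ n, 3 ≤ n → n ≤ 4 → LTp1 n) (hNb : LNb 4) (hFc : LFc 4) (hFP : LFastP 4)
    (hA : LV0A 4) (hB : LV0B 4) (h413 : LNv 4 1 3) (h423 : LNv 4 2 3) (k413 : LNv1 4 1 3)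
    (k423 : LNv1 4 2 3) : KP 4 := by
  have hT4 : LTwA 4 := lTwA_of (hV 4 (by omega) le_rfl) hTv hTp2
  refine kp4_of17 cR c11 cT cS c11t c11s c1t1 c1s1 c1tt c1ts c1st c1ss hE4
    (hV 3 le_rfl (by omega)) hT4 hTp hNb hFc hFP (fun n h1 h2 => ?_) hA hB h413 h423
  have h3 : n = 3 ∨ n = 4 := by omega
  rcases h3 with rfl | rfl
  · exact lSta1_three (hV 3 le_rfl (by omega))
  · exact lSta1_four d11 (cT 4 (by omega) le_rfl) (cS 4 (by omega) le_rfl) hT4 k413 k423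

end Pool.ASM
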