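import Pool.Agent.H56.ASM.Sk18
import Pool.Agent.H56.ASM.ExS
import Pool.Agent.H54.C2T.Cel
import Pool.Agent.H88.D2.Stz
import Pool.Agent.H82.MV.Lf13
import Pool.Agent.H82.MV.Lf23b

/-!
# The parts of `KP 4`, nineteenth form

Theorems which are plugged in: the cells `[one, thin]` (helper54), `[one, sta]` (helper88), the
variations `LNvB 4 1 3`, `LNvB 4 2 3` for static coordinates (helper82). The thin windows with contact
and fast coordinates of the base are `LVoF n`; the remaining leaves about thin windows are only about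
the other slopes. Exactness is in a subclass.
-/

set_option autoImplicit false

namespace Pool.ASM

open MeasureTheory Set Filter Topology
open Pool.Agent.H49.Ent Pool.Agent.H32.Dense Pool.STK Pool.KA Pool.KSAT Pool.K2S Pool.PB
open Pool.GEN Pool.S6C Pool.GRW Pool.PKG Pool.STAT Pool.PM Pool.R1 Pool.Z4
open Pool.ONE
open Pool.TOP (TopS rw_all)
open Pool.LEV (Law Lv)
open Pool.STR (NumI TopW Mac StaAt IsoAt StaU1 ThinAt SteepAt Rle)
open Pool.MIC6
open Pool.SW (TopC NtO OneS NoTie Rgh Xa TieO)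
open Pool.MV (DfO NvU nore_ind8 mevY_of)

/-- **The static chains** from their parts, `n ≥ 3`. -/
theorem lNor_S {n : ℕ} (hn4 : n ≤ 4)
    (hC : ∀ κ : List Kd, κ.length + 2 ≤ n → LCellM n (Kd.one :: κ))
    (hA : n = 4 → LV0A n) (hB : n = 4 → LV0B n) (hVF : LVoF n) (hE : LExS n) (hTp : LTpS n)
    (hM : LMevD n) : LNor n := fun hi => by
  have hA' : Tol fun η => n = 4 → LocE n η MicRt →
      AllC n η fun {hn} {_} {P} {_} {P'} {_} {_} H hTop hF h =>
        ∀ o : Od n, ∀ᵐ g : ℝ, RwH H hTop hF h o g → 1 < deriv (fun a => P a a) g → StaAt P g →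
        deriv (fun a => LL hn P P' o 2 a a) g ≤ 1 → 1 < deriv (fun a => LL hn P P' o 3 a a) g →
        StaAt (LL hn P P' o 3) g := by
    by_cases h4 : n = 4
    · exact (hA h4 hi).mono fun η h _ => h
    · exact Tol.of_all fun _ _ _ h5 => absurd h5 h4
  have hB' : Tol fun η => n = 4 → LocE n η MicRt →
      AllC n η fun {hn} {_} {P} {_} {P'} {_} {_} H hTop hF h =>
        ∀ o : Od n, ∀ᵐ g : ℝ, RwH H hTop hF h o g → 1 < deriv (fun a => P a a) g → StaAt P g →
        deriv (fun a => LL hn P P' o 3 a a) g ≤ 1 → 1 < deriv (fun a => LL hn P P' o 2 a a) g →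
        StaAt (LL hn P P' o 2) g := by
    by_cases h4 : n = 4
    · exact (hB h4 hi).mono fun η h _ => h
    · exact Tol.of_all fun _ _ _ h5 => absurd h5 h4
  refine ((two_of_cellsM hC hi).and (hA'.and (hB'.and ((hM hi).and
    (Tol.le 1 one_pos))))).mono fun η h hMic => ?_
  obtain ⟨h1, h2, h3, h4, h6⟩ := h
  intro hn hZ hF hTop D hD hD1 hE' S P r P' Λ PB H
  have e1 := h6 D hD
  obtain ⟨Y, hY, hMev⟩ := h4 hMic hn hZ hF hTop D hD hD1 hE' S P r P' Λ PB H
  refine nore_ind8 hMic hi hn hn4 hZ hF hTop hD hD1 e1.1 e1.2 hE' H ?_ (fun o => ?_)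
    (vAll_nS hVF hE hi hn hZ hF hTop) (fun _ => vAll_tS hVF hE hTp hi hn hZ hF hTop)
    hY hMev
  · by_cases hn3 : n ≤ 3
    · exact v0C_three H hTop hF hn3
    · have h7 : n = 4 := by omega
      exact v0C_four H hTop hF h7 (h2 h7 hMic hn hZ hF hTop D hD hD1 hE' S P r P' Λ PB H)
        (h3 h7 hMic hn hZ hF hTop D hD hD1 hE' S P r P' Λ PB H)
  · filter_upwards [TwoX.big (fun i a1 a2 =>
      h1 hn hZ hF hTop D hD hD1 hE' S P r P' Λ PB H i a1 (by omega)) o] with g k1 R hS hst h8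
    exact k1 R (Or.inr ⟨hst, hS, h8⟩)

/-- **`KP 4` from its parts**, nineteenth form. -/
theorem kp4_of19
    (cR : ∀ n, 3 ≤ n → n ≤ 4 → LCellM n (List.replicate (n - 1) Kd.one))
    (c11 : LCellB)
    (c11t : LCellM 4 [Kd.one, Kd.one, Kd.thin]) (c11s : LCellM 4 [Kd.one, Kd.one, Kd.sta])
    (c1t1 : LCellM 4 [Kd.one, Kd.thin, Kd.one]) (c1s1 : LCellM 4 [Kd.one, Kd.sta, Kd.one])
    (c1tt : LCellM 4 [Kd.one, Kd.thin, Kd.thin]) (c1ts : LCellM 4 [Kd.one, Kd.thin, Kd.sta])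
    (c1st : LCellM 4 [Kd.one, Kd.sta, Kd.thin]) (c1ss : LCellM 4 [Kd.one, Kd.sta, Kd.sta])
    (hVF : ∀ n, 3 ≤ n → n ≤ 4 → LVoF n) (hE4 : LExS 4) (hTv : LTvB 4) (hTp2 : LTp2B 4)
    (hTq : ∀ n, 3 ≤ n → n ≤ 4 → LTqT n) (hTpS : LTpS 4) (hFc : LFcS 4) (hFP : LFastS 4)
    (hA : LV0A 4) (hB : LV0B 4)
    (h423 : LNvBZ 4 2 3 fun L g => ¬ StaAt L g)
    (hS4 : LSta1 4) : KP 4 := by
  have cT : ∀ n, 3 ≤ n → n ≤ 4 → LCellA n [Kd.one, Kd.thin] := fun n h1 _ =>
    Pool.C2T.lCellA_one_thin h1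
  have cS : ∀ n, 3 ≤ n → n ≤ 4 → LCellA n [Kd.one, Kd.sta] := fun n h1 _ => lCellA_sta h1
  have hV3 : LVoA 3 := lVoA_F (hVF 3 le_rfl (by omega))
  have hT4 : LTwA 4 := lTwA_of (lVoA_F (hVF 4 (by omega) le_rfl))
    (lTvA_F (hVF 4 (by omega) le_rfl) hTv) (lTp2A_F (hVF 4 (by omega) le_rfl) hTp2)
  have hTA : ∀ n, 3 ≤ n → n ≤ 4 → LTwA n := fun n h1 h2 => by
    have h3 : n = 3 ∨ n = 4 := by omega
    rcases h3 with rfl | rfl
    · exact lTwA_three hV3
    · exact hT4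
  have hES : ∀ n, 3 ≤ n → n ≤ 4 → LExS n := fun n h1 h2 => by
    have h3 : n = 3 ∨ n = 4 := by omega
    rcases h3 with rfl | rfl
    · exact Pool.OWN72.lEx1_three.s
    · exact hE4
  have hCel : ∀ n, 2 ≤ n → n ≤ 4 → ∀ κ : List Kd, κ.length + 2 ≤ n → LCellM n (Kd.one :: κ) := by
    intro n h1 h2
    refine cellsM_of h2 (fun h3 k => ?_) fun h4 k k' => ?_
    · cases k with
      | one =>
        have h5 : n = 3 ∨ n = 4 := by omega
        rcases h5 with rfl | rfl
        · exact cR 3 le_rfl (by omega)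
        · exact lCellM_of c11
      | thin => exact (cT n h3 h2).v.m
      | sta => exact (cS n h3 h2).v.m
    · subst h4
      cases k with
      | one =>
        cases k' with
        | one => exact cR 4 (by omega) le_rfl
        | thin => exact c11t
        | sta => exact c11s
      | thin =>
        cases k' with
        | one => exact c1t1
        | thin => exact c1tt
        | sta => exact c1ts
      | sta =>
        cases k' with
        | one => exact c1s1
        | thin => exact c1st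
        | sta => exact c1ss
  have hTpn : ∀ n, 3 ≤ n → n ≤ 4 → LTpS n := fun n h1 h2 => by
    have h3 : n = 3 ∨ n = 4 := by omega
    rcases h3 with rfl | rfl
    · exact lTpS_three
    · exact hTpS
  have hTqn : ∀ n, 3 ≤ n → n ≤ 4 → LTq1 n := fun n h1 h2 => lTq1_of (hTq n h1 h2) (hTpn n h1 h2)
  have hCE : ∀ n, 2 ≤ n → n ≤ 4 → (∀ k, 2 ≤ k → k < n → Ext0 k) → Tol fun η => CellE n η := by
    intro n a1 a2 a3
    have hBs : LBs n := by
      by_cases h2 : n = 2
      · subst h2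
        exact lBs_of10 (by norm_num) Pool.OWN72.lEx1_two (fun h => absurd h (by norm_num))
          (fun h => absurd h (by norm_num)) lFc_two lFastP_two (fun h => absurd h (by norm_num))
          (fun h => absurd h (by norm_num)) fun h => absurd h (by norm_num)
      have hn3 : 3 ≤ n := by omega
      refine lBs_S hn3 a2 (hVF n hn3 a2) (hES n hn3 a2) (hTA n hn3 a2) (hTqn n hn3 a2) ?_ ?_
        (fun h4 => by subst h4; exact (lCellA_one 4).f)
        (fun h4 => by subst h4; exact (cT 4 (by omega) le_rfl).f)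
        (fun h4 => by subst h4; exact (cS 4 (by omega) le_rfl).f)
      · have h3 : n = 3 ∨ n = 4 := by omega
        rcases h3 with rfl | rfl
        · exact lFc_three.s
        · exact hFc
      · have h3 : n = 3 ∨ n = 4 := by omega
        rcases h3 with rfl | rfl
        · exact lFastP_three.s
        · exact hFP
    have hN : LNor n := by
      by_cases h3 : n = 2
      · subst h3
        refine fun _ => Tol.of_all fun _ _ _ _ => ?_
        intro hn hZ hF hTop D hD hD1 hE S P r P' Λ PB H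
        exact nore_two H hTop hF rfl
      · have hn3 : 3 ≤ n := by omega
        refine lNor_S a2 (hCel n a1 a2) (fun h4 => ?_) (fun h4 => ?_) (hVF n hn3 a2)
          (hES n hn3 a2) (hTpn n hn3 a2) ?_
        · subst h4
          exact hA
        · subst h4
          exact hB
        · have h4 : n = 3 ∨ n = 4 := by omega
          rcases h4 with rfl | rfl
          · exact lMevD_3
          · exact lMevD_B (lMevB_four (lNvB_12 (by norm_num))
              (lNvB_13 rfl) (lNvB_or (lNvB_23s le_rfl) h423 fun L g => em _))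
    have hS : LSta1 n := by
      have h3 : n = 2 ∨ n = 3 ∨ n = 4 := by omega
      rcases h3 with rfl | rfl | rfl
      · exact lSta1_two
      · exact lSta1_three hV3
      · exact hS4
    refine (((hBs a3).and (two_of_cellsM (hCel n a1 a2) a3)).and ((hN a3).and (hS a3))).mono
      fun η h => ?_
    obtain ⟨⟨b1, b2⟩, b3, b4⟩ := h
    have hG : ∀ (hn : 2 ≤ n) (_ : ∀ k, 1 ≤ k → k < n → FZX k) (hF : FZX (n - 1)) (hTop : TopS n)
        (D : ℝ), 0 < D → D ≤ 1 → Ext n ((1 + η D) * D) → ∀ (S : PCl n) (P : ℝ → ℝ → ℝ)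
        (r : ℝ → ℝ) (P' : ℕ → List (Fin n) × Fin n → ℝ → ℝ → ℝ)
        (Λ : Finset (Fin n) → Fin n → ℝ → ℝ → ℝ)
        (PB : ℕ → List (Fin n) × Fin n → ℝ → ℝ → ℝ) (H : PkT hn S P r P' Λ PB),
        GoalN ((H.nk hTop hF).chg (H.rle ((1 - η D) * D)) H.up) :=
      fun hn hZ hF hTop D hD hD1 hE S P r P' Λ PB H =>
        (classN_M (b1 hn hZ hF hTop D hD hD1 hE S P r P' Λ PB H)
          (b2 hn hZ hF hTop D hD hD1 hE S P r P' Λ PB H)).goalN
    exact cellE_ofN a3 hG fun hM hn hZ hF hTop D hD hD1 hE S P r P' Λ PB H =>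
      ⟨triv _, H.playA hTop hF _ ((b3 hM hn hZ hF hTop D hD hD1 hE S P r P' Λ PB H).noRa
        (b4 hM hn hZ hF hTop D hD hD1 hE S P r P' Λ PB H)) _⟩
  classical
  have hall : ∀ n, ∃ η₀ : ℝ → ℝ, (∀ D, 0 < D → 0 < η₀ D) ∧
      (2 ≤ n → n ≤ 4 → (∀ k, 2 ≤ k → k < n → Ext0 k) →
        ∀ η : ℝ → ℝ, (∀ D, 0 < D → 0 < η D ∧ η D ≤ η₀ D) → CellE n η) := by
    intro n
    by_cases h : 2 ≤ n ∧ n ≤ 4 ∧ ∀ k, 2 ≤ k → k < n → Ext0 k
    · obtain ⟨η₀, h1, h2⟩ := hCE n h.1 h.2.1 h.2.2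
      exact ⟨η₀, h1, fun _ _ _ => h2⟩
    · exact ⟨fun _ => 1, fun _ _ => one_pos, fun a1 a2 a3 => absurd ⟨a1, a2, a3⟩ h⟩
  choose η₀ h1 h2 using hall
  obtain ⟨η, hη⟩ : ∃ η : ℕ → ℝ → ℝ, η = fun n D => min (η₀ n D) 1 := ⟨_, rfl⟩
  have e1 : ∀ n D, 0 < D → 0 < η n D := fun n D hD => by
    rw [hη]
    exact lt_min (h1 n D hD) one_pos
  have e2 : ∀ n D, 0 < D → η n D ≤ 1 := fun n D _ => by
    rw [hη]
    exact min_le_right _ _
  have e3 : ∀ n D, 0 < D → 0 < η n D ∧ η n D ≤ η₀ n D := fun n D hD => by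
    refine ⟨e1 n D hD, ?_⟩
    rw [hη]
    exact min_le_left _ _
  have hC : ∀ n, 2 ≤ n → n ≤ 4 → (∀ k, 2 ≤ k → k < n → Ext0 k) → CellE n (η n) :=
    fun n a1 a2 a3 => h2 n a1 a2 a3 (η n) (e3 n)
  exact kp_indE (by norm_num) η e1 (fun n h1 h2 h3 => (hC n h1 h2 h3).mic (e2 n))
    (fun n h1 h2 h3 => (hC n h1 h2 h3).sta (e2 n)) fun n a1 a2 a3 =>
      jmpE_of_top (e2 n) ((hC n a1 a2 a3).mic (e2 n)) ((hC n a1 a2 a3).sta (e2 n))
        (topW_upto η n a1 a2 a3)

end Pool.ASM
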