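import Pool.Agent.H56.ASM.Sk
import Pool.Agent.H60.GEN.KpL
import Pool.Agent.H77.Z4.Nor4

/-!
# The parts of `KP 4`, second form

The inputs about the class are reduced to: `LBase n` (a coordinate of the base which is steep with
slope larger than two, over thin or static coordinates, is static; only at the windows with gain of
the target), `LTwoS n` (the same for the target; the base is thin or static), `LBs n` (no boxes),
`LExc n` (exactness), and the two inputs of the count `LMevX n`, `LHc n`. `kp4_of2`: `KP 4` from these.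
-/

set_option autoImplicit false

namespace Pool.ASM

open MeasureTheory Set Filter Topology
open Pool.Agent.H49.Ent Pool.Agent.H32.Dense Pool.STK Pool.KA Pool.KSAT Pool.K2S Pool.PB
open Pool.GEN Pool.S6C Pool.GRW Pool.PKG Pool.STAT Pool.PM Pool.R1 Pool.Z4
open Pool.ONE (LocE Ext0 Ext)
open Pool.TOP (TopS)
open Pool.LEV (Law Lv)
open Pool.STR (TopW Mac StaAt IsoAt StaU1 ThinAt SteepAt)
open Pool.ZFI (MevH)

variable {n : ℕ} {hn : 2 ≤ n} {S : PCl n} {P : ℝ → ℝ → ℝ} {r : ℝ → ℝ}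
  {P' : ℕ → List (Fin n) × Fin n → ℝ → ℝ → ℝ} {Λ : Finset (Fin n) → Fin n → ℝ → ℝ → ℝ}
  {PB : ℕ → List (Fin n) × Fin n → ℝ → ℝ → ℝ}

/-- (D2) for the coordinates of the base, at the windows with gain of the target. -/
def BaseC (H : PkT hn S P r P' Λ PB) (hTop : TopS n) (hF : FZX (n - 1)) (h : ℝ) : Prop :=
  ∀ o : Od n, ∀ᵐ g : ℝ, RwH H hTop hF h o g →
    (Mac (PT hn PB o) g ∨ StaAt P g ∧ 1 < deriv (fun a => P a a) g) → BigS hn P P' PB o g

/-- (D2) for the coordinates of the base, at the windows with a tie: a coordinate of the base has the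
slope of the target. -/
def BaseT (H : PkT hn S P r P' Λ PB) (hTop : TopS n) (hF : FZX (n - 1)) (h : ℝ) : Prop :=
  ∀ o : Od n, ∀ᵐ g : ℝ, RwH H hTop hF h o g → 1 < deriv (fun a => P a a) g →
    (∃ l, 1 ≤ l ∧ l < n - 1 ∧ deriv (fun a => LL hn P P' o (l + 1) a a) g =
      deriv (fun a => P a a) g) → BigS hn P P' PB o g

/-- (D2) for the target, over thin or static coordinates. -/
def TwoC (H : PkT hn S P r P' Λ PB) (hTop : TopS n) (hF : FZX (n - 1)) (h : ℝ) : Prop :=
  ∀ o : Od n, ∀ᵐ g : ℝ, RwH H hTop hF h o g → 2 < deriv (fun a => P a a) g →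
    (∀ l < n - 1, ThS hn P P' PB o l g) → SteepAt 2 (PT hn PB o) g → Mac (PT hn PB o) g →
    StaAt (PT hn PB o) g ∨ StaAt P g

/-- The coordinates of the base are thin or static where (D2) holds for them. -/
theorem ths_big (H : PkT hn S P r P' Λ PB) (hTop : TopS n) (hF : FZX (n - 1)) {h : ℝ} (o : Od n) :
    ∀ᵐ g : ℝ, RwH H hTop hF h o g → BigS hn P P' PB o g → ∀ i < n - 1, ThS hn P P' PB o i g := by
  filter_upwards [ths_of H hTop hF] with g h2 R hB
  exact h2 o R.rwd.mem hB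

/-- The target is thin or steep where (D2) holds for the coordinates of the base. -/
theorem mac_big (H : PkT hn S P r P' Λ PB) (hTop : TopS n) (hF : FZX (n - 1)) {h : ℝ} (o : Od n) :
    ∀ᵐ g : ℝ, RwH H hTop hF h o g → BigS hn P P' PB o g →
      ThinAt P (PT hn PB o) g ∨ SteepAt 2 (PT hn PB o) g := by
  have hn1 : 1 ≤ n - 1 := by omega
  filter_upwards [ths_big H hTop hF (h := h) o, H.mac_of H.pble hTop hF fun Sb del h1 h2 =>
    evTC (n - 1) hn1 Sb del h1 h2] with g h1 h2 R hB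
  exact h2 o R.rwd.mem (h1 R hB)

/-- **Three kinds of windows** from (D2) for the coordinates and for the target. -/
theorem classN_base {H : PkT hn S P r P' Λ PB} {hTop : TopS n} {hF : FZX (n - 1)} {h : ℝ}
    (noBS : ∃ p : ((H.nk hTop hF).chg (H.rle h) H.up).Par, p.cell.NoJS ∨ p.cell.NoBS)
    (hB : BaseC H hTop hF h) (hT : TwoC H hTop hF h) : ClassN H hTop hF h := by
  refine ⟨noBS, fun o : Od n => ?_⟩
  have hlaw := H.tgs.law ()
  have hL : Law (PT hn PB o) := (H.nk hTop hF).hPT o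
  filter_upwards [ths_big H hTop hF (h := h) o, mac_big H hTop hF (h := h) o, hT o,
    STR.isoS_or_mac hL, STR.dia_ae hL, (H.nk hTop hF).derT_ae hlaw o, hB o]
    with g k0 k1 k2 k3 k5 k4 k6 R
  have hg0 := R.rwd.g0
  have hg1 := R.rwd.g1
  have hlt : PT hn PB o g g < 1 :=
    lt_of_le_of_lt (H.le o g g hg0 le_rfl hg1.le) R.rwd.val
  rcases k3 hg0 hg1 hlt with hiso | hmac
  · exact Or.inl hiso
  have hbig := k6 R (Or.inl hmac)
  rcases k1 R hbig with h1 | h1
  · exact Or.inl (STR.iso_of_thin hL hg0 hg1 hlt (k5 hg0 hg1)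
      (fun a w a0 a1 a2 => H.le o a w a0 a1 a2) h1)
  have hder := (k4 R.rwd.mem hg0 hg1).2
  rcases le_or_gt (deriv (fun a => P a a) g) 2 with h2 | h2
  · exact Or.inr (Or.inl (STR.sta_of_steep (k5 hg0 hg1) (hder.trans_le h2) h1))
  · rcases k2 R h2 (k0 R hbig) h1 hmac with h3 | h3
    · exact Or.inr (Or.inl h3)
    · exact Or.inr (Or.inr ⟨h3, by linarith⟩)

/-- (D2) for the coordinates of the base, all classes. -/
def LBase (n : ℕ) : Prop := (∀ k, 2 ≤ k → k < n → Ext0 k) →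
  Tol fun η => AllC n η fun H hTop hF h => BaseC H hTop hF h

/-- (D2) for the coordinates of the base at the ties, all classes. -/
def LBaseT (n : ℕ) : Prop := (∀ k, 2 ≤ k → k < n → Ext0 k) →
  Tol fun η => AllC n η fun H hTop hF h => BaseT H hTop hF h

/-- (D2) for the target, all classes. -/
def LTwoS (n : ℕ) : Prop := (∀ k, 2 ≤ k → k < n → Ext0 k) →
  Tol fun η => AllC n η fun H hTop hF h => TwoC H hTop hF h

/-- The data on the events, near the windows where they are used, all classes. -/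
def LMevX (n : ℕ) : Prop := (∀ k, 2 ≤ k → k < n → Ext0 k) →
  Tol fun η => LocE n η MicRt →
    AllC n η fun {hn} {S} {P} {r} {P'} {Λ} {PB} H hTop hF h =>
      ∀ (o : Od n) (l : ℕ), 1 ≤ l → l < n - 1 → ∃ C : ℝ, 1 ≤ C ∧
        MevX hn S P r P' Λ o l (fun g => RwH H hTop hF h o g ∧ Xw hn P P' PB o l g) C

/-- The count with no loss, all classes. -/
def LHc (n : ℕ) : Prop := (∀ k, 2 ≤ k → k < n → Ext0 k) →
  Tol fun η => LocE n η MicRt → AllC n η fun {hn} {_} {P} {_} {P'} {_} {PB} H hTop hF h =>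
    ∀ (o : Od n) (l : ℕ), ∀ᵐ g : ℝ, RwH H hTop hF h o g → StaAt P g →
      2 ≤ deriv (fun a => P a a) g → (∀ i < n - 1, ThS hn P P' PB o i g) → Cfg hn P P' o l g →
      deriv (fun a => P a a) g < deriv (fun a => LL hn P P' o (l + 1) a a) g → False

/-- The coordinates of the base, in dimension two. -/
theorem lBase_two : LBase 2 := fun _ => Tol.of_all fun _ _ _ =>
  fun _ _ _ _ _ _ _ _ _ _ _ _ _ _ _ _ => Eventually.of_forall fun _ _ _ i h1 h2 => by omega

/-- **The static chains** from their parts. -/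
theorem lNor_of {n : ℕ} (hB : LBase n) (hM : LMevX n) (hH : LHc n) : LNor n := fun hi => by
  refine ((hB hi).and ((hM hi).and ((hH hi).and (Tol.le 1 one_pos)))).mono fun η h hMic => ?_
  obtain ⟨h1, h2, h3, h4⟩ := h
  intro hn hZ hF hTop D hD hD1 hE S P r P' Λ PB H
  have e1 := h4 D hD
  refine nore_ind4 hMic hi hn hZ hF hTop hD hD1 e1.1 e1.2 hE H (fun o => ?_)
    (h3 hMic hn hZ hF hTop D hD hD1 hE S P r P' Λ PB H)
    (h2 hMic hn hZ hF hTop D hD hD1 hE S P r P' Λ PB H)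
  filter_upwards [h1 hn hZ hF hTop D hD hD1 hE S P r P' Λ PB H o] with g k1 R hS hst
  exact k1 R (Or.inr ⟨hst, hS⟩)

/-- **`KP 4` from its parts**, second form. -/
theorem kp4_of2 (hB3 : LBase 3) (hB4 : LBase 4) (hTw : ∀ n, 2 ≤ n → n ≤ 4 → LTwoS n)
    (hBs : ∀ n, 2 ≤ n → n ≤ 4 → LBs n) (hEx : ∀ n, 2 ≤ n → n ≤ 4 → LExc n)
    (hMe : ∀ n, 3 ≤ n → n ≤ 4 → LMevX n) (hHc : ∀ n, 3 ≤ n → n ≤ 4 → LHc n) : KP 4 := by
  have hB : ∀ n, 2 ≤ n → n ≤ 4 → LBase n := fun n h1 h2 => by
    have h3 : n = 2 ∨ n = 3 ∨ n = 4 := by omega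
    rcases h3 with rfl | rfl | rfl
    · exact lBase_two
    · exact hB3
    · exact hB4
  refine kp_of_tol (by norm_num) (fun n a1 a2 a3 => ?_) (fun n a1 a2 a3 => ?_)
    fun n a1 a2 a3 => Tol.of_all fun η _ _ => topW_upto (fun _ => η) n a1 a2 a3
  · refine (((hBs n a1 a2 a3).and (hB n a1 a2 a3)).and (hTw n a1 a2 a3)).mono fun η h => ?_
    intro hn hZ hF hTop D hD hD1 hE S P r P' Λ PB H
    exact classN_base (h.1.1 hn hZ hF hTop D hD hD1 hE S P r P' Λ PB H)
      (h.1.2 hn hZ hF hTop D hD hD1 hE S P r P' Λ PB H)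
      (h.2 hn hZ hF hTop D hD hD1 hE S P r P' Λ PB H)
  · have hN : LNor n := by
      by_cases h3 : n = 2
      · subst h3
        refine fun _ => Tol.of_all fun _ _ _ _ => ?_
        intro hn hZ hF hTop D hD hD1 hE S P r P' Λ PB H
        exact nore_two H hTop hF rfl
      · exact lNor_of (hB n a1 a2) (hMe n (by omega) a2) (hHc n (by omega) a2)
    refine ((hEx n a1 a2 a3).and (hN a3)).mono fun η h hM => ?_
    intro hn hZ hF hTop D hD hD1 hE S P r P' Λ PB H
    exact ⟨h.1 hM hn hZ hF hTop D hD hD1 hE S P r P' Λ PB H,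
      h.2 hM hn hZ hF hTop D hD hD1 hE S P r P' Λ PB H⟩

end Pool.ASM
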