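import Pool.Agent.H56.ASM.ExS

/-!
# The parts outside a set of void windows

`WinC`: conditions `X` on the windows which depend only on the numbers. `LVoX X n`: there are no thin
windows with the property `X`. The other parts are asked only outside `X`: `LTvX`, `LTp2X` (more than
one contact coordinate), `LExX` (exactness in a subclass), `LTqX`, `LTpX` (ties), `LFcX`, `LFastX`
(a tie and a faster coordinate). `vAll_nX`, `vAll_tX`, `lBs_X`: the boxes.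
-/

set_option autoImplicit false

namespace Pool.ASM

open MeasureTheory Set Filter Topology
open Pool.Agent.H49.Ent Pool.Agent.H32.Dense Pool.STK Pool.KA Pool.KSAT Pool.K2S Pool.PB
open Pool.GEN Pool.S6C Pool.GRW Pool.PKG Pool.STAT Pool.PM Pool.R1 Pool.Z4
open Pool.ONE (LocE Ext0 Ext rowN_of_ext)
open Pool.TOP (TopS rw_all)
open Pool.LEV (Law Lv)
open Pool.STR (NumI TopW Mac StaAt IsoAt StaU1 ThinAt SteepAt Rle)
open Pool.MIC6
open Pool.SW (TopC NtO OneS NoTie Rgh Xa TieO)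
open Pool.MV (nore_ind8)

/-- **A condition on the windows**, which depends only on the numbers. -/
abbrev WinC : Type := ∀ n : ℕ, 2 ≤ n → (ℝ → ℝ → ℝ) → (ℕ → List (Fin n) × Fin n → ℝ → ℝ → ℝ) →
  (ℕ → List (Fin n) × Fin n → ℝ → ℝ → ℝ) → Od n → ℝ → Prop

/-- **The thin windows with the property** `X` do not occur, for all packages and all deficits. -/
def LVoX (X : WinC) (n : ℕ) : Prop :=
  (∀ k, 2 ≤ k → k < n → Ext0 k) → ∀ (hn : 2 ≤ n) (_ : ∀ k, 1 ≤ k → k < n → FZX k)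
    (hF : FZX (n - 1)) (hTop : TopS n) (S : PCl n) (P : ℝ → ℝ → ℝ) (r : ℝ → ℝ)
    (P' : ℕ → List (Fin n) × Fin n → ℝ → ℝ → ℝ) (Λ : Finset (Fin n) → Fin n → ℝ → ℝ → ℝ)
    (PB : ℕ → List (Fin n) × Fin n → ℝ → ℝ → ℝ) (H : PkT hn S P r P' Λ PB) (h : ℝ), 0 < h →
    h ≤ 1 → ∀ o : Od n, ∀ᵐ g : ℝ, RwH H hTop hF h o g → ThW hn P P' PB o g →
      X n hn P P' PB o g → False

theorem LVoX.mono {X Y : WinC} {n : ℕ} (h : LVoX X n)
    (hXY : ∀ (hn : 2 ≤ n) P P' PB o g, Y n hn P P' PB o g → X n hn P P' PB o g) : LVoX Y n := by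
  intro hi hn hZ hF hTop S P r P' Λ PB H h₀ hh hh1 o
  filter_upwards [h hi hn hZ hF hTop S P r P' Λ PB H h₀ hh hh1 o] with g k R hx hy
  exact k R hx (hXY hn P P' PB o g hy)

/-- Two kinds of void windows. -/
theorem LVoX.or {X Y : WinC} {n : ℕ} (h : LVoX X n) (h' : LVoX Y n) :
    LVoX (fun n hn P P' PB o g => X n hn P P' PB o g ∨ Y n hn P P' PB o g) n := by
  intro hi hn hZ hF hTop S P r P' Λ PB H h₀ hh hh1 o
  filter_upwards [h hi hn hZ hF hTop S P r P' Λ PB H h₀ hh hh1 o,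
    h' hi hn hZ hF hTop S P r P' Λ PB H h₀ hh hh1 o] with g k k' R hx hy
  exact hy.elim (k R hx) (k' R hx)

/-- **No boxes at the thin windows with the property** `X`. -/
theorem noB_X {X : WinC} {n : ℕ} (h1 : LVoX X n) :
    AllP n fun {hn} {_} {P} {_} {P'} {_} {PB} {_} H hTop hF h hρ =>
      NoB H hTop hF hρ h fun o g => ThW hn P P' PB o g ∧ X n hn P P' PB o g := by
  intro hi hn hZ hF hTop S P r P' Λ PB H h hh hh1 ρ hρ hrow
  refine noB_false fun o => ?_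
  filter_upwards [h1 hi hn hZ hF hTop S P r P' Λ PB H (h / 2) (by linarith) (by linarith) o,
    rwH_rho H hTop hF hρ (h' := h / 2) (by linarith) hrow o] with g k1 k2 R hx
  exact k1 (k2 R) hx.1 hx.2

/-- **No ties**, more than one contact coordinate, outside `X`. -/
def LTvX (X : WinC) (n : ℕ) : Prop :=
  AllP n fun {hn} {_} {P} {_} {P'} {_} {PB} {_} H hTop hF h hρ =>
    NoB H hTop hF hρ h fun o g => (ThW hn P P' PB o g ∧ NtW hn P P' o g ∧
      ¬ OneS n (slo H hTop hF o g) ∧ ∃ i, 1 < slo H hTop hF o g i) ∧ ¬ X n hn P P' PB o g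

/-- **A tie**, more than one contact coordinate, outside `X`. -/
def LTp2X (X : WinC) (n : ℕ) : Prop :=
  AllP n fun {hn} {_} {P} {_} {P'} {_} {PB} {_} H hTop hF h hρ =>
    NoB H hTop hF hρ h fun o g => (ThW hn P P' PB o g ∧ TiW hn P P' o g ∧
      ¬ OneS n (slo H hTop hF o g)) ∧ ¬ X n hn P P' PB o g

theorem lTvA_X {X : WinC} {n : ℕ} (h1 : LVoX X n) (h2 : LTvX X n) : LTvA n := by
  intro hi hn hZ hF hTop S P r P' Λ PB H h hh hh1 ρ hρ hrow
  refine ((noB_X h1 hi hn hZ hF hTop S P r P' Λ PB H h hh hh1 ρ hρ hrow).or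
    (h2 hi hn hZ hF hTop S P r P' Λ PB H h hh hh1 ρ hρ hrow)).mono fun o =>
      Eventually.of_forall fun g _ hx => ?_
  by_cases hf : X n hn P P' PB o g
  · exact Or.inl ⟨hx.1, hf⟩
  · exact Or.inr ⟨hx, hf⟩

theorem lTp2A_X {X : WinC} {n : ℕ} (h1 : LVoX X n) (h2 : LTp2X X n) : LTp2A n := by
  intro hi hn hZ hF hTop S P r P' Λ PB H h hh hh1 ρ hρ hrow
  refine ((noB_X h1 hi hn hZ hF hTop S P r P' Λ PB H h hh hh1 ρ hρ hrow).or
    (h2 hi hn hZ hF hTop S P r P' Λ PB H h hh hh1 ρ hρ hrow)).mono fun o =>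
      Eventually.of_forall fun g _ hx => ?_
  by_cases hf : X n hn P P' PB o g
  · exact Or.inl ⟨hx.1, hf⟩
  · exact Or.inr ⟨hx, hf⟩

/-! ### Exactness -/

section

variable {n : ℕ} {hn : 2 ≤ n} {S : PCl n} {P : ℝ → ℝ → ℝ} {r ρ : ℝ → ℝ}
  {P' : ℕ → List (Fin n) × Fin n → ℝ → ℝ → ℝ} {Λ : Finset (Fin n) → Fin n → ℝ → ℝ → ℝ}
  {PB : ℕ → List (Fin n) × Fin n → ℝ → ℝ → ℝ}

/-- **The windows where exactness is needed**: the target is thin, only one coordinate of the base is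
a contact coordinate, the window is not in `X`. -/
def ExWX (X : WinC) (H : PkT hn S P r P' Λ PB) (hTop : TopS n) (hF : FZX (n - 1)) (o : Od n)
    (g : ℝ) : Prop :=
  ThW hn P P' PB o g ∧ OneC n (slo H hTop hF o g) (deriv (fun a => P a a) g) ∧
    ¬ X n hn P P' PB o g

end

/-- **Exactness in a subclass**, for all packages and rates. -/
def ExSX (X : WinC) {n : ℕ} (hn : 2 ≤ n) (hTop : TopS n) (hF : FZX (n - 1)) : Prop :=
  ∀ (S : PCl n) (P : ℝ → ℝ → ℝ) (r : ℝ → ℝ) (P' : ℕ → List (Fin n) × Fin n → ℝ → ℝ → ℝ)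
    (Λ : Finset (Fin n) → Fin n → ℝ → ℝ → ℝ) (PB : ℕ → List (Fin n) × Fin n → ℝ → ℝ → ℝ)
    (H : PkT hn S P r P' Λ PB) (h : ℝ), 0 < h → h ≤ 1 → ∀ (ρ : ℝ → ℝ) (hρ : Rle r ρ),
    (∀ᵐ Q : ℝ, deriv ρ Q < 1 → h ≤ 1 - deriv r Q) →
    ∃ (S₁ : PCl n) (hne : S₁.Ne)
      (hs : ∀ (τ : ℝ) (J : ℕ) (F : Fam n J) (A : F.Ω → Prop), S₁.St τ J F A → S.St τ J F A),
      ExB (subc H hne hs) hTop hF hρ h (ExWX X H hTop hF)

/-- **Exactness in a subclass**, dimension `n`. -/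
def LExX (X : WinC) (n : ℕ) : Prop := (∀ k, 2 ≤ k → k < n → Ext0 k) → ∀ (hn : 2 ≤ n)
  (_ : ∀ k, 1 ≤ k → k < n → FZX k) (hF : FZX (n - 1)) (hTop : TopS n), ExSX X hn hTop hF

/-- Exactness at all the windows with one contact coordinate. -/
theorem LEx1.x {X : WinC} {n : ℕ} (h : LEx1 n) : LExX X n := fun hi hn hZ hF hTop => by
  intro S P r P' Λ PB H h₀ h0 h1 ρ hρ hrow
  exact ⟨S, H.ne, fun _ _ _ _ h => h,
    (h hi hn hZ hF hTop S P r P' Λ PB H h₀ h0 h1 ρ hρ hrow).mono fun o =>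
      Eventually.of_forall fun g _ hx => hx.2.1⟩

/-- **No boxes without ties** at the windows with one contact coordinate, for all packages. -/
theorem vAll_nX {X : WinC} {n : ℕ} (h1 : LVoX X n) (h2 : LExX X n)
    (hi : ∀ k, 2 ≤ k → k < n → Ext0 k)
    (hn : 2 ≤ n) (hZ : ∀ k, 1 ≤ k → k < n → FZX k) (hF : FZX (n - 1)) (hTop : TopS n) :
    VAll hn hTop hF (NtO n) := by
  intro S P r P' Λ PB H h h0 h1' ρ hρ hrow hW
  obtain ⟨S₁, hne, hs, h3⟩ := h2 hi hn hZ hF hTop S P r P' Λ PB H h h0 h1' ρ hρ hrow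
  have h4 := noB_X h1 hi hn hZ hF hTop S₁ P r P' Λ PB (subc H hne hs) h h0 h1' ρ hρ hrow
  obtain ⟨p, hp⟩ := NoB.noBS (h := h) ((((noB_D (H := subc H hne hs) (hρ := hρ) (h := h)).or
    (noB_S (hρ := hρ) (h := h))).or ((noB_V (P := P) Pool.VAS.micV h0 h1' h3).or h4)).mono
    fun o => by
      filter_upwards [hW o, H.mac_all H.pble hTop hF,
        NumI.rwD_chg (nk := H.nk hTop hF) hρ H.up (H.tgs.law ()) o] with g k1 k2 k3 R _
      obtain ⟨-, h5, h6⟩ := k1 R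
      rcases le_or_gt (slN hn P P' o (n - 1) g) 1 with h7 | h7
      · exact Or.inl (Or.inl (Or.inl h7))
      rcases k2 o (k3 R).mem with h8 | h8
      swap
      · exact Or.inl (Or.inr h8)
      by_cases hf : X n hn P P' PB o g
      · exact Or.inr (Or.inr ⟨⟨h7, h8⟩, hf⟩)
      · exact Or.inr (Or.inl ⟨noTie_ntW H h5, ⟨h7, h8⟩, ⟨by rwa [slN_tar] at h7, h6⟩, hf⟩))
    hrow h0
  exact ⟨p, Or.inr hp⟩

/-! ### The windows with a tie -/

/-- **No boxes at the windows `ExWX` with a tie**, the target has the top slope; the exactness is a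
hypothesis. -/
def LTq1X (X : WinC) (n : ℕ) : Prop := (∀ k, 2 ≤ k → k < n → Ext0 k) →
  Tol fun η => AllX n η fun {hn} {_} {P} {_} {P'} {_} {_} H hTop hF h _ =>
    ExB H hTop hF (H.rle h) h (ExWX X H hTop hF) →
    NoB H hTop hF (H.rle h) h fun o g => ExWX X H hTop hF o g ∧ TiW hn P P' o g ∧
      TopA n (slo H hTop hF o g) (deriv (fun a => P a a) g)

/-- **The ties with slopes at most two**: the windows `ExWX` with a tie, the target has the top slope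
and slope at most two; the exactness is a hypothesis. -/
def LTqX (X : WinC) (n : ℕ) : Prop := (∀ k, 2 ≤ k → k < n → Ext0 k) →
  Tol fun η => AllX n η fun {hn} {_} {P} {_} {P'} {_} {_} H hTop hF h _ =>
    ExB H hTop hF (H.rle h) h (ExWX X H hTop hF) →
    NoB H hTop hF (H.rle h) h fun o g => (ExWX X H hTop hF o g ∧ TiW hn P P' o g ∧
      TopA n (slo H hTop hF o g) (deriv (fun a => P a a) g)) ∧ deriv (fun a => P a a) g ≤ 2

/-- **The ties with slopes larger than two**, for all packages; the exactness is a hypothesis. -/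
def LTpX (X : WinC) (n : ℕ) : Prop :=
  AllP n fun {hn} {_} {P} {_} {P'} {_} {_} {_} H hTop hF h hρ =>
    ExB H hTop hF hρ h (ExWX X H hTop hF) →
    NoB H hTop hF hρ h fun o g => (ExWX X H hTop hF o g ∧ TiW hn P P' o g ∧
      TopA n (slo H hTop hF o g) (deriv (fun a => P a a) g)) ∧ 2 < deriv (fun a => P a a) g

theorem lTq1_ofX {X : WinC} {n : ℕ} (h1 : LTqX X n) (h2 : LTpX X n) : LTq1X X n := fun hi => by
  refine ((h1 hi).and (Tol.le (1 / 2) (by norm_num))).mono fun η hη => ?_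
  obtain ⟨hη1, h5⟩ := hη
  intro hn hZ hF hTop D hD hD1 hEx
  have e1 := h5 D hD
  obtain ⟨x₁, a1, b1⟩ := hη1 hn hZ hF hTop D hD hD1 hEx
  refine ⟨x₁, a1, fun x h3 h4 S P r P' Λ PB H hE => ?_⟩
  refine ((b1 x h3 h4 S P r P' Λ PB H hE).or
    (h2 hi hn hZ hF hTop S P r P' Λ PB H ((1 - η D) * D) (mul_pos (by linarith) hD)
      (by nlinarith) _ (H.rle ((1 - η D) * D)) (rt_def H.rate.lip H.rate.mono _) hE)).mono
      fun o => Eventually.of_forall fun g _ hx => ?_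
  rcases le_or_gt (deriv (fun a => P a a) g) 2 with h5 | h5
  · exact Or.inl ⟨hx, h5⟩
  · exact Or.inr ⟨hx, h5⟩

/-- **No boxes at the rough windows with slopes in `TopC`**, for all packages. -/
theorem vAll_tX {X : WinC} {n : ℕ} (h1 : LVoX X n) (h2 : LExX X n) (hTp : LTpX X n)
    (hi : ∀ k, 2 ≤ k → k < n → Ext0 k) (hn : 2 ≤ n) (hZ : ∀ k, 1 ≤ k → k < n → FZX k)
    (hF : FZX (n - 1)) (hTop : TopS n) : VAll hn hTop hF (TopC n) := by
  intro S P r P' Λ PB H h h0 h1' ρ hρ hrow hW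
  obtain ⟨S₁, hne, hs, h3⟩ := h2 hi hn hZ hF hTop S P r P' Λ PB H h h0 h1' ρ hρ hrow
  have h4 := noB_X h1 hi hn hZ hF hTop S₁ P r P' Λ PB (subc H hne hs) h h0 h1' ρ hρ hrow
  have h5 := hTp hi hn hZ hF hTop S₁ P r P' Λ PB (subc H hne hs) h h0 h1' ρ hρ hrow h3
  obtain ⟨p, hp⟩ := NoB.noBS (h := h) (((noB_S (H := subc H hne hs) (hρ := hρ) (h := h)).or
    ((noB_V (P := P) Pool.VAS.micV h0 h1' h3).or (h4.or h5))).mono fun o => by
      filter_upwards [hW o, H.mac_all H.pble hTop hF,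
        NumI.rwD_chg (nk := H.nk hTop hF) hρ H.up (H.tgs.law ()) o] with g k1 k2 k3 R _
      obtain ⟨-, hT⟩ := k1 R
      have hO := topC_one n _ _ hT
      have h7 : 1 < slN hn P P' o (n - 1) g := by
        rw [slN_tar]
        linarith [hT.1]
      rcases k2 o (k3 R).mem with h8 | h8
      swap
      · exact Or.inl h8
      by_cases hf : X n hn P P' PB o g
      · exact Or.inr (Or.inr (Or.inl ⟨⟨h7, h8⟩, hf⟩))
      have hE : ExWX X H hTop hF o g := ⟨⟨h7, h8⟩, ⟨by rwa [slN_tar] at h7, hO⟩, hf⟩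
      by_cases hti : TiW hn P P' o g
      · exact Or.inr (Or.inr (Or.inr ⟨⟨hE, hti, by linarith [hT.1], fun i => (hT.2 i).1⟩, hT.1⟩))
      · exact Or.inr (Or.inl ⟨fun l hl h9 => hti ⟨l, hl, h9⟩, hE⟩)) hrow h0
  exact ⟨p, Or.inr hp⟩

/-! ### The boxes -/

section

variable {n : ℕ} {hn : 2 ≤ n} {S : PCl n} {P : ℝ → ℝ → ℝ} {r ρ : ℝ → ℝ}
  {P' : ℕ → List (Fin n) × Fin n → ℝ → ℝ → ℝ} {Λ : Finset (Fin n) → Fin n → ℝ → ℝ → ℝ}
  {PB : ℕ → List (Fin n) × Fin n → ℝ → ℝ → ℝ}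

/-- **The windows with a tie and a coordinate faster than the target**, outside `X`. -/
def FtWX (X : WinC) (H : PkT hn S P r P' Λ PB) (hTop : TopS n) (hF : FZX (n - 1)) (o : Od n)
    (g : ℝ) : Prop :=
  (TieT hn P P' PB o g ∧ ¬ TopA n (slo H hTop hF o g) (deriv (fun a => P a a) g)) ∧
    ¬ X n hn P P' PB o g

end

/-- **The closed lower bound** at the windows with a tie and a coordinate faster than the target. -/
def LFcX (X : WinC) (n : ℕ) : Prop := (∀ k, 2 ≤ k → k < n → Ext0 k) →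
  Tol fun η => AllX n η fun {_} {_} {_} {_} {_} {_} {_} H hTop hF h x =>
    FcB H hTop hF (H.rle h) h x (FtWX X H hTop hF)

/-- **No boxes at the windows with a tie and a faster coordinate** which are not covered by P4 and
P5. -/
def LFastX (X : WinC) (n : ℕ) : Prop := (∀ k, 2 ≤ k → k < n → Ext0 k) →
  Tol fun η => AllX n η fun {hn} {_} {P} {_} {P'} {_} {PB} H hTop hF h _ =>
    NoB H hTop hF (H.rle h) h fun o g => FtWX X H hTop hF o g ∧ ¬ CovW hn P P' PB o g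

theorem LFc.x {X : WinC} {n : ℕ} (h : LFc n) : LFcX X n := fun hi => by
  refine (h hi).mono fun η h1 => ?_
  intro hn hZ hF hTop D hD hD1 hEx
  obtain ⟨x₀, a0, b0⟩ := h1 hn hZ hF hTop D hD hD1 hEx
  refine ⟨x₀, a0, fun x h3 h4 S P r P' Λ PB H => ?_⟩
  obtain ⟨ι, f, K, k1, k2⟩ := b0 x h3 h4 S P r P' Λ PB H
  exact ⟨ι, f, K, k1, k2.mono fun o => Eventually.of_forall fun g _ hx => hx.1⟩

theorem LFastP.x {X : WinC} {n : ℕ} (h : LFastP n) : LFastX X n := fun hi => by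
  refine (h hi).mono fun η h1 => ?_
  intro hn hZ hF hTop D hD hD1 hEx
  obtain ⟨x₀, a0, b0⟩ := h1 hn hZ hF hTop D hD hD1 hEx
  refine ⟨x₀, a0, fun x h3 h4 S P r P' Λ PB H => ?_⟩
  exact (b0 x h3 h4 S P r P' Λ PB H).mono fun o =>
    Eventually.of_forall fun g _ hx => ⟨hx.1.1, hx.2⟩

/-- **No boxes** from their parts, `n ≥ 3`. -/
theorem lBs_X {X : WinC} {n : ℕ} (hn3 : 3 ≤ n) (hn4 : n ≤ 4) (hVF : LVoX X n) (hE1 : LExX X n)
    (hTw : LTwA n)
    (hTq : LTq1X X n) (hFc : LFcX X n) (hFP : LFastX X n) (c1 : n = 4 → LCellF n [Kd.one])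
    (c2 : n = 4 → LCellF n [Kd.one, Kd.thin]) (c3 : n = 4 → LCellF n [Kd.one, Kd.sta]) :
    LBs n := fun hi => by
  refine ((lFaW_ths hn4 c1 c2 c3 hi).and ((hTq hi).and ((hFc hi).and ((hFP hi).and
    ((tol_micX (n := n - 1 + 1) (B₀ := n + 2) (by omega) (by omega)).and
      (Tol.le (1 / 2) (by norm_num))))))).mono fun η h => ?_
  obtain ⟨h1, h2, h3, h4, h6, h5⟩ := h
  intro hn hZ hF hTop D hD hD1 hEx S P r P' Λ PB H
  have e1 := h5 D hD
  obtain ⟨h, hh'⟩ : ∃ h, h = (1 - η D) * D := ⟨_, rfl⟩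
  have hh : 0 < h := by
    rw [hh']
    exact mul_pos (by linarith) hD
  have hh1 : h ≤ 1 := by
    rw [hh']
    nlinarith
  obtain ⟨S', PW, H', hPW⟩ := H.subW
  obtain ⟨S₁, hne, hs, hEA⟩ := hE1 hi hn hZ hF hTop S' P r P' Λ PB H' h hh hh1 _ (H'.rle h)
    (rt_def H'.rate.lip H'.rate.mono _)
  obtain ⟨H₁, hH₁⟩ : ∃ H₁ : PkT hn S₁ P r P' Λ PB, H₁ = subc H' hne hs := ⟨_, rfl⟩
  have hEA' : ExB H₁ hTop hF (H₁.rle h) h (ExWX X H₁ hTop hF) := hEA
  have hPW' : ∀ j, Pool.LBT.ThrOf (Pool.CHB.chsysB n none (P' j)) S₁ (PW j) := fun j => (hPW j).sub hs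
  obtain ⟨x₄, a4, b4⟩ := h2 hn hZ hF hTop D hD hD1 hEx
  obtain ⟨x₁, a1, b1⟩ := h3 hn hZ hF hTop D hD hD1 hEx
  obtain ⟨x₂, a2, b2⟩ := h4 hn hZ hF hTop D hD hD1 hEx
  obtain ⟨x₃, a3, b3⟩ := h6 D hD hD1
  obtain ⟨x, hx⟩ : ∃ x, x = min x₄ (min x₁ (min x₂ x₃)) := ⟨_, rfl⟩
  have hx0 : (1 + η D) * D < x := by
    rw [hx]
    exact lt_min a4 (lt_min a1 (lt_min a2 a3))
  have hxa : x ≤ x₄ := by
    rw [hx]
    exact min_le_left _ _
  have hxb : x ≤ min x₁ (min x₂ x₃) := by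
    rw [hx]
    exact min_le_right _ _
  have hx1 : x ≤ x₁ := hxb.trans (min_le_left _ _)
  have hx2 : x ≤ x₂ := hxb.trans ((min_le_right _ _).trans (min_le_left _ _))
  have hx3 : x ≤ x₃ := hxb.trans ((min_le_right _ _).trans (min_le_right _ _))
  obtain ⟨hp4, hp5⟩ := b3 x hx3
  have hTo := b4 x hx0 hxa S₁ P r P' Λ PB H₁
  have hFc' := b1 x hx0 hx1 S₁ P r P' Λ PB H₁
  have hLe := b2 x hx0 hx2 S₁ P r P' Λ PB H₁
  have hFa := h1 hn hZ hF hTop D hD hD1 hEx S₁ P r P' Λ PB H₁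
  rw [← hh'] at hTo hFc' hLe hp4 hp5 hFa
  rw [← hh']
  have hTo' := hTo hEA'
  have hrow := rt_def H₁.rate.lip H₁.rate.mono h
  have hVF' := noB_X hVF hi hn hZ hF hTop S₁ P r P' Λ PB H₁ h hh hh1 _ (H₁.rle h) hrow
  have hTw' := hTw hi hn hZ hF hTop S₁ P r P' Λ PB H₁ h hh hh1 _ (H₁.rle h) hrow
  -- the windows with a tie and a faster coordinate
  have hfast : NoB H₁ hTop hF (H₁.rle h) h (FtWX X H₁ hTop hF) := by
    refine ((noB_P (H := H₁) (hρ := H₁.rle h) hh hh1 hp4 hp5 hPW' hEA' hFc').or hLe).mono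
      fun o => ?_
    filter_upwards [fast_one hn4 H₁ hTop hF o] with g k1 R hX
    by_cases hc : CovW hn P P' PB o g
    · exact Or.inl ⟨⟨hX.1.1, hc⟩, ⟨⟨hX.1.1.one, hX.1.1.thin⟩, k1 R.mem hX.1.1 hX.1.2, hX.2⟩, hX⟩
    · exact Or.inr ⟨hX, hc⟩
  have hall : NoB H₁ hTop hF (H₁.rle h) h (ThW hn P P' PB) := by
    refine ((hVF'.or hTw').or ((noB_V (P := P) (P' := P') Pool.VAS.micV hh hh1 hEA').or
      (hTo'.or hfast))).mono fun o => ?_
    filter_upwards [hFa o, H₁.rwH_chg hTop hF h o] with g k1 k2 R hX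
    by_cases hf : X n hn P P' PB o g
    · exact Or.inl (Or.inl ⟨hX, hf⟩)
    by_cases hO : OneS n (slo H₁ hTop hF o g)
    swap
    · exact Or.inl (Or.inr ⟨hX, hO⟩)
    have hC : OneC n (slo H₁ hTop hF o g) (deriv (fun a => P a a) g) :=
      ⟨by
        have := hX.1
        rwa [slN_tar] at this, hO⟩
    have hW : ExWX X H₁ hTop hF o g := ⟨hX, hC, hf⟩
    by_cases hti : TiW hn P P' o g
    · by_cases hA : TopA n (slo H₁ hTop hF o g) (deriv (fun a => P a a) g)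
      · exact Or.inr (Or.inr (Or.inl ⟨hW, hti, hA⟩))
      · exact Or.inr (Or.inr (Or.inr ⟨⟨k1 (k2 R) ⟨hX, hti, hA⟩, hA⟩, hf⟩))
    · exact Or.inr (Or.inl ⟨fun l hl h5 => hti ⟨l, hl, h5⟩, hW⟩)
  obtain ⟨p, hp⟩ := noB_thin hall hrow hh
  exact ⟨p, Or.inr hp⟩

/-! ### The void windows of the moves of the contact coordinates -/

/-- **Each coordinate of the base is a contact coordinate, or static, or slower than the target and
visible.** -/
def FasK : WinC := fun n hn P P' _ o g => ∀ l < n - 1,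
  slN hn P P' o l g = 1 ∨ StaAt (LvL hn P P' o l) g ∨
    (slN hn P P' o l g < slN hn P P' o (n - 1) g ∧
      1 < (slN hn P P' o l g - 1) * (slN hn P P' o (n - 1) g - 1))

/-- The thin windows where all coordinates of the base are contact coordinates. -/
theorem lVoA_X {X : WinC} {n : ℕ} (hX : ∀ (hn : 2 ≤ n) P P' PB o g,
    (∀ l < n - 1, slN hn P P' o l g = 1) → X n hn P P' PB o g) (h1 : LVoX X n) : LVoA n := by
  intro hi hn hZ hF hTop S P r P' Λ PB H h hh hh1 o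
  filter_upwards [h1 hi hn hZ hF hTop S P r P' Λ PB H h hh hh1 o] with g k R hx hs
  refine k R hx (hX hn P P' PB o g fun l hl => ?_)
  rw [← slo_slN H (hTop := hTop) (hF := hF) o g ⟨l, hl⟩]
  exact hs _

theorem fasK_one {n : ℕ} (hn : 2 ≤ n) (P : ℝ → ℝ → ℝ)
    (P' PB : ℕ → List (Fin n) × Fin n → ℝ → ℝ → ℝ) (o : Od n) (g : ℝ)
    (h : ∀ l < n - 1, slN hn P P' o l g = 1) : FasK n hn P P' PB o g :=
  fun l hl => Or.inl (h l hl)

end Pool.ASM
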