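import Pool.Agent.H56.ASM.Sk19
import Pool.Agent.H56.ASM.Xf

/-!
# The parts of `KP 4`, twentieth form

As the nineteenth form, for any set `X` of void windows: `LVoX X n`; the other parts are asked outside
`X`.
-/

set_option autoImplicit false

namespace Pool.ASM

open MeasureTheory Set Filter Topology
open Pool.Agent.H49.Ent Pool.Agent.H32.Dense Pool.STK Pool.KA Pool.KSAT Pool.K2S Pool.PB
open Pool.GEN Pool.S6C Pool.GRW Pool.PKG Pool.STAT Pool.PM Pool.R1 Pool.Z4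
open Pool.ONE
open Pool.TOP (TopS rw_all)
open Pool.LEV (Law Lv)
open Pool.STR (NumI TopW Mac StaAt IsoAt StaU1 ThinAt SteepAt Rle)
open Pool.MIC6
open Pool.SW (TopC NtO OneS NoTie Rgh Xa TieO)
open Pool.MV (DfO NvU nore_ind8 mevY_of)

/-- **The static chains** from their parts, `n ≥ 3`. -/
theorem lNor_X {X : WinC} {n : ℕ} (hn4 : n ≤ 4)
    (hC : ∀ κ : List Kd, κ.length + 2 ≤ n → LCellM n (Kd.one :: κ))
    (hA : n = 4 → LV0A n) (hB : n = 4 → LV0B n) (hVF : LVoX X n) (hE : LExX X n)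
    (hTp : LTpX X n) (hM : LMevD n) : LNor n := fun hi => by
  have hA' : Tol fun η => n = 4 → LocE n η MicRt →
      AllC n η fun {hn} {_} {P} {_} {P'} {_} {_} H hTop hF h =>
        ∀ o : Od n, ∀ᵐ g : ℝ, RwH H hTop hF h o g → 1 < deriv (fun a => P a a) g → StaAt P g →
        deriv (fun a => LL hn P P' o 2 a a) g ≤ 1 → 1 < deriv (fun a => LL hn P P' o 3 a a) g →
        StaAt (LL hn P P' o 3) g := by
    by_cases h4 : n = 4
    · exact (hA h4 hi).mono fun η h _ => h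
    · exact Tol.of_all fun _ _ _ h5 => absurd h5 h4
  have hB' : Tol fun η => n = 4 → LocE n η MicRt →
      AllC n η fun {hn} {_} {P} {_} {P'} {_} {_} H hTop hF h =>
        ∀ o : Od n, ∀ᵐ g : ℝ, RwH H hTop hF h o g → 1 < deriv (fun a => P a a) g → StaAt P g →
        deriv (fun a => LL hn P P' o 3 a a) g ≤ 1 → 1 < deriv (fun a => LL hn P P' o 2 a a) g →
        StaAt (LL hn P P' o 2) g := by
    by_cases h4 : n = 4
    · exact (hB h4 hi).mono fun η h _ => h
    · exact Tol.of_all fun _ _ _ h5 => absurd h5 h4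
  refine ((two_of_cellsM hC hi).and (hA'.and (hB'.and ((hM hi).and
    (Tol.le 1 one_pos))))).mono fun η h hMic => ?_
  obtain ⟨h1, h2, h3, h4, h6⟩ := h
  intro hn hZ hF hTop D hD hD1 hE' S P r P' Λ PB H
  have e1 := h6 D hD
  obtain ⟨Y, hY, hMev⟩ := h4 hMic hn hZ hF hTop D hD hD1 hE' S P r P' Λ PB H
  refine nore_ind8 hMic hi hn hn4 hZ hF hTop hD hD1 e1.1 e1.2 hE' H ?_ (fun o => ?_)
    (vAll_nX hVF hE hi hn hZ hF hTop) (fun _ => vAll_tX hVF hE hTp hi hn hZ hF hTop)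
    hY hMev
  · by_cases hn3 : n ≤ 3
    · exact v0C_three H hTop hF hn3
    · have h7 : n = 4 := by omega
      exact v0C_four H hTop hF h7 (h2 h7 hMic hn hZ hF hTop D hD hD1 hE' S P r P' Λ PB H)
        (h3 h7 hMic hn hZ hF hTop D hD hD1 hE' S P r P' Λ PB H)
  · filter_upwards [TwoX.big (fun i a1 a2 =>
      h1 hn hZ hF hTop D hD hD1 hE' S P r P' Λ PB H i a1 (by omega)) o] with g k1 R hS hst h8
    exact k1 R (Or.inr ⟨hst, hS, h8⟩)

/-- **`KP 4` from its parts**, twentieth form, for any set `X` of void windows. -/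
theorem kp4_of20 (X : WinC) (hV3 : LVoA 3) (hV4 : LVoA 4)
    (cR : ∀ n, 3 ≤ n → n ≤ 4 → LCellM n (List.replicate (n - 1) Kd.one))
    (c11 : LCellB)
    (c11t : LCellM 4 [Kd.one, Kd.one, Kd.thin]) (c11s : LCellM 4 [Kd.one, Kd.one, Kd.sta])
    (c1t1 : LCellM 4 [Kd.one, Kd.thin, Kd.one]) (c1s1 : LCellM 4 [Kd.one, Kd.sta, Kd.one])
    (c1tt : LCellM 4 [Kd.one, Kd.thin, Kd.thin]) (c1ts : LCellM 4 [Kd.one, Kd.thin, Kd.sta])
    (c1st : LCellM 4 [Kd.one, Kd.sta, Kd.thin]) (c1ss : LCellM 4 [Kd.one, Kd.sta, Kd.sta])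
    (hVF : ∀ n, 3 ≤ n → n ≤ 4 → LVoX X n) (hE4 : LExX X 4) (hTv : LTvX X 4) (hTp2 : LTp2X X 4)
    (hTq : ∀ n, 3 ≤ n → n ≤ 4 → LTqX X n) (hTpS : ∀ n, 3 ≤ n → n ≤ 4 → LTpX X n)
    (hFc : LFcX X 4) (hFP : LFastX X 4)
    (hA : LV0A 4) (hB : LV0B 4)
    (h423 : LNvBZ 4 2 3 fun L g => ¬ StaAt L g)
    (hS4 : LSta1 4) : KP 4 := by
  have cT : ∀ n, 3 ≤ n → n ≤ 4 → LCellA n [Kd.one, Kd.thin] := fun n h1 _ =>
    Pool.C2T.lCellA_one_thin h1
  have cS : ∀ n, 3 ≤ n → n ≤ 4 → LCellA n [Kd.one, Kd.sta] := fun n h1 _ => lCellA_sta h1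
  have hT4 : LTwA 4 := lTwA_of hV4
    (lTvA_X (hVF 4 (by omega) le_rfl) hTv) (lTp2A_X (hVF 4 (by omega) le_rfl) hTp2)
  have hTA : ∀ n, 3 ≤ n → n ≤ 4 → LTwA n := fun n h1 h2 => by
    have h3 : n = 3 ∨ n = 4 := by omega
    rcases h3 with rfl | rfl
    · exact lTwA_three hV3
    · exact hT4
  have hES : ∀ n, 3 ≤ n → n ≤ 4 → LExX X n := fun n h1 h2 => by
    have h3 : n = 3 ∨ n = 4 := by omega
    rcases h3 with rfl | rfl
    · exact Pool.OWN72.lEx1_three.x
    · exact hE4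
  have hCel : ∀ n, 2 ≤ n → n ≤ 4 → ∀ κ : List Kd, κ.length + 2 ≤ n → LCellM n (Kd.one :: κ) := by
    intro n h1 h2
    refine cellsM_of h2 (fun h3 k => ?_) fun h4 k k' => ?_
    · cases k with
      | one =>
        have h5 : n = 3 ∨ n = 4 := by omega
        rcases h5 with rfl | rfl
        · exact cR 3 le_rfl (by omega)
        · exact lCellM_of c11
      | thin => exact (cT n h3 h2).v.m
      | sta => exact (cS n h3 h2).v.m
    · subst h4
      cases k with
      | one =>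
        cases k' with
        | one => exact cR 4 (by omega) le_rfl
        | thin => exact c11t
        | sta => exact c11s
      | thin =>
        cases k' with
        | one => exact c1t1
        | thin => exact c1tt
        | sta => exact c1ts
      | sta =>
        cases k' with
        | one => exact c1s1
        | thin => exact c1st
        | sta => exact c1ss
  have hCE : ∀ n, 2 ≤ n → n ≤ 4 → (∀ k, 2 ≤ k → k < n → Ext0 k) → Tol fun η => CellE n η := by
    intro n a1 a2 a3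
    have hBs : LBs n := by
      by_cases h2 : n = 2
      · subst h2
        exact lBs_of10 (by norm_num) Pool.OWN72.lEx1_two (fun h => absurd h (by norm_num))
          (fun h => absurd h (by norm_num)) lFc_two lFastP_two (fun h => absurd h (by norm_num))
          (fun h => absurd h (by norm_num)) fun h => absurd h (by norm_num)
      have hn3 : 3 ≤ n := by omega
      refine lBs_X hn3 a2 (hVF n hn3 a2) (hES n hn3 a2) (hTA n hn3 a2)
        (lTq1_ofX (hTq n hn3 a2) (hTpS n hn3 a2)) ?_ ?_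
        (fun h4 => by subst h4; exact (lCellA_one 4).f)
        (fun h4 => by subst h4; exact (cT 4 (by omega) le_rfl).f)
        (fun h4 => by subst h4; exact (cS 4 (by omega) le_rfl).f)
      · have h3 : n = 3 ∨ n = 4 := by omega
        rcases h3 with rfl | rfl
        · exact lFc_three.x
        · exact hFc
      · have h3 : n = 3 ∨ n = 4 := by omega
        rcases h3 with rfl | rfl
        · exact lFastP_three.x
        · exact hFP
    have hN : LNor n := by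
      by_cases h3 : n = 2
      · subst h3
        refine fun _ => Tol.of_all fun _ _ _ _ => ?_
        intro hn hZ hF hTop D hD hD1 hE S P r P' Λ PB H
        exact nore_two H hTop hF rfl
      · have hn3 : 3 ≤ n := by omega
        refine lNor_X a2 (hCel n a1 a2) (fun h4 => ?_) (fun h4 => ?_) (hVF n hn3 a2)
          (hES n hn3 a2) (hTpS n hn3 a2) ?_
        · subst h4
          exact hA
        · subst h4
          exact hB
        · have h4 : n = 3 ∨ n = 4 := by omega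
          rcases h4 with rfl | rfl
          · exact lMevD_3
          · exact lMevD_B (lMevB_four (lNvB_12 (by norm_num))
              (lNvB_13 rfl) (lNvB_or (lNvB_23s le_rfl) h423 fun L g => em _))
    have hS : LSta1 n := by
      have h3 : n = 2 ∨ n = 3 ∨ n = 4 := by omega
      rcases h3 with rfl | rfl | rfl
      · exact lSta1_two
      · exact lSta1_three hV3
      · exact hS4
    refine (((hBs a3).and (two_of_cellsM (hCel n a1 a2) a3)).and ((hN a3).and (hS a3))).mono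
      fun η h => ?_
    obtain ⟨⟨b1, b2⟩, b3, b4⟩ := h
    have hG : ∀ (hn : 2 ≤ n) (_ : ∀ k, 1 ≤ k → k < n → FZX k) (hF : FZX (n - 1)) (hTop : TopS n)
        (D : ℝ), 0 < D → D ≤ 1 → Ext n ((1 + η D) * D) → ∀ (S : PCl n) (P : ℝ → ℝ → ℝ)
        (r : ℝ → ℝ) (P' : ℕ → List (Fin n) × Fin n → ℝ → ℝ → ℝ)
        (Λ : Finset (Fin n) → Fin n → ℝ → ℝ → ℝ)
        (PB : ℕ → List (Fin n) × Fin n → ℝ → ℝ → ℝ) (H : PkT hn S P r P' Λ PB),
        GoalN ((H.nk hTop hF).chg (H.rle ((1 - η D) * D)) H.up) :=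
      fun hn hZ hF hTop D hD hD1 hE S P r P' Λ PB H =>
        (classN_M (b1 hn hZ hF hTop D hD hD1 hE S P r P' Λ PB H)
          (b2 hn hZ hF hTop D hD hD1 hE S P r P' Λ PB H)).goalN
    exact cellE_ofN a3 hG fun hM hn hZ hF hTop D hD hD1 hE S P r P' Λ PB H =>
      ⟨triv _, H.playA hTop hF _ ((b3 hM hn hZ hF hTop D hD hD1 hE S P r P' Λ PB H).noRa
        (b4 hM hn hZ hF hTop D hD hD1 hE S P r P' Λ PB H)) _⟩
  classical
  have hall : ∀ n, ∃ η₀ : ℝ → ℝ, (∀ D, 0 < D → 0 < η₀ D) ∧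
      (2 ≤ n → n ≤ 4 → (∀ k, 2 ≤ k → k < n → Ext0 k) →
        ∀ η : ℝ → ℝ, (∀ D, 0 < D → 0 < η D ∧ η D ≤ η₀ D) → CellE n η) := by
    intro n
    by_cases h : 2 ≤ n ∧ n ≤ 4 ∧ ∀ k, 2 ≤ k → k < n → Ext0 k
    · obtain ⟨η₀, h1, h2⟩ := hCE n h.1 h.2.1 h.2.2
      exact ⟨η₀, h1, fun _ _ _ => h2⟩
    · exact ⟨fun _ => 1, fun _ _ => one_pos, fun a1 a2 a3 => absurd ⟨a1, a2, a3⟩ h⟩
  choose η₀ h1 h2 using hall
  obtain ⟨η, hη⟩ : ∃ η : ℕ → ℝ → ℝ, η = fun n D => min (η₀ n D) 1 := ⟨_, rfl⟩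
  have e1 : ∀ n D, 0 < D → 0 < η n D := fun n D hD => by
    rw [hη]
    exact lt_min (h1 n D hD) one_pos
  have e2 : ∀ n D, 0 < D → η n D ≤ 1 := fun n D _ => by
    rw [hη]
    exact min_le_right _ _
  have e3 : ∀ n D, 0 < D → 0 < η n D ∧ η n D ≤ η₀ n D := fun n D hD => by
    refine ⟨e1 n D hD, ?_⟩
    rw [hη]
    exact min_le_left _ _
  have hC : ∀ n, 2 ≤ n → n ≤ 4 → (∀ k, 2 ≤ k → k < n → Ext0 k) → CellE n (η n) :=
    fun n a1 a2 a3 => h2 n a1 a2 a3 (η n) (e3 n)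
  exact kp_indE (by norm_num) η e1 (fun n h1 h2 h3 => (hC n h1 h2 h3).mic (e2 n))
    (fun n h1 h2 h3 => (hC n h1 h2 h3).sta (e2 n)) fun n a1 a2 a3 =>
      jmpE_of_top (e2 n) ((hC n a1 a2 a3).mic (e2 n)) ((hC n a1 a2 a3).sta (e2 n))
        (topW_upto η n a1 a2 a3)

end Pool.ASM
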