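import Pool.Agent.H56.ASM.Sk21
import Pool.Agent.H19.ONE.Nor2

/-!
# The parts of `KP 4`, twenty-second form

As the twenty-first form; the static base where the target has slope one is reduced to the rows with
a second contact coordinate (`LV01 4`, helper19).
-/

set_option autoImplicit false

namespace Pool.ASM

open MeasureTheory Set Filter Topology
open Pool.Agent.H49.Ent Pool.Agent.H32.Dense Pool.STK Pool.KA Pool.KSAT Pool.K2S Pool.PB
open Pool.GEN Pool.S6C Pool.GRW Pool.PKG Pool.STAT Pool.PM Pool.R1 Pool.Z4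
open Pool.ONE
open Pool.TOP (TopS rw_all)
open Pool.LEV (Law Lv)
open Pool.STR (NumI TopW Mac StaAt IsoAt StaU1 ThinAt SteepAt Rle)
open Pool.MIC6
open Pool.SW (TopC NtO OneS NoTie Rgh Xa TieO)

/-- **`KP 4` from its parts**, twenty-second form, for any set `X` of void windows. -/
theorem kp4_of22 (X : WinC) (hV3 : LVoA 3) (hV4 : LVoA 4)
    (c11 : LCellB)
    (c11t : LCellM 4 [Kd.one, Kd.one, Kd.thin]) (c11s : LCellM 4 [Kd.one, Kd.one, Kd.sta])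
    (c1t1 : LCellM 4 [Kd.one, Kd.thin, Kd.one]) (c1s1 : LCellM 4 [Kd.one, Kd.sta, Kd.one])
    (c1tt : LCellM 4 [Kd.one, Kd.thin, Kd.thin]) (c1ts : LCellM 4 [Kd.one, Kd.thin, Kd.sta])
    (c1st : LCellM 4 [Kd.one, Kd.sta, Kd.thin]) (c1ss : LCellM 4 [Kd.one, Kd.sta, Kd.sta])
    (hVF : ∀ n, 3 ≤ n → n ≤ 4 → LVoX X n) (hE4 : LExX X 4) (hTv : LTvX X 4) (hTp2 : LTp2X X 4)
    (hTq : ∀ n, 3 ≤ n → n ≤ 4 → LTqX X n) (hTpS : ∀ n, 3 ≤ n → n ≤ 4 → LTpX X n)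
    (hFc : LFcX X 4) (hFP : LFastX X 4)
    (hA : LV0A 4) (hB : LV0B 4) (hM4 : LMevB 4) (hV01 : LV01 4) : KP 4 :=
  kp4_of21 X hV3 hV4 c11 c11t c11s c1t1 c1s1 c1tt c1ts c1st c1ss hVF hE4 hTv hTp2 hTq hTpS hFc hFP
    hA hB hM4 (lSta1_fourB hV01 (Pool.C2T.lCellA_one_thin (by norm_num)) (lCellA_sta (by norm_num))
      (lTwA_of hV4 (lTvA_X (hVF 4 (by omega) le_rfl) hTv) (lTp2A_X (hVF 4 (by omega) le_rfl) hTp2))
      hM4)

end Pool.ASM
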