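import Pool.Agent.H56.ASM.Sk22
import Pool.Agent.H56.ASM.Fi

/-!
# The parts of `KP 4`, twenty-third form

As the twenty-second form; the windows with a tie and a faster coordinate with P4I (`LFastI`).
-/

set_option autoImplicit false

namespace Pool.ASM

open MeasureTheory Set Filter Topology
open Pool.Agent.H49.Ent Pool.Agent.H32.Dense Pool.STK Pool.KA Pool.KSAT Pool.K2S Pool.PB
open Pool.GEN Pool.S6C Pool.GRW Pool.PKG Pool.STAT Pool.PM Pool.R1 Pool.Z4
open Pool.ONE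
open Pool.TOP (TopS rw_all)
open Pool.LEV (Law Lv)
open Pool.STR (NumI TopW Mac StaAt IsoAt StaU1 ThinAt SteepAt Rle)
open Pool.MIC6
open Pool.SW (TopC NtO OneS NoTie Rgh Xa TieO)
open Pool.MV (DfO NvU nore_ind8 mevY_of)

/-- **`KP 4` from its parts**, twenty-third form, for any set `X` of void windows. -/
theorem kp4_of23 (X : WinC) (hV3 : LVoA 3) (hV4 : LVoA 4)
    (c11 : LCellB)
    (c11t : LCellM 4 [Kd.one, Kd.one, Kd.thin]) (c11s : LCellM 4 [Kd.one, Kd.one, Kd.sta])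
    (c1t1 : LCellM 4 [Kd.one, Kd.thin, Kd.one]) (c1s1 : LCellM 4 [Kd.one, Kd.sta, Kd.one])
    (c1tt : LCellM 4 [Kd.one, Kd.thin, Kd.thin]) (c1ts : LCellM 4 [Kd.one, Kd.thin, Kd.sta])
    (c1st : LCellM 4 [Kd.one, Kd.sta, Kd.thin]) (c1ss : LCellM 4 [Kd.one, Kd.sta, Kd.sta])
    (hVF : ∀ n, 3 ≤ n → n ≤ 4 → LVoX X n) (hE4 : LExX X 4) (hTv : LTvX X 4) (hTp2 : LTp2X X 4)
    (hTq : ∀ n, 3 ≤ n → n ≤ 4 → LTqX X n) (hTpS : ∀ n, 3 ≤ n → n ≤ 4 → LTpX X n)
    (hFc : LFcX X 4) (hFP : LFastI X 4)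
    (hA : LV0A 4) (hB : LV0B 4)
    (hM4 : LMevB 4)
    (hV01 : LV01 4) : KP 4 := by
  have cT : ∀ n, 3 ≤ n → n ≤ 4 → LCellA n [Kd.one, Kd.thin] := fun n h1 _ =>
    Pool.C2T.lCellA_one_thin h1
  have cS : ∀ n, 3 ≤ n → n ≤ 4 → LCellA n [Kd.one, Kd.sta] := fun n h1 _ => lCellA_sta h1
  have hT4 : LTwA 4 := lTwA_of hV4
    (lTvA_X (hVF 4 (by omega) le_rfl) hTv) (lTp2A_X (hVF 4 (by omega) le_rfl) hTp2)
  have hS4 : LSta1 4 := lSta1_fourB hV01 (Pool.C2T.lCellA_one_thin (by norm_num))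
    (lCellA_sta (by norm_num)) hT4 hM4
  have hTA : ∀ n, 3 ≤ n → n ≤ 4 → LTwA n := fun n h1 h2 => by
    have h3 : n = 3 ∨ n = 4 := by omega
    rcases h3 with rfl | rfl
    · exact lTwA_three hV3
    · exact hT4
  have hES : ∀ n, 3 ≤ n → n ≤ 4 → LExX X n := fun n h1 h2 => by
    have h3 : n = 3 ∨ n = 4 := by omega
    rcases h3 with rfl | rfl
    · exact Pool.OWN72.lEx1_three.x
    · exact hE4
  have hCel : ∀ n, 2 ≤ n → n ≤ 4 → ∀ κ : List Kd, κ.length + 2 ≤ n → LCellM n (Kd.one :: κ) := by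
    intro n h1 h2
    refine cellsM_of h2 (fun h3 k => ?_) fun h4 k k' => ?_
    · cases k with
      | one =>
        have h5 : n = 3 ∨ n = 4 := by omega
        rcases h5 with rfl | rfl
        · exact lCellM_one_all (n := 3) (by norm_num)
        · exact lCellM_of c11
      | thin => exact (cT n h3 h2).v.m
      | sta => exact (cS n h3 h2).v.m
    · subst h4
      cases k with
      | one =>
        cases k' with
        | one => exact lCellM_one_all (n := 4) (by norm_num)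
        | thin => exact c11t
        | sta => exact c11s
      | thin =>
        cases k' with
        | one => exact c1t1
        | thin => exact c1tt
        | sta => exact c1ts
      | sta =>
        cases k' with
        | one => exact c1s1
        | thin => exact c1st
        | sta => exact c1ss
  have hCE : ∀ n, 2 ≤ n → n ≤ 4 → (∀ k, 2 ≤ k → k < n → Ext0 k) → Tol fun η => CellE n η := by
    intro n a1 a2 a3
    have hBs : LBs n := by
      by_cases h2 : n = 2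
      · subst h2
        exact lBs_of10 (by norm_num) Pool.OWN72.lEx1_two (fun h => absurd h (by norm_num))
          (fun h => absurd h (by norm_num)) lFc_two lFastP_two (fun h => absurd h (by norm_num))
          (fun h => absurd h (by norm_num)) fun h => absurd h (by norm_num)
      have hn3 : 3 ≤ n := by omega
      refine lBs_XI hn3 a2 (hVF n hn3 a2) (hES n hn3 a2) (hTA n hn3 a2)
        (lTq1_ofX (hTq n hn3 a2) (hTpS n hn3 a2)) ?_ ?_
        (fun h4 => by subst h4; exact (lCellA_one 4).f)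
        (fun h4 => by subst h4; exact (cT 4 (by omega) le_rfl).f)
        (fun h4 => by subst h4; exact (cS 4 (by omega) le_rfl).f)
      · have h3 : n = 3 ∨ n = 4 := by omega
        rcases h3 with rfl | rfl
        · exact lFc_three.x
        · exact hFc
      · have h3 : n = 3 ∨ n = 4 := by omega
        rcases h3 with rfl | rfl
        · exact lFastP_three.x.i
        · exact hFP
    have hN : LNor n := by
      by_cases h3 : n = 2
      · subst h3
        refine fun _ => Tol.of_all fun _ _ _ _ => ?_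
        intro hn hZ hF hTop D hD hD1 hE S P r P' Λ PB H
        exact nore_two H hTop hF rfl
      · have hn3 : 3 ≤ n := by omega
        refine lNor_X a2 (hCel n a1 a2) (fun h4 => ?_) (fun h4 => ?_) (hVF n hn3 a2)
          (hES n hn3 a2) (hTpS n hn3 a2) ?_
        · subst h4
          exact hA
        · subst h4
          exact hB
        · have h4 : n = 3 ∨ n = 4 := by omega
          rcases h4 with rfl | rfl
          · exact lMevD_3
          · exact lMevD_B hM4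
    have hS : LSta1 n := by
      have h3 : n = 2 ∨ n = 3 ∨ n = 4 := by omega
      rcases h3 with rfl | rfl | rfl
      · exact lSta1_two
      · exact lSta1_three hV3
      · exact hS4
    refine (((hBs a3).and (two_of_cellsM (hCel n a1 a2) a3)).and ((hN a3).and (hS a3))).mono
      fun η h => ?_
    obtain ⟨⟨b1, b2⟩, b3, b4⟩ := h
    have hG : ∀ (hn : 2 ≤ n) (_ : ∀ k, 1 ≤ k → k < n → FZX k) (hF : FZX (n - 1)) (hTop : TopS n)
        (D : ℝ), 0 < D → D ≤ 1 → Ext n ((1 + η D) * D) → ∀ (S : PCl n) (P : ℝ → ℝ → ℝ)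
        (r : ℝ → ℝ) (P' : ℕ → List (Fin n) × Fin n → ℝ → ℝ → ℝ)
        (Λ : Finset (Fin n) → Fin n → ℝ → ℝ → ℝ)
        (PB : ℕ → List (Fin n) × Fin n → ℝ → ℝ → ℝ) (H : PkT hn S P r P' Λ PB),
        GoalN ((H.nk hTop hF).chg (H.rle ((1 - η D) * D)) H.up) :=
      fun hn hZ hF hTop D hD hD1 hE S P r P' Λ PB H =>
        (classN_M (b1 hn hZ hF hTop D hD hD1 hE S P r P' Λ PB H)
          (b2 hn hZ hF hTop D hD hD1 hE S P r P' Λ PB H)).goalN
    exact cellE_ofN a3 hG fun hM hn hZ hF hTop D hD hD1 hE S P r P' Λ PB H =>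
      ⟨triv _, H.playA hTop hF _ ((b3 hM hn hZ hF hTop D hD hD1 hE S P r P' Λ PB H).noRa
        (b4 hM hn hZ hF hTop D hD hD1 hE S P r P' Λ PB H)) _⟩
  classical
  have hall : ∀ n, ∃ η₀ : ℝ → ℝ, (∀ D, 0 < D → 0 < η₀ D) ∧
      (2 ≤ n → n ≤ 4 → (∀ k, 2 ≤ k → k < n → Ext0 k) →
        ∀ η : ℝ → ℝ, (∀ D, 0 < D → 0 < η D ∧ η D ≤ η₀ D) → CellE n η) := by
    intro n
    by_cases h : 2 ≤ n ∧ n ≤ 4 ∧ ∀ k, 2 ≤ k → k < n → Ext0 k
    · obtain ⟨η₀, h1, h2⟩ := hCE n h.1 h.2.1 h.2.2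
      exact ⟨η₀, h1, fun _ _ _ => h2⟩
    · exact ⟨fun _ => 1, fun _ _ => one_pos, fun a1 a2 a3 => absurd ⟨a1, a2, a3⟩ h⟩
  choose η₀ h1 h2 using hall
  obtain ⟨η, hη⟩ : ∃ η : ℕ → ℝ → ℝ, η = fun n D => min (η₀ n D) 1 := ⟨_, rfl⟩
  have e1 : ∀ n D, 0 < D → 0 < η n D := fun n D hD => by
    rw [hη]
    exact lt_min (h1 n D hD) one_pos
  have e2 : ∀ n D, 0 < D → η n D ≤ 1 := fun n D _ => by
    rw [hη]
    exact min_le_right _ _
  have e3 : ∀ n D, 0 < D → 0 < η n D ∧ η n D ≤ η₀ n D := fun n D hD => by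
    refine ⟨e1 n D hD, ?_⟩
    rw [hη]
    exact min_le_left _ _
  have hC : ∀ n, 2 ≤ n → n ≤ 4 → (∀ k, 2 ≤ k → k < n → Ext0 k) → CellE n (η n) :=
    fun n a1 a2 a3 => h2 n a1 a2 a3 (η n) (e3 n)
  exact kp_indE (by norm_num) η e1 (fun n h1 h2 h3 => (hC n h1 h2 h3).mic (e2 n))
    (fun n h1 h2 h3 => (hC n h1 h2 h3).sta (e2 n)) fun n a1 a2 a3 =>
      jmpE_of_top (e2 n) ((hC n a1 a2 a3).mic (e2 n)) ((hC n a1 a2 a3).sta (e2 n))
        (topW_upto η n a1 a2 a3)

end Pool.ASM
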