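import Pool.Agent.H56.ASM.Sk24
import Pool.Agent.H65.ORD.Lfc

/-!
# The parts of `KP 4`, twenty-fifth form

As the twenty-fourth form; the closed lower bound at the ties with a faster coordinate is
`Pool.ORD65.lFc_le`.
-/

set_option autoImplicit false

namespace Pool.ASM

open Pool.Agent.H49.Ent Pool.Agent.H32.Dense Pool.STK Pool.KA Pool.KSAT Pool.K2S Pool.PB
open Pool.GEN Pool.S6C Pool.GRW Pool.PKG Pool.STAT Pool.PM Pool.R1 Pool.Z4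

/-- **`KP 4` from its parts**, twenty-fifth form, for any set `X` of void windows. -/
theorem kp4_of25 (X : WinC) (hV3 : LVoA 3) (hV4 : LVoA 4)
    (c11 : LCellB)
    (c11t : LCellM 4 [Kd.one, Kd.one, Kd.thin]) (c11s : LCellM 4 [Kd.one, Kd.one, Kd.sta])
    (c1t1 : LCellM 4 [Kd.one, Kd.thin, Kd.one]) (c1s1 : LCellM 4 [Kd.one, Kd.sta, Kd.one])
    (c1tt : LCellM 4 [Kd.one, Kd.thin, Kd.thin]) (c1ts : LCellM 4 [Kd.one, Kd.thin, Kd.sta])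
    (c1st : LCellM 4 [Kd.one, Kd.sta, Kd.thin]) (c1ss : LCellM 4 [Kd.one, Kd.sta, Kd.sta])
    (hVF : ∀ n, 3 ≤ n → n ≤ 4 → LVoX X n) (hE4 : LExX X 4) (hTv : LTvX X 4) (hTp2 : LTp2X X 4)
    (hTq : ∀ n, 3 ≤ n → n ≤ 4 → LTq1X X n) (hTpS : LTpX X 4)
    (hFP : LFastI X 4)
    (hA : LV0A 4) (hB : LV0B 4)
    (hM4 : LMevB 4)
    (hV01 : LV01 4) : KP 4 :=
  kp4_of24 X hV3 hV4 c11 c11t c11s c1t1 c1s1 c1tt c1ts c1st c1ss hVF hE4 hTv hTp2 hTq hTpS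
    (Pool.ORD65.lFc_le (n := 4) le_rfl).x hFP hA hB hM4 hV01

end Pool.ASM
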