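import Pool.Agent.H56.ASM.Sk2
import Pool.Agent.H19.SW.Vn

/-!
# The parts of `KP 4`, third form

The count with no loss is reduced to the exactness on the boxes without ties (`LExV n`), the data on
the events (`LMev n`) and the ties (`LTie n`). There are no ties in dimension three.
`kp4_of3`: `KP 4` from its parts.
-/

set_option autoImplicit false

namespace Pool.ASM

open MeasureTheory Set Filter Topology
open Pool.Agent.H49.Ent Pool.Agent.H32.Dense Pool.STK Pool.KA Pool.KSAT Pool.K2S Pool.PB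
open Pool.GEN Pool.S6C Pool.GRW Pool.PKG Pool.STAT Pool.PM Pool.R1 Pool.Z4
open Pool.ONE (LocE Ext0 Ext rowN_of_ext)
open Pool.TOP (TopS rw_all)
open Pool.LEV (Law Lv)
open Pool.STR (TopW Mac StaAt IsoAt StaU1 ThinAt SteepAt)
open Pool.ZFI (MevH)
open Pool.SW (ExV NoTie vAll_nt hc0_nt)

/-- Exactness on the boxes of the kind without ties, for all packages. -/
def LExV (n : ℕ) : Prop := (∀ k, 2 ≤ k → k < n → Ext0 k) → ∀ (hn : 2 ≤ n)
  (_ : ∀ k, 1 ≤ k → k < n → FZX k) (hF : FZX (n - 1)) (hTop : TopS n), ExV hn hTop hF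

/-- The data on the events, all classes. -/
def LMev (n : ℕ) : Prop := (∀ k, 2 ≤ k → k < n → Ext0 k) →
  Tol fun η => LocE n η MicRt →
    AllC n η fun {hn} {S} {P} {r} {P'} {Λ} {_} _ _ _ _ =>
      ∀ (o : Od n) (l : ℕ), 1 ≤ l → l < n - 1 → ∃ C : ℝ, 1 ≤ C ∧ MevH hn S P r P' Λ o l C

/-- The ties in the count with no loss, all classes. -/
def LTie (n : ℕ) : Prop := (∀ k, 2 ≤ k → k < n → Ext0 k) →
  Tol fun η => LocE n η MicRt → AllC n η fun {hn} {_} {P} {_} {P'} {_} {PB} H hTop hF h =>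
    ∀ (o : Od n) (l : ℕ), ∀ᵐ g : ℝ, RwH H hTop hF h o g → StaAt P g →
      2 ≤ deriv (fun a => P a a) g → (∀ i < n - 1, ThS hn P P' PB o i g) → Cfg hn P P' o l g →
      deriv (fun a => P a a) g < deriv (fun a => LL hn P P' o (l + 1) a a) g →
      ∀ i, 1 ≤ i → i < n - 1 → i ≠ l → deriv (fun a => LL hn P P' o (i + 1) a a) g =
        deriv (fun a => LL hn P P' o (l + 1) a a) g → False

/-- There are no ties in dimension three. -/
theorem lTie_three : LTie 3 := fun _ => Tol.of_all fun _ _ _ _ => by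
  intro hn hZ hF hTop D hD hD1 hE S P r P' Λ PB H o l
  refine Eventually.of_forall fun g R _ _ _ hC _ i h1 h2 h3 _ => ?_
  have h4 := hC.l1
  have h5 := hC.ln
  omega

/-- **The count with no loss** from the exactness, the data on the events, and the ties. -/
theorem lHc_of {n : ℕ} (hn4 : n ≤ 4) (hM : LMev n) (hV : LExV n) (hT : LTie n) : LHc n :=
    fun hi => by
  refine ((hM hi).and ((hT hi).and (Tol.le 1 one_pos))).mono fun η h hMic => ?_
  obtain ⟨h1, h2, h3⟩ := h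
  intro hn hZ hF hTop D hD hD1 hE S P r P' Λ PB H o l
  have e1 := h3 D hD
  have h0 : 0 ≤ (1 - η D) * D := mul_nonneg (by linarith [e1.2]) hD.le
  filter_upwards [hc0_nt H hTop (hZ 1 le_rfl (by omega)) hF hn4
    (rw_all hZ fun k k1 k2 => rowN_of_ext (hi k k1 k2)) (vAll_nt hTop hF (hV hi hn hZ hF hTop)) h0
    (h1 hMic hn hZ hF hTop D hD hD1 hE S P r P' Λ PB H) o l,
    h2 hMic hn hZ hF hTop D hD hD1 hE S P r P' Λ PB H o l] with g k1 k2 R hst hS hB hC hlt
  refine k1 R hC fun i i1 i2 i3 i4 => ?_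
  rcases i2.eq_or_lt with i5 | i5
  · have e2 : LL hn P P' o (n - 1 + 1) = P := by
      rw [← lvL_eq o le_rfl]
      funext a w
      exact LvL_top o a w
    rw [i5, e2] at i4
    linarith
  · exact k2 R hst hS hB hC hlt i i1 i5 i3 i4

/-- **`KP 4` from its parts**, third form. -/
theorem kp4_of3 (hB3 : LBase 3) (hB4 : LBase 4) (hTw : ∀ n, 2 ≤ n → n ≤ 4 → LTwoS n)
    (hBs : ∀ n, 2 ≤ n → n ≤ 4 → LBs n) (hEx : ∀ n, 2 ≤ n → n ≤ 4 → LExc n)
    (hMX : ∀ n, 3 ≤ n → n ≤ 4 → LMevX n)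
    (hMe : ∀ n, 3 ≤ n → n ≤ 4 → LMev n) (hEV : ∀ n, 3 ≤ n → n ≤ 4 → LExV n) (hT4 : LTie 4) :
    KP 4 :=
  kp4_of2 hB3 hB4 hTw hBs hEx hMX fun n h1 h2 => by
    refine lHc_of h2 (hMe n h1 h2) (hEV n h1 h2) ?_
    have h3 : n = 3 ∨ n = 4 := by omega
    rcases h3 with rfl | rfl
    · exact lTie_three
    · exact hT4

end Pool.ASM
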