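import Pool.Agent.H56.ASM.Xz
import Pool.Agent.H14.STV.S2
import Pool.Agent.H92.V0F.Vsk

/-!
# The slopes of the static coordinates, and the windows where all the slopes of the base are one

`v2c : V2c` (helper14, helper88); `lVoA_all` (helper44, helper92).
-/

set_option autoImplicit false

namespace Pool.ASM

open Pool.STV (celV_s2)

/-- **Over a coordinate of slope one and a static one of slope two, the slope of a static coordinate
is two or three.** -/
theorem v2c : V2c := fun _ _ k0 k1 k2 h0 h1 h2 h3 _ => celV_s2 k0 k1 k2 h0 h1 h2 h3

/-- **All the slopes of the base are one**: no thin windows. -/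
theorem lVoA_all (n : ℕ) (h3 : 3 ≤ n) (_ : n ≤ 4) : LVoA n := Pool.V0F.lVoA (by omega)

/-- **The ties at the top with two static coordinates** are the window `(1, 2, 3; 3)`. -/
theorem lTsA_3 (h : LTs3 4) : LTsA 4 := lTsA_of v2c h

end Pool.ASM
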