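import Pool.Agent.H56.ASM.Sk32
import Pool.Agent.H56.ASM.Xo

/-!
# The parts of `KP 4`, thirty-third form

As the thirty-second form, without `V2c` and `LVoA`, which are theorems.
-/

set_option autoImplicit false

namespace Pool.ASM

open Pool.KA Pool.PKG

/-- **`KP 4` from its parts**, thirty-third form. -/
theorem kp4_of33
    (c11 : LCellB)
    (c11t : LCellM 4 [Kd.one, Kd.one, Kd.thin]) (c11s : LCellM 4 [Kd.one, Kd.one, Kd.sta])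
    (c1t1 : LCellM 4 [Kd.one, Kd.thin, Kd.one]) (c1s1 : LCellM 4 [Kd.one, Kd.sta, Kd.one])
    (c1tt : LCellM 4 [Kd.one, Kd.thin, Kd.thin]) (c1ts : LCellM 4 [Kd.one, Kd.thin, Kd.sta])
    (c1st : LCellM 4 [Kd.one, Kd.sta, Kd.thin]) (c1ss : LCellM 4 [Kd.one, Kd.sta, Kd.sta])
    (hVo2 : LNoX Vo2W 4) (hVoD : LNoX VoDW 4)
    (hTv : LTvX FasL 4) (hTp2 : LTp2X FasL 4)
    (hT3 : LTs3 4) (hBV : LBtV 4) (hB4 : LBt4 4)
    (hA : LV0A 4) (hB : LV0B 4)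
    (hV01 : LV01 4) : KP 4 :=
  kp4_of32 c11 c11t c11s c1t1 c1s1 c1tt c1ts c1st c1ss lVoA_all hVo2 hVoD hTv hTp2 v2c hT3 hBV hB4
    hA hB hV01

end Pool.ASM
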