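import Pool.Agent.H56.ASM.Sk27

/-!
# Ties of the base

`LExTX X n`: the facts of the boxes in a subclass at the windows `ExWX X` with a tie in the base;
`lExYX_ofT`: they give `LExYX`. `BtW`: the coordinates of the base after the first one are faster than
the target and have slopes at most two. `FasW`: `FasL` or `BtW`. `fasW_tie`: the windows of dimension
four with a tie in the base outside `FasW`. `kp4_of28`: the parts of `KP 4`.
-/

set_option autoImplicit false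

namespace Pool.ASM

open MeasureTheory Set Filter Topology
open Pool.Agent.H49.Ent Pool.Agent.H32.Dense Pool.STK Pool.KA Pool.KSAT Pool.K2S Pool.PB
open Pool.GEN Pool.S6C Pool.GRW Pool.PKG Pool.STAT Pool.PM Pool.R1 Pool.Z4
open Pool.ONE (LocE Ext0 Ext rowN_of_ext)
open Pool.TOP (TopS rw_all)
open Pool.STR (NumI TopW Mac StaAt IsoAt StaU1 ThinAt SteepAt Rle)
open Pool.MIC6
open Pool.SW (TopC NtO OneS NoTie Rgh Xa TieO)
open Pool.OWN72 (DiffS)

/-- **The windows `ExWX` with a tie in the base.** -/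
def ExWT (X : WinC) {n : ℕ} {hn : 2 ≤ n} {S : PCl n} {P : ℝ → ℝ → ℝ} {r : ℝ → ℝ}
    {P' : ℕ → List (Fin n) × Fin n → ℝ → ℝ → ℝ} {Λ : Finset (Fin n) → Fin n → ℝ → ℝ → ℝ}
    {PB : ℕ → List (Fin n) × Fin n → ℝ → ℝ → ℝ}
    (H : PkT hn S P r P' Λ PB) (hTop : TopS n) (hF : FZX (n - 1)) (o : Od n) (g : ℝ) : Prop :=
  ExWX X H hTop hF o g ∧ ¬ DiffS hn P P' o g

/-- **The facts of the boxes in a subclass, at the ties of the base**, dimension `n`. -/
def LExTX (X : WinC) (n : ℕ) : Prop := (∀ k, 2 ≤ k → k < n → Ext0 k) → ∀ (hn : 2 ≤ n)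
  (_ : ∀ k, 1 ≤ k → k < n → FZX k) (hF : FZX (n - 1)) (hTop : TopS n),
  ∀ (S : PCl n) (P : ℝ → ℝ → ℝ) (r : ℝ → ℝ) (P' : ℕ → List (Fin n) × Fin n → ℝ → ℝ → ℝ)
    (Λ : Finset (Fin n) → Fin n → ℝ → ℝ → ℝ) (PB : ℕ → List (Fin n) × Fin n → ℝ → ℝ → ℝ)
    (H : PkT hn S P r P' Λ PB) (h : ℝ), 0 < h → h ≤ 1 → ∀ (ρ : ℝ → ℝ) (hρ : Rle r ρ),
    (∀ᵐ Q : ℝ, deriv ρ Q < 1 → h ≤ 1 - deriv r Q) →
    ∃ (S₁ : PCl n) (hne : S₁.Ne)
      (hs : ∀ (τ : ℝ) (J : ℕ) (F : Fam n J) (A : F.Ω → Prop), S₁.St τ J F A → S.St τ J F A),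
      ExY (subc H hne hs) hTop hF hρ h (ExWT X H hTop hF)

/-- The facts of the boxes from those at the ties of the base. -/
theorem lExYX_ofT {X : WinC} {n : ℕ} (h : LExTX X n) (hn4 : n ≤ 4) : LExYX X n :=
  fun hi hn hZ hF hTop => by
  intro S P r P' Λ PB H h₀ h0 h1 ρ hρ hrow
  obtain ⟨S₁, hne, hs, h2⟩ := h hi hn hZ hF hTop S P r P' Λ PB H h₀ h0 h1 ρ hρ hrow
  refine ⟨S₁, hne, hs, ((exY_KE (H := subc H hne hs) hTop hF hρ hn4 h₀).or h2).mono fun o =>
    Eventually.of_forall fun g _ hx => ?_⟩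
  by_cases h3 : DiffS hn P P' o g
  · exact Or.inl ⟨hx.2.1, h3⟩
  · exact Or.inr ⟨hx, h3⟩

/-- **The coordinates of the base after the first one are faster than the target and have slopes at
most two.** -/
def BtW : WinC := fun n hn P P' _ o g => ∀ l, 1 ≤ l → l < n - 1 →
  slN hn P P' o (n - 1) g < slN hn P P' o l g ∧ slN hn P P' o l g ≤ 2

/-- **`BtW` with a tie in the base**, dimension four. -/
def BtT : WinC := fun n hn P P' PB o g =>
  n = 4 ∧ BtW n hn P P' PB o g ∧ slN hn P P' o 1 g = slN hn P P' o 2 g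

/-- **All the slopes of the base are smaller than the slope of the target, or there is a tie in the
base with a slope larger than the slope of the target and at most two.** -/
def FasW : WinC := fun n hn P P' PB o g => FasL n hn P P' PB o g ∨ BtT n hn P P' PB o g

theorem lVoT_of {n : ℕ} (h : LVoX BtW n) : LVoX BtT n := h.mono fun _ _ _ _ _ _ hx => hx.2.1

theorem lVoT_three {n : ℕ} (h : n ≠ 4) : LVoX BtT n := by
  intro _ _ _ _ _ _ _ _ _ _ _ _ _ _ _ _
  exact Eventually.of_forall fun g _ _ hx => h hx.1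

/-- **Void windows** `FasW` from `FasL` and from the ties of the base. -/
theorem lVoW_of (h : ∀ n, 3 ≤ n → n ≤ 4 → LVoX FasL n) (h' : LVoX BtT 4) :
    ∀ n, 3 ≤ n → n ≤ 4 → LVoX FasW n := by
  intro n h1 h2
  by_cases h3 : n = 4
  · subst h3
    exact (h 4 h1 h2).or h'
  · exact (h n h1 h2).or (lVoT_three h3)

/-- **The windows with a tie in the base outside `FasW`**, dimension four: the slope of the base is
the slope `σ` of the target (three tied coordinates), or it is larger than `σ` and larger than two. -/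
theorem fasW_tie {hn : 2 ≤ 4} {P : ℝ → ℝ → ℝ} {P' PB : ℕ → List (Fin 4) × Fin 4 → ℝ → ℝ → ℝ}
    {o : Od 4} {g : ℝ} (h0 : slN hn P P' o 0 g = 1) (hσ : 1 < slN hn P P' o 3 g)
    (hX : ¬ FasW 4 hn P P' PB o g) (hT : ¬ DiffS hn P P' o g) :
    slN hn P P' o 1 g = slN hn P P' o 2 g ∧
      (slN hn P P' o 1 g = slN hn P P' o 3 g ∨
        (slN hn P P' o 3 g < slN hn P P' o 1 g ∧ 2 < slN hn P P' o 1 g)) := by
  have h12 : slN hn P P' o 1 g = slN hn P P' o 2 g := by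
    by_contra hne
    refine hT fun k l h1 h2 h3 => ?_
    obtain rfl : k = 1 := by omega
    obtain rfl : l = 2 := by omega
    exact hne
  refine ⟨h12, ?_⟩
  rcases lt_trichotomy (slN hn P P' o 1 g) (slN hn P P' o 3 g) with h | h | h
  · exfalso
    refine hX (Or.inl fun l hl => ?_)
    have h3 : l = 0 ∨ l = 1 ∨ l = 2 := by omega
    rcases h3 with rfl | rfl | rfl
    · rw [h0]
      exact hσ
    · exact h
    · rw [← h12]
      exact h
  · exact Or.inl h
  · refine Or.inr ⟨h, ?_⟩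
    by_contra h2
    push Not at h2
    refine hX (Or.inr ⟨rfl, fun l h3 h4 => ?_, h12⟩)
    have h5 : l = 1 ∨ l = 2 := by omega
    rcases h5 with rfl | rfl
    · exact ⟨h, h2⟩
    · rw [← h12]
      exact ⟨h, h2⟩

/-- **`KP 4` from its parts**, twenty-eighth form, with `X := FasW`: the void windows are those of
`FasL` and the ties of the base `BtT`; the facts are asked only at the other ties of the base. -/
theorem kp4_of28 (hV3 : LVoA 3) (hV4 : LVoA 4)
    (c11 : LCellB)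
    (c11t : LCellM 4 [Kd.one, Kd.one, Kd.thin]) (c11s : LCellM 4 [Kd.one, Kd.one, Kd.sta])
    (c1t1 : LCellM 4 [Kd.one, Kd.thin, Kd.one]) (c1s1 : LCellM 4 [Kd.one, Kd.sta, Kd.one])
    (c1tt : LCellM 4 [Kd.one, Kd.thin, Kd.thin]) (c1ts : LCellM 4 [Kd.one, Kd.thin, Kd.sta])
    (c1st : LCellM 4 [Kd.one, Kd.sta, Kd.thin]) (c1ss : LCellM 4 [Kd.one, Kd.sta, Kd.sta])
    (hVF : ∀ n, 3 ≤ n → n ≤ 4 → LVoX FasL n) (hVT : LVoX BtT 4)
    (hE4 : LExTX FasW 4) (hTv : LTvX FasW 4) (hTp2 : LTp2X FasW 4)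
    (hTq : ∀ n, 3 ≤ n → n ≤ 4 → LTq1YX FasW n) (hTpS : LTpYX FasW 4)
    (hPJ : P4JStmt1) (hFP : LFastR FasW 4)
    (hA : LV0A 4) (hB : LV0B 4)
    (hV01 : LV01 4) : KP 4 :=
  kp4_of27 FasW hV3 hV4 c11 c11t c11s c1t1 c1s1 c1tt c1ts c1st c1ss (lVoW_of hVF hVT)
    (lExYX_ofT hE4 le_rfl) hTv hTp2 hTq hTpS hPJ hFP hA hB hV01

end Pool.ASM
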