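import Pool.Agent.H56.ASM.Xo
import Pool.Agent.H56.ASM.Xb
import Pool.Agent.H14.STV.Cls
import Pool.Agent.H95.STV.Cls

/-!
# The base ties: the kinds of the coordinates

`Kd2`: both coordinates of the tie are thin, or the slope is two. `LBt5`: the triple ties with `Kd2`,
extremal classes; `LNoE`: the ties of the base below the target with `Kd2`, all packages.
`lBtV_T`: the ties above the target from `LVoX BtT 4`.
-/

set_option autoImplicit false

namespace Pool.ASM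

open MeasureTheory Set Filter Topology
open Pool.Agent.H49.Ent Pool.Agent.H32.Dense Pool.STK Pool.KA Pool.KSAT Pool.K2S Pool.PB
open Pool.GEN Pool.S6C Pool.GRW Pool.PKG Pool.STAT Pool.PM Pool.R1 Pool.Z4
open Pool.ONE (LocE Ext0 Ext rowN_of_ext)
open Pool.TOP (TopS rw_all)
open Pool.LEV (Law Lv)
open Pool.STR (NumI TopW Mac StaAt IsoAt StaU1 ThinAt SteepAt Rle)
open Pool.MIC6
open Pool.SW (TopC NtO OneS NoTie Rgh Xa TieO NtP TopP LowT DifT)
open Pool.OWN72 (DiffS)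
open Pool.STV (sta1_two)

section

variable {n : ℕ} {hn : 2 ≤ n} {S : PCl n} {P : ℝ → ℝ → ℝ} {r ρ : ℝ → ℝ}
  {P' : ℕ → List (Fin n) × Fin n → ℝ → ℝ → ℝ} {Λ : Finset (Fin n) → Fin n → ℝ → ℝ → ℝ}
  {PB : ℕ → List (Fin n) × Fin n → ℝ → ℝ → ℝ}

/-- **Both coordinates are thin, or the slope is two.** -/
def Kd2 (hn : 2 ≤ n) (P : ℝ → ℝ → ℝ) (P' PB : ℕ → List (Fin n) × Fin n → ℝ → ℝ → ℝ) (o : Od n)
    (g : ℝ) : Prop :=
  (ThN hn P P' PB o 1 g ∧ ThN hn P P' PB o 2 g) ∨ slN hn P P' o 1 g = 2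

/-- **The kinds of two coordinates of the base with one slope.** -/
theorem kd2_of (H : PkT hn S P r P' Λ PB) (hTop : TopS n) (hF : FZX (n - 1)) (h4 : n = 4)
    (o : Od n) : ∀ᵐ g : ℝ, g ∈ Gs P r P' Λ o → (∀ l < n - 1, ThS hn P P' PB o l g) →
      OneN hn P P' o g → slN hn P P' o 1 g = slN hn P P' o 2 g → Kd2 hn P P' PB o g := by
  filter_upwards [sta1_two H hTop hF (by omega), Pool.STV.thin1_two H hTop hF (by omega)]
    with g k1 k2 ho hths hone he
  have h3 : ∀ l < 3, ThS hn P P' PB o l g := fun l hl => hths l (by omega)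
  by_cases h1 : ThN hn P P' PB o 1 g
  · by_cases h2 : ThN hn P P' PB o 2 g
    · exact Or.inl ⟨h1, h2⟩
    · right
      rw [he]
      exact k2 o ho h3 h1 (hone 1 le_rfl (by omega)) h2
  · exact Or.inr (k1 o ho h3 h1 (hone 2 (by norm_num) (by omega)))

end

/-- **No boxes at the triple ties** with the kinds `Kd2`, for the extremal classes. -/
def LBt5 (n : ℕ) : Prop := (∀ k, 2 ≤ k → k < n → Ext0 k) →
  Tol fun η => AllX n η fun {hn} {_} {P} {_} {P'} {_} {PB} H hTop hF h _ =>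
    NoB H hTop hF (H.rle h) h fun o g => Bt4W hn P P' PB o g ∧ Kd2 hn P P' PB o g

theorem lBt4_of {n : ℕ} (h : LBt5 n) : LBt4 n := fun hi => by
  refine (h hi).mono fun η h1 => ?_
  intro hn hZ hF hTop D hD hD1 hEx
  obtain ⟨x₀, a0, b0⟩ := h1 hn hZ hF hTop D hD hD1 hEx
  refine ⟨x₀, a0, fun x h3 h4 S P r P' Λ PB H => ?_⟩
  have h5 : ∀ o : Od n, ∀ᵐ g : ℝ, n = 4 → g ∈ Gs P r P' Λ o →
      (∀ l < n - 1, ThS hn P P' PB o l g) →
      OneN hn P P' o g → slN hn P P' o 1 g = slN hn P P' o 2 g → Kd2 hn P P' PB o g := fun o => by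
    by_cases h4 : n = 4
    · exact (kd2_of H hTop hF h4 o).mono fun _ h _ => h
    · exact Eventually.of_forall fun _ h => absurd h h4
  refine (b0 x h3 h4 S P r P' Λ PB H).mono fun o => ?_
  filter_upwards [h5 o, H.rwH_chg hTop hF ((1 - η D) * D) o] with g k1 k2 R hX
  exact ⟨hX, k1 hX.bti.four (k2 R).rwd.mem hX.bti.ths hX.bti.one hX.bti.tie⟩

/-- **The ties of the base below the target**, with the kinds. -/
def VoEW : WinC := fun n hn P P' PB o g => VoDW n hn P P' PB o g ∧ Kd2 hn P P' PB o g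

theorem lNoD_of {n : ℕ} (h : LNoX VoEW n) : LNoX VoDW n := by
  intro hi hn hZ hF hTop S P r P' Λ PB H h₀ hh hh1 ρ hρ hrow
  have h5 : ∀ o : Od n, ∀ᵐ g : ℝ, n = 4 → g ∈ Gs P r P' Λ o →
      (∀ l < n - 1, ThS hn P P' PB o l g) →
      OneN hn P P' o g → slN hn P P' o 1 g = slN hn P P' o 2 g → Kd2 hn P P' PB o g := fun o => by
    by_cases h4 : n = 4
    · exact (kd2_of H hTop hF h4 o).mono fun _ h _ => h
    · exact Eventually.of_forall fun _ h => absurd h h4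
  refine (h hi hn hZ hF hTop S P r P' Λ PB H h₀ hh hh1 ρ hρ hrow).mono fun o => ?_
  filter_upwards [h5 o, rwH_rho H hTop hF hρ (h' := h₀ / 2) (by linarith) hrow o]
    with g k1 k2 R hX
  exact ⟨hX.1, hX.2, k1 hX.2.1 (k2 R).rwd.mem hX.2.2.2.1 hX.2.2.1 hX.2.2.2.2.1⟩

/-- **The ties of the base above the target**, from `LVoX BtT 4`. -/
theorem lBtV_T (h : LVoX BtT 4) : LBtV 4 := fun hi => by
  refine (Tol.le (1 / 2) (by norm_num)).mono fun η h1 => ?_
  intro hn hZ hF hTop D hD hD1 hEx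
  have e1 := h1 D hD
  refine ⟨(1 + η D) * D + 1, by linarith, fun x h3 h4 S P r P' Λ PB H => ?_⟩
  have hh : 0 < (1 - η D) * D := mul_pos (by linarith) hD
  have hh1 : (1 - η D) * D ≤ 1 := by nlinarith
  have h5 := noB_X h hi hn hZ hF hTop S P r P' Λ PB H ((1 - η D) * D) hh hh1 _
    (H.rle ((1 - η D) * D)) (rt_def H.rate.lip H.rate.mono _)
  refine h5.mono fun o => Eventually.of_forall fun g _ hX => ⟨hX.th, rfl, fun l hl1 hl => ?_, ?_⟩
  · have hc : l = 1 ∨ l = 2 := by omega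
    rcases hc with rfl | rfl
    · rw [hX.s1]
      exact ⟨hX.lt, le_rfl⟩
    · rw [hX.s2]
      exact ⟨hX.lt, le_rfl⟩
  · rw [hX.s1, hX.s2]

end Pool.ASM
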