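import Pool.Agent.H56.ASM.Xu
import Pool.Agent.H14.P4J.Fst2
import Pool.Agent.H14.STV.S1
import Pool.Agent.H25.P4J.All

/-!
# The parts without boxes, with P4J with static ties and the slopes of static coordinates

`V2c`: over one coordinate of slope one and a static one of slope two, the slope of a static
coordinate is two or three. `sta_sl`: the slopes of the static coordinates of the base at the windows
with one contact coordinate. `Ts3W`, `lTsA_of`: the only window of `TwsW` which is left. `LFastV`: the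
windows with a tie and a faster coordinate; `lFastV_four`. `Bt2V`: the tie of two static coordinates.
`lBs_V`.
-/

set_option autoImplicit false

namespace Pool.ASM

open MeasureTheory Set Filter Topology
open Pool.Agent.H49.Ent Pool.Agent.H32.Dense Pool.STK Pool.KA Pool.KSAT Pool.K2S Pool.PB
open Pool.GEN Pool.S6C Pool.GRW Pool.PKG Pool.STAT Pool.PM Pool.R1 Pool.Z4
open Pool.ONE (LocE Ext0 Ext rowN_of_ext)
open Pool.TOP (TopS rw_all)
open Pool.LEV (Law Lv)
open Pool.STR (NumI TopW Mac StaAt IsoAt StaU1 ThinAt SteepAt Rle)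
open Pool.MIC6
open Pool.SW (TopC NtO OneS NoTie Rgh Xa TieO NtP TopP LowT DifT)
open Pool.OWN72 (DiffS)
open Pool.STV (CelV void_of celV_s1)
open Pool.MV (DfO)

/-- **The cells** `[one, sta, sta]` **with slopes two and more than two, not three, are void.** -/
def V2c : Prop := ∀ (Sl : ℕ → ℝ) (κ : ℕ → Kd), κ 0 = .one → κ 1 = .sta → κ 2 = .sta → Sl 0 = 1 →
  Sl 1 = 2 → 2 < Sl 2 → Sl 2 ≠ 3 → 1 < Sl 3 → CelV 4 3 Sl κ

section

variable {n : ℕ} {hn : 2 ≤ n} {S : PCl n} {P : ℝ → ℝ → ℝ} {r ρ : ℝ → ℝ}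
  {P' : ℕ → List (Fin n) × Fin n → ℝ → ℝ → ℝ} {Λ : Finset (Fin n) → Fin n → ℝ → ℝ → ℝ}
  {PB : ℕ → List (Fin n) × Fin n → ℝ → ℝ → ℝ}

/-- A static coordinate of slope more than one has a slope at least two. -/
theorem sta_two (H : PkT hn S P r P' Λ PB) (hTop : TopS n) (hF : FZX (n - 1)) :
    ∀ᵐ g : ℝ, ∀ o : Od n, g ∈ Gs P r P' Λ o → ∀ l < n - 1, (∀ k < l, ThS hn P P' PB o k g) →
      StaAt (LvL hn P P' o l) g → 1 < slN hn P P' o l g → 2 ≤ slN hn P P' o l g := by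
  filter_upwards [H.sta_slope hTop hF] with g h1 o ho l hl hk h4 h6
  rcases h1 o ho l hl.le hk h4 with h5 | h5
  · exfalso
    rw [slN_lvl o hl.le] at h6
    exact absurd h6 (not_lt.2 h5)
  · rw [slN_lvl o hl.le]
    exact h5

/-- **The kinds** of the coordinates which are not thin. -/
theorem kd_sta (H : PkT hn S P r P' Λ PB) (hTop : TopS n) (hF : FZX (n - 1)) :
    ∀ᵐ g : ℝ, ∀ o : Od n, g ∈ Gs P r P' Λ o → OneN hn P P' o g → ∀ m ≤ n - 1,
      (∀ l < m, ThS hn P P' PB o l g) → ∀ s : ℕ → Prop, (∀ l < m, s l → 1 ≤ l ∧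
        StaAt (LvL hn P P' o l) g) →
      ∃ κ : ℕ → Kd, κ 0 = .one ∧ (∀ l < m, s l → κ l = .sta) ∧
        ∀ l < m, KdAt hn P P' PB o l g (κ l) := by
  classical
  filter_upwards [kd_ae H hTop hF, sta_two H hTop hF, ae_all_iff.2 fun o => one_zero H hTop hF o]
    with g k1 k2 k3 o ho hone m hm hth s hs
  have k1' := k1 o ho m hm hth
  have : Nonempty Kd := ⟨.one⟩
  choose! κ hκ using k1'
  refine ⟨fun l => if l = 0 then .one else if s l then .sta else κ l, by simp, fun l hl h1 => ?_,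
    fun l hl => ?_⟩
  · have h2 : l ≠ 0 := by
      have := (hs l hl h1).1
      omega
    show (if l = 0 then Kd.one else if s l then Kd.sta else κ l) = _
    rw [if_neg h2, if_pos h1]
  · show KdAt hn P P' PB o l g (if l = 0 then Kd.one else if s l then Kd.sta else κ l)
    by_cases h2 : l = 0
    · rw [if_pos h2, h2]
      exact k3 o ho
    rw [if_neg h2]
    by_cases h1 : s l
    · rw [if_pos h1]
      have h5 := k2 o ho l (by omega) (fun k hk => hth k (by omega)) (hs l hl h1).2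
        (hone l (by omega) (by omega))
      rw [slN_lvl o (by omega)] at h5
      exact ⟨h5, (hs l hl h1).2⟩
    · rw [if_neg h1]
      exact hκ l hl

end

/-- **The slopes of the static coordinates of the base** at the windows with one contact coordinate,
dimension four, any kind of the target. -/
theorem sta_sl (hV : V2c) {hn : 2 ≤ 4} {S : PCl 4} {P : ℝ → ℝ → ℝ} {r : ℝ → ℝ}
    {P' : ℕ → List (Fin 4) × Fin 4 → ℝ → ℝ → ℝ} {Λ : Finset (Fin 4) → Fin 4 → ℝ → ℝ → ℝ}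
    {PB : ℕ → List (Fin 4) × Fin 4 → ℝ → ℝ → ℝ} (H : PkT hn S P r P' Λ PB) (hTop : TopS 4)
    (hF : FZX (4 - 1)) (o : Od 4) :
    ∀ᵐ g : ℝ, g ∈ Gs P r P' Λ o → OneN hn P P' o g → 1 < slN hn P P' o 3 g →
      (∀ l < 4 - 1, ThS hn P P' PB o l g) → StaAt (LvL hn P P' o 1) g →
      slN hn P P' o 1 g = 2 ∧ (StaAt (LvL hn P P' o 2) g →
        slN hn P P' o 2 g = 2 ∨ slN hn P P' o 2 g = 3) := by
  filter_upwards [kd_sta H hTop hF, sta_two H hTop hF, one_zero H hTop hF o,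
    void_of H hTop hF] with g k1 k2 k3 k4 ho hone h3 hth h1
  have s0 : SlL hn P P' o g 0 = 1 := k3 ho
  have e : ∀ l ≤ 4 - 1, SlL hn P P' o g l = slN hn P P' o l g := fun l hl => (slN_lvl o hl g).symm
  have h2 : 1 < slN hn P P' o 2 g := hone 2 (by norm_num) (by norm_num)
  have s1 : slN hn P P' o 1 g = 2 := by
    have h5 := k2 o ho 1 (by norm_num) (fun k hk => hth k (by omega)) h1
      (hone 1 le_rfl (by norm_num))
    refine le_antisymm ?_ h5
    by_contra hcon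
    push Not at hcon
    obtain ⟨κ, κ0, κs, κk⟩ := k1 o ho hone 3 le_rfl hth (fun l => l = 1) fun l _ hl => by
      rw [hl]
      exact ⟨le_rfl, h1⟩
    refine k4 o ho 3 (by norm_num) le_rfl κ κk (celV_s1 κ0 (κs 1 (by norm_num) rfl) s0 ?_ ?_)
    · rw [e 1 (by norm_num)]
      exact hcon
    · rw [e 2 (by norm_num)]
      exact h2
  refine ⟨s1, fun h6 => ?_⟩
  have h7 := k2 o ho 2 (by norm_num) (fun k hk => hth k (by omega)) h6 h2
  by_contra hcon
  push Not at hcon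
  obtain ⟨κ, κ0, κs, κk⟩ := k1 o ho hone 3 le_rfl hth (fun l => l = 1 ∨ l = 2) fun l _ hl => by
    rcases hl with rfl | rfl
    · exact ⟨le_rfl, h1⟩
    · exact ⟨by norm_num, h6⟩
  refine k4 o ho 3 (by norm_num) le_rfl κ κk (hV _ κ κ0 (κs 1 (by norm_num) (Or.inl rfl))
    (κs 2 (by norm_num) (Or.inr rfl)) s0 ?_ ?_ ?_ ?_)
  · rw [e 1 (by norm_num)]
    exact s1
  · rw [e 2 (by norm_num)]
    exact lt_of_le_of_ne h7 (Ne.symm hcon.1)
  · rw [e 2 (by norm_num)]
    exact hcon.2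
  · rw [e 3 le_rfl]
    exact h3

/-! ### The ties at the top with two static coordinates -/

section

variable {n : ℕ} {hn : 2 ≤ n} {S : PCl n} {P : ℝ → ℝ → ℝ} {r ρ : ℝ → ℝ}
  {P' : ℕ → List (Fin n) × Fin n → ℝ → ℝ → ℝ} {Λ : Finset (Fin n) → Fin n → ℝ → ℝ → ℝ}
  {PB : ℕ → List (Fin n) × Fin n → ℝ → ℝ → ℝ}

/-- **The window** `(1, 2, 3; 3)` with two static coordinates in the base. -/
structure Ts3W (hn : 2 ≤ n) (P : ℝ → ℝ → ℝ) (P' PB : ℕ → List (Fin n) × Fin n → ℝ → ℝ → ℝ)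
    (o : Od n) (g : ℝ) : Prop where
  th : ThW hn P P' PB o g
  ths : ∀ l < n - 1, ThS hn P P' PB o l g
  nt1 : ¬ ThN hn P P' PB o 1 g
  nt2 : ¬ ThN hn P P' PB o 2 g
  s1 : slN hn P P' o 1 g = 2
  s2 : slN hn P P' o 2 g = 3
  sn : slN hn P P' o (n - 1) g = 3

end

/-- **No boxes at the window** `(1, 2, 3; 3)` with two static coordinates in the base, for all
packages. -/
def LTs3 (n : ℕ) : Prop :=
  AllP n fun {hn} {_} {P} {_} {P'} {_} {PB} {_} H hTop hF h hρ =>
    NoB H hTop hF hρ h (Ts3W hn P P' PB)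

/-- **The ties at the top with two static coordinates** are the window `(1, 2, 3; 3)`. -/
theorem lTsA_of (hV : V2c) (h3 : LTs3 4) : LTsA 4 := by
  intro hi hn hZ hF hTop S P r P' Λ PB H h hh hh1 ρ hρ hrow
  refine (h3 hi hn hZ hF hTop S P r P' Λ PB H h hh hh1 ρ hρ hrow).mono fun o => ?_
  filter_upwards [sta_sl hV H hTop hF o, slo_two H hTop hF, one_zero H hTop hF o,
    NumI.rwD_chg (nk := H.nk hTop hF) hρ H.up (H.tgs.law ()) o] with g k1 k2 k3 k4 R hX
  have ho := (k4 R).mem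
  obtain ⟨⟨⟨hth, hle, ⟨l₀, hl₀, htie⟩, hone, hdif⟩, hths⟩, hno⟩ := hX
  have s0 : slN hn P P' o 0 g = 1 := by
    rw [slN_lvl o (by omega)]
    exact k3 ho
  have hσ : 1 < slN hn P P' o 3 g := hth.1
  have hst : ∀ l < 4 - 1, ¬ ThN hn P P' PB o l g → StaAt (LvL hn P P' o l) g ∧
      2 ≤ slN hn P P' o l g := fun l hl h6 => k2 o ho l hl (fun k hk => hths k (by omega))
    (hths l hl) h6
  have ht0 : ThN hn P P' PB o 0 g := by
    by_contra h6
    have := (hst 0 (by norm_num) h6).2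
    rw [s0] at this
    linarith
  have hl0 : l₀ ≠ 0 := by
    rintro rfl
    rw [s0] at htie
    have h4 : slN hn P P' o (4 - 1) g = slN hn P P' o 3 g := rfl
    rw [h4] at htie
    linarith
  -- both coordinates are not thin
  have hn12 : ¬ ThN hn P P' PB o 1 g ∧ ¬ ThN hn P P' PB o 2 g := by
    by_contra hcon
    by_cases h1 : ThN hn P P' PB o 1 g
    · refine hno ⟨hths, 2, by norm_num, fun l hl hne => ?_⟩
      have : l = 0 ∨ l = 1 := by omega
      rcases this with rfl | rfl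
      · exact ht0
      · exact h1
    · have h2 : ThN hn P P' PB o 2 g := by
        by_contra h2
        exact hcon ⟨h1, h2⟩
      refine hno ⟨hths, 1, by norm_num, fun l hl hne => ?_⟩
      have : l = 0 ∨ l = 2 := by omega
      rcases this with rfl | rfl
      · exact ht0
      · exact h2
  obtain ⟨h1, h2⟩ := hn12
  obtain ⟨e1, e2⟩ := k1 ho hone hσ hths (hst 1 (by norm_num) h1).1
  have e2' := e2 (hst 2 (by norm_num) h2).1
  have hne : slN hn P P' o 1 g ≠ slN hn P P' o 2 g := hdif 1 2 le_rfl (by norm_num) (by norm_num)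
  have e3 : slN hn P P' o 2 g = 3 := by
    rcases e2' with h5 | h5
    · exact absurd (e1.trans h5.symm) hne
    · exact h5
  refine ⟨hth, hths, h1, h2, e1, e3, ?_⟩
  have h6 : slN hn P P' o 2 g ≤ slN hn P P' o (4 - 1) g := hle 2 (by norm_num)
  have h7 : l₀ = 1 ∨ l₀ = 2 := by omega
  rcases h7 with rfl | rfl
  · rw [e3] at h6
    linarith
  · rw [← htie]
    exact e3

/-! ### The windows with a tie and a faster coordinate -/

/-- **No boxes at the windows with a tie and a faster coordinate** which are not covered by P4, P5,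
P4I, P4J and P4J with static ties. -/
def LFastV (X : WinC) (n : ℕ) : Prop := (∀ k, 2 ≤ k → k < n → Ext0 k) →
  Tol fun η => AllX n η fun {_} {_} {_} {_} {_} {_} {_} H hTop hF h _ =>
    NoB H hTop hF (H.rle h) h (FtRem2 X H hTop hF)

theorem LFastR.v2 {X : WinC} {n : ℕ} (h : LFastR X n) : LFastV X n := fun hi => by
  refine (h hi).mono fun η h1 => ?_
  intro hn hZ hF hTop D hD hD1 hEx
  obtain ⟨x₀, a0, b0⟩ := h1 hn hZ hF hTop D hD hD1 hEx
  refine ⟨x₀, a0, fun x h3 h4 S P r P' Λ PB H => ?_⟩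
  exact (b0 x h3 h4 S P r P' Λ PB H).mono fun o =>
    Eventually.of_forall fun g _ hx => hx.1

/-- **No such windows in dimension four.** -/
theorem lFastV_four (hV : V2c) {X : WinC} : LFastV X 4 := fun hi => by
  refine Tol.of_all fun η _ _ => ?_
  intro hn hZ hF hTop D hD hD1 hEx
  refine ⟨(1 + η D) * D + 1, by linarith, fun x hx hx' S P r P' Λ PB H => ?_⟩
  refine noB_false fun o => ?_
  filter_upwards [ftRem2_st (X := X) H hTop hF o, sta_sl hV H hTop hF o, slo_two H hTop hF,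
    fast_one le_rfl H hTop hF o] with g k1 k2 k3 k4 R hX
  have ho := R.mem
  have hW : FtWX X H hTop hF o g := hX.1.1.1
  have hths := hW.1.1.ths
  have hone : OneN hn P P' o g := (oneN_iff H hTop hF o g).2 (k4 ho hW.1.1 hW.1.2).2
  obtain ⟨h1, h2⟩ := k1 ho hX
  have hst : ∀ l < 4 - 1, ¬ ThN hn P P' PB o l g → StaAt (LvL hn P P' o l) g := fun l hl h6 =>
    (k3 o ho l hl (fun k hk => hths k (by omega)) (hths l hl) h6).1
  obtain ⟨e1, e2⟩ := k2 ho hone hW.1.1.one hths (hst 1 (by norm_num) h1)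
  rcases h2 with h2 | ⟨h2, h3, h4⟩
  · linarith
  · rcases e2 (hst 2 (by norm_num) h2) with h5 | h5
    · linarith
    · linarith

/-- **No boxes** from their parts, `n ≥ 3`. -/
theorem lBs_V {n : ℕ} (hn4 : n ≤ 4) (hVF : LVoX FasU n) (hTw : LTwA n)
    (hTs : n = 4 → LTsA n) (hBt : n = 4 → LBtE n)
    (hFP : LFastV FasD n) : LBs n := fun hi => by
  have hBt' : Tol fun η => AllX n η fun {hn} {_} {P} {_} {P'} {_} {PB} H hTop hF h _ =>
      NoB H hTop hF (H.rle h) h (BtiW hn P P' PB) := by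
    by_cases h4 : n = 4
    · exact hBt h4 hi
    · refine Tol.of_all fun η h0 _ => ?_
      intro hn hZ hF hTop D hD hD1 hE
      refine ⟨(1 + η D) * D + 1, by linarith, fun x hx hx' S P r P' Λ PB H => ?_⟩
      exact noB_false fun o => Eventually.of_forall fun g _ hX => h4 hX.four
  refine ((lFaW_ths hn4 (fun _ => lCellA_one n |>.f)
    (fun h4 => (Pool.C2T.lCellA_one_thin (by omega)).f)
    (fun h4 => (lCellA_sta (by omega)).f) hi).and (hBt'.and
    (((Pool.ORD65.lFc_le (n := n) hn4).x (X := FasD) hi).and ((hFP hi).and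
    ((tol_micX (n := n - 1 + 1) (B₀ := n + 2) (by omega) (by omega)).and
      ((tol_micI (n := n - 1 + 1) (B₀ := n + 2) (by omega) (by omega)).and
      ((tol_micJ Pool.P4J.p4j (n := n - 1 + 1) (B₀ := n + 2) (by omega) (by omega)).and
      ((tol_micJ2 Pool.P4J.p4j2 (n := n - 1 + 1) (B₀ := n + 2) (by omega) (by omega)).and
      (Tol.le (1 / 2) (by norm_num)))))))))).mono fun η h => ?_
  obtain ⟨h1, h2, h3, h4, h6, h7, h8, h9, h5⟩ := h
  intro hn hZ hF hTop D hD hD1 hEx S P r P' Λ PB H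
  have e1 := h5 D hD
  obtain ⟨h, hh'⟩ : ∃ h, h = (1 - η D) * D := ⟨_, rfl⟩
  have hh : 0 < h := by
    rw [hh']
    exact mul_pos (by linarith) hD
  have hh1 : h ≤ 1 := by
    rw [hh']
    nlinarith
  obtain ⟨S', PW, H₁, hPW⟩ := H.subW
  have hEY₀ : ExY H₁ hTop hF (H₁.rle h) h fun o g =>
      OneC n (slo H₁ hTop hF o g) (deriv (fun a => P a a) g) ∧ DiffS hn P P' o g :=
    exY_KE hTop hF (H₁.rle h) hn4 h
  have hEY : ExY H₁ hTop hF (H₁.rle h) h (ExWX FasD H₁ hTop hF) := by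
    refine hEY₀.mono fun o => Eventually.of_forall fun g _ hX => ⟨hX.2.1, ?_⟩
    by_contra hD'
    exact hX.2.2 (Or.inr hD')
  have hEA' := hEY₀.exB hn4 hZ
  obtain ⟨x₄, a4, b4⟩ := h2 hn hZ hF hTop D hD hD1 hEx
  obtain ⟨x₁, a1, b1⟩ := h3 hn hZ hF hTop D hD hD1 hEx
  obtain ⟨x₂, a2, b2⟩ := h4 hn hZ hF hTop D hD hD1 hEx
  obtain ⟨x₃, a3, b3⟩ := h6 D hD hD1
  obtain ⟨x₅, a5, b5⟩ := h7 D hD hD1
  obtain ⟨x₆, a6, b6⟩ := h8 D hD hD1
  obtain ⟨x₇, a7, b7⟩ := h9 D hD hD1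
  obtain ⟨x, hx⟩ : ∃ x, x = min (min (min x₇ x₄) (min x₅ x₆)) (min x₁ (min x₂ x₃)) := ⟨_, rfl⟩
  have hx0 : (1 + η D) * D < x := by
    rw [hx]
    exact lt_min (lt_min (lt_min a7 a4) (lt_min a5 a6)) (lt_min a1 (lt_min a2 a3))
  have hxc : x ≤ min (min x₇ x₄) (min x₅ x₆) := by
    rw [hx]
    exact min_le_left _ _
  have hxa : x ≤ x₄ := (hxc.trans (min_le_left _ _)).trans (min_le_right _ _)
  have hx7 : x ≤ x₇ := (hxc.trans (min_le_left _ _)).trans (min_le_left _ _)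
  have hx5 : x ≤ x₅ := (hxc.trans (min_le_right _ _)).trans (min_le_left _ _)
  have hx6 : x ≤ x₆ := (hxc.trans (min_le_right _ _)).trans (min_le_right _ _)
  have hxb : x ≤ min x₁ (min x₂ x₃) := by
    rw [hx]
    exact min_le_right _ _
  have hx1 : x ≤ x₁ := hxb.trans (min_le_left _ _)
  have hx2 : x ≤ x₂ := hxb.trans ((min_le_right _ _).trans (min_le_left _ _))
  have hx3 : x ≤ x₃ := hxb.trans ((min_le_right _ _).trans (min_le_right _ _))
  obtain ⟨hp4, hp5⟩ := b3 x hx3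
  have hpI := b5 x hx5
  have hpJ := b6 x hx6
  have hpK := b7 x hx7
  have hBt := b4 x hx0 hxa S' P r P' Λ PB H₁
  have hFc' := b1 x hx0 hx1 S' P r P' Λ PB H₁
  have hLe := b2 x hx0 hx2 S' P r P' Λ PB H₁
  have hFa := h1 hn hZ hF hTop D hD hD1 hEx S' P r P' Λ PB H₁
  rw [← hh'] at hBt hFc' hLe hp4 hp5 hFa hpI hpJ hpK
  rw [← hh']
  have hrow := rt_def H₁.rate.lip H₁.rate.mono h
  have hVF' := noB_X hVF hi hn hZ hF hTop S' P r P' Λ PB H₁ h hh hh1 _ (H₁.rle h) hrow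
  have hTw' := hTw hi hn hZ hF hTop S' P r P' Λ PB H₁ h hh hh1 _ (H₁.rle h) hrow
  have hTd := noB_td hn4 hTs hi hn hZ hF hTop S' P r P' Λ PB H₁ h hh hh1 _ (H₁.rle h) hrow
  -- the windows with a tie and a faster coordinate
  have hfast : NoB H₁ hTop hF (H₁.rle h) h (FtWX FasD H₁ hTop hF) :=
    noB_fastJ2 hn4 hZ hh hh1 hp4 hp5 hpI hpJ hpK hPW hEY hFc' hLe
  have hall : NoB H₁ hTop hF (H₁.rle h) h (ThW hn P P' PB) := by
    refine (((hVF'.or hTw').or hBt).or ((noB_V (P := P) (P' := P') Pool.VAS.micV hh hh1 hEA').or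
      (hTd.or hfast))).mono fun o => ?_
    filter_upwards [hFa o, H₁.rwH_chg hTop hF h o, ths_all hn4 H₁ hTop hF h o,
      slN_zero H₁ hTop hF (h := h) o] with g k1 k2 k3 k4 R hX
    by_cases hf : FasU n hn P P' PB o g
    · exact Or.inl (Or.inl (Or.inl ⟨hX, hf⟩))
    by_cases hO : OneS n (slo H₁ hTop hF o g)
    swap
    · exact Or.inl (Or.inl (Or.inr ⟨hX, hO⟩))
    have hON := (oneN_iff H₁ hTop hF o g).2 hO
    have hC : OneC n (slo H₁ hTop hF o g) (deriv (fun a => P a a) g) :=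
      ⟨by
        have := hX.1
        rwa [slN_tar] at this, hO⟩
    by_cases hD' : DiffS hn P P' o g
    swap
    · obtain ⟨e4, e12⟩ := not_diffS hn4 hD'
      refine Or.inl (Or.inr ⟨hX, hON, k3 (k2 R) hON, e4, e12, ?_⟩)
      by_contra hlt
      push Not at hlt
      refine hf ⟨fun l hl => ?_, fun hOD => hD' hOD.2⟩
      have h11 : l = 0 ∨ l = 1 ∨ l = 2 := by omega
      rcases h11 with rfl | rfl | rfl
      · rw [k4 (k2 R)]
        exact hX.1
      · exact hlt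
      · rw [← e12]
        exact hlt
    by_cases hti : TiW hn P P' o g
    · by_cases hA : TopA n (slo H₁ hTop hF o g) (deriv (fun a => P a a) g)
      · exact Or.inr (Or.inr (Or.inl ⟨hX, slLe_top hA, hti, hON, hD'⟩))
      · refine Or.inr (Or.inr (Or.inr ⟨⟨k1 (k2 R) ⟨hX, hti, hA⟩, hA⟩, ?_⟩))
        rintro (h9 | h9)
        · obtain ⟨l, hl, he⟩ := hti
          exact absurd he (h9 l hl).ne
        · exact h9 hD'
    · exact Or.inr (Or.inl ⟨fun l hl h9 => hti ⟨l, hl, h9⟩, hC, hD'⟩)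
  obtain ⟨p, hp⟩ := noB_thin hall hrow hh
  exact ⟨p, Or.inr hp⟩

/-! ### The ties in the base -/

section

variable {n : ℕ} {hn : 2 ≤ n} {S : PCl n} {P : ℝ → ℝ → ℝ} {r ρ : ℝ → ℝ}
  {P' : ℕ → List (Fin n) × Fin n → ℝ → ℝ → ℝ} {Λ : Finset (Fin n) → Fin n → ℝ → ℝ → ℝ}
  {PB : ℕ → List (Fin n) × Fin n → ℝ → ℝ → ℝ}

/-- **The windows** `(1, 2, 2; σ)`, `σ < 2`, where the first coordinate of the tie is static, and the
second one is static or the order is not greedy near the window. -/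
structure Bt2V (hn : 2 ≤ n) (P : ℝ → ℝ → ℝ) (P' PB : ℕ → List (Fin n) × Fin n → ℝ → ℝ → ℝ)
    (o : Od n) (g : ℝ) : Prop where
  th : ThW hn P P' PB o g
  one : OneN hn P P' o g
  ths : ∀ l < n - 1, ThS hn P P' PB o l g
  s1 : slN hn P P' o 1 g = 2
  s2 : slN hn P P' o 2 g = 2
  lt : slN hn P P' o (n - 1) g < 2
  sta : StaAt (LvL hn P P' o 1) g
  sta2 : StaAt (LvL hn P P' o 2) g ∨ ¬ DfO hn P' o g

end

/-- **No boxes at the windows** `(1, 2, 2; σ)`, `σ < 2`, with static coordinates, for the extremal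
classes. -/
def LBtV (n : ℕ) : Prop := (∀ k, 2 ≤ k → k < n → Ext0 k) →
  Tol fun η => AllX n η fun {hn} {_} {P} {_} {P'} {_} {PB} H hTop hF h _ =>
    NoB H hTop hF (H.rle h) h (Bt2V hn P P' PB)

theorem lBt2_of (hV : V2c) (h : LBtV 4) : LBt2 4 := fun hi => by
  refine (h hi).mono fun η h1 => ?_
  intro hn hZ hF hTop D hD hD1 hEx
  obtain ⟨x₀, a0, b0⟩ := h1 hn hZ hF hTop D hD hD1 hEx
  refine ⟨x₀, a0, fun x h3 h4 S P r P' Λ PB H => ?_⟩
  refine (b0 x h3 h4 S P r P' Λ PB H).mono fun o => ?_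
  filter_upwards [sta_sl hV H hTop hF o, H.rwH_chg hTop hF ((1 - η D) * D) o]
    with g k1 k2 R hX
  obtain ⟨e1, -⟩ := k1 (k2 R).rwd.mem hX.bti.one hX.bti.th.1 hX.bti.ths hX.sta
  exact ⟨hX.bti.th, hX.bti.one, hX.bti.ths, e1, by rw [← hX.bti.tie]; exact e1,
    by rw [← e1]; exact hX.lt, hX.sta, hX.sta2⟩

end Pool.ASM
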