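import Pool.Agent.H56.ASM.Sk34
import Pool.Agent.H90.D2.Hih

/-!
# The parts of `KP 4`, thirty-fifth form

As the thirty-fourth form; the cell `[one, thin, thin]` is `c1tt` (helper90).
-/

set_option autoImplicit false

namespace Pool.ASM

open Pool.KA Pool.PKG

/-- **`KP 4` from its parts**, thirty-fifth form. -/
theorem kp4_of35
    (c11 : LCellB)
    (c11t : LCellM 4 [Kd.one, Kd.one, Kd.thin]) (c11s : LCellM 4 [Kd.one, Kd.one, Kd.sta])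
    (c1t1 : LCellM 4 [Kd.one, Kd.thin, Kd.one]) (c1s1 : LCellM 4 [Kd.one, Kd.sta, Kd.one])
    (c1ts : LCellM 4 [Kd.one, Kd.thin, Kd.sta])
    (c1st : LCellM 4 [Kd.one, Kd.sta, Kd.thin]) (c1ss : LCellM 4 [Kd.one, Kd.sta, Kd.sta])
    (hVo2 : LNoX Vo2W 4) (hVoE : LNoX VoEW 4)
    (hTv : LTvX FasL 4) (hTp2 : LTp2X FasL 4)
    (hBV : LBtV 4) (hB5 : LBt5 4)
    (hA : LV0A 4) (hB : LV0B 4)
    (hV01 : LV01 4) : KP 4 :=
  kp4_of34 c11 c11t c11s c1t1 c1s1 Pool.D2N.c1tt c1ts c1st c1ss hVo2 hVoE hTv hTp2 hBV hB5 hA hB hV01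

end Pool.ASM
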