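import Pool.Agent.H56.ASM.Sk35
import Pool.Agent.H63.ONE.Asm
import Pool.Agent.H88.D2.Css
import Pool.Agent.H80.ASB.Cb1
import Pool.Agent.H6.ASM.V0a
import Pool.Agent.H3.SHE.Cel

/-!
# The parts of `KP 4`, thirty-sixth form

As the thirty-fifth form; the ties in the base faster than the target from the local statement
`OneLoc` (`lVoT_loc`, helper63 and helper91). `kp4_parts`: with the parts named by the owners in the
place of `LCellB`, `[one, sta, sta]`, `[one, thin, one]`, `[one, sta, one]`, `LV0A`, `LV0B`, `LV01`.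
-/

set_option autoImplicit false

namespace Pool.ASM

open Pool.KA Pool.PKG

/-- **`KP 4` from its parts**, thirty-sixth form. -/
theorem kp4_of36
    (c11 : LCellB)
    (c11t : LCellM 4 [Kd.one, Kd.one, Kd.thin]) (c11s : LCellM 4 [Kd.one, Kd.one, Kd.sta])
    (c1t1 : LCellM 4 [Kd.one, Kd.thin, Kd.one]) (c1s1 : LCellM 4 [Kd.one, Kd.sta, Kd.one])
    (c1ts : LCellM 4 [Kd.one, Kd.thin, Kd.sta])
    (c1st : LCellM 4 [Kd.one, Kd.sta, Kd.thin]) (c1ss : LCellM 4 [Kd.one, Kd.sta, Kd.sta])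
    (hVo2 : LNoX Vo2W 4) (hVoE : LNoX VoEW 4)
    (hTv : LTvX FasL 4) (hTp2 : LTp2X FasL 4)
    (hOne : Pool.ONE63.OneLoc) (hB5 : LBt5 4)
    (hA : LV0A 4) (hB : LV0B 4)
    (hV01 : LV01 4) : KP 4 :=
  kp4_of35 c11 c11t c11s c1t1 c1s1 c1ts c1st c1ss hVo2 hVoE hTv hTp2
    (lBtV_T (Pool.ONE63.lVoT_loc hOne)) hB5 hA hB hV01

/-- **`KP 4` from the named parts** of the owners. -/
theorem kp4_parts
    -- `[one, one]`, target steep (helper80)
    (f1 : CbF .stp (fun Sl => Sl 3 < Sl 2)) (f2 : CbF .stp (fun Sl => Sl 2 < Sl 3))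
    (f3 : CbF .stp (fun Sl => Sl 3 = Sl 2)) (f4 : CbN .stp (fun _ => True))
    -- the cells
    (c11t : LCellM 4 [Kd.one, Kd.one, Kd.thin]) (c11s : LCellM 4 [Kd.one, Kd.one, Kd.sta])
    (hLA : Pool.SHE3.LLeafA) (hSh : Pool.SHE3.LShe)
    (c1ts : LCellM 4 [Kd.one, Kd.thin, Kd.sta])
    (c1st : LCellM 4 [Kd.one, Kd.sta, Kd.thin]) (pSS : PartSS)
    -- the ties and the windows without rate
    (hVo2 : LNoX Vo2W 4) (hVoE : LNoX VoEW 4)
    (hTv : LTvX FasL 4) (hTp2 : LTp2X FasL 4)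
    (hOne : Pool.ONE63.OneLoc) (hB5 : LBt5 4)
    -- two contact coordinates, static target (helper6)
    {Adm Adm' : (ℕ → ℝ) → Pool.ALT.AltJ → PropW 4} {β β' : (ℕ → ℝ) → ℝ}
    (sA : ShA Adm β) (sB : ShB) (s1 : Sh1 Adm' β') (s1B : Sh1B) : KP 4 :=
  kp4_of36 (lCellB_of1 f1 f2 f3 f4) c11t c11s (Pool.SHE3.lCellA_1t1 hLA hSh).v.m
    (Pool.SHE3.lCellA_1s1 hLA hSh).v.m c1ts c1st (c1ss_of pSS) hVo2 hVoE hTv hTp2 hOne hB5
    (lV0A_of1 sA) (lV0B_of1 sB) (lV01_of1 s1 s1B)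

end Pool.ASM
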