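import Pool.Agent.H56.ASM.Sk36
import Pool.Agent.H56.ASM.Jt
import Pool.Agent.H66.D2.C1s
import Pool.Agent.H72.ONE1.Loc
import Pool.Agent.H92.ALT.Jn5

/-!
# The parts of `KP 4`, by kinds

`kp4_parts2`: as `kp4_parts`; the thin windows from the kinds (`PTwo`, `POne`), the cell
`[one, sta, thin]` from one part (helper66), `CbN .stp` is `cbN_stp` (helper92), the local statement
of the windows `[one; thin, thin]` is `one_loc` (helper72).
-/

set_option autoImplicit false

namespace Pool.ASM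

open Pool.KA Pool.PKG

/-- **`KP 4` from the named parts** of the owners, the thin windows by kinds. -/
theorem kp4_parts2
    -- `[one, one]`, target steep (helper80)
    (f1 : CbF .stp (fun Sl => Sl 3 < Sl 2)) (f2 : CbF .stp (fun Sl => Sl 2 < Sl 3))
    (f3 : CbF .stp (fun Sl => Sl 3 = Sl 2))
    -- the cells
    (c11t : LCellM 4 [Kd.one, Kd.one, Kd.thin]) (c11s : LCellM 4 [Kd.one, Kd.one, Kd.sta])
    (hLA : Pool.SHE3.LLeafA) (hSh : Pool.SHE3.LShe)
    (c1ts : LCellM 4 [Kd.one, Kd.thin, Kd.sta]) (pST : PartST fun x => 1 < x) (pSS : PartSS)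
    -- the thin windows
    (hVo2 : PTwo fun a b => a < b) (hTv : PTwo fun a b => b < a) (hTp2 : PTwo fun a b => a = b)
    (hVoE : POne fun a b => a < b) (hB5 : POne fun a b => a = b)
    -- two contact coordinates, static target (helper6)
    {Adm Adm' : (ℕ → ℝ) → Pool.ALT.AltJ → PropW 4} {β β' : (ℕ → ℝ) → ℝ}
    (sA : ShA Adm β) (sB : ShB) (s1 : Sh1 Adm' β') (s1B : Sh1B) : KP 4 :=
  kp4_parts f1 f2 f3 cbN_stp c11t c11s hLA hSh c1ts (c1st_of1 pST) pSS (lVo2_of_k hVo2)
    (lVoE_of_k hVoE) (lTv_of_k hTv) (lTp2_of_k hTp2) Pool.ONE72.one_loc (lBt5_of_k hB5) sA sB s1 s1B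

end Pool.ASM
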