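import Pool.Agent.H56.ASM.Sk37
import Pool.Agent.H83.VT.Sheet
import Pool.Agent.H16.ROW.Teq
import Pool.Agent.H6.ASM.V0b

/-!
# The parts of `KP 4`, by the sheets of the owners

`kp4_parts3`: as `kp4_parts2`; the thin windows `b < a` by helper83's sheet, the ties over the pair by
helper16's, `LV0B`, `LV01` by helper6's parts at a thin `u`.
-/

set_option autoImplicit false

namespace Pool.ASM

open Pool.KA Pool.PKG

/-- **`KP 4` from the named parts** of the owners, by their sheets. -/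
theorem kp4_parts3
    -- `[one, one]`, target steep (helper80)
    (f1 : CbF .stp (fun Sl => Sl 3 < Sl 2)) (f2 : CbF .stp (fun Sl => Sl 2 < Sl 3))
    (f3 : CbF .stp (fun Sl => Sl 3 = Sl 2))
    -- the cells
    (c11t : LCellM 4 [Kd.one, Kd.one, Kd.thin]) (c11s : LCellM 4 [Kd.one, Kd.one, Kd.sta])
    (hLA : Pool.SHE3.LLeafA) (hSh : Pool.SHE3.LShe)
    (c1ts : LCellM 4 [Kd.one, Kd.thin, Kd.sta]) (pST : PartST fun x => 1 < x) (pSS : PartSS)
    -- the thin windows, `a < b` and one coordinate of slope one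
    (hVo2 : PTwo fun a b => a < b) (hVoE : POne fun a b => a < b) (hB5 : POne fun a b => a = b)
    -- the thin windows `b < a` (helper83)
    (tF : Pool.VT83.VtF .thin) (tFs : Pool.VT83.VtF .sta) (tFp : Pool.VT83.VtF .stp)
    (tL : Pool.VT83.VtL .thin) (tLs : Pool.VT83.VtL .sta) (tLp : Pool.VT83.VtL .stp)
    (t0 : Pool.VT83.VtB0 .thin) (t1 : Pool.VT83.VtB1 .thin) (t0s : Pool.VT83.VtB0 .sta)
    (t1s : Pool.VT83.VtB1 .sta)
    -- the thin windows `a = b` over the pair (helper16)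
    (eF : Pool.VE16.VeF .thin) (eFs : Pool.VE16.VeF .sta) (eFp : Pool.VE16.VeF .stp)
    (eL : Pool.VE16.VeL .thin) (eLs : Pool.VE16.VeL .sta) (eLp : Pool.VE16.VeL .stp)
    (e0 : Pool.VE16.VeB0 .thin) (e1 : Pool.VE16.VeB1 .thin) (e0s : Pool.VE16.VeB0 .sta)
    (e1s : Pool.VE16.VeB1 .sta)
    -- two contact coordinates, static target (helper6)
    {Adm Adm' : (ℕ → ℝ) → Pool.ALT.AltJ → PropW 4} {β β' : (ℕ → ℝ) → ℝ}
    (sA : ShA Adm β) (sB : PartW 1 (kg4 .one .thin .one .sta) NBt)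
    (s1 : Sh1 Adm' β') (s1B : PartW 1 (kg4 .one .thin .one .one) M1t) : KP 4 :=
  kp4_of36 (lCellB_of1 f1 f2 f3 cbN_stp) c11t c11s (Pool.SHE3.lCellA_1t1 hLA hSh).v.m
    (Pool.SHE3.lCellA_1s1 hLA hSh).v.m c1ts (c1st_of1 pST) (c1ss_of pSS)
    (lVo2_of_k hVo2) (lVoE_of_k hVoE)
    (lTv_of_k (Pool.VT83.pTwo_lt tF tFs tFp tL tLs tLp t0 t1 t0s t1s))
    (lTp2_of_k (Pool.VE16.pTwo_eq eF eFs eFp eL eLs eLp e0 e1 e0s e1s)) Pool.ONE72.one_loc
    (lBt5_of_k hB5) (lV0A_of1 sA) (lV0B_of_t sB) (lV01_of2 s1 s1B)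

end Pool.ASM
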