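import Pool.Agent.H56.ASM.Sk38
import Pool.Agent.H31.AVN.Pal

/-!
# The parts of `KP 4`, by the sheets of the owners

`kp4_parts4`: as `kp4_parts3`; the cell `[one, sta, thin]` is a theorem (helper31).
-/

set_option autoImplicit false

namespace Pool.ASM

open Pool.KA Pool.PKG

/-- **`KP 4` from the named parts** of the owners, by their sheets. -/
theorem kp4_parts4
    -- `[one, one]`, target steep (helper80)
    (f1 : CbF .stp (fun Sl => Sl 3 < Sl 2)) (f2 : CbF .stp (fun Sl => Sl 2 < Sl 3))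
    (f3 : CbF .stp (fun Sl => Sl 3 = Sl 2))
    -- the cells
    (c11t : LCellM 4 [Kd.one, Kd.one, Kd.thin]) (c11s : LCellM 4 [Kd.one, Kd.one, Kd.sta])
    (hLA : Pool.SHE3.LLeafA) (hSh : Pool.SHE3.LShe)
    (c1ts : LCellM 4 [Kd.one, Kd.thin, Kd.sta]) (pSS : PartSS)
    -- the thin windows, `a < b` and one coordinate of slope one
    (hVo2 : PTwo fun a b => a < b) (hVoE : POne fun a b => a < b) (hB5 : POne fun a b => a = b)
    -- the thin windows `b < a` (helper83)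
    (tF : Pool.VT83.VtF .thin) (tFs : Pool.VT83.VtF .sta) (tFp : Pool.VT83.VtF .stp)
    (tL : Pool.VT83.VtL .thin) (tLs : Pool.VT83.VtL .sta) (tLp : Pool.VT83.VtL .stp)
    (t0 : Pool.VT83.VtB0 .thin) (t1 : Pool.VT83.VtB1 .thin) (t0s : Pool.VT83.VtB0 .sta)
    (t1s : Pool.VT83.VtB1 .sta)
    -- the thin windows `a = b` over the pair (helper16)
    (eF : Pool.VE16.VeF .thin) (eFs : Pool.VE16.VeF .sta) (eFp : Pool.VE16.VeF .stp)
    (eL : Pool.VE16.VeL .thin) (eLs : Pool.VE16.VeL .sta) (eLp : Pool.VE16.VeL .stp)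
    (e0 : Pool.VE16.VeB0 .thin) (e1 : Pool.VE16.VeB1 .thin) (e0s : Pool.VE16.VeB0 .sta)
    (e1s : Pool.VE16.VeB1 .sta)
    -- two contact coordinates, static target (helper6)
    {Adm Adm' : (ℕ → ℝ) → Pool.ALT.AltJ → PropW 4} {β β' : (ℕ → ℝ) → ℝ}
    (sA : ShA Adm β) (sB : PartW 1 (kg4 .one .thin .one .sta) NBt)
    (s1 : Sh1 Adm' β') (s1B : PartW 1 (kg4 .one .thin .one .one) M1t) : KP 4 :=
  kp4_parts3 f1 f2 f3 c11t c11s hLA hSh c1ts partST_all pSS hVo2 hVoE hB5 tF tFs tFp tL tLs tLp t0 t1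
    t0s t1s eF eFs eFp eL eLs eLp e0 e1 e0s e1s sA sB s1 s1B

end Pool.ASM
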