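import Pool.Agent.H56.ASM.Sk3
import Pool.Agent.H66.D2.Two

/-!
# The parts of `KP 4`, fourth form

(D2) is reduced to the cells at the windows where they are used: `CellX`, `TwoX`: the cell and the
statement for one place, at the windows with the property `X`. `GainW`: the target has macroscopic
gain over the fattest boxes, or it is static. `TieW`: a coordinate of the base has the slope of the
target. `LCell n κ`, `LCellT n κ`: the cells, all classes. `kp4_of4`: `KP 4` from its parts.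
-/

set_option autoImplicit false

namespace Pool.ASM

open MeasureTheory Set Filter Topology
open Pool.Agent.H49.Ent Pool.Agent.H32.Dense Pool.STK Pool.KA Pool.KSAT Pool.K2S Pool.PB
open Pool.GEN Pool.S6C Pool.GRW Pool.PKG Pool.STAT Pool.PM Pool.R1 Pool.Z4
open Pool.ONE (LocE Ext0 Ext)
open Pool.TOP (TopS)
open Pool.LEV (Law Lv)
open Pool.STR (TopW Mac StaAt IsoAt StaU1 ThinAt SteepAt)

/-- A finite number of statements. -/
theorem Tol.fin {ι : Type*} [Finite ι] {Q : ι → (ℝ → ℝ) → Prop} (h : ∀ x, Tol (Q x)) :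
    Tol fun η => ∀ x, Q x η := by
  classical
  choose η₀ h1 h2 using h
  have h3 : ∀ D : ℝ, 0 < D → ∃ y : ℝ, 0 < y ∧ ∀ x, y ≤ η₀ x D := fun D hD => by
    rcases isEmpty_or_nonempty ι with he | he
    · exact ⟨1, one_pos, fun x => he.elim x⟩
    · obtain ⟨x₀, hx⟩ := Finite.exists_min fun x => η₀ x D
      exact ⟨η₀ x₀ D, h1 x₀ D hD, hx⟩
  choose! y h4 h5 using h3
  exact ⟨y, h4, fun η hη x => h2 x η fun D hD => ⟨(hη D hD).1, (hη D hD).2.trans (h5 D hD x)⟩⟩

variable {n : ℕ} {hn : 2 ≤ n} {S : PCl n} {P : ℝ → ℝ → ℝ} {r : ℝ → ℝ}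
  {P' : ℕ → List (Fin n) × Fin n → ℝ → ℝ → ℝ} {Λ : Finset (Fin n) → Fin n → ℝ → ℝ → ℝ}
  {PB : ℕ → List (Fin n) × Fin n → ℝ → ℝ → ℝ}

/-- **The windows with gain of the target.** -/
def GainW (hn : 2 ≤ n) (P : ℝ → ℝ → ℝ) (PB : ℕ → List (Fin n) × Fin n → ℝ → ℝ → ℝ) (o : Od n)
    (g : ℝ) : Prop :=
  Mac (PT hn PB o) g ∨ StaAt P g ∧ 1 < deriv (fun a => P a a) g

/-- **The windows with a tie.** -/
def TieW (hn : 2 ≤ n) (P : ℝ → ℝ → ℝ) (P' : ℕ → List (Fin n) × Fin n → ℝ → ℝ → ℝ) (o : Od n)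
    (g : ℝ) : Prop :=
  1 < deriv (fun a => P a a) g ∧ ∃ l, 1 ≤ l ∧ l < n - 1 ∧
    deriv (fun a => LL hn P P' o (l + 1) a a) g = deriv (fun a => P a a) g

/-- **A cell of (D2)** at the windows with `X`. -/
def CellX (H : PkT hn S P r P' Λ PB) (hTop : TopS n) (hF : FZX (n - 1)) (h : ℝ)
    (X : Od n → ℝ → Prop) (κ : List Kd) : Prop :=
  ∀ o : Od n, ∀ᵐ g : ℝ, RwH H hTop hF h o g → X o g → (∀ l < κ.length, ThS hn P P' PB o l g) →
    (∀ (l : ℕ) (hl : l < κ.length), KdAt hn P P' PB o l g κ[l]) →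
    2 < deriv (fun a => LvL hn P P' o κ.length a a) g → SteepAt 2 (LvT hn PB o κ.length) g →
    StaAt (LvL hn P P' o κ.length) g

/-- **(D2) at the place `i`** at the windows with `X`. -/
def TwoX (H : PkT hn S P r P' Λ PB) (hTop : TopS n) (hF : FZX (n - 1)) (h : ℝ)
    (X : Od n → ℝ → Prop) (i : ℕ) : Prop :=
  ∀ o : Od n, ∀ᵐ g : ℝ, RwH H hTop hF h o g → X o g → (∀ l < i, ThS hn P P' PB o l g) →
    2 < deriv (fun a => LvL hn P P' o i a a) g → SteepAt 2 (LvT hn PB o i) g →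
    StaAt (LvL hn P P' o i) g

theorem CellX.of {H : PkT hn S P r P' Λ PB} {hTop : TopS n} {hF : FZX (n - 1)} {h : ℝ}
    {κ : List Kd} (hC : Cell H hTop hF h κ) (X : Od n → ℝ → Prop) : CellX H hTop hF h X κ :=
  fun o => (hC o).mono fun _ h R _ => h R

theorem CellX.mono {H : PkT hn S P r P' Λ PB} {hTop : TopS n} {hF : FZX (n - 1)} {h : ℝ}
    {κ : List Kd} {X X' : Od n → ℝ → Prop} (hC : CellX H hTop hF h X κ)
    (hX : ∀ o g, X' o g → X o g) : CellX H hTop hF h X' κ :=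
  fun o => (hC o).mono fun _ h R hx => h R (hX _ _ hx)

theorem CellX.use {H : PkT hn S P r P' Λ PB} {hTop : TopS n} {hF : FZX (n - 1)} {h : ℝ}
    {X : Od n → ℝ → Prop} {κ : List Kd} {i : ℕ} (hC : CellX H hTop hF h X κ)
    (hi : κ.length = i) {f : ℕ → Kd} (hf : ∀ (l : ℕ) (hl : l < κ.length), κ[l] = f l) (o : Od n) :
    ∀ᵐ g : ℝ, RwH H hTop hF h o g → X o g → (∀ l < i, ThS hn P P' PB o l g) →
      (∀ l < i, KdAt hn P P' PB o l g (f l)) → 2 < deriv (fun a => LvL hn P P' o i a a) g →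
      SteepAt 2 (LvT hn PB o i) g → StaAt (LvL hn P P' o i) g := by
  subst hi
  filter_upwards [hC o] with g k1 R hx hl hk hs hst
  exact k1 R hx hl (fun l hl' => by
    rw [hf l hl']
    exact hk l hl') hs hst

theorem kd_fin : Finite Kd := by
  refine Finite.of_injective (fun k : Kd => match k with
    | .one => (0 : Fin 3) | .thin => 1 | .sta => 2) ?_
  intro a b hab
  cases a <;> cases b <;> simp_all

/-- **(D2) at the place `i`** from the cells of length `i` whose first kind is `one`. -/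
theorem twoX_of (H : PkT hn S P r P' Λ PB) (hTop : TopS n) (hF : FZX (n - 1)) {h : ℝ}
    {X : Od n → ℝ → Prop} {i : ℕ} (hi : 1 ≤ i) (hin : i ≤ n - 1)
    (hC : ∀ κ : List Kd, κ.length + 1 = i → CellX H hTop hF h X (Kd.one :: κ)) :
    TwoX H hTop hF h X i := by
  intro o
  have hK := kd_fin
  have hcount : Countable {κ : List Kd // κ.length + 1 = i} := by
    have : Countable Kd := Finite.to_countable
    infer_instance
  have hall : ∀ᵐ g : ℝ, ∀ κ : {κ : List Kd // κ.length + 1 = i}, RwH H hTop hF h o g → X o g →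
      (∀ l < i, ThS hn P P' PB o l g) →
      (∀ l < i, KdAt hn P P' PB o l g ((Kd.one :: κ.1).getD l .one)) →
      2 < deriv (fun a => LvL hn P P' o i a a) g → SteepAt 2 (LvT hn PB o i) g →
      StaAt (LvL hn P P' o i) g := by
    refine ae_all_iff.2 fun κ => ?_
    refine (hC κ.1 κ.2).use (f := fun l => (Kd.one :: κ.1).getD l .one) ?_ ?_ o
    · rw [List.length_cons]
      exact κ.2
    · intro l hl
      exact (List.getD_eq_getElem _ _ hl).symm
  filter_upwards [hall, kd_ae H hTop hF, one_zero H hTop hF o] with g k1 k2 k3 R hx hl hs hst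
  have h4 : ∀ l, ∃ k : Kd, l < i → KdAt hn P P' PB o l g k := fun l => by
    by_cases h5 : l < i
    · obtain ⟨k, hk⟩ := k2 o R.rwd.mem i hin hl l h5
      exact ⟨k, fun _ => hk⟩
    · exact ⟨.one, fun h6 => absurd h6 h5⟩
  choose f hf using h4
  refine k1 ⟨List.ofFn fun l : Fin (i - 1) => f (l + 1), by
    rw [List.length_ofFn]
    omega⟩ R hx hl (fun l hli => ?_) hs hst
  rcases Nat.eq_zero_or_pos l with h5 | h5
  · rw [h5]
    exact k3 R.rwd.mem
  · obtain ⟨j, rfl⟩ : ∃ j, l = j + 1 := ⟨l - 1, by omega⟩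
    have h6 : ((Kd.one :: List.ofFn fun l : Fin (i - 1) => f (l + 1)).getD (j + 1) .one) =
        f (j + 1) := by
      rw [List.getD_cons_succ, List.getD_eq_getElem _ _ (by rw [List.length_ofFn]; omega),
        List.getElem_ofFn]
    rw [h6]
    exact hf (j + 1) hli

/-- **(D2) for the coordinates of the base** from (D2) at the places. -/
theorem TwoX.big {H : PkT hn S P r P' Λ PB} {hTop : TopS n} {hF : FZX (n - 1)} {h : ℝ}
    {X : Od n → ℝ → Prop} (hT : ∀ i, 1 ≤ i → i < n - 1 → TwoX H hTop hF h X i) (o : Od n) :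
    ∀ᵐ g : ℝ, RwH H hTop hF h o g → X o g → BigS hn P P' PB o g := by
  have h1 : ∀ i : ℕ, ∀ᵐ g : ℝ, RwH H hTop hF h o g → X o g → 1 ≤ i → i < n - 1 →
      (∀ l < i, ThS hn P P' PB o l g) → 2 < deriv (fun a => LL hn P P' o (i + 1) a a) g →
      SteepAt 2 (LvT hn PB o i) g → StaAt (LL hn P P' o (i + 1)) g := fun i => by
    by_cases hi : 1 ≤ i ∧ i < n - 1
    swap
    · exact Eventually.of_forall fun g _ _ k1 k2 => absurd ⟨k1, k2⟩ hi
    filter_upwards [hT i hi.1 hi.2 o] with g k R hx _ _ hl hs hst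
    have e1 : LvL hn P P' o i = LL hn P P' o (i + 1) := Pool.Z4.lvL_eq o (by omega)
    rw [e1] at k
    exact k R hx hl hs hst
  filter_upwards [ae_all_iff.2 h1] with g k R hx i
  exact k i R hx

/-- **The cell `κ` of (D2)** at the windows with gain, all classes. -/
def LCell (n : ℕ) (κ : List Kd) : Prop := (∀ k, 2 ≤ k → k < n → Ext0 k) →
  Tol fun η => AllC n η fun {hn} {_} {P} {_} {_} {_} {PB} H hTop hF h =>
    CellX H hTop hF h (GainW hn P PB) κ

/-- **The cell `κ` of (D2)** at the windows with a tie, all classes. -/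
def LCellT (n : ℕ) (κ : List Kd) : Prop := (∀ k, 2 ≤ k → k < n → Ext0 k) →
  Tol fun η => AllC n η fun {hn} {_} {P} {_} {P'} {_} {_} H hTop hF h =>
    CellX H hTop hF h (TieW hn P P') κ

/-- The finite set of the cells. -/
theorem cells_fin (m : ℕ) : Finite {κ : List Kd // κ.length + 2 ≤ m} := by
  have hK := kd_fin
  refine Set.Finite.to_subtype ((List.finite_length_le Kd m).subset fun κ hκ => ?_)
  have h1 : κ.length + 2 ≤ m := hκ
  show κ.length ≤ m
  omega

/-- (D2) for all places, from the cells. -/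
theorem two_of_cells {n : ℕ} (hC : ∀ κ : List Kd, κ.length + 2 ≤ n → LCell n (Kd.one :: κ))
    (hi : ∀ k, 2 ≤ k → k < n → Ext0 k) :
    Tol fun η => AllC n η fun {hn} {_} {P} {_} {_} {_} {PB} H hTop hF h =>
      ∀ i, 1 ≤ i → i ≤ n - 1 → TwoX H hTop hF h (GainW hn P PB) i := by
  have hfin := cells_fin n
  refine (Tol.fin fun κ : {κ : List Kd // κ.length + 2 ≤ n} => hC κ.1 κ.2 hi).mono fun η h => ?_
  intro hn hZ hF hTop D hD hD1 hE S P r P' Λ PB H i h1 h2
  exact twoX_of H hTop hF h1 h2 fun κ hκ =>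
    h ⟨κ, by omega⟩ hn hZ hF hTop D hD hD1 hE S P r P' Λ PB H

theorem lBase_of {n : ℕ} (hC : ∀ κ : List Kd, κ.length + 2 ≤ n → LCell n (Kd.one :: κ)) :
    LBase n := fun hi => by
  refine (two_of_cells hC hi).mono fun η h => ?_
  intro hn hZ hF hTop D hD hD1 hE S P r P' Λ PB H o
  exact TwoX.big (fun i h1 h2 => h hn hZ hF hTop D hD hD1 hE S P r P' Λ PB H i h1 (by omega)) o

theorem lTwoS_of {n : ℕ} (hC : ∀ κ : List Kd, κ.length + 2 ≤ n → LCell n (Kd.one :: κ)) :
    LTwoS n := fun hi => by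
  refine (two_of_cells hC hi).mono fun η h => ?_
  intro hn hZ hF hTop D hD hD1 hE S P r P' Λ PB H o
  filter_upwards [h hn hZ hF hTop D hD hD1 hE S P r P' Λ PB H (n - 1) (by omega) le_rfl o]
    with g k1 R hs hl hst hM
  have eL : LvL hn P P' o (n - 1) = P := by
    funext a w
    exact LvL_top o a w
  rw [eL, LvT_top] at k1
  exact Or.inr (k1 R (Or.inl hM) hl hs hst)

/-- (D2) for the coordinates of the base at the ties, from the cells. -/
theorem lBaseT_of {n : ℕ} (hC : ∀ κ : List Kd, κ.length + 3 ≤ n → LCellT n (Kd.one :: κ)) :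
    LBaseT n := fun hi => by
  have hK := kd_fin
  have hfin : Finite {κ : List Kd // κ.length + 3 ≤ n} := by
    refine Set.Finite.to_subtype ((List.finite_length_le Kd n).subset fun κ hκ => ?_)
    have h1 : κ.length + 3 ≤ n := hκ
    show κ.length ≤ n
    omega
  refine (Tol.fin fun κ : {κ : List Kd // κ.length + 3 ≤ n} => hC κ.1 κ.2 hi).mono fun η h => ?_
  intro hn hZ hF hTop D hD hD1 hE S P r P' Λ PB H o
  filter_upwards [TwoX.big (X := TieW hn P P') (fun i h1 h2 =>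
    twoX_of H hTop hF h1 (by omega) fun κ hκ =>
      h ⟨κ, by omega⟩ hn hZ hF hTop D hD hD1 hE S P r P' Λ PB H) o] with g k1 R hS ht
  exact k1 R ⟨hS, ht⟩

/-- **`KP 4` from its parts**, fourth form. -/
theorem kp4_of4
    (hC : ∀ n, 2 ≤ n → n ≤ 4 → ∀ κ : List Kd, κ.length + 2 ≤ n → LCell n (Kd.one :: κ))
    (hBs : ∀ n, 2 ≤ n → n ≤ 4 → LBs n) (hEx : ∀ n, 2 ≤ n → n ≤ 4 → LExc n)
    (hMX : ∀ n, 3 ≤ n → n ≤ 4 → LMevX n) (hHc : ∀ n, 3 ≤ n → n ≤ 4 → LHc n) : KP 4 :=
  kp4_of2 (lBase_of (hC 3 (by norm_num) (by norm_num))) (lBase_of (hC 4 (by norm_num) le_rfl))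
    (fun n h1 h2 => lTwoS_of (hC n h1 h2)) hBs hEx hMX hHc

end Pool.ASM
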