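import Pool.Agent.H56.ASM.Sk40
import Pool.Agent.H73.D2.Tti
import Pool.Agent.H73.D2.Tvl
import Pool.Agent.H77.STB.Nn7
import Pool.Agent.H37.STA.Rdf
import Pool.Agent.H90.STV.Tnp

/-!
# The parts of `KP 4`: the cells `one, one, thin` and `one, one, sta` from their parts

`CbF.mono`, `F1TP.mono`, `BxTP.mono`: ranges of the slopes. `c1_of`: the class theorem of the last coordinate,
`u` thin, the slopes different. `c4_of`: `u` static. `kp4_parts6`: as `kp4_parts5`.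
-/

set_option autoImplicit false

namespace Pool.ASM

open Pool.GEN Pool.PKG Pool.KA Pool.ALT
open Pool.LA91 (FaQ sumQ HerQ her_sum her_fa aePG_fa aePG_sum)

variable {k : Kg} {Φ Φ' Ψ : (ℕ → ℝ) → Prop}

/-- A smaller range of the slopes. -/
theorem CbF.mono (H : CbF k Φ) (h : ∀ Sl, Ψ Sl → Φ Sl) : CbF k Ψ := by
  obtain ⟨ι, hι, Q, h1, h2, H⟩ := H
  exact ⟨ι, hι, Q, h1, h2, fun h' h0 h1' Sl hS hΨ => H h' h0 h1' Sl hS (h Sl hΨ)⟩

/-- A smaller range of the slopes. -/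
theorem F1TP.mono {Λ : Type} {Z : (ℕ → ℝ) → PropZ 4 Λ} (H : F1TP k Φ Z) (h : ∀ Sl, Ψ Sl → Φ Sl) :
    F1TP k Ψ Z := by
  obtain ⟨ι, hι, Q, h1, h2, H⟩ := H
  exact ⟨ι, hι, Q, h1, h2, fun h' h0 h1' Sl hS hΨ => H h' h0 h1' Sl hS (h Sl hΨ)⟩

/-- **The last coordinate has no drop**, `u` thin, the slopes different. -/
theorem c1_of (g1 : CbF .thin (fun Sl => Sl 3 < Sl 2)) (g2 : CbF .thin (fun Sl => Sl 2 < Sl 3))
    (hV : VlTP .thin (fun Sl => Sl 2 + 1 ≤ Sl 3) FulB) :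
    CelTP .thin (fun Sl => Sl 2 ≠ Sl 3) FulB := by
  have h1 : CelTP .thin (fun Sl => Sl 3 < Sl 2) FulB :=
    celT_near (fun Sl h => ⟨h.ne', by linarith⟩) g1
  have h2 : CelTP .thin (fun Sl => Sl 2 < Sl 3 ∧ Sl 3 < Sl 2 + 1) FulB :=
    celT_near (fun Sl h => ⟨h.1.ne, h.2⟩) (g2.mono fun Sl h => h.1)
  have h3 : CelTP .thin (fun Sl => Sl 2 + 1 ≤ Sl 3) FulB :=
    celT_vl (fun Sl h => by linarith) (g2.mono fun Sl h => by linarith) hV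
  refine (h1.or h2 (Ψ := fun Sl => Sl 2 ≠ Sl 3 ∧ Sl 3 < Sl 2 + 1) fun Sl h => ?_).or h3
    fun Sl h => ?_
  · rcases lt_or_gt_of_ne h.1 with h' | h'
    · exact Or.inr ⟨h', h.2⟩
    · exact Or.inl h'
  · rcases lt_or_ge (Sl 3) (Sl 2 + 1) with h' | h'
    · exact Or.inl ⟨h, h'⟩
    · exact Or.inr h'

/-- **A static place over two places of slope one, its slope an integer at least three**, from its first
jet. -/
theorem celS_int (hΦ : ∀ Sl, Φ Sl → ∃ b : ℕ, 3 ≤ b ∧ Sl 2 = b) (hF : F1TP .sta Φ FulB) :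
    CelTP .sta Φ FulB := by
  obtain ⟨ι, hι, Q, h1, h2, H⟩ := hF
  refine ⟨ι ⊕ (ℕ × ℕ × ℚ × ℚ), inferInstance, sumQ Q FaQ, aePG_sum h1 h2 (aePG_fa 4),
    her_sum h2 (her_fa 4), fun h h0 h1' Sl hS hΨ => ?_⟩
  obtain ⟨b, hb, hb2⟩ := hΦ Sl hΨ
  exact (Pool.STA37.sta_f1s (m := 4) le_rfl hb rfl rfl rfl hb2 (H h h0 h1' Sl hS hΨ)).cel 3

/-- `u` static, its slope no integer. -/
theorem celS_nni : CelTP .sta (fun Sl => ∀ b : ℕ, Sl 2 ≠ b) FulB :=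
  ⟨ℕ × ℕ × ℚ × ℚ, inferInstance, FaQ, aePG_fa 4, her_fa 4, fun h _ _ Sl _ hΦ =>
    haveI : Nonempty (PosR × ℕ) := ⟨(⟨1, one_pos⟩, 0)⟩
    ((Pool.STB77.nni_void (n := 4) (h := h) (Sl := Sl) (κ := kg4 .one .one .sta .stp) (by norm_num)
      rfl rfl hΦ).z _ _).cel 3⟩

/-- **The last coordinate has no drop**, `u` static. -/
theorem c4_of (s1 : F1TP .sta (fun Sl => Sl 3 < Sl 2) FulB)
    (s2 : F1TP .sta (fun Sl => Sl 3 = Sl 2) FulB) (s3 : F1TP .sta (fun Sl => Sl 2 < Sl 3) FulB)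
    (s4 : BxTP .sta (fun Sl => Sl 2 = 2) FulB) : CelTP .sta (fun _ => True) FulB := by
  have h0 : CelTP .sta (fun Sl => SlB .sta Sl ∧ Sl 2 = 2) FulB := by
    refine celT_u (Or.inr rfl) (vbTP_of ?_ ?_ fun Sl h => by linarith [h.sta rfl])
    · refine s3.mono fun Sl h => ?_
      have := h.1.s3
      linarith [h.2]
    · obtain ⟨ι, hι, Q, h1, h2, H⟩ := s4
      exact ⟨ι, hι, Q, h1, h2, fun h' h0 h1' Sl hS hΨ => H h' h0 h1' Sl hS hΨ.2⟩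
  have h0' : CelTP .sta (fun Sl => Sl 2 = 2) FulB := by
    obtain ⟨ι, hι, Q, h1, h2, H⟩ := h0
    exact ⟨ι, hι, Q, h1, h2, fun h' h0 h1' Sl hS hΨ => H h' h0 h1' Sl hS ⟨hS, hΨ⟩⟩
  obtain ⟨I, hI⟩ : ∃ I : (ℕ → ℝ) → Prop, I = fun Sl : ℕ → ℝ => ∃ b : ℕ, 3 ≤ b ∧ Sl 2 = (b : ℝ) :=
    ⟨_, rfl⟩
  have hII : ∀ Sl, I Sl → ∃ b : ℕ, 3 ≤ b ∧ Sl 2 = b := fun Sl h => by rw [hI] at h; exact h
  have h1 := celS_int (Φ := fun Sl => Sl 3 < Sl 2 ∧ I Sl) (fun Sl h => hII Sl h.2) (s1.mono fun Sl h => h.1)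
  have h2 := celS_int (Φ := fun Sl => Sl 3 = Sl 2 ∧ I Sl) (fun Sl h => hII Sl h.2) (s2.mono fun Sl h => h.1)
  have h3 := celS_int (Φ := fun Sl => Sl 2 < Sl 3 ∧ I Sl) (fun Sl h => hII Sl h.2) (s3.mono fun Sl h => h.1)
  have h4 : CelTP .sta I FulB := by
    refine (h1.or h2 (Ψ := fun Sl => Sl 3 ≤ Sl 2 ∧ I Sl) fun Sl h => ?_).or h3 fun Sl h => ?_
    · rcases h.1.lt_or_eq with h' | h'
      · exact Or.inl ⟨h', h.2⟩
      · exact Or.inr ⟨h', h.2⟩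
    · rcases le_or_gt (Sl 3) (Sl 2) with h' | h'
      · exact Or.inl ⟨h', h⟩
      · exact Or.inr ⟨h', h⟩
  have h5 : CelTP .sta (fun Sl => SlB .sta Sl ∧ ∃ b : ℕ, Sl 2 = b) FulB := by
    refine h0'.or h4 fun Sl h => ?_
    obtain ⟨hB, b, hb⟩ := h
    have h6 := hB.sta rfl
    rw [hb] at h6
    have h7 : 2 ≤ b := by exact_mod_cast h6
    rcases h7.eq_or_lt with h8 | h8
    · exact Or.inl (by rw [hb, ← h8]; norm_num)
    · exact Or.inr (by rw [hI]; exact ⟨b, h8, hb⟩)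
  have h6 : CelTP .sta (fun Sl => SlB .sta Sl) FulB := by
    refine h5.or celS_nni fun Sl h => ?_
    by_cases h' : ∃ b : ℕ, Sl 2 = b
    · exact Or.inl ⟨h, h'⟩
    · exact Or.inr fun b hb => h' ⟨b, hb⟩
  obtain ⟨ι, hι, Q, h1, h2, H⟩ := h6
  exact ⟨ι, hι, Q, h1, h2, fun h' h0 h1' Sl hS _ => H h' h0 h1' Sl hS hS⟩

/-- **`KP 4` from the named parts** of the owners, by their sheets. -/
theorem kp4_parts6
    -- `[one, one]`, the first jet of `u`: target steep, thin, static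
    (f1 : CbF .stp (fun Sl => Sl 3 < Sl 2)) (f2 : CbF .stp (fun Sl => Sl 2 < Sl 3))
    (f3 : CbF .stp (fun Sl => Sl 3 = Sl 2))
    (g1 : CbF .thin (fun Sl => Sl 3 < Sl 2)) (g2 : CbF .thin (fun Sl => Sl 2 < Sl 3))
    (g3 : CbF .thin (fun Sl => Sl 2 = Sl 3))
    (s1 : F1TP .sta (fun Sl => Sl 3 < Sl 2) FulB) (s2 : F1TP .sta (fun Sl => Sl 3 = Sl 2) FulB)
    (s3 : F1TP .sta (fun Sl => Sl 2 < Sl 3) FulB)
    -- the slope of `N`
    (gV : VlTP .thin (fun Sl => Sl 2 + 1 ≤ Sl 3) FulB) (s4 : BxTP .sta (fun Sl => Sl 2 = 2) FulB)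
    (c3 : CbN .thin (fun Sl => Sl 2 = Sl 3))
    -- the cells over one place of slope one, the cell of two thin places
    (hLA : Pool.SHE3.LLeafA) (hT : Pool.SHE3.LSheT Pool.SHE3.SlTS)
    -- the thin windows, `a < b` (helper87) and one coordinate of slope one
    (wN : Pool.VT87.VwP Pool.VT87.RgN) (wI : Pool.VT87.VwP Pool.VT87.RgI)
    (wS : Pool.VT87.VwP Pool.VT87.RgS) (wB : Pool.VT87.VwP Pool.VT87.RgB)
    (hVoE : POne fun a b => a < b) (hB5 : POne fun a b => a = b)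
    -- the thin windows `b < a` (helper83)
    (tF : Pool.VT83.VtF .thin) (tFs : Pool.VT83.VtF .sta) (tFp : Pool.VT83.VtF .stp)
    (tL : Pool.VT83.VtL .thin) (tLs : Pool.VT83.VtL .sta) (tLp : Pool.VT83.VtL .stp)
    (t0 : Pool.VT83.VtB0 .thin) (t1 : Pool.VT83.VtB1 .thin) (t0s : Pool.VT83.VtB0 .sta)
    (t1s : Pool.VT83.VtB1 .sta)
    -- the thin windows `a = b` over the pair (helper16)
    (eF : Pool.VE16.VeF .thin) (eFs : Pool.VE16.VeF .sta) (eFp : Pool.VE16.VeF .stp)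
    (eL : Pool.VE16.VeL .thin) (eLs : Pool.VE16.VeL .sta) (eLp : Pool.VE16.VeL .stp)
    (e0 : Pool.VE16.VeB0 .thin) (e1 : Pool.VE16.VeB1 .thin) (e0s : Pool.VE16.VeB0 .sta)
    (e1s : Pool.VE16.VeB1 .sta)
    -- two contact coordinates, static target (helper6)
    {Adm Adm' : (ℕ → ℝ) → Pool.ALT.AltJ → PropW 4} {β β' : (ℕ → ℝ) → ℝ}
    (sA : ShA Adm β) (sB : PartW 1 (kg4 .one .thin .one .sta) NBt)
    (sh1 : Sh1 Adm' β') (s1B : PartW 1 (kg4 .one .thin .one .one) M1t) : KP 4 :=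
  kp4_parts5 f1 f2 f3 (c1_of g1 g2 gV) (celT_tieF g3) c3 (c4_of s1 s2 s3 s4) hLA hT wN wI wS wB
    hVoE hB5 tF tFs tFp tL tLs tLp t0 t1 t0s t1s eF eFs eFp eL eLs eLp e0 e1 e0s e1s sA sB sh1 s1B

end Pool.ASM
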