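import Pool.Agent.H56.ASM.Sk41
import Pool.Agent.H6.S1.Fla
import Pool.Agent.H18.PN.Res
import Pool.Agent.H18.PN.Rtp
import Pool.Agent.H19.TIE.Cbt
import Pool.Agent.H24.NV.Naf
import Pool.Agent.H33.SHE.Shu
import Pool.Agent.H33.SHV.Lvo
import Pool.Agent.H43.T4.T4c
import Pool.Agent.H65.VS.Prs
import Pool.Agent.H65.VS.Tbp
import Pool.Agent.H72.T4T.Img
import Pool.Agent.H73.D2.Svl
import Pool.Agent.H82.CRC.Cmt

/-!
# The parts of `KP 4`: the parts proved until the third day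

`ResP`: the first jet of the place 2 from a closed slope, the last slope larger; `ResS`: the same for a
static place 2. `f2_of`, `g2_of`: for the kinds steep and thin. `s4_of`: a static place of slope two.
`lV0A_of3`: the windows of a static target over two places of slope one. `pTwo_of`: `PTwo` from the
windows with a thin, static or steep place 2 and the windows with the labels of the place 2 over the
place 0. `kp4_parts7`: as `kp4_parts6`, with the parts which are theorems put in.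
-/

set_option autoImplicit false

namespace Pool.ASM

open Pool.GEN Pool.PKG Pool.KA Pool.ALT
open Pool.ONE (Ext0)
open Pool.VT87 (Nw2 RgN RgI RgS RgB)
open Pool.SHV33 (VdA)
open Pool.LA91 (FaQ sumQ HerQ her_sum her_fa aePG_fa aePG_sum)

variable {k : Kg} {Φ Φ' Ψ : (ℕ → ℝ) → Prop}

/-- `F1UD` with other names of the parameters of the property. -/
theorem _root_.Pool.PKG.F1UD.map {m r : ℕ} {h : ℝ} {Sl : ℕ → ℝ} {κ : ℕ → Kg} {ι ι' Λ : Type}
    {Q : PropG m ι} {Q' : PropG m ι'} {Z : PropZ m Λ} (H : F1UD m r h Sl κ Q Z) (f : ι → ι')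
    (hf : ∀ p, Q' (f p) = Q p) : F1UD m r h Sl κ Q' Z := by
  intro al hal K₀ hK₀ del hdel S₀ hS₀
  obtain ⟨Kr, Nr, Ar, Vr, h1, h2, H⟩ := H al hal K₀ hK₀ del hdel S₀ hS₀
  refine ⟨Kr, Nr, Ar, Vr, h1, h2, fun S₂ hS₂ dd hdd => ?_⟩
  obtain ⟨lam, kf, φ, h3, h4, K₁, Nv, Vv, h5, H⟩ := H S₂ hS₂ dd hdd
  refine ⟨lam, kf, φ, h3, h4, K₁, Nv, Vv, h5, fun K' hK' => ?_⟩
  obtain ⟨ε₀, hε₀, H⟩ := H K' hK'
  refine ⟨ε₀, hε₀, fun ε hε hεε S g₀ P θ P₂ θ₂ Eb e₂ c Pt rt L T G g hG hg hd hZ => ?_⟩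
  obtain ⟨p, M, B₀, B₁, hB, H⟩ := H ε hε hεε S g₀ P θ P₂ θ₂ Eb e₂ c Pt rt L T G g hG hg hd hZ
  refine ⟨fun k => f (p k), M, B₀, B₁, hB, fun k₀ hk₀ => ?_⟩
  simp only [hf] at hk₀ ⊢
  exact H k₀ hk₀

/-- **Both ranges** of the slopes. -/
theorem cbF_num (H : CbF k Φ) (H' : CbF k Φ') (h : ∀ Sl, Ψ Sl → Φ Sl ∨ Φ' Sl) : CbF k Ψ := by
  obtain ⟨ι, hι, Q, h1, h2, H⟩ := H
  obtain ⟨ι', hι', Q', h1', h2', H'⟩ := H'
  refine ⟨ι ⊕ ι', inferInstance, sumQ Q Q', aePG_sum h1 h2 h1', her_sum h2 h2',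
    fun h₁ h0 h1' Sl hS hΨ => ?_⟩
  rcases h Sl hΨ with hΦ | hΦ
  · exact (H h₁ h0 h1' Sl hS hΦ).map Sum.inl fun _ => rfl
  · exact (H' h₁ h0 h1' Sl hS hΦ).map Sum.inr fun _ => rfl

/-- **The first jet of the place 2** from the supply of the closed slope, the slope of the last
coordinate larger than the one of the place 2. -/
def ResP : Prop := ∀ k : Kg, k = .stp ∨ k = .thin → ∀ (Φ : (ℕ → ℝ) → Prop) (R₁ : (ℕ → ℝ) → ℝ),
  SupF k Φ R₁ → CbF k (fun Sl => Sl 2 < Sl 3 ∧ Φ Sl)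

/-- **The first jet of a static place 2** from the closed slope, the slope of the last coordinate
larger. -/
def ResS : Prop := BxTP .sta (fun Sl => Sl 2 < Sl 3) FulB → F1TP .sta (fun Sl => Sl 2 < Sl 3) FulB

/-- `u` steep. -/
theorem f2_of (H : ResP) : CbF .stp (fun Sl => Sl 2 < Sl 3) :=
  (H .stp (Or.inl rfl) _ _ Pool.CRC82.con_sup).mono fun _ h => ⟨h, h⟩

/-- `u` thin. -/
theorem g2_of (H : ResP) (hV : VlTP .thin (fun Sl => Sl 2 + 1 ≤ Sl 3) FulB) :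
    CbF .thin (fun Sl => Sl 2 < Sl 3) :=
  cbF_num cbF_thin_lt (H .thin (Or.inr rfl) _ _ (supF_vl hV)) fun Sl h => by
    rcases lt_or_ge (Sl 3) (Sl 2 + 1) with h' | h'
    · exact Or.inl ⟨h, h'⟩
    · exact Or.inr ⟨h, h'⟩

/-- `u` static of slope two: the last coordinate has a larger slope. -/
theorem s4_of (H : BxTP .sta (fun Sl => Sl 2 < Sl 3) FulB) : BxTP .sta (fun Sl => Sl 2 = 2) FulB := by
  obtain ⟨ι, hι, Q, h1, h2, H⟩ := H
  refine ⟨ι, hι, Q, h1, h2, fun h' h0 h1' Sl hS hΨ => H h' h0 h1' Sl hS ?_⟩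
  have h3 : Sl 2 = 2 := hΨ
  show Sl 2 < Sl 3
  rw [h3]
  exact hS.s3

/-- **The windows of a static target over two places of slope one**, from the open parts. -/
theorem lV0A_of3
    (sA : PartA 2 (kg4 .one .one .stp .sta) (fun Sl => NAs Sl ∧ Sl 2 ≤ Sl 3) (fun _ => AdmL 4)
      (fun Sl => Sl 3 * Real.log 2))
    (tA1 : PartV (kg4 .one .one .thin .sta) (fun Sl => NAt Sl ∧ Sl 2 < Sl 3) (fun _ => AdmL 4)
      (fun Sl => Sl 3 * Real.log 2))
    (tA2 : PartV (kg4 .one .one .thin .sta) (fun Sl => NAt Sl ∧ Sl 2 = Sl 3) (fun _ => AdmL 4)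
      (fun Sl => Sl 3 * Real.log 2))
    (tA3 : PartV (kg4 .one .one .thin .sta) (fun Sl => NAt Sl ∧ Sl 3 < Sl 2) (fun _ => AdmL 4)
      (fun Sl => Sl 3 * Real.log 2))
    (tB2 : PartB (kg4 .one .one .thin .sta) (fun Sl => NAt Sl ∧ Sl 2 = Sl 3) (fun _ => AdmL 4)
      (fun Sl => Sl 3 * Real.log 2)) : LV0A 4 := by
  have hκ : ∀ l < 2, kg4 .one .one .stp .sta l = .one := fun l hl => by
    interval_cases l <;> rfl
  have h1 : PartA 2 (kg4 .one .one .stp .sta) (fun Sl => NAs Sl ∧ Sl 3 < Sl 2) (fun _ => AdmL 4)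
      (fun Sl => Sl 3 * Real.log 2) :=
    Pool.S16.partA_mono (Pool.S16.partA_ba hκ) fun Sl h => ⟨by linarith [h.1.2.2.1],
      by linarith [h.1.2.2.2], h.2⟩
  refine lV0A_of_w ?_ ?_
  · refine CasP.rt (fun _ => AdmL 4) (fun Sl => Sl 3 * Real.log 2)
      ((CasP.num (sA.cas (by norm_num) (by norm_num) hκ rfl fun Sl hS => hS.1.2.2.1)
        (h1.cas (by norm_num) (by norm_num) hκ rfl fun Sl hS => hS.1.2.2.1)).mono
          fun Sl hS => ?_) ?_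
    · rcases le_or_gt (Sl 2) (Sl 3) with h | h
      · exact Or.inl ⟨hS, h⟩
      · exact Or.inr ⟨hS, h⟩
    refine (CasP.num Pool.STB65.shA_sB'.cas (Pool.STB65.shA_sC'.cas (by norm_num) (by norm_num) hκ
      rfl fun Sl hS => hS.1.2.2.1)).mono fun Sl hS => ?_
    rcases lt_or_ge (Sl 2) (Sl 3) with h | h
    · exact Or.inl ⟨hS, h⟩
    · exact Or.inr ⟨hS, h⟩
  · refine ((tA1.w Pool.STB65.shA_tB1').num (tA2.w tB2) fun _ h => h).num
      (tA3.w Pool.STB65.shA_tB3') fun Sl hS => ?_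
    rcases lt_trichotomy (Sl 2) (Sl 3) with h | h | h
    · exact Or.inl (Or.inl ⟨hS, h⟩)
    · exact Or.inl (Or.inr ⟨hS, h⟩)
    · exact Or.inr ⟨hS, h⟩

/-- Fewer numbers. -/
theorem Nm2.tr {l j : ℕ} {R : ℝ → ℝ → Prop} {k : Kg} {Sl : ℕ → ℝ}
    (h : Nm2 l j R k Sl) : Nm2 l j (fun _ _ => True) k Sl :=
  ⟨h.s0, h.sj, h.sl, h.s3, trivial, h.sta, h.stp⟩

/-- **The parts at two contact coordinates** from the void windows of the place 2 and the windows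
with the labels of the place 2 over the place 0. -/
theorem pTwo_of {R : ℝ → ℝ → Prop}
    (t2 : VdP (kg4 .one .one .thin .thin) (Nm2 2 1 R .thin))
    (s2 : VdP (kg4 .one .one .sta .thin) (Nm2 2 1 R .sta))
    (p2 : VdP (kg4 .one .one .stp .thin) (Nm2 2 1 R .stp))
    (vT : VdA (kg4 .one .thin .one .thin) (Nm2 1 2 (fun _ _ => True) .thin))
    (vS : VdA (kg4 .one .sta .one .thin) (Nm2 1 2 (fun _ _ => True) .sta))
    (hi : ∀ k, 2 ≤ k → k < 4 → Ext0 k) : PTwo R :=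
  Pool.SHV33.pTwo_she hi t2 s2 p2 (vT.mono fun _ h => h.tr) (vS.mono fun _ h => h.tr)

/-- The place 2 below the target: void windows for the numbers in `Φ`, all kinds. -/
def VwT (Φ : ℝ → ℝ → Prop) : Prop :=
  ∀ k : Kg, k = .thin ∨ k = .sta ∨ k = .stp → CavP 4 (Nw2 Φ k) (TruW 4)

theorem VwT.num {Φ Φ' : ℝ → ℝ → Prop} (H : VwT Φ) (H' : VwT Φ') : VwT fun s σ => Φ s σ ∨ Φ' s σ :=
  fun k hk => ((H k hk).num (H' k hk)).mono fun _ _ hx => by
    obtain ⟨h1, h2, h3, h4, h5, h6⟩ := hx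
    rcases h6 with h6 | h6
    · exact Or.inl ⟨h1, h2, h3, h4, h5, h6⟩
    · exact Or.inr ⟨h1, h2, h3, h4, h5, h6⟩

theorem VwT.vd (hN : VwT RgN) (hI : VwT RgI) (hS : VwT RgS) (hB : VwT RgB) {k : Kg}
    (hk : k = .thin ∨ k = .sta ∨ k = .stp) :
    VdP (kg4 .one .one k .thin) (Nm2 2 1 (fun a b => a < b) k) :=
  Pool.VT83.cavP_vd ((((hN.num hI).num hS).num hB) k hk) fun _ h =>
    ⟨⟨rfl, h.s0, h.sj, h.sl, h.rel, Pool.VT87.rg_all _ _⟩, Pool.VT83.nm2_kgt hk h⟩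

/-- **`KP 4` from the named parts** of the owners, those which are theorems put in. -/
theorem kp4_parts7
    -- `[one, one]`: the first jet of `u` (helper99); tie: steep, thin, static (helper63)
    (r1 : ResP) (r2 : ResS) (f3 : CbF .stp (fun Sl => Sl 3 = Sl 2))
    (g3 : CbF .thin (fun Sl => Sl 2 = Sl 3)) (s2 : F1TP .sta (fun Sl => Sl 3 = Sl 2) FulB)
    -- the slope of `N`: `u` thin, `u` static
    (gV : VlTP .thin (fun Sl => Sl 2 + 1 ≤ Sl 3) FulB) (s4 : BxTP .sta (fun Sl => Sl 2 < Sl 3) FulB)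
    -- the cells over one place of slope one
    (hLA : Pool.SHE3.LLeafA)
    -- the thin windows, `a < b` (helper87) and one coordinate of slope one
    (wN : VwT RgN) (wI : VwT RgI) (wS : VwT RgS) (wB : VwT RgB) (hVoE : POne fun a b => a < b)
    -- the thin windows `b < a` (helper83)
    (tF : Pool.VT83.VtF .thin) (tFs : Pool.VT83.VtF .sta) (tFp : Pool.VT83.VtF .stp)
    (tL : Pool.VT83.VtL .thin) (tLs : Pool.VT83.VtL .sta) (tLp : Pool.VT83.VtL .stp)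
    -- the thin windows `a = b` over the pair (helper16)
    (eF : Pool.VE16.VeF .thin) (eFs : Pool.VE16.VeF .sta) (eFp : Pool.VE16.VeF .stp)
    (eL : Pool.VE16.VeL .thin) (eLs : Pool.VE16.VeL .sta) (eLp : Pool.VE16.VeL .stp)
    -- the windows with the labels of the place 2 over the place 0 (helper33)
    (vT : VdA (kg4 .one .thin .one .thin) (Nm2 1 2 (fun _ _ => True) .thin))
    (vS : VdA (kg4 .one .sta .one .thin) (Nm2 1 2 (fun _ _ => True) .sta))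
    (vA : VdA (kg4 .one .thin .one .sta) NBt) (v1 : VdA (kg4 .one .thin .one .one) M1t)
    -- two contact coordinates, static target
    (sA : PartA 2 (kg4 .one .one .stp .sta) (fun Sl => NAs Sl ∧ Sl 2 ≤ Sl 3) (fun _ => AdmL 4)
      (fun Sl => Sl 3 * Real.log 2))
    (tA1 : PartV (kg4 .one .one .thin .sta) (fun Sl => NAt Sl ∧ Sl 2 < Sl 3) (fun _ => AdmL 4)
      (fun Sl => Sl 3 * Real.log 2))
    (tA2 : PartV (kg4 .one .one .thin .sta) (fun Sl => NAt Sl ∧ Sl 2 = Sl 3) (fun _ => AdmL 4)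
      (fun Sl => Sl 3 * Real.log 2))
    (tA3 : PartV (kg4 .one .one .thin .sta) (fun Sl => NAt Sl ∧ Sl 3 < Sl 2) (fun _ => AdmL 4)
      (fun Sl => Sl 3 * Real.log 2))
    (tB2 : PartB (kg4 .one .one .thin .sta) (fun Sl => NAt Sl ∧ Sl 2 = Sl 3) (fun _ => AdmL 4)
      (fun Sl => Sl 3 * Real.log 2))
    (sh1 : PartV (kg4 .one .one .thin .one) N1t (fun _ => AdmL 4) (fun Sl => Sl 3 * Real.log 2)) :
    KP 4 :=
  kp4_of36 (lCellB_of1 (cbF_res (Or.inl rfl)) (f2_of r1) f3 cbN_stp)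
    (c11t_of (c1_of (cbF_res (Or.inr (Or.inl rfl))) (g2_of r1 gV) gV) (celT_tieF g3) cbN_thin_eq)
    (c11s_of (c4_of (f1TP_res (Or.inr (Or.inr rfl))) s2 (r2 s4) (s4_of s4)))
    (Pool.SHE3.lCellA_1t1 hLA Pool.SHE33.lShe).v.m (Pool.SHE3.lCellA_1s1 hLA Pool.SHE33.lShe).v.m
    (Pool.SWP.c1ts_she Pool.SHE33.lSheT_ts) c1st c1ss
    (Pool.SHV33.lVo2_she (pTwo_of (VwT.vd wN wI wS wB (Or.inl rfl))
      (VwT.vd wN wI wS wB (Or.inr (Or.inl rfl))) (VwT.vd wN wI wS wB (Or.inr (Or.inr rfl))) vT vS))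
    (lVoE_of_k hVoE)
    (Pool.SHV33.lTv_she (pTwo_of (Pool.VT83.vd_two (by simp) tF tL)
      (Pool.VT83.vd_two (by simp) tFs tLs) (Pool.VT83.vd_two (by simp) tFp tLp) vT vS))
    (Pool.SHV33.lTp2_she (pTwo_of (Pool.VE16.vd_two (by simp) eF eL)
      (Pool.VE16.vd_two (by simp) eFs eLs) (Pool.VE16.vd_two (by simp) eFp eLp) vT vS))
    Pool.ONE72.one_loc
    (lBt5_of_k (Pool.T4T72.pOne_t4' Pool.T4I.t4cls (Pool.NV24.nafNear 4)))
    (lV0A_of3 sA tA1 tA2 tA3 tB2) (Pool.SHV33.lV0B_she vA)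
    (Pool.SHV33.lV01_she2 (Pool.S16.sh1_of sh1) v1)

end Pool.ASM
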