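import Pool.Agent.H56.ASM.Sk42
import Pool.Agent.H19.VTL.Vtl
import Pool.Agent.H65.VS.Tbf

/-!
# The parts of `KP 4`: the thin windows of small rate

`kp4_parts8`: as `kp4_parts7`; the windows `VtL`, `VeL` (helper19) and the field `tB2` (helper65) are
theorems.
-/

set_option autoImplicit false

namespace Pool.ASM

open Pool.GEN Pool.PKG Pool.KA Pool.ALT
open Pool.VT87 (RgN RgI RgS RgB)
open Pool.SHV33 (VdA)

/-- **`KP 4` from the named parts** of the owners, those which are theorems put in. -/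
theorem kp4_parts8
    -- `[one, one]`: the first jet of `u` (helper99); tie: steep, thin, static (helper63)
    (r1 : ResP) (r2 : ResS) (f3 : CbF .stp (fun Sl => Sl 3 = Sl 2))
    (g3 : CbF .thin (fun Sl => Sl 2 = Sl 3)) (s2 : F1TP .sta (fun Sl => Sl 3 = Sl 2) FulB)
    -- the slope of `N`: `u` thin, `u` static
    (gV : VlTP .thin (fun Sl => Sl 2 + 1 ≤ Sl 3) FulB) (s4 : BxTP .sta (fun Sl => Sl 2 < Sl 3) FulB)
    -- the cells over one place of slope one
    (hLA : Pool.SHE3.LLeafA)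
    -- the thin windows, `a < b` (helper87) and one coordinate of slope one
    (wN : VwT RgN) (wI : VwT RgI) (wS : VwT RgS) (wB : VwT RgB) (hVoE : POne fun a b => a < b)
    -- the thin windows `b < a` (helper83)
    (tF : Pool.VT83.VtF .thin) (tFs : Pool.VT83.VtF .sta) (tFp : Pool.VT83.VtF .stp)
    -- the thin windows `a = b` over the pair (helper16)
    (eF : Pool.VE16.VeF .thin) (eFs : Pool.VE16.VeF .sta) (eFp : Pool.VE16.VeF .stp)
    -- the windows with the labels of the place 2 over the place 0 (helper33)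
    (vT : VdA (kg4 .one .thin .one .thin) (Nm2 1 2 (fun _ _ => True) .thin))
    (vS : VdA (kg4 .one .sta .one .thin) (Nm2 1 2 (fun _ _ => True) .sta))
    (vA : VdA (kg4 .one .thin .one .sta) NBt) (v1 : VdA (kg4 .one .thin .one .one) M1t)
    -- two contact coordinates, static target, full rate
    (sA : PartA 2 (kg4 .one .one .stp .sta) (fun Sl => NAs Sl ∧ Sl 2 ≤ Sl 3) (fun _ => AdmL 4)
      (fun Sl => Sl 3 * Real.log 2))
    (tA1 : PartV (kg4 .one .one .thin .sta) (fun Sl => NAt Sl ∧ Sl 2 < Sl 3) (fun _ => AdmL 4)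
      (fun Sl => Sl 3 * Real.log 2))
    (tA2 : PartV (kg4 .one .one .thin .sta) (fun Sl => NAt Sl ∧ Sl 2 = Sl 3) (fun _ => AdmL 4)
      (fun Sl => Sl 3 * Real.log 2))
    (tA3 : PartV (kg4 .one .one .thin .sta) (fun Sl => NAt Sl ∧ Sl 3 < Sl 2) (fun _ => AdmL 4)
      (fun Sl => Sl 3 * Real.log 2))
    -- two contact coordinates, target of slope one, `u` thin, full rate
    (sh1 : PartV (kg4 .one .one .thin .one) N1t (fun _ => AdmL 4) (fun Sl => Sl 3 * Real.log 2)) :
    KP 4 :=
  kp4_parts7 r1 r2 f3 g3 s2 gV s4 hLA wN wI wS wB hVoE tF tFs tFp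
    (Pool.VTL19.vtL_all _) (Pool.VTL19.vtL_all _) (Pool.VTL19.vtL_all _) eF eFs eFp
    (Pool.VTL19.veL_all _) (Pool.VTL19.veL_all _) (Pool.VTL19.veL_all _) vT vS vA v1 sA tA1 tA2 tA3
    Pool.STB65.shA_tB2' sh1

end Pool.ASM
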