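import Pool.Agent.H56.ASM.Sk5
import Pool.Agent.H77.Z4.Hc0
import Pool.Agent.H19.SW.Vt

/-!
# The parts of `KP 4`, sixth form

`LMevW n`: the data on the events, near the windows of both counts. `LTieO n`: no ties below a
target with the top slope. `lMevV_of`, `lHcV_of`: the inputs of the counts from these and the
exactness on the boxes without ties. `kp4_of6`: `KP 4` from its parts.
-/

set_option autoImplicit false

namespace Pool.ASM

open MeasureTheory Set Filter Topology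
open Pool.Agent.H49.Ent Pool.Agent.H32.Dense Pool.STK Pool.KA Pool.KSAT Pool.K2S Pool.PB
open Pool.GEN Pool.S6C Pool.GRW Pool.PKG Pool.STAT Pool.PM Pool.R1 Pool.Z4
open Pool.ONE (LocE Ext0 Ext rowN_of_ext)
open Pool.TOP (TopS rw_all)
open Pool.LEV (Law Lv)
open Pool.STR (TopW Mac StaAt IsoAt StaU1 ThinAt SteepAt)
open Pool.SW (ExV NoTie vAll_nt hc0_cX hc0_a Xa mevX_v TieO TopC topC_meas vAll_top cok_top)

/-- The data on the events, near the windows of both counts, all classes. -/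
def LMevW (n : ℕ) : Prop := (∀ k, 2 ≤ k → k < n → Ext0 k) →
  Tol fun η => LocE n η MicRt →
    AllC n η fun {hn} {S} {P} {r} {P'} {Λ} {PB} H hTop hF h =>
      ∀ (o : Od n) (l : ℕ), 1 ≤ l → l < n - 1 → ∃ C : ℝ, 1 ≤ C ∧
        MevX hn S P r P' Λ o l (fun g => RwH H hTop hF h o g ∧ Xa hn P P' PB o l g) C

/-- There are no ties below a target with the top slope, for all packages. -/
def LTieO (n : ℕ) : Prop := (∀ k, 2 ≤ k → k < n → Ext0 k) → ∀ (hn : 2 ≤ n)
  (_ : ∀ k, 1 ≤ k → k < n → FZX k) (hF : FZX (n - 1)) (hTop : TopS n), TieO hn hTop hF (TopC n)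

theorem lMevV_of {n : ℕ} (hM : LMevW n) : LMevV n := fun hi => by
  refine (hM hi).mono fun η h hMic => ?_
  intro hn hZ hF hTop D hD hD1 hE S P r P' Λ PB H o l h1 h2
  obtain ⟨C, hC, h3⟩ := h hMic hn hZ hF hTop D hD hD1 hE S P r P' Λ PB H o l h1 h2
  exact ⟨C, hC, mevX_v h3⟩

section

variable {n : ℕ} {hn : 2 ≤ n} {S : PCl n} {P : ℝ → ℝ → ℝ} {r : ℝ → ℝ}
  {P' : ℕ → List (Fin n) × Fin n → ℝ → ℝ → ℝ} {Λ : Finset (Fin n) → Fin n → ℝ → ℝ → ℝ}
  {PB : ℕ → List (Fin n) × Fin n → ℝ → ℝ → ℝ}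

/-- **The ties** below a rough coordinate of the top slope, from the data on the events near the
windows of the counts. -/
theorem tie_top (H : PkT hn S P r P' Λ PB) (hTop : TopS n) (hF1 : FZX 1) (hF : FZX (n - 1))
    (hn4 : n ≤ 4) (hW : ∀ k, 2 ≤ k → k < n → Pool.TOP.RW k) (hE : ExV hn hTop hF)
    (hT : TieO hn hTop hF (TopC n)) {h : ℝ} (hh : 0 ≤ h)
    (hMev : ∀ (o : Od n) (l : ℕ), 1 ≤ l → l < n - 1 →
      ∃ C : ℝ, 1 ≤ C ∧ MevX hn S P r P' Λ o l
        (fun g => RwH H hTop hF h o g ∧ Xa hn P P' PB o l g) C) (o : Od n) (l : ℕ) :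
    ∀ᵐ g : ℝ, RwH H hTop hF h o g → Xa hn P P' PB o l g →
      deriv (fun a => P a a) g < deriv (fun a => LL hn P P' o (l + 1) a a) g →
      ∀ i, 1 ≤ i → i < n - 1 → i ≠ l → deriv (fun a => LL hn P P' o (i + 1) a a) g =
        deriv (fun a => LL hn P P' o (l + 1) a a) g → False := by
  filter_upwards [hc0_cX H hTop hF1 hF hn4 hW (topC_meas n) (vAll_top hTop hF hE hT) hh
    (X := fun o l g => RwH H hTop hF h o g ∧ Xa hn P P' PB o l g) hMev o l] with g k1 R hX hlt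
      i i1 i2 i3 i4
  have hl1 := hX.cfg.l1
  have hln := hX.cfg.ln
  have h2 := hX.two
  refine k1 R hX.cfg ⟨R, hX⟩ (cok_top
    (τ := fun i => deriv (fun v => LL hn P P' o (i + 1) v v) g) (by linarith)
    fun j j1 j2 j3 => ?_)
  rcases j2.eq_or_lt with j4 | j4
  · have e2 : LL hn P P' o (n - 1 + 1) = P := by
      rw [← lvL_eq o le_rfl]
      funext a w
      exact LvL_top o a w
    simp only [j4, e2]
    exact ⟨h2, hlt.le⟩
  · have j5 : j = i := by omega
    subst j5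
    simp only [i4]
    exact ⟨by linarith, le_rfl⟩

end

/-- **The count with no loss** from the exactness, the data on the events, and the ties. -/
theorem lHcV_of {n : ℕ} (hn4 : n ≤ 4) (hM : LMevW n) (hV : LExV n) (hT : n = 4 → LTieO n) :
    LHcV n := fun hi => by
  refine ((hM hi).and (Tol.le 1 one_pos)).mono fun η h hMic => ?_
  obtain ⟨h1, h3⟩ := h
  intro hn hZ hF hTop D hD hD1 hE S P r P' Λ PB H o l
  have e1 := h3 D hD
  have h0 : 0 ≤ (1 - η D) * D := mul_nonneg (by linarith [e1.2]) hD.le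
  have hR : ∀ k, 2 ≤ k → k < n → Pool.TOP.RW k := rw_all hZ fun k k1 k2 => rowN_of_ext (hi k k1 k2)
  have hEV := hV hi hn hZ hF hTop
  have hMv := h1 hMic hn hZ hF hTop D hD hD1 hE S P r P' Λ PB H
  refine hc0_a H hTop (hZ 1 le_rfl (by omega)) hF hn4 hR (vAll_nt hTop hF hEV) h0 hMv
    (fun o l => ?_) o l
  by_cases h4 : n = 4
  · exact tie_top H hTop (hZ 1 le_rfl (by omega)) hF hn4 hR hEV (hT h4 hi hn hZ hF hTop) h0 hMv o l
  · refine Eventually.of_forall fun g R hX _ i i1 i2 i3 _ => ?_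
    have h4' := hX.cfg.l1
    have h5 := hX.cfg.ln
    omega

/-- **`KP 4` from its parts**, sixth form. -/
theorem kp4_of6
    (hC : ∀ n, 2 ≤ n → n ≤ 4 → ∀ κ : List Kd, κ.length + 2 ≤ n → LCellV n (Kd.one :: κ))
    (hBs : ∀ n, 2 ≤ n → n ≤ 4 → LBs n) (hEx : ∀ n, 2 ≤ n → n ≤ 4 → LExc n)
    (hA : LV0A 4) (hB : LV0B 4) (hM : ∀ n, 3 ≤ n → n ≤ 4 → LMevW n)
    (hEV : ∀ n, 3 ≤ n → n ≤ 4 → LExV n) (hT : LTieO 4) : KP 4 :=
  kp4_of5 hC hBs hEx hA hB (fun n h1 h2 => lMevV_of (hM n h1 h2))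
    fun n h1 h2 => lHcV_of h2 (hM n h1 h2) (hEV n h1 h2) fun h4 => by
      subst h4
      exact hT

end Pool.ASM
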