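import Pool.Agent.H56.ASM.Sk14

/-!
# `KP m` from exactness in a subclass

`PkT.subc`: a package of a class is a package of each nonempty subclass.

`SubJ H h`: in a subclass with the same threshold and the same rate, the windows of the rows (I)
are exact. `kp_of_tolS`: as `kp_of_tol`, with the strategies of a subclass.
-/

set_option autoImplicit false

namespace Pool.ASM

open MeasureTheory Set Filter Topology
open Pool.Agent.H49.Ent Pool.Agent.H32.Dense Pool.STK Pool.KA Pool.KSAT Pool.K2S Pool.PB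
open Pool.GEN Pool.S6C Pool.STAT Pool.CHT Pool.GRW Pool.STA Pool.PKG
open Pool.ONE
open Pool.TOP (TopS)
open Pool.STR (TopW NumI Rle)

variable {n : ℕ} {hn : 2 ≤ n} {S S' : PCl n} {P : ℝ → ℝ → ℝ} {r : ℝ → ℝ}
  {P' : ℕ → List (Fin n) × Fin n → ℝ → ℝ → ℝ} {Λ : Finset (Fin n) → Fin n → ℝ → ℝ → ℝ}
  {PB : ℕ → List (Fin n) × Fin n → ℝ → ℝ → ℝ}

/-- **A package of a class is a package of each nonempty subclass.** -/
theorem subc (H : PkT hn S P r P' Λ PB) (hne : S'.Ne)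
    (hs : ∀ (τ : ℝ) (J : ℕ) (F : Fam n J) (A : F.Ω → Prop), S'.St τ J F A → S.St τ J F A) :
    PkT hn S' P r P' Λ PB := by
  obtain ⟨al, g₀, s, d, e, K₀, N, hal, hg₀, hC⟩ := H.cl
  exact { cl := ⟨al, g₀, s, d, e, K₀, N, hal, hg₀, hC.sub hne hs⟩
          tgs := H.tgs.sub hs
          rate := H.rate.sub hs
          cht := fun j => (H.cht j).sub hs
          reg := H.reg
          lam := H.lam.sub hs
          thb := fun j => (H.thb j).sub hs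
          regb := H.regb }

/-- **Exactness in a subclass**, for the rows with deficit more than `h`: a subclass with the same
threshold and the same rate has a package with exact windows in the rows (I). -/
def SubJ {hn : 2 ≤ n} {S : PCl n} {P : ℝ → ℝ → ℝ} {r : ℝ → ℝ}
    {P' : ℕ → List (Fin n) × Fin n → ℝ → ℝ → ℝ} {Λ : Finset (Fin n) → Fin n → ℝ → ℝ → ℝ}
    {PB : ℕ → List (Fin n) × Fin n → ℝ → ℝ → ℝ} (_ : PkT hn S P r P' Λ PB) (hTop : TopS n)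
    (hF : FZX (n - 1)) (h : ℝ) : Prop :=
  ∃ (S₁ : PCl n) (P₁ : ℕ → List (Fin n) × Fin n → ℝ → ℝ → ℝ)
    (Λ₁ : Finset (Fin n) → Fin n → ℝ → ℝ → ℝ) (PB₁ : ℕ → List (Fin n) × Fin n → ℝ → ℝ → ℝ)
    (H₁ : PkT hn S₁ P r P₁ Λ₁ PB₁) (W : Od n → Set ℝ), (∀ o, MeasurableSet (W o)) ∧
      (∀ o, ∀ᵐ g : ℝ, g ∈ Gs P r P₁ Λ₁ o → 0 < g → g < 1 → g ∈ W o) ∧
      ExcJ H₁ hTop hF (H₁.rle h) W

/-- **`CellE n η` from the statements about one class**, with the strategies of a subclass. -/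
theorem cellE_ofS {η : ℝ → ℝ} (hi : ∀ k, 2 ≤ k → k < n → Ext0 k)
    (hG : AllC n η fun H hTop hF h => ClassN H hTop hF h)
    (hN : LocE n η MicRt → AllC n η fun H hTop hF h => NoRE H hTop hF h)
    (hR : LocE n η MicRt → AllC n η fun H hTop hF h => SubJ H hTop hF h) : CellE n η := by
  have hM := micRt_ofN hi fun hn hZ hF hTop D d1 d2 d3 S P r P' Λ PB H =>
    (hG hn hZ hF hTop D d1 d2 d3 S P r P' Λ PB H).goalN
  intro hn hZ D hD hD1 hE al g₀ s d hal hg₀ _ e K₀ N S he hC P r hT hr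
  have hTop : TopS n := tops_ext hZ hi
  have hF : FZX (n - 1) := hZ (n - 1) (by omega) (by omega)
  obtain ⟨S', P', Λ, PB, -, -, H⟩ := pkT_ex hn hal hg₀ hC hT hr
  obtain ⟨S₁, P₁, Λ₁, PB₁, H₁, W, hW⟩ := hR hM hn hZ hF hTop D hD hD1 hE S' P r P' Λ PB H
  have hN₁ := hN hM hn hZ hF hTop D hD hD1 hE S₁ P r P₁ Λ₁ PB₁ H₁
  obtain ⟨⟨p, hJ⟩, hI⟩ := (hG hn hZ hF hTop D hD hD1 hE S₁ P r P₁ Λ₁ PB₁ H₁).goalN
  have hCJ : ClassJ H₁ hTop hF ((1 - η D) * D) := ⟨⟨W, hW⟩, hN₁⟩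
  obtain ⟨q, hq⟩ := hCJ.play3
  exact NumI.full_iso3 (hT.law ())
    (fun a w h0 h1 h2 => ⟨hT.low () a w h0 h1 h2, hT.up () a w h0 h1 h2⟩) p q hJ hq hI

/-- **`KP m` from the statements about one class**, for small tolerances, with the strategies of a
subclass. -/
theorem kp_of_tolS {m : ℕ} (hm : 1 ≤ m)
    (hG : ∀ n, 2 ≤ n → n ≤ m → (∀ k, 2 ≤ k → k < n → Ext0 k) →
      Tol fun η => AllC n η fun H hTop hF h => ClassN H hTop hF h)
    (hN : ∀ n, 2 ≤ n → n ≤ m → (∀ k, 2 ≤ k → k < n → Ext0 k) →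
      Tol fun η => LocE n η MicRt → AllC n η fun H hTop hF h => NoRE H hTop hF h)
    (hR : ∀ n, 2 ≤ n → n ≤ m → (∀ k, 2 ≤ k → k < n → Ext0 k) →
      Tol fun η => LocE n η MicRt → AllC n η fun H hTop hF h => SubJ H hTop hF h)
    (hT : ∀ n, 2 ≤ n → n ≤ m → (∀ k, 2 ≤ k → k < n → Ext0 k) →
      Tol fun η => LocE n η fun P r _ => TopW P r) : KP m := by
  classical
  have hall : ∀ n, ∃ η₀ : ℝ → ℝ, (∀ D, 0 < D → 0 < η₀ D) ∧
      (2 ≤ n → n ≤ m → (∀ k, 2 ≤ k → k < n → Ext0 k) →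
        ∀ η : ℝ → ℝ, (∀ D, 0 < D → 0 < η D ∧ η D ≤ η₀ D) →
          ((AllC n η fun H hTop hF h => ClassN H hTop hF h) ∧
          (LocE n η MicRt → AllC n η fun H hTop hF h => NoRE H hTop hF h)) ∧
          (LocE n η MicRt → AllC n η fun H hTop hF h => SubJ H hTop hF h) ∧
          LocE n η fun P r _ => TopW P r) := by
    intro n
    by_cases h : 2 ≤ n ∧ n ≤ m ∧ ∀ k, 2 ≤ k → k < n → Ext0 k
    · obtain ⟨η₀, h1, h2⟩ := ((hG n h.1 h.2.1 h.2.2).and (hN n h.1 h.2.1 h.2.2)).and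
        ((hR n h.1 h.2.1 h.2.2).and (hT n h.1 h.2.1 h.2.2))
      exact ⟨η₀, h1, fun _ _ _ => h2⟩
    · exact ⟨fun _ => 1, fun _ _ => one_pos, fun a1 a2 a3 => absurd ⟨a1, a2, a3⟩ h⟩
  choose η₀ h1 h2 using hall
  obtain ⟨η, hη⟩ : ∃ η : ℕ → ℝ → ℝ, η = fun n D => min (η₀ n D) 1 := ⟨_, rfl⟩
  have e1 : ∀ n D, 0 < D → 0 < η n D := fun n D hD => by
    rw [hη]
    exact lt_min (h1 n D hD) one_pos
  have e2 : ∀ n D, 0 < D → η n D ≤ 1 := fun n D _ => by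
    rw [hη]
    exact min_le_right _ _
  have e3 : ∀ n D, 0 < D → 0 < η n D ∧ η n D ≤ η₀ n D := fun n D hD => by
    refine ⟨e1 n D hD, ?_⟩
    rw [hη]
    exact min_le_left _ _
  have hC : ∀ n, 2 ≤ n → n ≤ m → (∀ k, 2 ≤ k → k < n → Ext0 k) → CellE n (η n) :=
    fun n a1 a2 a3 => by
      obtain ⟨⟨b1, b2⟩, b3, -⟩ := h2 n a1 a2 a3 (η n) (e3 n)
      exact cellE_ofS a3 b1 b2 b3
  exact kp_indE hm η e1 (fun n h1 h2 h3 => (hC n h1 h2 h3).mic (e2 n))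
    (fun n h1 h2 h3 => (hC n h1 h2 h3).sta (e2 n)) fun n a1 a2 a3 =>
      jmpE_of_top (e2 n) ((hC n a1 a2 a3).mic (e2 n)) ((hC n a1 a2 a3).sta (e2 n))
        (h2 n a1 a2 a3 (η n) (e3 n)).2.2

end Pool.ASM
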