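import Pool.Agent.H66.D2.Kp3
import Pool.Agent.H65.NFC.P4
import Pool.Agent.H14.P5.Top1
import Pool.Agent.H12.P5.Mic

/-!
# Tolerances

`Tol Q`: the statement `Q` holds for all small tolerances `η : ℝ → ℝ`. `AllC n η Q`: the statement `Q`
holds for all classes in dimension `n` with maximal deficit `D`, for the rows of deficit more than
`(1 - η D) * D`, inside the induction over the dimension.

`tol_mic`: the local theorems P4 and P5 hold for small tolerances. `kp_of_tol`: `KP m` from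
`ClassN`, `ClassJ` and `TopW`, each for small tolerances.
-/

set_option autoImplicit false

namespace Pool.ASM

open MeasureTheory Set Filter Topology
open Pool.Agent.H49.Ent Pool.Agent.H32.Dense Pool.STK Pool.KA Pool.KSAT Pool.K2S Pool.PB
open Pool.GEN Pool.S6C Pool.GRW Pool.PKG Pool.STAT
open Pool.ONE (LocE Ext0 Ext)
open Pool.TOP (TopS)
open Pool.STR (TopW)
open Pool.P4 (NFc1 P4Stmt1)
open Pool.P5 (P5Stmt1)
open Pool.MIC6

/-- **The statement holds for all small tolerances.** -/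
def Tol (Q : (ℝ → ℝ) → Prop) : Prop :=
  ∃ η₀ : ℝ → ℝ, (∀ D, 0 < D → 0 < η₀ D) ∧
    ∀ η : ℝ → ℝ, (∀ D, 0 < D → 0 < η D ∧ η D ≤ η₀ D) → Q η

theorem Tol.of_all {Q : (ℝ → ℝ) → Prop} (h : ∀ η : ℝ → ℝ, (∀ D, 0 < D → 0 < η D) →
    (∀ D, 0 < D → η D ≤ 1) → Q η) : Tol Q :=
  ⟨fun _ => 1, fun _ _ => one_pos, fun η hη => h η (fun D hD => (hη D hD).1) fun D hD =>
    (hη D hD).2⟩

theorem Tol.and {Q Q' : (ℝ → ℝ) → Prop} (h : Tol Q) (h' : Tol Q') : Tol fun η => Q η ∧ Q' η := by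
  obtain ⟨η₀, h1, h2⟩ := h
  obtain ⟨η₁, h3, h4⟩ := h'
  exact ⟨fun D => min (η₀ D) (η₁ D), fun D hD => lt_min (h1 D hD) (h3 D hD), fun η hη =>
    ⟨h2 η fun D hD => ⟨(hη D hD).1, (hη D hD).2.trans (min_le_left _ _)⟩,
      h4 η fun D hD => ⟨(hη D hD).1, (hη D hD).2.trans (min_le_right _ _)⟩⟩⟩

theorem Tol.mono {Q Q' : (ℝ → ℝ) → Prop} (h : Tol Q) (hQ : ∀ η, Q η → Q' η) : Tol Q' := by
  obtain ⟨η₀, h1, h2⟩ := h
  exact ⟨η₀, h1, fun η hη => hQ η (h2 η hη)⟩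

/-- Small tolerances are at most `c`. -/
theorem Tol.le (c : ℝ) (hc : 0 < c) : Tol fun η => ∀ D, 0 < D → 0 < η D ∧ η D ≤ c :=
  ⟨fun _ => c, fun _ _ => hc, fun _ hη => hη⟩

/-- A statement for each deficit. -/
theorem Tol.ofD {Q : ℝ → ℝ → Prop} (h : ∀ D, 0 < D → D ≤ 1 →
    ∃ x₀ : ℝ, 0 < x₀ ∧ ∀ x, 0 < x → x ≤ x₀ → Q D x) :
    Tol fun η => ∀ D, 0 < D → D ≤ 1 → Q D (η D) := by
  classical
  choose! x₀ h1 h2 using h
  refine ⟨fun D => if D ≤ 1 then x₀ D else 1, fun D hD => ?_, fun η hη D hD hD1 => ?_⟩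
  · show 0 < if D ≤ 1 then x₀ D else 1
    by_cases h3 : D ≤ 1
    · rw [if_pos h3]
      exact h1 D hD h3
    · rw [if_neg h3]
      exact one_pos
  · have h3 : 0 < η D ∧ η D ≤ if D ≤ 1 then x₀ D else 1 := hη D hD
    rw [if_pos hD1] at h3
    exact h2 D hD hD1 _ h3.1 h3.2

/-- A statement about classes. -/
abbrev StC (n : ℕ) : Type _ :=
  ∀ {hn : 2 ≤ n} {S : PCl n} {P : ℝ → ℝ → ℝ} {r : ℝ → ℝ}
    {P' : ℕ → List (Fin n) × Fin n → ℝ → ℝ → ℝ} {Λ : Finset (Fin n) → Fin n → ℝ → ℝ → ℝ}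
    {PB : ℕ → List (Fin n) × Fin n → ℝ → ℝ → ℝ},
    PkT hn S P r P' Λ PB → TopS n → FZX (n - 1) → ℝ → Prop

/-- **The statement holds for all classes** in dimension `n`, inside the induction over the
dimension, for the rows with deficit more than `(1 - η D) * D`, `D` the maximal deficit. -/
def AllC (n : ℕ) (η : ℝ → ℝ) (Q : StC n) : Prop :=
  ∀ (hn : 2 ≤ n) (_ : ∀ k, 1 ≤ k → k < n → FZX k) (hF : FZX (n - 1)) (hTop : TopS n)
    (D : ℝ), 0 < D → D ≤ 1 → Ext n ((1 + η D) * D) → ∀ (S : PCl n) (P : ℝ → ℝ → ℝ)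
    (r : ℝ → ℝ) (P' : ℕ → List (Fin n) × Fin n → ℝ → ℝ → ℝ)
    (Λ : Finset (Fin n) → Fin n → ℝ → ℝ → ℝ)
    (PB : ℕ → List (Fin n) × Fin n → ℝ → ℝ → ℝ) (H : PkT hn S P r P' Λ PB),
    Q H hTop hF ((1 - η D) * D)

/-- **The local theorems P4 and P5**, for small tolerances: the deficit `x` of the closed bound is
larger than the deficits of the class. -/
theorem tol_mic (p4 : P4Stmt1) (p5 : P5Stmt1) {n B₀ : ℕ} (hn : 1 ≤ n) (hB₀ : 1 ≤ B₀) :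
    Tol fun η => ∀ D, 0 < D → D ≤ 1 → ∃ x : ℝ, (1 + η D) * D < x ∧
      (∀ (K A : ℕ) (R : ℕ → Prop) (c : ℝ), 0 < c →
        MicX (XP4 K A R x) (QT R n c) (fun B => B = B₀) n K ((1 - η D) * D)) ∧
      ∀ (K A : ℕ) (R : ℕ → Prop),
        MicX (XP4 K A R x) (Q5 R n) (fun B => B = B₀) n K ((1 - η D) * D) := by
  refine Tol.ofD (Q := fun D y => ∃ x : ℝ, (1 + y) * D < x ∧
      (∀ (K A : ℕ) (R : ℕ → Prop) (c : ℝ), 0 < c →
        MicX (XP4 K A R x) (QT R n c) (fun B => B = B₀) n K ((1 - y) * D)) ∧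
      ∀ (K A : ℕ) (R : ℕ → Prop),
        MicX (XP4 K A R x) (Q5 R n) (fun B => B = B₀) n K ((1 - y) * D)) fun D hD hD1 => ?_
  obtain ⟨δ₁, hδ₁, h1⟩ := micX_P p4 hn hB₀ (half_pos hD)
  obtain ⟨δ₂, hδ₂, h2⟩ := micX_5 p5 hn hB₀ (half_pos hD)
  obtain ⟨δ, hδ⟩ : ∃ δ, δ = min δ₁ δ₂ := ⟨_, rfl⟩
  have hδ0 : 0 < δ := by
    rw [hδ]
    exact lt_min hδ₁ hδ₂
  have hmono : ∀ {K A : ℕ} {R : ℕ → Prop} {y y' : ℝ}, y ≤ y' → ∀ {B : ℕ} {lam gam : ℕ → ℝ}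
      {J a₀ w₀ z M Q K' : ℕ} {η' κ C₁ : ℝ} {D : NDat2} {q : D.Ω → ℝ},
      XP4 K A R y B lam gam n J a₀ w₀ z M Q K' η' κ C₁ D q →
        XP4 K A R y' B lam gam n J a₀ w₀ z M Q K' η' κ C₁ D q :=
    fun hy _ _ _ _ _ _ _ _ _ _ _ _ _ _ _ h => ⟨h.1, nFc_mono h.2.1 hy le_rfl, h.2.2⟩
  refine ⟨min (1 / 2) (δ / (4 * D)), lt_min (by norm_num) (by positivity), fun y hy hy' => ?_⟩
  have hy1 : y ≤ 1 / 2 := hy'.trans (min_le_left _ _)
  have hy2 : y ≤ δ / (4 * D) := hy'.trans (min_le_right _ _)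
  rw [le_div_iff₀ (by positivity)] at hy2
  have e1 : D / 2 ≤ (1 - y) * D := by nlinarith
  have e2 : (1 - y) * D ≤ 1 := by nlinarith
  refine ⟨(1 - y) * D + δ, by nlinarith, fun K A R c hc => ?_, fun K A R => ?_⟩
  · refine (h1 K A R ((1 - y) * D) c e1 e2 hc).mono (fun _ _ hX => ?_) (fun _ _ h => h)
      fun _ h => h
    refine hmono ?_ hX
    have : δ ≤ δ₁ := by
      rw [hδ]
      exact min_le_left _ _
    linarith
  · refine (h2 K A R ((1 - y) * D) e1 e2).mono (fun _ _ hX => ?_) (fun _ _ h => h) fun _ h => h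
    refine hmono ?_ hX
    have : δ ≤ δ₂ := by
      rw [hδ]
      exact min_le_right _ _
    linarith

/-- **`KP m` from the statements about one class**, for small tolerances. -/
theorem kp_of_tol {m : ℕ} (hm : 1 ≤ m)
    (hG : ∀ n, 2 ≤ n → n ≤ m → (∀ k, 2 ≤ k → k < n → Ext0 k) →
      Tol fun η => AllC n η fun H hTop hF h => ClassN H hTop hF h)
    (hR : ∀ n, 2 ≤ n → n ≤ m → (∀ k, 2 ≤ k → k < n → Ext0 k) →
      Tol fun η => LocE n η MicRt → AllC n η fun H hTop hF h => ClassJ H hTop hF h)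
    (hT : ∀ n, 2 ≤ n → n ≤ m → (∀ k, 2 ≤ k → k < n → Ext0 k) →
      Tol fun η => LocE n η fun P r _ => TopW P r) : KP m := by
  classical
  have hall : ∀ n, ∃ η₀ : ℝ → ℝ, (∀ D, 0 < D → 0 < η₀ D) ∧
      (2 ≤ n → n ≤ m → (∀ k, 2 ≤ k → k < n → Ext0 k) →
        ∀ η : ℝ → ℝ, (∀ D, 0 < D → 0 < η D ∧ η D ≤ η₀ D) →
          (AllC n η fun H hTop hF h => ClassN H hTop hF h) ∧
          (LocE n η MicRt → AllC n η fun H hTop hF h => ClassJ H hTop hF h) ∧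
          LocE n η fun P r _ => TopW P r) := by
    intro n
    by_cases h : 2 ≤ n ∧ n ≤ m ∧ ∀ k, 2 ≤ k → k < n → Ext0 k
    · obtain ⟨η₀, h1, h2⟩ := (hG n h.1 h.2.1 h.2.2).and ((hR n h.1 h.2.1 h.2.2).and
        (hT n h.1 h.2.1 h.2.2))
      exact ⟨η₀, h1, fun _ _ _ => h2⟩
    · exact ⟨fun _ => 1, fun _ _ => one_pos, fun a1 a2 a3 => absurd ⟨a1, a2, a3⟩ h⟩
  choose η₀ h1 h2 using hall
  obtain ⟨η, hη⟩ : ∃ η : ℕ → ℝ → ℝ, η = fun n D => min (η₀ n D) 1 := ⟨_, rfl⟩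
  have e1 : ∀ n D, 0 < D → 0 < η n D := fun n D hD => by
    rw [hη]
    exact lt_min (h1 n D hD) one_pos
  have e2 : ∀ n D, 0 < D → η n D ≤ 1 := fun n D _ => by
    rw [hη]
    exact min_le_right _ _
  have e3 : ∀ n D, 0 < D → 0 < η n D ∧ η n D ≤ η₀ n D := fun n D hD => by
    refine ⟨e1 n D hD, ?_⟩
    rw [hη]
    exact min_le_left _ _
  refine kp_of_classN hm η e1 e2 (fun n a1 a2 a3 => ?_) (fun n a1 a2 a3 a4 => ?_)
    fun n a1 a2 a3 => (h2 n a1 a2 a3 (η n) (e3 n)).2.2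
  · exact (h2 n a1 a2 a3 (η n) (e3 n)).1
  · exact (h2 n a1 a2 a3 (η n) (e3 n)).2.1 a4

end Pool.ASM
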