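import Pool.Agent.H56.ASM.Xk
import Pool.Agent.H56.SLT.Cnt
import Pool.Agent.H89.NSL.T4
import Pool.Agent.H35.P4J.P4

/-!
# The parts with one contact coordinate, without exactness at the ties of the base

In all packages no ties of the base are needed which are not below the target (`VAll NtP`, `VAll
TopP`), and the base is thin or static. `LTsA n`: the ties with two coordinates of the base which are
not thin. `BtiW`: the windows with a tie in the base
which is not below the target; `LBtE n`: they have no boxes, for the extremal classes.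
`lBs_E`: the boxes.
-/

set_option autoImplicit false

namespace Pool.ASM

open MeasureTheory Set Filter Topology
open Pool.Agent.H49.Ent Pool.Agent.H32.Dense Pool.STK Pool.KA Pool.KSAT Pool.K2S Pool.PB
open Pool.GEN Pool.S6C Pool.GRW Pool.PKG Pool.STAT Pool.PM Pool.R1 Pool.Z4
open Pool.ONE (LocE Ext0 Ext rowN_of_ext)
open Pool.TOP (TopS rw_all)
open Pool.LEV (Law Lv)
open Pool.STR (NumI TopW Mac StaAt IsoAt StaU1 ThinAt SteepAt Rle)
open Pool.MIC6
open Pool.SW (TopC NtO OneS NoTie Rgh Xa TieO NtP TopP LowT DifT)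
open Pool.OWN72 (DiffS)

/-- **All the slopes of the base are smaller than the slope of the target, or there is a tie in the
base.** -/
def FasD : WinC := fun n hn P P' PB o g => FasL n hn P P' PB o g ∨ ¬ DiffS hn P P' o g

section

variable {n : ℕ} {hn : 2 ≤ n} {S : PCl n} {P : ℝ → ℝ → ℝ} {r ρ : ℝ → ℝ}
  {P' : ℕ → List (Fin n) × Fin n → ℝ → ℝ → ℝ} {Λ : Finset (Fin n) → Fin n → ℝ → ℝ → ℝ}
  {PB : ℕ → List (Fin n) × Fin n → ℝ → ℝ → ℝ}

/-- **The ties at the top speed** with one contact coordinate and different slopes in the base. -/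
def TdW (hn : 2 ≤ n) (P : ℝ → ℝ → ℝ) (P' PB : ℕ → List (Fin n) × Fin n → ℝ → ℝ → ℝ) (o : Od n)
    (g : ℝ) : Prop :=
  ThW hn P P' PB o g ∧ SlLe hn P P' o g ∧ TiW hn P P' o g ∧ OneN hn P P' o g ∧ DiffS hn P P' o g

/-- **The ties at the top speed which are not covered by (T)**: the base is thin or static, and more
than one coordinate is not thin. -/
def TwsW (hn : 2 ≤ n) (P : ℝ → ℝ → ℝ) (P' PB : ℕ → List (Fin n) × Fin n → ℝ → ℝ → ℝ) (o : Od n)
    (g : ℝ) : Prop :=
  (TdW hn P P' PB o g ∧ ∀ l < n - 1, ThS hn P P' PB o l g) ∧ ¬ OneG hn P P' PB o g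

/-- **The windows with a tie in the base which is not below the target**, dimension four: one contact
coordinate, the base is thin or static. -/
structure BtiW (hn : 2 ≤ n) (P : ℝ → ℝ → ℝ) (P' PB : ℕ → List (Fin n) × Fin n → ℝ → ℝ → ℝ)
    (o : Od n) (g : ℝ) : Prop where
  th : ThW hn P P' PB o g
  one : OneN hn P P' o g
  ths : ∀ l < n - 1, ThS hn P P' PB o l g
  four : n = 4
  tie : slN hn P P' o 1 g = slN hn P P' o 2 g
  ge : slN hn P P' o (n - 1) g ≤ slN hn P P' o 1 g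

end

/-- **No boxes at the ties** `TwsW`, for all packages. -/
def LTsA (n : ℕ) : Prop :=
  AllP n fun {hn} {_} {P} {_} {P'} {_} {PB} {_} H hTop hF h hρ =>
    NoB H hTop hF hρ h (TwsW hn P P' PB)

/-- **No boxes at the ties of the base** which are not below the target, for the extremal classes. -/
def LBtE (n : ℕ) : Prop := (∀ k, 2 ≤ k → k < n → Ext0 k) →
  Tol fun η => AllX n η fun {hn} {_} {P} {_} {P'} {_} {PB} H hTop hF h _ =>
    NoB H hTop hF (H.rle h) h (BtiW hn P P' PB)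

section

variable {n : ℕ} {hn : 2 ≤ n} {S : PCl n} {P : ℝ → ℝ → ℝ} {r ρ : ℝ → ℝ}
  {P' : ℕ → List (Fin n) × Fin n → ℝ → ℝ → ℝ} {Λ : Finset (Fin n) → Fin n → ℝ → ℝ → ℝ}
  {PB : ℕ → List (Fin n) × Fin n → ℝ → ℝ → ℝ}

/-- A tie in the base: dimension four. -/
theorem not_diffS {o : Od n} {g : ℝ} (hn4 : n ≤ 4) (h : ¬ DiffS hn P P' o g) :
    n = 4 ∧ slN hn P P' o 1 g = slN hn P P' o 2 g := by
  by_contra hcon
  refine h fun k l h1 h2 h3 he => hcon ?_
  obtain rfl : k = 1 := by omega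
  obtain rfl : l = 2 := by omega
  exact ⟨by omega, he⟩

/-- The first coordinate has the slope one. -/
theorem slN_zero (H : PkT hn S P r P' Λ PB) (hTop : TopS n) (hF : FZX (n - 1))
    {h : ℝ} (o : Od n) : ∀ᵐ g : ℝ, RwH H hTop hF h o g → slN hn P P' o 0 g = 1 := by
  filter_upwards [one_zero H hTop hF o] with g k R
  rw [slN_lvl o (by omega)]
  exact k R.rwd.mem

/-- In dimension three all the ties at the top speed are covered by (T). -/
theorem twsW_three (hn3 : n ≤ 3) (H : PkT hn S P r P' Λ PB) (hTop : TopS n) (hF : FZX (n - 1))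
    {h : ℝ} (o : Od n) :
    ∀ᵐ g : ℝ, RwH H hTop hF h o g → ¬ TwsW hn P P' PB o g := by
  filter_upwards [one_zero H hTop hF o, slo_two H hTop hF] with g k1 k2 R hX
  have ho := R.rwd.mem
  obtain ⟨⟨⟨hth, hle, ⟨l₀, hl₀, htie⟩, hone, hdif⟩, hths⟩, hno⟩ := hX
  have h0 : slN hn P P' o 0 g = 1 := by
    rw [slN_lvl o (by omega)]
    exact k1 ho
  have hth' : ∀ l < n - 1, ¬ ThN hn P P' PB o l g →
      StaAt (LvL hn P P' o l) g ∧ 2 ≤ slN hn P P' o l g := fun l hl h6 =>
    k2 o ho l hl (fun k hk => hths k (by omega)) (hths l hl) h6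
  have hth0 : ThN hn P P' PB o 0 g := by
    by_contra h6
    have h7 := (hth' 0 (by omega) h6).2
    rw [h0] at h7
    linarith
  have hl1 : l₀ ≠ 0 := by
    rintro rfl
    rw [h0] at htie
    exact absurd hth.1 (by rw [← htie]; exact lt_irrefl _)
  refine hno ⟨hths, l₀, hl₀, fun l hl hne => ?_⟩
  have : l = 0 := by omega
  rw [this]
  exact hth0

end

/-- **The ties at the top speed** with one contact coordinate and different slopes in the base have
no boxes, for all packages. -/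
theorem noB_td {n : ℕ} (hn4 : n ≤ 4) (hT : n = 4 → LTsA n) :
    AllP n fun {hn} {_} {P} {_} {P'} {_} {PB} {_} H hTop hF h hρ =>
      NoB H hTop hF hρ h (TdW hn P P' PB) := by
  intro hi hn hZ hF hTop S P r P' Λ PB H h hh hh1 ρ hρ hrow
  refine noB_ths hh hn4 hrow (fun o g hX => hX.2.2.2.1) ?_
  have h1 := noB_T (H := H) (hTop := hTop) (hF := hF) (hρ := hρ) Pool.STAT.micT hn4 hZ hh hh1
    (exY_KE (H := H) hTop hF hρ hn4 h)
  have h2 : NoB H hTop hF hρ h (TwsW hn P P' PB) := by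
    by_cases h4 : n = 4
    · exact hT h4 hi hn hZ hF hTop S P r P' Λ PB H h hh hh1 ρ hρ hrow
    · refine noB_false fun o => ?_
      filter_upwards [twsW_three (by omega) H hTop hF o, rwH_rho H hTop hF hρ (h' := h / 2)
        (by linarith) hrow o] with g k1 k2 R hx
      exact k1 (k2 R) hx
  refine (h1.or h2).mono fun o => Eventually.of_forall fun g _ hX => ?_
  obtain ⟨⟨hth, hle, hti, hone, hdif⟩, hths⟩ := hX
  by_cases h3 : OneG hn P P' PB o g
  · refine Or.inl ⟨⟨hth, hle, hti, h3⟩, ⟨?_, ?_⟩, hdif⟩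
    · have := hth.1
      rwa [slN_tar] at this
    · exact (oneN_iff H hTop hF o g).1 hone
  · exact Or.inr ⟨⟨⟨hth, hle, hti, hone, hdif⟩, hths⟩, h3⟩

/-- **No boxes without ties** at the windows with one contact coordinate and with the ties of the
base below the target, for all packages. -/
theorem vAll_nP {n : ℕ} (hn4 : n ≤ 4) (h1 : LVoX FasL n)
    (hi : ∀ k, 2 ≤ k → k < n → Ext0 k)
    (hn : 2 ≤ n) (hZ : ∀ k, 1 ≤ k → k < n → FZX k) (hF : FZX (n - 1)) (hTop : TopS n) :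
    VAll hn hTop hF (NtP n) := by
  intro S P r P' Λ PB H h h0 h1' ρ hρ hrow hW
  have h3 := (exY_KE (H := H) hTop hF hρ hn4 h).exB hn4 hZ
  have h4 := noB_X h1 hi hn hZ hF hTop S P r P' Λ PB H h h0 h1' ρ hρ hrow
  obtain ⟨p, hp⟩ := NoB.noBS (h := h) ((((noB_D (H := H) (hρ := hρ) (h := h)).or
    (noB_S (hρ := hρ) (h := h))).or ((noB_V (P := P) Pool.VAS.micV h0 h1' h3).or h4)).mono
    fun o => by
      filter_upwards [hW o, H.mac_all H.pble hTop hF,
        NumI.rwD_chg (nk := H.nk hTop hF) hρ H.up (H.tgs.law ()) o,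
        slN_zero H hTop hF (h := h / 2) o,
        rwH_rho H hTop hF hρ (h' := h / 2) (by linarith) hrow o] with g k1 k2 k3 k4 k5 R _
      obtain ⟨-, ⟨h5, h6⟩, h6'⟩ := k1 R
      rcases le_or_gt (slN hn P P' o (n - 1) g) 1 with h7 | h7
      · exact Or.inl (Or.inl (Or.inl h7))
      rcases k2 o (k3 R).mem with h8 | h8
      swap
      · exact Or.inl (Or.inr h8)
      by_cases hD : DiffS hn P P' o g
      · exact Or.inr (Or.inl ⟨noTie_ntW H h5, ⟨by rwa [slN_tar] at h7, h6⟩, hD⟩)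
      · obtain ⟨e4, e12⟩ := not_diffS hn4 hD
        refine Or.inr (Or.inr ⟨⟨h7, h8⟩, fun l hl => ?_⟩)
        have h9 := h6' ⟨1, by omega⟩ ⟨2, by omega⟩ le_rfl (by show (1 : ℕ) ≤ 2; omega)
          (fun h => by
            have := congrArg Fin.val h
            simp at this) (by
            rw [slo_slN, slo_slN]
            exact e12)
        rw [slo_slN] at h9
        have h10 : slN hn P P' o 1 g < slN hn P P' o (n - 1) g := by
          rw [slN_tar]
          exact h9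
        have h11 : l = 0 ∨ l = 1 ∨ l = 2 := by omega
        rcases h11 with rfl | rfl | rfl
        · rw [k4 (k5 R)]
          exact h7
        · exact h10
        · rw [← e12]
          exact h10) hrow h0
  exact ⟨p, Or.inr hp⟩

/-- **No boxes at the rough windows with slopes in `TopP`**, for all packages. -/
theorem vAll_tP {n : ℕ} (hn4 : n ≤ 4) (hT : n = 4 → LTsA n)
    (hi : ∀ k, 2 ≤ k → k < n → Ext0 k) (hn : 2 ≤ n) (hZ : ∀ k, 1 ≤ k → k < n → FZX k)
    (hF : FZX (n - 1)) (hTop : TopS n) : VAll hn hTop hF (TopP n) := by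
  intro S P r P' Λ PB H h h0 h1' ρ hρ hrow hW
  have h3 := (exY_KE (H := H) hTop hF hρ hn4 h).exB hn4 hZ
  have h5 := noB_td hn4 hT hi hn hZ hF hTop S P r P' Λ PB H h h0 h1' ρ hρ hrow
  obtain ⟨p, hp⟩ := NoB.noBS (h := h) (((noB_S (H := H) (hρ := hρ) (h := h)).or
    ((noB_V (P := P) Pool.VAS.micV h0 h1' h3).or h5)).mono fun o => by
      filter_upwards [hW o, H.mac_all H.pble hTop hF,
        NumI.rwD_chg (nk := H.nk hTop hF) hρ H.up (H.tgs.law ()) o] with g k1 k2 k3 R _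
      obtain ⟨-, hT, hDi⟩ := k1 R
      have hO := topC_one n _ _ hT
      have h7 : 1 < slN hn P P' o (n - 1) g := by
        rw [slN_tar]
        linarith [hT.1]
      rcases k2 o (k3 R).mem with h8 | h8
      swap
      · exact Or.inl h8
      have hD : DiffS hn P P' o g := by
        by_contra hD
        obtain ⟨e4, e12⟩ := not_diffS hn4 hD
        refine hDi ⟨1, by omega⟩ ⟨2, by omega⟩ le_rfl (by show (1 : ℕ) ≤ 2; omega)
          (fun h => by
            have := congrArg Fin.val h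
            simp at this) ?_
        rw [slo_slN, slo_slN]
        exact e12
      by_cases hti : TiW hn P P' o g
      · refine Or.inr (Or.inr ⟨⟨h7, h8⟩, slLe_top (H := H) (hTop := hTop) (hF := hF)
          ⟨by linarith [hT.1], fun i => (hT.2 i).1⟩, hti,
          (oneN_iff H hTop hF o g).2 hO, hD⟩)
      · exact Or.inr (Or.inl ⟨fun l hl h9 => hti ⟨l, hl, h9⟩,
          ⟨by rwa [slN_tar] at h7, hO⟩, hD⟩)) hrow h0
  exact ⟨p, Or.inr hp⟩

/-- **No boxes** from their parts, `n ≥ 3`. -/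
theorem lBs_E {n : ℕ} (hn4 : n ≤ 4) (hVF : LVoX FasL n) (hTw : LTwA n)
    (hTs : n = 4 → LTsA n) (hBt : n = 4 → LBtE n)
    (hFP : LFastR FasD n) : LBs n := fun hi => by
  have hBt' : Tol fun η => AllX n η fun {hn} {_} {P} {_} {P'} {_} {PB} H hTop hF h _ =>
      NoB H hTop hF (H.rle h) h (BtiW hn P P' PB) := by
    by_cases h4 : n = 4
    · exact hBt h4 hi
    · refine Tol.of_all fun η h0 _ => ?_
      intro hn hZ hF hTop D hD hD1 hE
      refine ⟨(1 + η D) * D + 1, by linarith, fun x hx hx' S P r P' Λ PB H => ?_⟩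
      exact noB_false fun o => Eventually.of_forall fun g _ hX => h4 hX.four
  refine ((lFaW_ths hn4 (fun _ => lCellA_one n |>.f)
    (fun h4 => (Pool.C2T.lCellA_one_thin (by omega)).f)
    (fun h4 => (lCellA_sta (by omega)).f) hi).and (hBt'.and
    (((Pool.ORD65.lFc_le (n := n) hn4).x (X := FasD) hi).and ((hFP hi).and
    ((tol_micX (n := n - 1 + 1) (B₀ := n + 2) (by omega) (by omega)).and
      ((tol_micI (n := n - 1 + 1) (B₀ := n + 2) (by omega) (by omega)).and
      ((tol_micJ Pool.P4J.p4j (n := n - 1 + 1) (B₀ := n + 2) (by omega) (by omega)).and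
      (Tol.le (1 / 2) (by norm_num))))))))).mono fun η h => ?_
  obtain ⟨h1, h2, h3, h4, h6, h7, h8, h5⟩ := h
  intro hn hZ hF hTop D hD hD1 hEx S P r P' Λ PB H
  have e1 := h5 D hD
  obtain ⟨h, hh'⟩ : ∃ h, h = (1 - η D) * D := ⟨_, rfl⟩
  have hh : 0 < h := by
    rw [hh']
    exact mul_pos (by linarith) hD
  have hh1 : h ≤ 1 := by
    rw [hh']
    nlinarith
  obtain ⟨S', PW, H₁, hPW⟩ := H.subW
  have hEY₀ : ExY H₁ hTop hF (H₁.rle h) h fun o g =>
      OneC n (slo H₁ hTop hF o g) (deriv (fun a => P a a) g) ∧ DiffS hn P P' o g :=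
    exY_KE hTop hF (H₁.rle h) hn4 h
  have hEY : ExY H₁ hTop hF (H₁.rle h) h (ExWX FasD H₁ hTop hF) := by
    refine hEY₀.mono fun o => Eventually.of_forall fun g _ hX => ⟨hX.2.1, ?_⟩
    by_contra hD'
    exact hX.2.2 (Or.inr hD')
  have hEA' := hEY₀.exB hn4 hZ
  obtain ⟨x₄, a4, b4⟩ := h2 hn hZ hF hTop D hD hD1 hEx
  obtain ⟨x₁, a1, b1⟩ := h3 hn hZ hF hTop D hD hD1 hEx
  obtain ⟨x₂, a2, b2⟩ := h4 hn hZ hF hTop D hD hD1 hEx
  obtain ⟨x₃, a3, b3⟩ := h6 D hD hD1
  obtain ⟨x₅, a5, b5⟩ := h7 D hD hD1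
  obtain ⟨x₆, a6, b6⟩ := h8 D hD hD1
  obtain ⟨x, hx⟩ : ∃ x, x = min (min x₄ (min x₅ x₆)) (min x₁ (min x₂ x₃)) := ⟨_, rfl⟩
  have hx0 : (1 + η D) * D < x := by
    rw [hx]
    exact lt_min (lt_min a4 (lt_min a5 a6)) (lt_min a1 (lt_min a2 a3))
  have hxc : x ≤ min x₄ (min x₅ x₆) := by
    rw [hx]
    exact min_le_left _ _
  have hxa : x ≤ x₄ := hxc.trans (min_le_left _ _)
  have hx5 : x ≤ x₅ := (hxc.trans (min_le_right _ _)).trans (min_le_left _ _)
  have hx6 : x ≤ x₆ := (hxc.trans (min_le_right _ _)).trans (min_le_right _ _)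
  have hxb : x ≤ min x₁ (min x₂ x₃) := by
    rw [hx]
    exact min_le_right _ _
  have hx1 : x ≤ x₁ := hxb.trans (min_le_left _ _)
  have hx2 : x ≤ x₂ := hxb.trans ((min_le_right _ _).trans (min_le_left _ _))
  have hx3 : x ≤ x₃ := hxb.trans ((min_le_right _ _).trans (min_le_right _ _))
  obtain ⟨hp4, hp5⟩ := b3 x hx3
  have hpI := b5 x hx5
  have hpJ := b6 x hx6
  have hBt := b4 x hx0 hxa S' P r P' Λ PB H₁
  have hFc' := b1 x hx0 hx1 S' P r P' Λ PB H₁
  have hLe := b2 x hx0 hx2 S' P r P' Λ PB H₁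
  have hFa := h1 hn hZ hF hTop D hD hD1 hEx S' P r P' Λ PB H₁
  rw [← hh'] at hBt hFc' hLe hp4 hp5 hFa hpI hpJ
  rw [← hh']
  have hrow := rt_def H₁.rate.lip H₁.rate.mono h
  have hVF' := noB_X hVF hi hn hZ hF hTop S' P r P' Λ PB H₁ h hh hh1 _ (H₁.rle h) hrow
  have hTw' := hTw hi hn hZ hF hTop S' P r P' Λ PB H₁ h hh hh1 _ (H₁.rle h) hrow
  have hTd := noB_td hn4 hTs hi hn hZ hF hTop S' P r P' Λ PB H₁ h hh hh1 _ (H₁.rle h) hrow
  -- the windows with a tie and a faster coordinate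
  have hfast : NoB H₁ hTop hF (H₁.rle h) h (FtWX FasD H₁ hTop hF) :=
    noB_fastJ hn4 hZ hh hh1 hp4 hp5 hpI hpJ hPW hEY hFc' hLe
  have hall : NoB H₁ hTop hF (H₁.rle h) h (ThW hn P P' PB) := by
    refine (((hVF'.or hTw').or hBt).or ((noB_V (P := P) (P' := P') Pool.VAS.micV hh hh1 hEA').or
      (hTd.or hfast))).mono fun o => ?_
    filter_upwards [hFa o, H₁.rwH_chg hTop hF h o, ths_all hn4 H₁ hTop hF h o,
      slN_zero H₁ hTop hF (h := h) o] with g k1 k2 k3 k4 R hX
    by_cases hf : FasL n hn P P' PB o g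
    · exact Or.inl (Or.inl (Or.inl ⟨hX, hf⟩))
    by_cases hO : OneS n (slo H₁ hTop hF o g)
    swap
    · exact Or.inl (Or.inl (Or.inr ⟨hX, hO⟩))
    have hON := (oneN_iff H₁ hTop hF o g).2 hO
    have hC : OneC n (slo H₁ hTop hF o g) (deriv (fun a => P a a) g) :=
      ⟨by
        have := hX.1
        rwa [slN_tar] at this, hO⟩
    by_cases hD' : DiffS hn P P' o g
    swap
    · obtain ⟨e4, e12⟩ := not_diffS hn4 hD'
      refine Or.inl (Or.inr ⟨hX, hON, k3 (k2 R) hON, e4, e12, ?_⟩)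
      by_contra hlt
      push Not at hlt
      refine hf fun l hl => ?_
      have h11 : l = 0 ∨ l = 1 ∨ l = 2 := by omega
      rcases h11 with rfl | rfl | rfl
      · rw [k4 (k2 R)]
        exact hX.1
      · exact hlt
      · rw [← e12]
        exact hlt
    by_cases hti : TiW hn P P' o g
    · by_cases hA : TopA n (slo H₁ hTop hF o g) (deriv (fun a => P a a) g)
      · exact Or.inr (Or.inr (Or.inl ⟨hX, slLe_top hA, hti, hON, hD'⟩))
      · refine Or.inr (Or.inr (Or.inr ⟨⟨k1 (k2 R) ⟨hX, hti, hA⟩, hA⟩, ?_⟩))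
        rintro (h9 | h9)
        · exact hf h9
        · exact h9 hD'
    · exact Or.inr (Or.inl ⟨fun l hl h9 => hti ⟨l, hl, h9⟩, hC, hD'⟩)
  obtain ⟨p, hp⟩ := noB_thin hall hrow hh
  exact ⟨p, Or.inr hp⟩

end Pool.ASM
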