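import Pool.Agent.H56.ASM.Xe
import Pool.Agent.H56.SLT.Exg

/-!
# The exchange of the target and a rough coordinate of the base, for all packages

`FasU`: all the slopes of the base are smaller than the slope of the target, and there is more than
one contact coordinate or a tie in the base. `TnP`, `vAll_tnP`: the windows with one contact
coordinate which have no boxes in all packages. `exch_one`: in dimension four, at a window with one
contact coordinate and a greedy order, no rough coordinate of the base is faster than the target, if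
the coordinates of the base after it are static. `Bt2W`, `Bt4W`: the windows with a tie in the base
which are left; `lBtE_24`.
-/

set_option autoImplicit false

namespace Pool.ASM

open MeasureTheory Set Filter Topology
open Pool.Agent.H49.Ent Pool.Agent.H32.Dense Pool.STK Pool.KA Pool.KSAT Pool.K2S Pool.PB
open Pool.GEN Pool.S6C Pool.GRW Pool.PKG Pool.STAT Pool.PM Pool.R1 Pool.Z4
open Pool.ONE (LocE Ext0 Ext rowN_of_ext)
open Pool.TOP (TopS rw_all)
open Pool.LEV (Law Lv)
open Pool.STR (NumI TopW Mac StaAt IsoAt StaU1 ThinAt SteepAt Rle)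
open Pool.MIC6
open Pool.ZFN (RgUp)
open Pool.SW (TopC NtO OneS NoTie Rgh Xa TieO NtP TopP LowT DifT ntO_meas lowT_meas perm_two)
open Pool.OWN72 (DiffS)
open Pool.MV (DfO exch_l)

/-- **All the slopes of the base are smaller than the slope of the target**, and there is more than
one contact coordinate or a tie in the base. -/
def FasU : WinC := fun n hn P P' PB o g => FasL n hn P P' PB o g ∧
  ¬ (OneN hn P P' o g ∧ DiffS hn P P' o g)

theorem lVoX_FasU {n : ℕ} (h : LVoX FasL n) : LVoX FasU n := h.mono fun _ _ _ _ _ _ hx => hx.1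

/-- All the slopes of the base are one. -/
theorem lVoA_U {n : ℕ} (hn3 : 3 ≤ n) (h : LVoX FasU n) : LVoA n := by
  intro hi hn hZ hF hTop S P r P' Λ PB H h₀ hh hh1 o
  filter_upwards [h hi hn hZ hF hTop S P r P' Λ PB H h₀ hh hh1 o] with g k R hx hs
  have e : ∀ l < n - 1, slN hn P P' o l g = 1 := fun l hl => by
    rw [← slo_slN H (hTop := hTop) (hF := hF) o g ⟨l, hl⟩, hs]
  refine k R hx ⟨fun l hl => ?_, fun hO => ?_⟩
  · rw [e l hl]
    exact hx.1
  · have h1 := hO.1 1 le_rfl (by omega)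
    rw [e 1 (by omega)] at h1
    exact lt_irrefl _ h1

theorem lTvX_U {n : ℕ} (h : LTvX FasL n) : LTvX FasU n := by
  intro hi hn hZ hF hTop S P r P' Λ PB H h₀ hh hh1 ρ hρ hrow
  refine (h hi hn hZ hF hTop S P r P' Λ PB H h₀ hh hh1 ρ hρ hrow).mono fun o =>
    Eventually.of_forall fun g _ hx => ⟨hx.1, fun hf => hx.2 ⟨hf, fun hO => ?_⟩⟩
  exact hx.1.2.2.1 ((oneN_iff H hTop hF o g).1 hO.1)

theorem lTp2X_U {n : ℕ} (h : LTp2X FasL n) : LTp2X FasU n := by
  intro hi hn hZ hF hTop S P r P' Λ PB H h₀ hh hh1 ρ hρ hrow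
  refine (h hi hn hZ hF hTop S P r P' Λ PB H h₀ hh hh1 ρ hρ hrow).mono fun o =>
    Eventually.of_forall fun g _ hx => ⟨hx.1, fun hf => hx.2 ⟨hf, fun hO => ?_⟩⟩
  exact hx.1.2.2 ((oneN_iff H hTop hF o g).1 hO.1)

/-- **The windows without boxes** with one contact coordinate: no tie with the last slope or the last
slope is the largest one, and the ties of the other slopes are below the last slope. -/
def TnP (n : ℕ) (s : Fin (n - 1) → ℝ) (σ : ℝ) : Prop :=
  1 < σ ∧ OneS n s ∧ (NtO n s σ ∨ ∀ i, s i ≤ σ) ∧ LowT n s σ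

theorem tnP_meas (n : ℕ) : MeasurableSet {p : (Fin (n - 1) → ℝ) × ℝ | TnP n p.1 p.2} := by
  have h1 : {p : (Fin (n - 1) → ℝ) × ℝ | TnP n p.1 p.2} =
      {p : (Fin (n - 1) → ℝ) × ℝ | 1 < p.2} ∩ ({p : (Fin (n - 1) → ℝ) × ℝ | OneS n p.1} ∩
      (({p : (Fin (n - 1) → ℝ) × ℝ | NtO n p.1 p.2} ∪
        ⋂ i : Fin (n - 1), {p : (Fin (n - 1) → ℝ) × ℝ | p.1 i ≤ p.2}) ∩
      {p : (Fin (n - 1) → ℝ) × ℝ | LowT n p.1 p.2})) := by
    ext p
    simp only [TnP, Set.mem_ofPred_eq, Set.mem_iInter, Set.mem_inter_iff, Set.mem_union]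
  have h2 : {p : (Fin (n - 1) → ℝ) × ℝ | OneS n p.1} =
      ⋂ i : Fin (n - 1), {p : (Fin (n - 1) → ℝ) × ℝ | 1 ≤ (i : ℕ) → 1 < p.1 i} := by
    ext p
    simp only [OneS, Set.mem_ofPred_eq, Set.mem_iInter]
  rw [h1]
  refine (measurableSet_lt measurable_const measurable_snd).inter (MeasurableSet.inter ?_
    (((ntO_meas n).union (MeasurableSet.iInter fun i => measurableSet_le
      ((measurable_pi_apply i).comp measurable_fst) measurable_snd)).inter (lowT_meas n)))
  rw [h2]
  refine MeasurableSet.iInter fun i => ?_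
  by_cases hi : 1 ≤ (i : ℕ)
  · have h3 : {p : (Fin (n - 1) → ℝ) × ℝ | 1 ≤ (i : ℕ) → 1 < p.1 i} =
        {p : (Fin (n - 1) → ℝ) × ℝ | 1 < p.1 i} := by
      ext p
      simp only [Set.mem_ofPred_eq]
      exact ⟨fun h => h hi, fun h _ => h⟩
    rw [h3]
    exact measurableSet_lt measurable_const ((measurable_pi_apply i).comp measurable_fst)
  · have h3 : {p : (Fin (n - 1) → ℝ) × ℝ | 1 ≤ (i : ℕ) → 1 < p.1 i} = Set.univ := by
      ext p
      simp only [Set.mem_ofPred_eq, Set.mem_univ, iff_true]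
      exact fun h => absurd h hi
    rw [h3]
    exact MeasurableSet.univ

/-- **No boxes at the windows** `TnP`, for all packages. -/
theorem vAll_tnP {n : ℕ} (hn4 : n ≤ 4) (h1 : LVoX FasU n) (hT : n = 4 → LTsA n)
    (hi : ∀ k, 2 ≤ k → k < n → Ext0 k)
    (hn : 2 ≤ n) (hZ : ∀ k, 1 ≤ k → k < n → FZX k) (hF : FZX (n - 1)) (hTop : TopS n) :
    VAll hn hTop hF (TnP n) := by
  intro S P r P' Λ PB H h h0 h1' ρ hρ hrow hW
  have h3 := (exY_KE (H := H) hTop hF hρ hn4 h).exB hn4 hZ
  have h4 := noB_X h1 hi hn hZ hF hTop S P r P' Λ PB H h h0 h1' ρ hρ hrow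
  have h5 := noB_td hn4 hT hi hn hZ hF hTop S P r P' Λ PB H h h0 h1' ρ hρ hrow
  obtain ⟨p, hp⟩ := NoB.noBS (h := h) (((noB_S (H := H) (hρ := hρ) (h := h)).or
    ((noB_V (P := P) Pool.VAS.micV h0 h1' h3).or (h4.or h5))).mono
    fun o => by
      filter_upwards [hW o, H.mac_all H.pble hTop hF,
        NumI.rwD_chg (nk := H.nk hTop hF) hρ H.up (H.tgs.law ()) o,
        slN_zero H hTop hF (h := h / 2) o,
        rwH_rho H hTop hF hρ (h' := h / 2) (by linarith) hrow o] with g k1 k2 k3 k4 k5 R _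
      obtain ⟨-, h7', hO, hor, hlow⟩ := k1 R
      have h7 : 1 < slN hn P P' o (n - 1) g := by
        rw [slN_tar]
        exact h7'
      rcases k2 o (k3 R).mem with h8 | h8
      swap
      · exact Or.inl h8
      by_cases hD : DiffS hn P P' o g
      · by_cases hti : TiW hn P P' o g
        · refine Or.inr (Or.inr (Or.inr ⟨⟨h7, h8⟩, ?_, hti, (oneN_iff H hTop hF o g).2 hO, hD⟩))
          rcases hor with hnt | hle
          · obtain ⟨l, hl, he⟩ := hti
            exfalso
            have h9 := noTie_ntW H hnt.1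
            exact h9 l hl he
          · exact slLe_top (H := H) (hTop := hTop) (hF := hF) ⟨h7', hle⟩
        · exact Or.inr (Or.inl ⟨fun l hl h9 => hti ⟨l, hl, h9⟩, ⟨h7', hO⟩, hD⟩)
      · obtain ⟨e4, e12⟩ := not_diffS hn4 hD
        refine Or.inr (Or.inr (Or.inl ⟨⟨h7, h8⟩, fun l hl => ?_, fun hOD => hD hOD.2⟩))
        have h9 := hlow ⟨1, by omega⟩ ⟨2, by omega⟩ le_rfl (by show (1 : ℕ) ≤ 2; omega)
          (fun h => by
            have := congrArg Fin.val h
            simp at this) (by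
            rw [slo_slN, slo_slN]
            exact e12)
        rw [slo_slN] at h9
        have h10 : slN hn P P' o 1 g < slN hn P P' o (n - 1) g := by
          rw [slN_tar]
          exact h9
        have h11 : l = 0 ∨ l = 1 ∨ l = 2 := by omega
        rcases h11 with rfl | rfl | rfl
        · rw [k4 (k5 R)]
          exact h7
        · exact h10
        · rw [← e12]
          exact h10) hrow h0
  exact ⟨p, Or.inr hp⟩


section

variable {n : ℕ} {hn : 2 ≤ n} {S : PCl n} {P : ℝ → ℝ → ℝ} {r ρ : ℝ → ℝ}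
  {P' : ℕ → List (Fin n) × Fin n → ℝ → ℝ → ℝ} {Λ : Finset (Fin n) → Fin n → ℝ → ℝ → ℝ}
  {PB : ℕ → List (Fin n) × Fin n → ℝ → ℝ → ℝ}

/-- **The exchange at the windows with one contact coordinate**, for all packages in dimension four:
the coordinate `l` of the base is rough and faster than the target, the coordinates of the base after
it are static, the order is greedy. There are no such windows. -/
theorem exch_one (h4 : n = 4) (H : PkT hn S P r P' Λ PB) (hTop : TopS n) (hF1 : FZX 1)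
    (hF : FZX (n - 1)) (hW : ∀ k, 2 ≤ k → k < n → Pool.TOP.RW k)
    (hV : VAll hn hTop hF (TnP n)) {h : ℝ} (hh : 0 ≤ h) (o : Od n) :
    ∀ᵐ g : ℝ, RwH H hTop hF h o g → OneN hn P P' o g →
      (StaAt P g ∨ RgUp P g (P g g) (deriv (fun a => P a a) g)) → DfO hn P' o g →
      1 < slN hn P P' o (n - 1) g → ∀ l, 1 ≤ l → l < n - 1 →
      ¬ StaAt (LvL hn P P' o l) g → (∀ i, l < i → i < n - 1 → StaAt (LvL hn P P' o i) g) →
      slN hn P P' o (n - 1) g < slN hn P P' o l g → False := by
  filter_upwards [exch_l (PB := PB) h4 H hTop hF1 hF hW (tnP_meas n) hV hh o,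
    ths_all h4.le H hTop hF h o] with g k1 k2 R hone hP hDf hσ l hl1 hl hns hsta hlt
  have hsl : ∀ i ≤ n - 1, slN hn P P' o i g = deriv (fun a => LL hn P P' o (i + 1) a a) g :=
    fun i hi => by
      rw [slN_lvl o hi, lvL_eq o hi]
  refine k1 R (fun i h1 h2 => ?_) (k2 R hone) hP hDf l hl1 hl ?_ (fun i h1 h2 => ?_) (fun _ => ?_)
    ?_
  · rw [← hsl i h2.le]
    exact hone i h1 h2
  · rw [← lvL_eq o hl.le]
    exact hns
  · rw [← lvL_eq o h2.le]
    exact hsta i h1 h2
  · rw [← slN_tar (hn := hn) (P := P) (P' := P') o g, ← hsl l hl.le]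
    exact hlt
  · intro s s0 π hπ hinj
    have hle : ∀ j, 1 ≤ j → j < n - 1 → 1 ≤ ix l j ∧ ix l j ≤ n - 1 ∧ ix l j ≠ l := fun j h1 h2 => by
      unfold ix
      split_ifs <;> omega
    have hτ : ∀ i : Fin (n - 1), 1 ≤ (i : ℕ) → s i = slN hn P P' o (ix l (π i)) g := fun i hi => by
      obtain ⟨a1, a2, a3⟩ := hπ i hi
      rw [a3, hsl _ (hle _ a1 a2).2.1]
    have hgt : ∀ i : Fin (n - 1), 1 ≤ (i : ℕ) → 1 < s i := fun i hi => by
      obtain ⟨a1, a2, a3⟩ := hπ i hi
      obtain ⟨b1, b2, b3⟩ := hle _ a1 a2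
      rw [hτ i hi]
      rcases b2.lt_or_eq with h5 | h5
      · exact hone _ b1 h5
      · rw [h5]
        exact hσ
    have hl1' : 1 < slN hn P P' o l g := hone l hl1 hl
    have e2 : ix l 2 = n - 1 := by
      unfold ix
      split_ifs <;> omega
    have e1 : 1 ≤ ix l 1 ∧ ix l 1 < n - 1 := by
      unfold ix
      split_ifs <;> omega
    have hcase : ∀ i : Fin (n - 1), 1 ≤ (i : ℕ) → s i = slN hn P P' o (ix l 1) g ∨
        s i = slN hn P P' o (n - 1) g := fun i hi => by
      obtain ⟨a1, a2, -⟩ := hπ i hi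
      rw [hτ i hi]
      have h5 : π i = 1 ∨ π i = 2 := by omega
      rcases h5 with h5 | h5
      · rw [h5]
        exact Or.inl rfl
      · rw [h5, e2]
        exact Or.inr rfl
    rw [← hsl l hl.le]
    refine ⟨hl1', hgt, ?_, fun i j hi hj hij he => ?_⟩
    · by_cases ht : slN hn P P' o (ix l 1) g = slN hn P P' o l g
      · refine Or.inr fun i => ?_
        rcases Nat.eq_zero_or_pos (i : ℕ) with h5 | h5
        · rw [s0 i h5]
          exact hl1'.le
        · rcases hcase i h5 with h6 | h6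
          · rw [h6, ht]
          · rw [h6]
            exact hlt.le
      · refine Or.inl ⟨fun i => ?_, fun i hi => hgt i hi⟩
        rcases Nat.eq_zero_or_pos (i : ℕ) with h5 | h5
        · rw [s0 i h5]
          exact hl1'.ne
        · rcases hcase i h5 with h6 | h6
          · rw [h6]
            exact ht
          · rw [h6]
            exact hlt.ne
    · obtain ⟨-, h7⟩ := perm_two h4.le hi hj hij (fun i hi => ⟨(hπ i hi).1, (hπ i hi).2.1⟩) hinj
      have f1 := hτ i hi
      have f2 := hτ j hj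
      rcases h7 with ⟨h8, h9⟩ | ⟨h8, h9⟩
      · rw [f1, h8, e2]
        exact hlt
      · rw [he, f2, h8, e2]
        exact hlt

/-- **The windows with a tie in the base which is above the target** and which are left by the
exchange: the first coordinate of the tie is static, and the second one is static or the order is not
greedy near the window. -/
structure Bt2W (hn : 2 ≤ n) (P : ℝ → ℝ → ℝ) (P' PB : ℕ → List (Fin n) × Fin n → ℝ → ℝ → ℝ)
    (o : Od n) (g : ℝ) : Prop where
  bti : BtiW hn P P' PB o g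
  lt : slN hn P P' o (n - 1) g < slN hn P P' o 1 g
  sta : StaAt (LvL hn P P' o 1) g
  sta2 : StaAt (LvL hn P P' o 2) g ∨ ¬ DfO hn P' o g

/-- **The triple ties** with one contact coordinate. -/
structure Bt4W (hn : 2 ≤ n) (P : ℝ → ℝ → ℝ) (P' PB : ℕ → List (Fin n) × Fin n → ℝ → ℝ → ℝ)
    (o : Od n) (g : ℝ) : Prop where
  bti : BtiW hn P P' PB o g
  eq : slN hn P P' o (n - 1) g = slN hn P P' o 1 g

/-- **The ties in the base**, for all packages. -/
theorem bti_exch (H : PkT hn S P r P' Λ PB) (hTop : TopS n) (hF1 : FZX 1)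
    (hF : FZX (n - 1)) (hW : ∀ k, 2 ≤ k → k < n → Pool.TOP.RW k)
    (hV : VAll hn hTop hF (TnP n)) {h : ℝ} (hh : 0 ≤ h) (o : Od n) :
    ∀ᵐ g : ℝ, RwH H hTop hF h o g → BtiW hn P P' PB o g →
      Bt2W hn P P' PB o g ∨ Bt4W hn P P' PB o g := by
  by_cases h4 : n = 4
  swap
  · exact Eventually.of_forall fun g _ hX => absurd hX.four h4
  filter_upwards [exch_one h4 H hTop hF1 hF hW hV hh o, rg_ths H hTop hF,
    Pool.MV.dfo_of H.toPk hTop hF] with g k1 k2 k3 R hX
  have ho := R.rwd.mem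
  rcases hX.ge.lt_or_eq with hlt | heq
  swap
  · exact Or.inr ⟨hX, heq⟩
  left
  have hPr : StaAt P g ∨ RgUp P g (P g g) (deriv (fun a => P a a) g) := by
    have h5 := k2 o ho (n - 1) le_rfl (Or.inl (by
      have eL : LvL hn P P' o (n - 1) = P := by
        funext a w
        exact LvL_top o a w
      rw [eL, LvT_top]
      exact hX.th.2))
    rwa [LL_lst] at h5
  have hlt2 : slN hn P P' o (n - 1) g < slN hn P P' o 2 g := by
    rw [← hX.tie]
    exact hlt
  by_cases hDf : DfO hn P' o g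
  · have hs2 : StaAt (LvL hn P P' o 2) g := by
      by_contra hns
      exact k1 R hX.one hPr hDf hX.th.1 2 (by norm_num) (by omega) hns
        (fun i h5 h6 => by omega) hlt2
    have hs1 : StaAt (LvL hn P P' o 1) g := by
      by_contra hns
      refine k1 R hX.one hPr hDf hX.th.1 1 le_rfl (by omega) hns (fun i h5 h6 => ?_) hlt
      have h7 : i = 2 := by omega
      rw [h7]
      exact hs2
    exact ⟨hX, hlt, hs1, Or.inl hs2⟩
  · refine ⟨hX, hlt, ?_, Or.inr hDf⟩
    by_contra hns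
    refine hDf (k3 o ho fun i hi l hl hl1 => Or.inr (Or.inr ?_))
    have e1 : l = 1 := by omega
    rw [e1]
    have h5 := (k2 o ho 1 (by omega) (hX.ths 1 (by omega))).resolve_left (by
      rw [← lvL_eq o (by omega)]
      exact hns)
    rw [LL_low (by omega) (by omega)] at h5
    exact h5

end

/-- **No boxes at the ties of the base** which are left by the exchange, for the extremal classes. -/
def LBt2 (n : ℕ) : Prop := (∀ k, 2 ≤ k → k < n → Ext0 k) →
  Tol fun η => AllX n η fun {hn} {_} {P} {_} {P'} {_} {PB} H hTop hF h _ =>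
    NoB H hTop hF (H.rle h) h (Bt2W hn P P' PB)

/-- **No boxes at the triple ties**, for the extremal classes. -/
def LBt4 (n : ℕ) : Prop := (∀ k, 2 ≤ k → k < n → Ext0 k) →
  Tol fun η => AllX n η fun {hn} {_} {P} {_} {P'} {_} {PB} H hTop hF h _ =>
    NoB H hTop hF (H.rle h) h (Bt4W hn P P' PB)

/-- **The ties of the base** from the two cases. -/
theorem lBtE_24 {n : ℕ} (hn4 : n ≤ 4) (h1 : LVoX FasU n) (hT : n = 4 → LTsA n) (h2 : LBt2 n)
    (h4 : LBt4 n) : LBtE n := fun hi => by
  refine ((h2 hi).and ((h4 hi).and (Tol.le (1 / 2) (by norm_num)))).mono fun η hη => ?_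
  obtain ⟨hη2, hη4, h5⟩ := hη
  intro hn hZ hF hTop D hD hD1 hEx
  have e1 := h5 D hD
  obtain ⟨x₂, a2, b2⟩ := hη2 hn hZ hF hTop D hD hD1 hEx
  obtain ⟨x₄, a4, b4⟩ := hη4 hn hZ hF hTop D hD hD1 hEx
  refine ⟨min x₂ x₄, lt_min a2 a4, fun x h3 h3' S P r P' Λ PB H => ?_⟩
  have hV := vAll_tnP hn4 h1 hT hi hn hZ hF hTop
  have hW := rw_all hZ fun k k1 k2 => rowN_of_ext (hi k k1 k2)
  refine ((b2 x h3 (h3'.trans (min_le_left _ _)) S P r P' Λ PB H).or
    (b4 x h3 (h3'.trans (min_le_right _ _)) S P r P' Λ PB H)).mono fun o => ?_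
  filter_upwards [bti_exch H hTop (hZ 1 le_rfl (by omega)) hF hW hV
    (h := (1 - η D) * D) (mul_nonneg (by linarith) hD.le) o,
    H.rwH_chg hTop hF ((1 - η D) * D) o] with g k1 k2 R hX
  exact k1 (k2 R) hX

end Pool.ASM
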