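import Pool.Agent.H56.ASM.Sk26
import Pool.Agent.H14.P4J.Fst

/-!
# The windows with a tie and a faster coordinate, with P4J

`LFastR X n`: no boxes at the windows with a tie and a faster coordinate, outside `X`, which are not
covered by P4, P5, P4I and P4J (`FtRem`, helper14). `lBs_YJ`: the boxes.
-/

set_option autoImplicit false

namespace Pool.ASM

open MeasureTheory Set Filter Topology
open Pool.Agent.H49.Ent Pool.Agent.H32.Dense Pool.STK Pool.KA Pool.KSAT Pool.K2S Pool.PB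
open Pool.GEN Pool.S6C Pool.GRW Pool.PKG Pool.STAT Pool.PM Pool.R1 Pool.Z4
open Pool.ONE (LocE Ext0 Ext rowN_of_ext)
open Pool.TOP (TopS rw_all)
open Pool.LEV (Law Lv)
open Pool.STR (NumI TopW Mac StaAt IsoAt StaU1 ThinAt SteepAt Rle)
open Pool.MIC6
open Pool.SW (TopC NtO OneS NoTie Rgh Xa TieO)
open Pool.MV (nore_ind8)

/-- **No boxes at the windows with a tie and a faster coordinate** which are not covered by P4, P5,
P4I and P4J. -/
def LFastR (X : WinC) (n : ℕ) : Prop := (∀ k, 2 ≤ k → k < n → Ext0 k) →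
  Tol fun η => AllX n η fun {_} {_} {_} {_} {_} {_} {_} H hTop hF h _ =>
    NoB H hTop hF (H.rle h) h (FtRem X H hTop hF)

theorem LFastI.r {X : WinC} {n : ℕ} (h : LFastI X n) : LFastR X n := fun hi => by
  refine (h hi).mono fun η h1 => ?_
  intro hn hZ hF hTop D hD hD1 hEx
  obtain ⟨x₀, a0, b0⟩ := h1 hn hZ hF hTop D hD hD1 hEx
  refine ⟨x₀, a0, fun x h3 h4 S P r P' Λ PB H => ?_⟩
  exact (b0 x h3 h4 S P r P' Λ PB H).mono fun o =>
    Eventually.of_forall fun g _ hx => hx.1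

/-- **No boxes** from their parts, `n ≥ 3`. -/
theorem lBs_YJ {X : WinC} {n : ℕ} (hn3 : 3 ≤ n) (hn4 : n ≤ 4) (hVF : LVoX X n) (hE1 : LExYX X n)
    (hTw : LTwA n)
    (hTq : LTq1YX X n) (hFc : LFcX X n) (hPJ : P4JStmt1) (hFP : LFastR X n) (c1 : n = 4 → LCellF n [Kd.one])
    (c2 : n = 4 → LCellF n [Kd.one, Kd.thin]) (c3 : n = 4 → LCellF n [Kd.one, Kd.sta]) :
    LBs n := fun hi => by
  refine ((lFaW_ths hn4 c1 c2 c3 hi).and ((hTq hi).and ((hFc hi).and ((hFP hi).and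
    ((tol_micX (n := n - 1 + 1) (B₀ := n + 2) (by omega) (by omega)).and
      ((tol_micI (n := n - 1 + 1) (B₀ := n + 2) (by omega) (by omega)).and
      ((tol_micJ hPJ (n := n - 1 + 1) (B₀ := n + 2) (by omega) (by omega)).and
      (Tol.le (1 / 2) (by norm_num))))))))).mono fun η h => ?_
  obtain ⟨h1, h2, h3, h4, h6, h7, h8, h5⟩ := h
  intro hn hZ hF hTop D hD hD1 hEx S P r P' Λ PB H
  have e1 := h5 D hD
  obtain ⟨h, hh'⟩ : ∃ h, h = (1 - η D) * D := ⟨_, rfl⟩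
  have hh : 0 < h := by
    rw [hh']
    exact mul_pos (by linarith) hD
  have hh1 : h ≤ 1 := by
    rw [hh']
    nlinarith
  obtain ⟨S', PW, H', hPW⟩ := H.subW
  obtain ⟨S₁, hne, hs, hEA⟩ := hE1 hi hn hZ hF hTop S' P r P' Λ PB H' h hh hh1 _ (H'.rle h)
    (rt_def H'.rate.lip H'.rate.mono _)
  obtain ⟨H₁, hH₁⟩ : ∃ H₁ : PkT hn S₁ P r P' Λ PB, H₁ = subc H' hne hs := ⟨_, rfl⟩
  have hEY : ExY H₁ hTop hF (H₁.rle h) h (ExWX X H₁ hTop hF) := hEA
  have hEA' := hEY.exB hn4 hZ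
  have hPW' : ∀ j, Pool.LBT.ThrOf (Pool.CHB.chsysB n none (P' j)) S₁ (PW j) := fun j => (hPW j).sub hs
  obtain ⟨x₄, a4, b4⟩ := h2 hn hZ hF hTop D hD hD1 hEx
  obtain ⟨x₁, a1, b1⟩ := h3 hn hZ hF hTop D hD hD1 hEx
  obtain ⟨x₂, a2, b2⟩ := h4 hn hZ hF hTop D hD hD1 hEx
  obtain ⟨x₃, a3, b3⟩ := h6 D hD hD1
  obtain ⟨x₅, a5, b5⟩ := h7 D hD hD1
  obtain ⟨x₆, a6, b6⟩ := h8 D hD hD1
  obtain ⟨x, hx⟩ : ∃ x, x = min (min x₄ (min x₅ x₆)) (min x₁ (min x₂ x₃)) := ⟨_, rfl⟩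
  have hx0 : (1 + η D) * D < x := by
    rw [hx]
    exact lt_min (lt_min a4 (lt_min a5 a6)) (lt_min a1 (lt_min a2 a3))
  have hxc : x ≤ min x₄ (min x₅ x₆) := by
    rw [hx]
    exact min_le_left _ _
  have hxa : x ≤ x₄ := hxc.trans (min_le_left _ _)
  have hx5 : x ≤ x₅ := (hxc.trans (min_le_right _ _)).trans (min_le_left _ _)
  have hx6 : x ≤ x₆ := (hxc.trans (min_le_right _ _)).trans (min_le_right _ _)
  have hxb : x ≤ min x₁ (min x₂ x₃) := by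
    rw [hx]
    exact min_le_right _ _
  have hx1 : x ≤ x₁ := hxb.trans (min_le_left _ _)
  have hx2 : x ≤ x₂ := hxb.trans ((min_le_right _ _).trans (min_le_left _ _))
  have hx3 : x ≤ x₃ := hxb.trans ((min_le_right _ _).trans (min_le_right _ _))
  obtain ⟨hp4, hp5⟩ := b3 x hx3
  have hpI := b5 x hx5
  have hpJ := b6 x hx6
  have hTo := b4 x hx0 hxa S₁ P r P' Λ PB H₁
  have hFc' := b1 x hx0 hx1 S₁ P r P' Λ PB H₁
  have hLe := b2 x hx0 hx2 S₁ P r P' Λ PB H₁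
  have hFa := h1 hn hZ hF hTop D hD hD1 hEx S₁ P r P' Λ PB H₁
  rw [← hh'] at hTo hFc' hLe hp4 hp5 hFa hpI hpJ
  rw [← hh']
  have hTo' := hTo hEY
  have hrow := rt_def H₁.rate.lip H₁.rate.mono h
  have hVF' := noB_X hVF hi hn hZ hF hTop S₁ P r P' Λ PB H₁ h hh hh1 _ (H₁.rle h) hrow
  have hTw' := hTw hi hn hZ hF hTop S₁ P r P' Λ PB H₁ h hh hh1 _ (H₁.rle h) hrow
  -- the windows with a tie and a faster coordinate
  have hfast : NoB H₁ hTop hF (H₁.rle h) h (FtWX X H₁ hTop hF) :=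
    noB_fastJ hn4 hZ hh hh1 hp4 hp5 hpI hpJ hPW' hEY hFc' hLe
  have hall : NoB H₁ hTop hF (H₁.rle h) h (ThW hn P P' PB) := by
    refine ((hVF'.or hTw').or ((noB_V (P := P) (P' := P') Pool.VAS.micV hh hh1 hEA').or
      (hTo'.or hfast))).mono fun o => ?_
    filter_upwards [hFa o, H₁.rwH_chg hTop hF h o] with g k1 k2 R hX
    by_cases hf : X n hn P P' PB o g
    · exact Or.inl (Or.inl ⟨hX, hf⟩)
    by_cases hO : OneS n (slo H₁ hTop hF o g)
    swap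
    · exact Or.inl (Or.inr ⟨hX, hO⟩)
    have hC : OneC n (slo H₁ hTop hF o g) (deriv (fun a => P a a) g) :=
      ⟨by
        have := hX.1
        rwa [slN_tar] at this, hO⟩
    have hW : ExWX X H₁ hTop hF o g := ⟨hX, hC, hf⟩
    by_cases hti : TiW hn P P' o g
    · by_cases hA : TopA n (slo H₁ hTop hF o g) (deriv (fun a => P a a) g)
      · exact Or.inr (Or.inr (Or.inl ⟨hW, hti, hA⟩))
      · exact Or.inr (Or.inr (Or.inr ⟨⟨k1 (k2 R) ⟨hX, hti, hA⟩, hA⟩, hf⟩))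
    · exact Or.inr (Or.inl ⟨fun l hl h5 => hti ⟨l, hl, h5⟩, hW⟩)
  obtain ⟨p, hp⟩ := noB_thin hall hrow hh
  exact ⟨p, Or.inr hp⟩

end Pool.ASM
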