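import Pool.Agent.H56.ASM.Sk27
import Pool.Agent.H54.C2T.Cel
import Pool.Agent.H88.D2.Stz

/-!
# The kinds of the base with one contact coordinate, for all packages

`ths_all`: for every package with at most four coordinates, at almost every good window where only the
first coordinate of the base has the slope one, all the coordinates of the base are thin or static.
`noB_ths`: it is enough to exclude the boxes at the windows where the base is thin or static.
-/

set_option autoImplicit false

namespace Pool.ASM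

open MeasureTheory Set Filter Topology
open Pool.Agent.H49.Ent Pool.Agent.H32.Dense Pool.STK Pool.KA Pool.KSAT Pool.K2S Pool.PB
open Pool.GEN Pool.S6C Pool.GRW Pool.PKG Pool.STAT Pool.PM Pool.R1 Pool.Z4
open Pool.ONE (LocE Ext0 Ext rowN_of_ext)
open Pool.TOP (TopS rw_all)
open Pool.STR (NumI TopW Mac StaAt IsoAt StaU1 ThinAt SteepAt Rle)
open Pool.MIC6
open Pool.SW (TopC NtO OneS NoTie Rgh Xa TieO)

variable {n : ℕ} {hn : 2 ≤ n} {S : PCl n} {P : ℝ → ℝ → ℝ} {r : ℝ → ℝ}
  {P' : ℕ → List (Fin n) × Fin n → ℝ → ℝ → ℝ} {Λ : Finset (Fin n) → Fin n → ℝ → ℝ → ℝ}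
  {PB : ℕ → List (Fin n) × Fin n → ℝ → ℝ → ℝ}

/-- Only the first coordinate of the base has the slope one. -/
def OneN (hn : 2 ≤ n) (P : ℝ → ℝ → ℝ) (P' : ℕ → List (Fin n) × Fin n → ℝ → ℝ → ℝ) (o : Od n)
    (g : ℝ) : Prop := ∀ l, 1 ≤ l → l < n - 1 → 1 < slN hn P P' o l g

theorem oneN_iff (H : PkT hn S P r P' Λ PB) (hTop : TopS n) (hF : FZX (n - 1)) (o : Od n)
    (g : ℝ) : OneN hn P P' o g ↔ OneS n (slo H hTop hF o g) := by
  constructor
  · intro h i hi
    rw [slo_slN]
    exact h i hi i.2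
  · intro h l h1 h2
    have h3 := h ⟨l, h2⟩ h1
    rwa [slo_slN] at h3

/-- **The kinds of the base**, for all packages. -/
theorem ths_all (hn4 : n ≤ 4) (H : PkT hn S P r P' Λ PB) (hTop : TopS n) (hF : FZX (n - 1))
    (h : ℝ) (o : Od n) : ∀ᵐ g : ℝ, RwH H hTop hF h o g → OneN hn P P' o g →
      ∀ l < n - 1, ThS hn P P' PB o l g := by
  have hbig := TwoX.big (H := H) (hTop := hTop) (hF := hF) (h := h)
    (X := fun o g => OneN hn P P' o g) (fun i b1 b2 =>
    twoX_of H hTop hF b1 (by omega) fun κ hκ => by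
      match κ with
      | [] => exact CellX.of (cell_one H hTop hF h) _
      | Kd.one :: κ =>
        intro o
        refine Eventually.of_forall fun g R hX hth hkd => ?_
        exfalso
        have h1 : deriv (fun a => LvL hn P P' o 1 a a) g = 1 := hkd 1 (by simp)
        have h2 := hX 1 le_rfl (by simp at hκ; omega)
        rw [slN_lvl o (by omega), h1] at h2
        exact lt_irrefl _ h2
      | [Kd.thin] =>
        refine CellX.of (cell_of_q H hTop hF h (by simp) (by simp at hκ ⊢; omega)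
          fun Sl hSl h2 => ?_) _
        exact Pool.C2T.cellQ_one_thin n Sl ((hSl 1 (by simp)).2.1 rfl) h2
      | [Kd.sta] =>
        refine CellX.of (cell_of_q H hTop hF h (by simp) (by simp at hκ ⊢; omega)
          fun Sl _ _ => ?_) _
        exact Pool.JST.cellQ_sta n Sl (fun l => [Kd.one, Kd.sta].getD l .one) rfl rfl
      | Kd.thin :: _ :: _ => exact absurd hκ (by simp; omega)
      | Kd.sta :: _ :: _ => exact absurd hκ (by simp; omega)) o
  filter_upwards [hbig, ths_of H hTop hF] with g k1 k2 R hX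
  exact k2 o R.rwd.mem fun i b1 b2 => k1 R hX i b1 b2

/-- **It is enough to exclude the windows where the base is thin or static.** -/
theorem noB_ths {H : PkT hn S P r P' Λ PB} {hTop : TopS n} {hF : FZX (n - 1)} {ρ : ℝ → ℝ}
    {hρ : Rle r ρ} {h : ℝ} (hh : 0 < h) (hn4 : n ≤ 4)
    (hrow : ∀ᵐ Q : ℝ, deriv ρ Q < 1 → h ≤ 1 - deriv r Q) {X : Od n → ℝ → Prop}
    (hX : ∀ o g, X o g → OneN hn P P' o g)
    (hB : NoB H hTop hF hρ h fun o g => X o g ∧ ∀ l < n - 1, ThS hn P P' PB o l g) :
    NoB H hTop hF hρ h X := by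
  refine hB.mono fun o => ?_
  filter_upwards [ths_all hn4 H hTop hF (h / 2) o,
    rwH_rho H hTop hF hρ (h' := h / 2) (by linarith) hrow o] with g k1 k2 R hx
  exact ⟨hx, k1 (k2 R) (hX o g hx)⟩

end Pool.ASM
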