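import Pool.Agent.H56.ASM.Xl

/-!
# The set of void windows with one contact coordinate, or with the product condition

`FasO`: only one coordinate of the base is a contact coordinate, and all the slopes of the base are
smaller than the slope of the target. `FasN`: `FasO` or `FasM`.
-/

set_option autoImplicit false

namespace Pool.ASM

open MeasureTheory Set Filter Topology
open Pool.Agent.H49.Ent Pool.Agent.H32.Dense Pool.STK Pool.KA Pool.KSAT Pool.K2S Pool.PB
open Pool.GEN Pool.S6C Pool.GRW Pool.PKG Pool.STAT Pool.PM Pool.R1 Pool.Z4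
open Pool.STR (NumI TopW Mac StaAt IsoAt StaU1 ThinAt SteepAt Rle)
open Pool.MIC6
open Pool.SW (TopC NtO OneS NoTie Rgh Xa TieO)

/-- **Only one contact coordinate in the base, and all the slopes of the base are smaller than the
slope of the target.** -/
def FasO : WinC := fun n hn P P' PB o g =>
  (∀ l, 1 ≤ l → l < n - 1 → 1 < slN hn P P' o l g) ∧ FasL n hn P P' PB o g

/-- **One contact coordinate and smaller slopes, or the product condition.** -/
def FasN : WinC := fun n hn P P' PB o g => FasO n hn P P' PB o g ∨ FasM n hn P P' PB o g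

theorem lVoN_of {n : ℕ} (h : LVoX FasO n) (h' : LVoX FasM n) : LVoX FasN n := h.or h'

theorem lVoN_of_L {n : ℕ} (h : LVoX FasL n) : LVoX FasN n :=
  (h.mono fun _ _ _ _ _ _ hx => hx.2 : LVoX FasO n).or (lVoM_of_L h)

theorem lVoA_N {n : ℕ} (h : LVoX FasN n) : LVoA n :=
  lVoA_M (h.mono fun _ _ _ _ _ _ hx => Or.inr hx)

/-- At the thin windows outside `FasN` of dimension four with more than one contact coordinate and
no ties: the third slope `s` is larger than the slope `σ` of the target, or `(s - 1) (σ - 1) ≤ 1`. -/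
theorem fasN_two {hn : 2 ≤ 4} {P : ℝ → ℝ → ℝ} {P' PB : ℕ → List (Fin 4) × Fin 4 → ℝ → ℝ → ℝ}
    {o : Od 4} {g : ℝ} (hX : ¬ FasN 4 hn P P' PB o g) {l : ℕ} (hl : l < 3)
    (h1 : ∀ k < 3, k ≠ l → slN hn P P' o k g = 1) :
    slN hn P P' o 3 g ≤ slN hn P P' o l g ∨
      (slN hn P P' o l g - 1) * (slN hn P P' o 3 g - 1) ≤ 1 := by
  by_contra hcon
  push Not at hcon
  refine hX (Or.inr fun k hk => ?_)
  by_cases hkl : k = l
  · subst hkl
    exact Or.inr ⟨hcon.1, hcon.2⟩
  · exact Or.inl (h1 k (by omega) hkl)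

end Pool.ASM
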