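import Pool.Agent.H56.ASM.Xg

/-!
# The parts without boxes, with distinct slopes at one contact coordinate left out

`vAll_nU`, `lBs_U`: as `vAll_nP`, `lBs_E`, where no thin windows with a target faster than the base
are excluded at one contact coordinate and different slopes of the base.
-/

set_option autoImplicit false

namespace Pool.ASM

open MeasureTheory Set Filter Topology
open Pool.Agent.H49.Ent Pool.Agent.H32.Dense Pool.STK Pool.KA Pool.KSAT Pool.K2S Pool.PB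
open Pool.GEN Pool.S6C Pool.GRW Pool.PKG Pool.STAT Pool.PM Pool.R1 Pool.Z4
open Pool.ONE (LocE Ext0 Ext rowN_of_ext)
open Pool.TOP (TopS rw_all)
open Pool.LEV (Law Lv)
open Pool.STR (NumI TopW Mac StaAt IsoAt StaU1 ThinAt SteepAt Rle)
open Pool.MIC6
open Pool.SW (TopC NtO OneS NoTie Rgh Xa TieO NtP TopP LowT DifT)
open Pool.OWN72 (DiffS)

/-- **No boxes without ties** at the windows with one contact coordinate and with the ties of the
base below the target, for all packages. -/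
theorem vAll_nU {n : ℕ} (hn4 : n ≤ 4) (h1 : LVoX FasU n)
    (hi : ∀ k, 2 ≤ k → k < n → Ext0 k)
    (hn : 2 ≤ n) (hZ : ∀ k, 1 ≤ k → k < n → FZX k) (hF : FZX (n - 1)) (hTop : TopS n) :
    VAll hn hTop hF (NtP n) := by
  intro S P r P' Λ PB H h h0 h1' ρ hρ hrow hW
  have h3 := (exY_KE (H := H) hTop hF hρ hn4 h).exB hn4 hZ
  have h4 := noB_X h1 hi hn hZ hF hTop S P r P' Λ PB H h h0 h1' ρ hρ hrow
  obtain ⟨p, hp⟩ := NoB.noBS (h := h) ((((noB_D (H := H) (hρ := hρ) (h := h)).or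
    (noB_S (hρ := hρ) (h := h))).or ((noB_V (P := P) Pool.VAS.micV h0 h1' h3).or h4)).mono
    fun o => by
      filter_upwards [hW o, H.mac_all H.pble hTop hF,
        NumI.rwD_chg (nk := H.nk hTop hF) hρ H.up (H.tgs.law ()) o,
        slN_zero H hTop hF (h := h / 2) o,
        rwH_rho H hTop hF hρ (h' := h / 2) (by linarith) hrow o] with g k1 k2 k3 k4 k5 R _
      obtain ⟨-, ⟨h5, h6⟩, h6'⟩ := k1 R
      rcases le_or_gt (slN hn P P' o (n - 1) g) 1 with h7 | h7
      · exact Or.inl (Or.inl (Or.inl h7))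
      rcases k2 o (k3 R).mem with h8 | h8
      swap
      · exact Or.inl (Or.inr h8)
      by_cases hD : DiffS hn P P' o g
      · exact Or.inr (Or.inl ⟨noTie_ntW H h5, ⟨by rwa [slN_tar] at h7, h6⟩, hD⟩)
      · obtain ⟨e4, e12⟩ := not_diffS hn4 hD
        refine Or.inr (Or.inr ⟨⟨h7, h8⟩, fun l hl => ?_, fun hOD => hD hOD.2⟩)
        have h9 := h6' ⟨1, by omega⟩ ⟨2, by omega⟩ le_rfl (by show (1 : ℕ) ≤ 2; omega)
          (fun h => by
            have := congrArg Fin.val h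
            simp at this) (by
            rw [slo_slN, slo_slN]
            exact e12)
        rw [slo_slN] at h9
        have h10 : slN hn P P' o 1 g < slN hn P P' o (n - 1) g := by
          rw [slN_tar]
          exact h9
        have h11 : l = 0 ∨ l = 1 ∨ l = 2 := by omega
        rcases h11 with rfl | rfl | rfl
        · rw [k4 (k5 R)]
          exact h7
        · exact h10
        · rw [← e12]
          exact h10) hrow h0
  exact ⟨p, Or.inr hp⟩

/-- **No boxes** from their parts, `n ≥ 3`. -/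
theorem lBs_U {n : ℕ} (hn4 : n ≤ 4) (hVF : LVoX FasU n) (hTw : LTwA n)
    (hTs : n = 4 → LTsA n) (hBt : n = 4 → LBtE n)
    (hFP : LFastR FasD n) : LBs n := fun hi => by
  have hBt' : Tol fun η => AllX n η fun {hn} {_} {P} {_} {P'} {_} {PB} H hTop hF h _ =>
      NoB H hTop hF (H.rle h) h (BtiW hn P P' PB) := by
    by_cases h4 : n = 4
    · exact hBt h4 hi
    · refine Tol.of_all fun η h0 _ => ?_
      intro hn hZ hF hTop D hD hD1 hE
      refine ⟨(1 + η D) * D + 1, by linarith, fun x hx hx' S P r P' Λ PB H => ?_⟩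
      exact noB_false fun o => Eventually.of_forall fun g _ hX => h4 hX.four
  refine ((lFaW_ths hn4 (fun _ => lCellA_one n |>.f)
    (fun h4 => (Pool.C2T.lCellA_one_thin (by omega)).f)
    (fun h4 => (lCellA_sta (by omega)).f) hi).and (hBt'.and
    (((Pool.ORD65.lFc_le (n := n) hn4).x (X := FasD) hi).and ((hFP hi).and
    ((tol_micX (n := n - 1 + 1) (B₀ := n + 2) (by omega) (by omega)).and
      ((tol_micI (n := n - 1 + 1) (B₀ := n + 2) (by omega) (by omega)).and
      ((tol_micJ Pool.P4J.p4j (n := n - 1 + 1) (B₀ := n + 2) (by omega) (by omega)).and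
      (Tol.le (1 / 2) (by norm_num))))))))).mono fun η h => ?_
  obtain ⟨h1, h2, h3, h4, h6, h7, h8, h5⟩ := h
  intro hn hZ hF hTop D hD hD1 hEx S P r P' Λ PB H
  have e1 := h5 D hD
  obtain ⟨h, hh'⟩ : ∃ h, h = (1 - η D) * D := ⟨_, rfl⟩
  have hh : 0 < h := by
    rw [hh']
    exact mul_pos (by linarith) hD
  have hh1 : h ≤ 1 := by
    rw [hh']
    nlinarith
  obtain ⟨S', PW, H₁, hPW⟩ := H.subW
  have hEY₀ : ExY H₁ hTop hF (H₁.rle h) h fun o g =>
      OneC n (slo H₁ hTop hF o g) (deriv (fun a => P a a) g) ∧ DiffS hn P P' o g :=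
    exY_KE hTop hF (H₁.rle h) hn4 h
  have hEY : ExY H₁ hTop hF (H₁.rle h) h (ExWX FasD H₁ hTop hF) := by
    refine hEY₀.mono fun o => Eventually.of_forall fun g _ hX => ⟨hX.2.1, ?_⟩
    by_contra hD'
    exact hX.2.2 (Or.inr hD')
  have hEA' := hEY₀.exB hn4 hZ
  obtain ⟨x₄, a4, b4⟩ := h2 hn hZ hF hTop D hD hD1 hEx
  obtain ⟨x₁, a1, b1⟩ := h3 hn hZ hF hTop D hD hD1 hEx
  obtain ⟨x₂, a2, b2⟩ := h4 hn hZ hF hTop D hD hD1 hEx
  obtain ⟨x₃, a3, b3⟩ := h6 D hD hD1
  obtain ⟨x₅, a5, b5⟩ := h7 D hD hD1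
  obtain ⟨x₆, a6, b6⟩ := h8 D hD hD1
  obtain ⟨x, hx⟩ : ∃ x, x = min (min x₄ (min x₅ x₆)) (min x₁ (min x₂ x₃)) := ⟨_, rfl⟩
  have hx0 : (1 + η D) * D < x := by
    rw [hx]
    exact lt_min (lt_min a4 (lt_min a5 a6)) (lt_min a1 (lt_min a2 a3))
  have hxc : x ≤ min x₄ (min x₅ x₆) := by
    rw [hx]
    exact min_le_left _ _
  have hxa : x ≤ x₄ := hxc.trans (min_le_left _ _)
  have hx5 : x ≤ x₅ := (hxc.trans (min_le_right _ _)).trans (min_le_left _ _)
  have hx6 : x ≤ x₆ := (hxc.trans (min_le_right _ _)).trans (min_le_right _ _)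
  have hxb : x ≤ min x₁ (min x₂ x₃) := by
    rw [hx]
    exact min_le_right _ _
  have hx1 : x ≤ x₁ := hxb.trans (min_le_left _ _)
  have hx2 : x ≤ x₂ := hxb.trans ((min_le_right _ _).trans (min_le_left _ _))
  have hx3 : x ≤ x₃ := hxb.trans ((min_le_right _ _).trans (min_le_right _ _))
  obtain ⟨hp4, hp5⟩ := b3 x hx3
  have hpI := b5 x hx5
  have hpJ := b6 x hx6
  have hBt := b4 x hx0 hxa S' P r P' Λ PB H₁
  have hFc' := b1 x hx0 hx1 S' P r P' Λ PB H₁
  have hLe := b2 x hx0 hx2 S' P r P' Λ PB H₁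
  have hFa := h1 hn hZ hF hTop D hD hD1 hEx S' P r P' Λ PB H₁
  rw [← hh'] at hBt hFc' hLe hp4 hp5 hFa hpI hpJ
  rw [← hh']
  have hrow := rt_def H₁.rate.lip H₁.rate.mono h
  have hVF' := noB_X hVF hi hn hZ hF hTop S' P r P' Λ PB H₁ h hh hh1 _ (H₁.rle h) hrow
  have hTw' := hTw hi hn hZ hF hTop S' P r P' Λ PB H₁ h hh hh1 _ (H₁.rle h) hrow
  have hTd := noB_td hn4 hTs hi hn hZ hF hTop S' P r P' Λ PB H₁ h hh hh1 _ (H₁.rle h) hrow
  -- the windows with a tie and a faster coordinate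
  have hfast : NoB H₁ hTop hF (H₁.rle h) h (FtWX FasD H₁ hTop hF) :=
    noB_fastJ hn4 hZ hh hh1 hp4 hp5 hpI hpJ hPW hEY hFc' hLe
  have hall : NoB H₁ hTop hF (H₁.rle h) h (ThW hn P P' PB) := by
    refine (((hVF'.or hTw').or hBt).or ((noB_V (P := P) (P' := P') Pool.VAS.micV hh hh1 hEA').or
      (hTd.or hfast))).mono fun o => ?_
    filter_upwards [hFa o, H₁.rwH_chg hTop hF h o, ths_all hn4 H₁ hTop hF h o,
      slN_zero H₁ hTop hF (h := h) o] with g k1 k2 k3 k4 R hX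
    by_cases hf : FasU n hn P P' PB o g
    · exact Or.inl (Or.inl (Or.inl ⟨hX, hf⟩))
    by_cases hO : OneS n (slo H₁ hTop hF o g)
    swap
    · exact Or.inl (Or.inl (Or.inr ⟨hX, hO⟩))
    have hON := (oneN_iff H₁ hTop hF o g).2 hO
    have hC : OneC n (slo H₁ hTop hF o g) (deriv (fun a => P a a) g) :=
      ⟨by
        have := hX.1
        rwa [slN_tar] at this, hO⟩
    by_cases hD' : DiffS hn P P' o g
    swap
    · obtain ⟨e4, e12⟩ := not_diffS hn4 hD'
      refine Or.inl (Or.inr ⟨hX, hON, k3 (k2 R) hON, e4, e12, ?_⟩)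
      by_contra hlt
      push Not at hlt
      refine hf ⟨fun l hl => ?_, fun hOD => hD' hOD.2⟩
      have h11 : l = 0 ∨ l = 1 ∨ l = 2 := by omega
      rcases h11 with rfl | rfl | rfl
      · rw [k4 (k2 R)]
        exact hX.1
      · exact hlt
      · rw [← e12]
        exact hlt
    by_cases hti : TiW hn P P' o g
    · by_cases hA : TopA n (slo H₁ hTop hF o g) (deriv (fun a => P a a) g)
      · exact Or.inr (Or.inr (Or.inl ⟨hX, slLe_top hA, hti, hON, hD'⟩))
      · refine Or.inr (Or.inr (Or.inr ⟨⟨k1 (k2 R) ⟨hX, hti, hA⟩, hA⟩, ?_⟩))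
        rintro (h9 | h9)
        · obtain ⟨l, hl, he⟩ := hti
          exact absurd he (h9 l hl).ne
        · exact h9 hD'
    · exact Or.inr (Or.inl ⟨fun l hl h9 => hti ⟨l, hl, h9⟩, hC, hD'⟩)
  obtain ⟨p, hp⟩ := noB_thin hall hrow hh
  exact ⟨p, Or.inr hp⟩

end Pool.ASM
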