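import Pool.Agent.H56.ASM.Xv

/-!
# A target faster than the base: the three kinds of windows

`LVoA n`: the windows where all the slopes of the base are one. `Vo2W`: two contact coordinates and
one coordinate slower than the target; `VoDW`: one contact coordinate and two coordinates of one
slope, smaller than the slope of the target. `lVoX_U`.
-/

set_option autoImplicit false

namespace Pool.ASM

open MeasureTheory Set Filter Topology
open Pool.Agent.H49.Ent Pool.Agent.H32.Dense Pool.STK Pool.KA Pool.KSAT Pool.K2S Pool.PB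
open Pool.GEN Pool.S6C Pool.GRW Pool.PKG Pool.STAT Pool.PM Pool.R1 Pool.Z4
open Pool.ONE (LocE Ext0 Ext rowN_of_ext)
open Pool.TOP (TopS rw_all)
open Pool.LEV (Law Lv)
open Pool.STR (NumI TopW Mac StaAt IsoAt StaU1 ThinAt SteepAt Rle)
open Pool.MIC6
open Pool.OWN72 (DiffS)

/-- **Two contact coordinates and one coordinate slower than the target**, dimension four. -/
def Vo2W : WinC := fun n hn P P' _ o g => n = 4 ∧ (∀ l < n - 1, 1 ≤ slN hn P P' o l g) ∧
  ((slN hn P P' o 1 g = 1 ∧ 1 < slN hn P P' o 2 g ∧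
      slN hn P P' o 2 g < slN hn P P' o (n - 1) g) ∨
    (slN hn P P' o 2 g = 1 ∧ 1 < slN hn P P' o 1 g ∧
      slN hn P P' o 1 g < slN hn P P' o (n - 1) g))

/-- **One contact coordinate and two thin or static coordinates of one slope, smaller than the slope
of the target**, dimension four. -/
def VoDW : WinC := fun n hn P P' PB o g => n = 4 ∧ OneN hn P P' o g ∧
  (∀ l < n - 1, ThS hn P P' PB o l g) ∧ slN hn P P' o 1 g = slN hn P P' o 2 g ∧
  slN hn P P' o 2 g < slN hn P P' o (n - 1) g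

/-- **No thin windows with a target faster than the base**, except those with one contact coordinate
and different slopes: from the three kinds. -/
theorem lVoX_U {n : ℕ} (hn4 : n ≤ 4) (hVA : LVoA n) (h2 : n = 4 → LVoX Vo2W 4)
    (hD : n = 4 → LVoX VoDW 4) : LVoX FasU n := by
  intro hi hn hZ hF hTop S P r P' Λ PB H h₀ hh hh1 o
  have hA := hVA hi hn hZ hF hTop S P r P' Λ PB H h₀ hh hh1 o
  have h2' : n = 4 → ∀ᵐ g : ℝ, RwH H hTop hF h₀ o g → ThW hn P P' PB o g →
      Vo2W n hn P P' PB o g → False := by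
    intro h4
    subst h4
    exact h2 rfl hi hn hZ hF hTop S P r P' Λ PB H h₀ hh hh1 o
  have hD' : n = 4 → ∀ᵐ g : ℝ, RwH H hTop hF h₀ o g → ThW hn P P' PB o g →
      VoDW n hn P P' PB o g → False := by
    intro h4
    subst h4
    exact hD rfl hi hn hZ hF hTop S P r P' Λ PB H h₀ hh hh1 o
  have h2'' : ∀ᵐ g : ℝ, n = 4 → RwH H hTop hF h₀ o g → ThW hn P P' PB o g →
      Vo2W n hn P P' PB o g → False := by
    by_cases h4 : n = 4
    · exact (h2' h4).mono fun _ h _ => h
    · exact Eventually.of_forall fun _ h => absurd h h4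
  have hD'' : ∀ᵐ g : ℝ, n = 4 → RwH H hTop hF h₀ o g → ThW hn P P' PB o g →
      VoDW n hn P P' PB o g → False := by
    by_cases h4 : n = 4
    · exact (hD' h4).mono fun _ h _ => h
    · exact Eventually.of_forall fun _ h => absurd h h4
  filter_upwards [hA, h2'', hD'', ths_all hn4 H hTop hF h₀ o, slN_zero H hTop hF (h := h₀) o,
    H.dia_all H.pble hTop hF] with g k1 k2 k3 k4 k5 k6 R hx hy
  have ho := R.rwd.mem
  have s0 := k5 R
  have hone : ∀ l < n - 1, 1 ≤ slN hn P P' o l g := fun l hl => by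
    obtain ⟨α, Q, c, F⟩ := H.toPk.fac hTop hF ho
    obtain ⟨d1, d2, d3⟩ := k6 o ho l hl.le
    have hlt : LvL hn P P' o l g g < 1 := by
      obtain ⟨E, hE, h4, -⟩ := F.ptD H.toPk
      have h5 := h4 l (by omega)
      have h6 : LvL hn P P' o l g g = Pool.ISO.lvN (P' o.2) (cc hn o.1.1) (n - 1) P l g g := rfl
      rw [h6]
      linarith
    rw [slN_lvl o hl.le]
    exact one_le_slope (H.lawL o l) F.g0 F.g1 hlt d1
  obtain ⟨hfas, hnd⟩ := hy
  by_cases hall : ∀ l < n - 1, slN hn P P' o l g = 1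
  · exact k1 R hx fun i => by
      rw [slo_slN]
      exact hall i i.2
  push Not at hall
  obtain ⟨a, ha, hane⟩ := hall
  have ha1 : 1 < slN hn P P' o a g := lt_of_le_of_ne (hone a ha) (Ne.symm hane)
  have ha0 : a ≠ 0 := by
    rintro rfl
    exact hane s0
  by_cases hO : OneN hn P P' o g
  · have hnD : ¬ DiffS hn P P' o g := fun hD => hnd ⟨hO, hD⟩
    obtain ⟨e4, e12⟩ := not_diffS hn4 hnD
    exact k3 e4 R hx ⟨e4, hO, k4 R hO, e12, hfas 2 (by omega)⟩
  · unfold OneN at hO
    push Not at hO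
    obtain ⟨b, hb1, hb, hb2⟩ := hO
    have hbe : slN hn P P' o b g = 1 := le_antisymm hb2 (hone b hb)
    have hab : a ≠ b := by
      rintro rfl
      linarith
    have h4 : n = 4 := by omega
    refine k2 h4 R hx ⟨h4, hone, ?_⟩
    have hc : (b = 1 ∧ a = 2) ∨ (b = 2 ∧ a = 1) := by omega
    rcases hc with ⟨rfl, rfl⟩ | ⟨rfl, rfl⟩
    · exact Or.inl ⟨hbe, ha1, hfas 2 ha⟩
    · exact Or.inr ⟨hbe, ha1, hfas 1 ha⟩

end Pool.ASM
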