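import Pool.Agent.H56.ASM.Xw
import Pool.Agent.H56.ASM.Sk30

/-!
# A target faster than the base: no boxes

`LNoX X n`: the thin windows in `X` have no boxes, for all packages (a weaker form of `LVoX X n`).
`lNoX_U`: the windows `FasU` from the three kinds. `lNoD_ex`: a tie of the base below the target, from
exactness. The parts of `KP 4` which use `LVoX FasU`, with `LNoX FasU`.
-/

set_option autoImplicit false

namespace Pool.ASM

open MeasureTheory Set Filter Topology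
open Pool.Agent.H49.Ent Pool.Agent.H32.Dense Pool.STK Pool.KA Pool.KSAT Pool.K2S Pool.PB
open Pool.GEN Pool.S6C Pool.GRW Pool.PKG Pool.STAT Pool.PM Pool.R1 Pool.Z4
open Pool.ONE (LocE Ext0 Ext rowN_of_ext)
open Pool.TOP (TopS rw_all)
open Pool.LEV (Law Lv)
open Pool.STR (NumI TopW Mac StaAt IsoAt StaU1 ThinAt SteepAt Rle)
open Pool.MIC6
open Pool.ZFN (RgUp)
open Pool.SW (TopC NtO OneS NoTie Rgh Xa TieO NtP TopP LowT DifT)
open Pool.OWN72 (DiffS)
open Pool.MV (DfO NvU nore_ind8P mevY_of exch_l)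

/-- **The thin windows in** `X` **have no boxes**, for all packages. -/
def LNoX (X : WinC) (n : ℕ) : Prop :=
  AllP n fun {hn} {_} {P} {_} {P'} {_} {PB} {_} H hTop hF h hρ =>
    NoB H hTop hF hρ h fun o g => ThW hn P P' PB o g ∧ X n hn P P' PB o g

theorem LVoX.n {X : WinC} {n : ℕ} (h : LVoX X n) : LNoX X n := noB_X h

theorem lTvA_N {X : WinC} {n : ℕ} (h1 : LNoX X n) (h2 : LTvX X n) : LTvA n := by
  intro hi hn hZ hF hTop S P r P' Λ PB H h hh hh1 ρ hρ hrow
  refine ((h1 hi hn hZ hF hTop S P r P' Λ PB H h hh hh1 ρ hρ hrow).or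
    (h2 hi hn hZ hF hTop S P r P' Λ PB H h hh hh1 ρ hρ hrow)).mono fun o =>
      Eventually.of_forall fun g _ hx => ?_
  by_cases hf : X n hn P P' PB o g
  · exact Or.inl ⟨hx.1, hf⟩
  · exact Or.inr ⟨hx, hf⟩

theorem lTp2A_N {X : WinC} {n : ℕ} (h1 : LNoX X n) (h2 : LTp2X X n) : LTp2A n := by
  intro hi hn hZ hF hTop S P r P' Λ PB H h hh hh1 ρ hρ hrow
  refine ((h1 hi hn hZ hF hTop S P r P' Λ PB H h hh hh1 ρ hρ hrow).or
    (h2 hi hn hZ hF hTop S P r P' Λ PB H h hh hh1 ρ hρ hrow)).mono fun o =>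
      Eventually.of_forall fun g _ hx => ?_
  by_cases hf : X n hn P P' PB o g
  · exact Or.inl ⟨hx.1, hf⟩
  · exact Or.inr ⟨hx, hf⟩

/-- **The windows** `FasU` **have no boxes**: from the three kinds. -/
theorem lNoX_U {n : ℕ} (hn4 : n ≤ 4) (hVA : LVoA n) (h2 : n = 4 → LNoX Vo2W 4)
    (hD : n = 4 → LNoX VoDW 4) : LNoX FasU n := by
  intro hi hn hZ hF hTop S P r P' Λ PB H h hh hh1 ρ hρ hrow
  have hA : NoB H hTop hF hρ h fun o g => ThW hn P P' PB o g ∧ ∀ i, slo H hTop hF o g i = 1 := by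
    refine noB_false fun o => ?_
    filter_upwards [hVA hi hn hZ hF hTop S P r P' Λ PB H (h / 2) (by linarith) (by linarith) o,
      rwH_rho H hTop hF hρ (h' := h / 2) (by linarith) hrow o] with g k1 k2 R hx
    exact k1 (k2 R) hx.1 hx.2
  have h2' : NoB H hTop hF hρ h fun o g => n = 4 ∧ ThW hn P P' PB o g ∧ Vo2W n hn P P' PB o g := by
    by_cases h4 : n = 4
    · subst h4
      exact (h2 rfl hi hn hZ hF hTop S P r P' Λ PB H h hh hh1 ρ hρ hrow).mono fun o =>
        Eventually.of_forall fun g _ hx => hx.2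
    · exact noB_false fun o => Eventually.of_forall fun g _ hx => h4 hx.1
  have hD' : NoB H hTop hF hρ h fun o g => n = 4 ∧ ThW hn P P' PB o g ∧ VoDW n hn P P' PB o g := by
    by_cases h4 : n = 4
    · subst h4
      exact (hD rfl hi hn hZ hF hTop S P r P' Λ PB H h hh hh1 ρ hρ hrow).mono fun o =>
        Eventually.of_forall fun g _ hx => hx.2
    · exact noB_false fun o => Eventually.of_forall fun g _ hx => h4 hx.1
  refine ((hA.or h2').or hD').mono fun o => ?_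
  filter_upwards [ths_all hn4 H hTop hF (h / 2) o, slN_zero H hTop hF (h := h / 2) o,
    H.dia_all H.pble hTop hF, rwH_rho H hTop hF hρ (h' := h / 2) (by linarith) hrow o]
    with g k4 k5 k6 k7 R' hxy
  have R := k7 R'
  obtain ⟨hx, hy⟩ := hxy
  have ho := R.rwd.mem
  have s0 := k5 R
  have hone : ∀ l < n - 1, 1 ≤ slN hn P P' o l g := fun l hl => by
    obtain ⟨α, Q, c, F⟩ := H.toPk.fac hTop hF ho
    obtain ⟨d1, d2, d3⟩ := k6 o ho l hl.le
    have hlt : LvL hn P P' o l g g < 1 := by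
      obtain ⟨E, hE, h4, -⟩ := F.ptD H.toPk
      have h5 := h4 l (by omega)
      have h6 : LvL hn P P' o l g g = Pool.ISO.lvN (P' o.2) (cc hn o.1.1) (n - 1) P l g g := rfl
      rw [h6]
      linarith
    rw [slN_lvl o hl.le]
    exact one_le_slope (H.lawL o l) F.g0 F.g1 hlt d1
  obtain ⟨hfas, hnd⟩ := hy
  by_cases hall : ∀ l < n - 1, slN hn P P' o l g = 1
  · refine Or.inl (Or.inl ⟨hx, fun i => ?_⟩)
    rw [slo_slN]
    exact hall i i.2
  push Not at hall
  obtain ⟨a, ha, hane⟩ := hall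
  have ha1 : 1 < slN hn P P' o a g := lt_of_le_of_ne (hone a ha) (Ne.symm hane)
  have ha0 : a ≠ 0 := by
    rintro rfl
    exact hane s0
  by_cases hO : OneN hn P P' o g
  · have hnD : ¬ DiffS hn P P' o g := fun hD => hnd ⟨hO, hD⟩
    obtain ⟨e4, e12⟩ := not_diffS hn4 hnD
    exact Or.inr ⟨e4, hx, ⟨e4, hO, k4 R hO, e12, hfas 2 (by omega)⟩⟩
  · unfold OneN at hO
    push Not at hO
    obtain ⟨b, hb1, hb, hb2⟩ := hO
    have hbe : slN hn P P' o b g = 1 := le_antisymm hb2 (hone b hb)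
    have hab : a ≠ b := by
      rintro rfl
      linarith
    have h4 : n = 4 := by omega
    refine Or.inl (Or.inr ⟨h4, hx, h4, hone, ?_⟩)
    have hc : (b = 1 ∧ a = 2) ∨ (b = 2 ∧ a = 1) := by omega
    rcases hc with ⟨rfl, rfl⟩ | ⟨rfl, rfl⟩
    · exact Or.inl ⟨hbe, ha1, hfas 2 ha⟩
    · exact Or.inr ⟨hbe, ha1, hfas 1 ha⟩

/-- **The thin windows with a tie of the base below the target have no boxes**, if there is
exactness. -/
theorem lNoD_ex {n : ℕ} (hn4 : n ≤ 4)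
    (hE : AllP n fun {hn} {_} {P} {_} {P'} {_} {PB} {_} H hTop hF h hρ =>
      ExY H hTop hF hρ h fun o g => ThW hn P P' PB o g ∧ VoDW n hn P P' PB o g) :
    LNoX VoDW n := by
  intro hi hn hZ hF hTop S P r P' Λ PB H h hh hh1 ρ hρ hrow
  have h1 := (hE hi hn hZ hF hTop S P r P' Λ PB H h hh hh1 ρ hρ hrow).exB hn4 hZ
  refine (noB_V (P := P) Pool.VAS.micV hh hh1 h1).mono fun o => ?_
  filter_upwards [slN_zero H hTop hF (h := h / 2) o,
    rwH_rho H hTop hF hρ (h' := h / 2) (by linarith) hrow o] with g k1 k2 R hx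
  refine ⟨fun l hl he => ?_, hx⟩
  obtain ⟨hth, h4, hone, hths, h12, h2n⟩ := hx
  have hc : l = 0 ∨ l = 1 ∨ l = 2 := by omega
  rcases hc with rfl | rfl | rfl
  · rw [k1 (k2 R)] at he
    exact absurd hth.1 (by rw [← he]; exact lt_irrefl _)
  · rw [h12] at he
    exact absurd h2n (by rw [he]; exact lt_irrefl _)
  · exact absurd h2n (by rw [he]; exact lt_irrefl _)

/-- **No boxes without ties** at the windows with one contact coordinate and with the ties of the
base below the target, for all packages. -/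
theorem vAll_nN {n : ℕ} (hn4 : n ≤ 4) (h1 : LNoX FasU n)
    (hi : ∀ k, 2 ≤ k → k < n → Ext0 k)
    (hn : 2 ≤ n) (hZ : ∀ k, 1 ≤ k → k < n → FZX k) (hF : FZX (n - 1)) (hTop : TopS n) :
    VAll hn hTop hF (NtP n) := by
  intro S P r P' Λ PB H h h0 h1' ρ hρ hrow hW
  have h3 := (exY_KE (H := H) hTop hF hρ hn4 h).exB hn4 hZ
  have h4 := h1 hi hn hZ hF hTop S P r P' Λ PB H h h0 h1' ρ hρ hrow
  obtain ⟨p, hp⟩ := NoB.noBS (h := h) ((((noB_D (H := H) (hρ := hρ) (h := h)).or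
    (noB_S (hρ := hρ) (h := h))).or ((noB_V (P := P) Pool.VAS.micV h0 h1' h3).or h4)).mono
    fun o => by
      filter_upwards [hW o, H.mac_all H.pble hTop hF,
        NumI.rwD_chg (nk := H.nk hTop hF) hρ H.up (H.tgs.law ()) o,
        slN_zero H hTop hF (h := h / 2) o,
        rwH_rho H hTop hF hρ (h' := h / 2) (by linarith) hrow o] with g k1 k2 k3 k4 k5 R _
      obtain ⟨-, ⟨h5, h6⟩, h6'⟩ := k1 R
      rcases le_or_gt (slN hn P P' o (n - 1) g) 1 with h7 | h7
      · exact Or.inl (Or.inl (Or.inl h7))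
      rcases k2 o (k3 R).mem with h8 | h8
      swap
      · exact Or.inl (Or.inr h8)
      by_cases hD : DiffS hn P P' o g
      · exact Or.inr (Or.inl ⟨noTie_ntW H h5, ⟨by rwa [slN_tar] at h7, h6⟩, hD⟩)
      · obtain ⟨e4, e12⟩ := not_diffS hn4 hD
        refine Or.inr (Or.inr ⟨⟨h7, h8⟩, fun l hl => ?_, fun hOD => hD hOD.2⟩)
        have h9 := h6' ⟨1, by omega⟩ ⟨2, by omega⟩ le_rfl (by show (1 : ℕ) ≤ 2; omega)
          (fun h => by
            have := congrArg Fin.val h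
            simp at this) (by
            rw [slo_slN, slo_slN]
            exact e12)
        rw [slo_slN] at h9
        have h10 : slN hn P P' o 1 g < slN hn P P' o (n - 1) g := by
          rw [slN_tar]
          exact h9
        have h11 : l = 0 ∨ l = 1 ∨ l = 2 := by omega
        rcases h11 with rfl | rfl | rfl
        · rw [k4 (k5 R)]
          exact h7
        · exact h10
        · rw [← e12]
          exact h10) hrow h0
  exact ⟨p, Or.inr hp⟩

/-- **No boxes at the windows** `TnP`, for all packages. -/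
theorem vAll_tnN {n : ℕ} (hn4 : n ≤ 4) (h1 : LNoX FasU n) (hT : n = 4 → LTsA n)
    (hi : ∀ k, 2 ≤ k → k < n → Ext0 k)
    (hn : 2 ≤ n) (hZ : ∀ k, 1 ≤ k → k < n → FZX k) (hF : FZX (n - 1)) (hTop : TopS n) :
    VAll hn hTop hF (TnP n) := by
  intro S P r P' Λ PB H h h0 h1' ρ hρ hrow hW
  have h3 := (exY_KE (H := H) hTop hF hρ hn4 h).exB hn4 hZ
  have h4 := h1 hi hn hZ hF hTop S P r P' Λ PB H h h0 h1' ρ hρ hrow
  have h5 := noB_td hn4 hT hi hn hZ hF hTop S P r P' Λ PB H h h0 h1' ρ hρ hrow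
  obtain ⟨p, hp⟩ := NoB.noBS (h := h) (((noB_S (H := H) (hρ := hρ) (h := h)).or
    ((noB_V (P := P) Pool.VAS.micV h0 h1' h3).or (h4.or h5))).mono
    fun o => by
      filter_upwards [hW o, H.mac_all H.pble hTop hF,
        NumI.rwD_chg (nk := H.nk hTop hF) hρ H.up (H.tgs.law ()) o,
        slN_zero H hTop hF (h := h / 2) o,
        rwH_rho H hTop hF hρ (h' := h / 2) (by linarith) hrow o] with g k1 k2 k3 k4 k5 R _
      obtain ⟨-, h7', hO, hor, hlow⟩ := k1 R
      have h7 : 1 < slN hn P P' o (n - 1) g := by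
        rw [slN_tar]
        exact h7'
      rcases k2 o (k3 R).mem with h8 | h8
      swap
      · exact Or.inl h8
      by_cases hD : DiffS hn P P' o g
      · by_cases hti : TiW hn P P' o g
        · refine Or.inr (Or.inr (Or.inr ⟨⟨h7, h8⟩, ?_, hti, (oneN_iff H hTop hF o g).2 hO, hD⟩))
          rcases hor with hnt | hle
          · obtain ⟨l, hl, he⟩ := hti
            exfalso
            have h9 := noTie_ntW H hnt.1
            exact h9 l hl he
          · exact slLe_top (H := H) (hTop := hTop) (hF := hF) ⟨h7', hle⟩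
        · exact Or.inr (Or.inl ⟨fun l hl h9 => hti ⟨l, hl, h9⟩, ⟨h7', hO⟩, hD⟩)
      · obtain ⟨e4, e12⟩ := not_diffS hn4 hD
        refine Or.inr (Or.inr (Or.inl ⟨⟨h7, h8⟩, fun l hl => ?_, fun hOD => hD hOD.2⟩))
        have h9 := hlow ⟨1, by omega⟩ ⟨2, by omega⟩ le_rfl (by show (1 : ℕ) ≤ 2; omega)
          (fun h => by
            have := congrArg Fin.val h
            simp at this) (by
            rw [slo_slN, slo_slN]
            exact e12)
        rw [slo_slN] at h9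
        have h10 : slN hn P P' o 1 g < slN hn P P' o (n - 1) g := by
          rw [slN_tar]
          exact h9
        have h11 : l = 0 ∨ l = 1 ∨ l = 2 := by omega
        rcases h11 with rfl | rfl | rfl
        · rw [k4 (k5 R)]
          exact h7
        · exact h10
        · rw [← e12]
          exact h10) hrow h0
  exact ⟨p, Or.inr hp⟩


/-- **The ties of the base** from the two cases. -/
theorem lBtE_24N {n : ℕ} (hn4 : n ≤ 4) (h1 : LNoX FasU n) (hT : n = 4 → LTsA n) (h2 : LBt2 n)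
    (h4 : LBt4 n) : LBtE n := fun hi => by
  refine ((h2 hi).and ((h4 hi).and (Tol.le (1 / 2) (by norm_num)))).mono fun η hη => ?_
  obtain ⟨hη2, hη4, h5⟩ := hη
  intro hn hZ hF hTop D hD hD1 hEx
  have e1 := h5 D hD
  obtain ⟨x₂, a2, b2⟩ := hη2 hn hZ hF hTop D hD hD1 hEx
  obtain ⟨x₄, a4, b4⟩ := hη4 hn hZ hF hTop D hD hD1 hEx
  refine ⟨min x₂ x₄, lt_min a2 a4, fun x h3 h3' S P r P' Λ PB H => ?_⟩
  have hV := vAll_tnN hn4 h1 hT hi hn hZ hF hTop
  have hW := rw_all hZ fun k k1 k2 => rowN_of_ext (hi k k1 k2)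
  refine ((b2 x h3 (h3'.trans (min_le_left _ _)) S P r P' Λ PB H).or
    (b4 x h3 (h3'.trans (min_le_right _ _)) S P r P' Λ PB H)).mono fun o => ?_
  filter_upwards [bti_exch H hTop (hZ 1 le_rfl (by omega)) hF hW hV
    (h := (1 - η D) * D) (mul_nonneg (by linarith) hD.le) o,
    H.rwH_chg hTop hF ((1 - η D) * D) o] with g k1 k2 R hX
  exact k1 (k2 R) hX

/-- **No boxes** from their parts, `n ≥ 3`. -/
theorem lBs_N {n : ℕ} (hn4 : n ≤ 4) (hVF : LNoX FasU n) (hTw : LTwA n)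
    (hTs : n = 4 → LTsA n) (hBt : n = 4 → LBtE n)
    (hFP : LFastV FasD n) : LBs n := fun hi => by
  have hBt' : Tol fun η => AllX n η fun {hn} {_} {P} {_} {P'} {_} {PB} H hTop hF h _ =>
      NoB H hTop hF (H.rle h) h (BtiW hn P P' PB) := by
    by_cases h4 : n = 4
    · exact hBt h4 hi
    · refine Tol.of_all fun η h0 _ => ?_
      intro hn hZ hF hTop D hD hD1 hE
      refine ⟨(1 + η D) * D + 1, by linarith, fun x hx hx' S P r P' Λ PB H => ?_⟩
      exact noB_false fun o => Eventually.of_forall fun g _ hX => h4 hX.four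
  refine ((lFaW_ths hn4 (fun _ => lCellA_one n |>.f)
    (fun h4 => (Pool.C2T.lCellA_one_thin (by omega)).f)
    (fun h4 => (lCellA_sta (by omega)).f) hi).and (hBt'.and
    (((Pool.ORD65.lFc_le (n := n) hn4).x (X := FasD) hi).and ((hFP hi).and
    ((tol_micX (n := n - 1 + 1) (B₀ := n + 2) (by omega) (by omega)).and
      ((tol_micI (n := n - 1 + 1) (B₀ := n + 2) (by omega) (by omega)).and
      ((tol_micJ Pool.P4J.p4j (n := n - 1 + 1) (B₀ := n + 2) (by omega) (by omega)).and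
      ((tol_micJ2 Pool.P4J.p4j2 (n := n - 1 + 1) (B₀ := n + 2) (by omega) (by omega)).and
      (Tol.le (1 / 2) (by norm_num)))))))))).mono fun η h => ?_
  obtain ⟨h1, h2, h3, h4, h6, h7, h8, h9, h5⟩ := h
  intro hn hZ hF hTop D hD hD1 hEx S P r P' Λ PB H
  have e1 := h5 D hD
  obtain ⟨h, hh'⟩ : ∃ h, h = (1 - η D) * D := ⟨_, rfl⟩
  have hh : 0 < h := by
    rw [hh']
    exact mul_pos (by linarith) hD
  have hh1 : h ≤ 1 := by
    rw [hh']
    nlinarith
  obtain ⟨S', PW, H₁, hPW⟩ := H.subW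
  have hEY₀ : ExY H₁ hTop hF (H₁.rle h) h fun o g =>
      OneC n (slo H₁ hTop hF o g) (deriv (fun a => P a a) g) ∧ DiffS hn P P' o g :=
    exY_KE hTop hF (H₁.rle h) hn4 h
  have hEY : ExY H₁ hTop hF (H₁.rle h) h (ExWX FasD H₁ hTop hF) := by
    refine hEY₀.mono fun o => Eventually.of_forall fun g _ hX => ⟨hX.2.1, ?_⟩
    by_contra hD'
    exact hX.2.2 (Or.inr hD')
  have hEA' := hEY₀.exB hn4 hZ
  obtain ⟨x₄, a4, b4⟩ := h2 hn hZ hF hTop D hD hD1 hEx
  obtain ⟨x₁, a1, b1⟩ := h3 hn hZ hF hTop D hD hD1 hEx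
  obtain ⟨x₂, a2, b2⟩ := h4 hn hZ hF hTop D hD hD1 hEx
  obtain ⟨x₃, a3, b3⟩ := h6 D hD hD1
  obtain ⟨x₅, a5, b5⟩ := h7 D hD hD1
  obtain ⟨x₆, a6, b6⟩ := h8 D hD hD1
  obtain ⟨x₇, a7, b7⟩ := h9 D hD hD1
  obtain ⟨x, hx⟩ : ∃ x, x = min (min (min x₇ x₄) (min x₅ x₆)) (min x₁ (min x₂ x₃)) := ⟨_, rfl⟩
  have hx0 : (1 + η D) * D < x := by
    rw [hx]
    exact lt_min (lt_min (lt_min a7 a4) (lt_min a5 a6)) (lt_min a1 (lt_min a2 a3))
  have hxc : x ≤ min (min x₇ x₄) (min x₅ x₆) := by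
    rw [hx]
    exact min_le_left _ _
  have hxa : x ≤ x₄ := (hxc.trans (min_le_left _ _)).trans (min_le_right _ _)
  have hx7 : x ≤ x₇ := (hxc.trans (min_le_left _ _)).trans (min_le_left _ _)
  have hx5 : x ≤ x₅ := (hxc.trans (min_le_right _ _)).trans (min_le_left _ _)
  have hx6 : x ≤ x₆ := (hxc.trans (min_le_right _ _)).trans (min_le_right _ _)
  have hxb : x ≤ min x₁ (min x₂ x₃) := by
    rw [hx]
    exact min_le_right _ _
  have hx1 : x ≤ x₁ := hxb.trans (min_le_left _ _)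
  have hx2 : x ≤ x₂ := hxb.trans ((min_le_right _ _).trans (min_le_left _ _))
  have hx3 : x ≤ x₃ := hxb.trans ((min_le_right _ _).trans (min_le_right _ _))
  obtain ⟨hp4, hp5⟩ := b3 x hx3
  have hpI := b5 x hx5
  have hpJ := b6 x hx6
  have hpK := b7 x hx7
  have hBt := b4 x hx0 hxa S' P r P' Λ PB H₁
  have hFc' := b1 x hx0 hx1 S' P r P' Λ PB H₁
  have hLe := b2 x hx0 hx2 S' P r P' Λ PB H₁
  have hFa := h1 hn hZ hF hTop D hD hD1 hEx S' P r P' Λ PB H₁
  rw [← hh'] at hBt hFc' hLe hp4 hp5 hFa hpI hpJ hpK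
  rw [← hh']
  have hrow := rt_def H₁.rate.lip H₁.rate.mono h
  have hVF' := hVF hi hn hZ hF hTop S' P r P' Λ PB H₁ h hh hh1 _ (H₁.rle h) hrow
  have hTw' := hTw hi hn hZ hF hTop S' P r P' Λ PB H₁ h hh hh1 _ (H₁.rle h) hrow
  have hTd := noB_td hn4 hTs hi hn hZ hF hTop S' P r P' Λ PB H₁ h hh hh1 _ (H₁.rle h) hrow
  -- the windows with a tie and a faster coordinate
  have hfast : NoB H₁ hTop hF (H₁.rle h) h (FtWX FasD H₁ hTop hF) :=
    noB_fastJ2 hn4 hZ hh hh1 hp4 hp5 hpI hpJ hpK hPW hEY hFc' hLe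
  have hall : NoB H₁ hTop hF (H₁.rle h) h (ThW hn P P' PB) := by
    refine (((hVF'.or hTw').or hBt).or ((noB_V (P := P) (P' := P') Pool.VAS.micV hh hh1 hEA').or
      (hTd.or hfast))).mono fun o => ?_
    filter_upwards [hFa o, H₁.rwH_chg hTop hF h o, ths_all hn4 H₁ hTop hF h o,
      slN_zero H₁ hTop hF (h := h) o] with g k1 k2 k3 k4 R hX
    by_cases hf : FasU n hn P P' PB o g
    · exact Or.inl (Or.inl (Or.inl ⟨hX, hf⟩))
    by_cases hO : OneS n (slo H₁ hTop hF o g)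
    swap
    · exact Or.inl (Or.inl (Or.inr ⟨hX, hO⟩))
    have hON := (oneN_iff H₁ hTop hF o g).2 hO
    have hC : OneC n (slo H₁ hTop hF o g) (deriv (fun a => P a a) g) :=
      ⟨by
        have := hX.1
        rwa [slN_tar] at this, hO⟩
    by_cases hD' : DiffS hn P P' o g
    swap
    · obtain ⟨e4, e12⟩ := not_diffS hn4 hD'
      refine Or.inl (Or.inr ⟨hX, hON, k3 (k2 R) hON, e4, e12, ?_⟩)
      by_contra hlt
      push Not at hlt
      refine hf ⟨fun l hl => ?_, fun hOD => hD' hOD.2⟩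
      have h11 : l = 0 ∨ l = 1 ∨ l = 2 := by omega
      rcases h11 with rfl | rfl | rfl
      · rw [k4 (k2 R)]
        exact hX.1
      · exact hlt
      · rw [← e12]
        exact hlt
    by_cases hti : TiW hn P P' o g
    · by_cases hA : TopA n (slo H₁ hTop hF o g) (deriv (fun a => P a a) g)
      · exact Or.inr (Or.inr (Or.inl ⟨hX, slLe_top hA, hti, hON, hD'⟩))
      · refine Or.inr (Or.inr (Or.inr ⟨⟨k1 (k2 R) ⟨hX, hti, hA⟩, hA⟩, ?_⟩))
        rintro (h9 | h9)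
        · obtain ⟨l, hl, he⟩ := hti
          exact absurd he (h9 l hl).ne
        · exact h9 hD'
    · exact Or.inr (Or.inl ⟨fun l hl h9 => hti ⟨l, hl, h9⟩, hC, hD'⟩)
  obtain ⟨p, hp⟩ := noB_thin hall hrow hh
  exact ⟨p, Or.inr hp⟩

/-- **The static chains** from their parts, `n ≥ 3`. -/
theorem lNor_N {n : ℕ} (hn4 : n ≤ 4)
    (hC : ∀ κ : List Kd, κ.length + 2 ≤ n → LCellM n (Kd.one :: κ))
    (hA : n = 4 → LV0A n) (hB : n = 4 → LV0B n) (hVF : LNoX FasU n)
    (hTs : n = 4 → LTsA n) (hM : LMevD n) : LNor n := fun hi => by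
  have hA' : Tol fun η => n = 4 → LocE n η MicRt →
      AllC n η fun {hn} {_} {P} {_} {P'} {_} {_} H hTop hF h =>
        ∀ o : Od n, ∀ᵐ g : ℝ, RwH H hTop hF h o g → 1 < deriv (fun a => P a a) g → StaAt P g →
        deriv (fun a => LL hn P P' o 2 a a) g ≤ 1 → 1 < deriv (fun a => LL hn P P' o 3 a a) g →
        StaAt (LL hn P P' o 3) g := by
    by_cases h4 : n = 4
    · exact (hA h4 hi).mono fun η h _ => h
    · exact Tol.of_all fun _ _ _ h5 => absurd h5 h4
  have hB' : Tol fun η => n = 4 → LocE n η MicRt →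
      AllC n η fun {hn} {_} {P} {_} {P'} {_} {_} H hTop hF h =>
        ∀ o : Od n, ∀ᵐ g : ℝ, RwH H hTop hF h o g → 1 < deriv (fun a => P a a) g → StaAt P g →
        deriv (fun a => LL hn P P' o 3 a a) g ≤ 1 → 1 < deriv (fun a => LL hn P P' o 2 a a) g →
        StaAt (LL hn P P' o 2) g := by
    by_cases h4 : n = 4
    · exact (hB h4 hi).mono fun η h _ => h
    · exact Tol.of_all fun _ _ _ h5 => absurd h5 h4
  refine ((two_of_cellsM hC hi).and (hA'.and (hB'.and ((hM hi).and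
    (Tol.le 1 one_pos))))).mono fun η h hMic => ?_
  obtain ⟨h1, h2, h3, h4, h6⟩ := h
  intro hn hZ hF hTop D hD hD1 hE' S P r P' Λ PB H
  have e1 := h6 D hD
  obtain ⟨Y, hY, hMev⟩ := h4 hMic hn hZ hF hTop D hD hD1 hE' S P r P' Λ PB H
  refine nore_ind8P hMic hi hn hn4 hZ hF hTop hD hD1 e1.1 e1.2 hE' H ?_ (fun o => ?_)
    (vAll_nN hn4 hVF hi hn hZ hF hTop)
    (fun _ => vAll_tP hn4 hTs hi hn hZ hF hTop)
    hY hMev
  · by_cases hn3 : n ≤ 3
    · exact v0C_three H hTop hF hn3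
    · have h7 : n = 4 := by omega
      exact v0C_four H hTop hF h7 (h2 h7 hMic hn hZ hF hTop D hD hD1 hE' S P r P' Λ PB H)
        (h3 h7 hMic hn hZ hF hTop D hD hD1 hE' S P r P' Λ PB H)
  · filter_upwards [TwoX.big (fun i a1 a2 =>
      h1 hn hZ hF hTop D hD hD1 hE' S P r P' Λ PB H i a1 (by omega)) o] with g k1 R hS hst h8
    exact k1 R (Or.inr ⟨hst, hS, h8⟩)

end Pool.ASM
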